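import Pool.Agent.H56.Sub.View

/-!
# Squad SUB, module BallC: hereditary classes are ball-closed
-/

set_option autoImplicit false

noncomputable section

open scoped Classical

namespace Pool.Agent.H56.Sub

section BallC

theorem Rooted.Iso.symm' {L : Type} {X Y : Rooted L} (h : X.Iso Y) : Y.Iso X := by
  obtain ⟨e, he, hl⟩ := h
  refine ⟨e.symm, ?_, fun v => ?_⟩
  · rw [← he, e.symm_apply_apply]
  · rw [← hl, e.apply_symm_apply]

theorem IsHereditary.ballClosed {F : Set FinGraph} (hF : IsHereditary F) : BallClosed F := by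
  refine ⟨hF.1, ?_⟩
  intro X hX v r m hm hmn
  have hc : (bl X.G v r).toFinset.card ≤ m := by
    rw [← Set.ncard_eq_toFinset_card']
    exact hm
  obtain ⟨W, hW1, hW2⟩ := Finset.exists_superset_card_eq hc hmn
  have hsub : ∀ u, X.G.edist v u ≤ r → u ∈ (W : Set X.V) := by
    intro u hu
    exact hW1 (Set.mem_toFinset.2 hu)
  have hv : v ∈ (W : Set X.V) := hsub v (by simp)
  refine ⟨X.sub (W : Set X.V), hF.2 X hX _, ?_, ⟨v, hv⟩, ?_⟩
  · unfold FinGraph.n
    rw [← Nat.card_eq_fintype_card]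
    change Nat.card (W : Set X.V) = m
    rw [Nat.card_coe_set_eq, Set.ncard_coe_finset, hW2]
  · exact Rooted.Iso.symm' (view_iso_sub X.G (W : Set X.V) ⟨v, hv⟩ r hsub fun _ => ())

end BallC

end Pool.Agent.H56.Sub
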