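import Pool.Agent.H56.Sub.Defs

/-!
# Balls and agreement
-/

set_option autoImplicit false

noncomputable section

open scoped Classical

namespace Pool.Agent.H56.Sub

variable {V Λ Ω : Type}

theorem mem_bl {G : SimpleGraph V} {v u : V} {r : ℕ} : u ∈ bl G v r ↔ G.edist v u ≤ r := Iff.rfl

theorem bl_mono {G : SimpleGraph V} {v : V} {r s : ℕ} (h : r ≤ s) : bl G v r ⊆ bl G v s := by
  intro u hu
  exact le_trans (mem_bl.1 hu) (by exact_mod_cast h)

/-- The ball of radius `n + 1`. -/
theorem edist_le_succ_iff (G : SimpleGraph V) (v u : V) (n : ℕ) :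
    G.edist v u ≤ ((n + 1 : ℕ) : ℕ∞) ↔ u = v ∨ ∃ w, G.edist v w ≤ n ∧ G.Adj w u := by
  constructor
  · intro h
    have h1 : G.edist v u ≠ ⊤ := ne_top_of_le_ne_top (ENat.natCast_ne_top _) h
    obtain ⟨p, hp⟩ := SimpleGraph.exists_walk_of_edist_ne_top h1
    have h2 : p.reverse.length ≤ n + 1 := by
      rw [SimpleGraph.Walk.length_reverse]
      rw [← hp] at h
      exact_mod_cast h
    generalize p.reverse = q at h2
    cases q with
    | nil => exact Or.inl rfl
    | cons hadj q =>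
      rename_i w
      refine Or.inr ⟨w, ?_, hadj.symm⟩
      have h3 : G.edist w v ≤ q.length := SimpleGraph.edist_le q
      rw [SimpleGraph.edist_comm] at h3
      refine h3.trans ?_
      rw [SimpleGraph.Walk.length_cons] at h2
      exact_mod_cast (by omega : q.length ≤ n)
  · rintro (rfl | ⟨w, hw, hadj⟩)
    · rw [SimpleGraph.edist_self]
      exact zero_le
    · have h1 : G.edist w u = 1 := SimpleGraph.edist_eq_one_iff_adj.2 hadj
      calc G.edist v u ≤ G.edist v w + G.edist w u := SimpleGraph.edist_triangle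
        _ ≤ n + 1 := by rw [h1]; gcongr
        _ = ((n + 1 : ℕ) : ℕ∞) := by push_cast; rfl

/-- Agreement on a ball gives the same small balls (up to radius one larger). -/
theorem GAg.edist_iff {G H : SimpleGraph V} {v : V} {ρ r : ℕ} (h : GAg G H v ρ) (hr : r ≤ ρ + 1)
    (u : V) : G.edist v u ≤ r ↔ H.edist v u ≤ r := by
  induction r generalizing u with
  | zero =>
    simp only [Nat.cast_zero, nonpos_iff_eq_zero, SimpleGraph.edist_eq_zero_iff]
  | succ n ih =>
    rw [edist_le_succ_iff, edist_le_succ_iff]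
    refine or_congr Iff.rfl (exists_congr fun w => ?_)
    rw [← ih (by omega) w]
    constructor
    · rintro ⟨h1, h2⟩
      exact ⟨h1, (h w (h1.trans (by exact_mod_cast (by omega : n ≤ ρ))) u).1 h2⟩
    · rintro ⟨h1, h2⟩
      exact ⟨h1, (h w (h1.trans (by exact_mod_cast (by omega : n ≤ ρ))) u).2 h2⟩

theorem GAg.symm' {G H : SimpleGraph V} {v : V} {ρ : ℕ} (h : GAg G H v ρ) : GAg H G v ρ := by
  intro u hu w
  exact (h u ((h.edist_iff (by omega) u).2 hu) w).symm

theorem edist_shift {G : SimpleGraph V} {v u w : V} {ρ s : ℕ}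
    (hu : G.edist v u + (s : ℕ∞) ≤ ρ) (hw : G.edist u w ≤ s) : G.edist v w ≤ ρ :=
  calc G.edist v w ≤ G.edist v u + G.edist u w := SimpleGraph.edist_triangle
    _ ≤ G.edist v u + s := by gcongr
    _ ≤ ρ := hu

theorem GAg.shift {G H : SimpleGraph V} {v u : V} {ρ s : ℕ} (h : GAg G H v ρ)
    (hu : G.edist v u + (s : ℕ∞) ≤ ρ) : GAg G H u s :=
  fun w hw => h w (edist_shift hu hw)

theorem EqOn.shift {L : Type} {G : SimpleGraph V} {v u : V} {ρ s : ℕ} {f g : V → L}
    (h : EqOn G v ρ f g) (hu : G.edist v u + (s : ℕ∞) ≤ ρ) : EqOn G u s f g :=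
  fun w hw => h w (edist_shift hu hw)

theorem CAg.shift {T : ℕ} {G H : SimpleGraph V} {B C : (V → Ω) → V → Prop} {v u : V} {ρ s : ℕ}
    (h : CAg T G H B C v ρ) (hu : G.edist v u + (s : ℕ∞) ≤ ρ) : CAg T G H B C u s := by
  refine ⟨h.1.shift hu, fun w x y hw hxy => h.2 w x y ?_ hxy⟩
  calc G.edist v w + T ≤ G.edist v u + G.edist u w + T := by
        gcongr
        exact SimpleGraph.edist_triangle
    _ = G.edist v u + (G.edist u w + T) := add_assoc _ _ _
    _ ≤ G.edist v u + s := by gcongr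
    _ ≤ ρ := hu

theorem CAg.refl {T : ℕ} {G : SimpleGraph V} {B : (V → Ω) → V → Prop} (hB : Dep G T B) (v : V)
    (ρ : ℕ) : CAg T G G B B v ρ :=
  ⟨fun _ _ _ => Iff.rfl, fun w x y _ hxy => hB w x y hxy⟩

end Pool.Agent.H56.Sub
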