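import Pool.Agent.H56.Sub.Basics

/-!
# Squad SUB, module Clus: large clusters contain separated closed walks
-/

set_option autoImplicit false

noncomputable section

open scoped Classical

namespace Pool.Agent.H56.Sub

variable {V Λ Ω : Type}

theorem walks_card [Fintype V] {G : SimpleGraph V} {D g : ℕ} (hg : ∀ v, (bl G v D).ncard ≤ g)
    (n : ℕ) (t : V) : (walks G D n t).card ≤ g ^ n := by
  induction n generalizing t with
  | zero => simp [walks]
  | succ n ih =>
    have h1 : (Finset.univ.filter fun u => G.edist t u ≤ (D : ℕ∞)).card ≤ g := by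
      refine le_trans (le_of_eq ?_) (hg t)
      rw [← Set.ncard_coe_finset]
      congr 1
      ext v
      simp [bl]
    calc (walks G D (n + 1) t).card
        ≤ (Finset.univ.filter fun u => G.edist t u ≤ (D : ℕ∞)).card * g ^ n := by
          unfold walks
          exact Finset.card_biUnion_le_card_mul _ _ _ fun u _ =>
            (Finset.card_image_le).trans (ih u)
      _ ≤ g * g ^ n := Nat.mul_le_mul_right _ h1
      _ = g ^ (n + 1) := by ring

theorem mem_walks_succ [Fintype V] {G : SimpleGraph V} {D n : ℕ} {t : V} {l : List V} :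
    l ∈ walks G D (n + 1) t ↔ ∃ u, G.edist t u ≤ (D : ℕ∞) ∧ ∃ l1 ∈ walks G D n u, t :: l1 = l := by
  show l ∈ ((Finset.univ.filter fun u => G.edist t u ≤ (D : ℕ∞)).biUnion fun u =>
      (walks G D n u).image (List.cons t)) ↔ _
  simp only [Finset.mem_biUnion, Finset.mem_filter, Finset.mem_univ, true_and, Finset.mem_image]

theorem head_mem_walks [Fintype V] {G : SimpleGraph V} {D n : ℕ} {t : V} {l : List V}
    (hl : l ∈ walks G D n t) : t ∈ l := by
  cases n with
  | zero =>
    have : l = [t] := by simpa [walks] using hl
    rw [this]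
    simp
  | succ n =>
    obtain ⟨u, _, l1, _, rfl⟩ := mem_walks_succ.mp hl
    simp

theorem walks_insert [Fintype V] {G : SimpleGraph V} {D : ℕ} {x : V} {u : V}
    (hux : G.edist u x ≤ (D : ℕ∞)) (n : ℕ) (t : V) (l : List V) (hl : l ∈ walks G D n t)
    (hu : u ∈ l) : ∃ l' ∈ walks G D (n + 2) t, ∀ z, z ∈ l' ↔ z ∈ l ∨ z = x := by
  have hxu : G.edist x u ≤ (D : ℕ∞) := by rw [SimpleGraph.edist_comm]; exact hux
  induction n generalizing t l with
  | zero =>
    have hl' : l = [t] := by simpa [walks] using hl
    subst hl'
    have hut : u = t := by simpa using hu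
    subst hut
    refine ⟨[u, x, u], ?_, ?_⟩
    · exact mem_walks_succ.mpr ⟨x, hux, [x, u],
        mem_walks_succ.mpr ⟨u, hxu, [u], by simp [walks], rfl⟩, rfl⟩
    · intro z
      simp only [List.mem_cons, List.not_mem_nil, or_false]
      tauto
  | succ n ih =>
    by_cases hut : u = t
    · subst hut
      refine ⟨u :: x :: l, ?_, ?_⟩
      · exact mem_walks_succ.mpr ⟨x, hux, x :: l,
          mem_walks_succ.mpr ⟨u, hxu, l, hl, rfl⟩, rfl⟩
      · intro z
        simp only [List.mem_cons]
        constructor
        · rintro (h | h | h)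
          · exact Or.inl (h ▸ hu)
          · exact Or.inr h
          · exact Or.inl h
        · rintro (h | h)
          · exact Or.inr (Or.inr h)
          · exact Or.inr (Or.inl h)
    · obtain ⟨t1, ht1, l1, hl1, rfl⟩ := mem_walks_succ.mp hl
      have hu1 : u ∈ l1 := by
        rcases List.mem_cons.mp hu with h | h
        · exact absurd h hut
        · exact h
      obtain ⟨l', hl', hmem⟩ := ih t1 l1 hl1 hu1
      refine ⟨t :: l', mem_walks_succ.mpr ⟨t1, ht1, l', hl', rfl⟩, ?_⟩
      intro z
      simp only [List.mem_cons, hmem z]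
      tauto

theorem cluster [Fintype V] {G : SimpleGraph V} {A : Set V} {t : V} (ht : t ∈ A) {D0 D1 g s : ℕ}
    (hs : 1 ≤ s) (hg : ∀ v, (bl G v D1).ncard ≤ g)
    (hbig : s * g < {w | Relation.ReflTransGen (fun x y => y ∈ A ∧ G.edist x y ≤ D0) t w}.ncard) :
    ∃ l ∈ walks G (D0 + D1) (2 * (s - 1)) t, (∀ u ∈ l, u ∈ A) ∧ l.toFinset.card = s ∧
      ∀ u ∈ l, ∀ w ∈ l, u ≠ w → (D1 : ℕ∞) < G.edist u w := by
  set K : Set V := {w | Relation.ReflTransGen (fun x y => y ∈ A ∧ G.edist x y ≤ D0) t w} with hK
  have key : ∀ m, m + 1 ≤ s → ∃ l ∈ walks G (D0 + D1) (2 * m) t, (∀ u ∈ l, u ∈ A) ∧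
      l.toFinset.card = m + 1 ∧ ∀ u ∈ l, ∀ w ∈ l, u ≠ w → (D1 : ℕ∞) < G.edist u w := by
    intro m
    induction m with
    | zero =>
      intro _
      refine ⟨[t], by simp [walks], ?_, by simp, ?_⟩
      · intro u hu
        have : u = t := by simpa using hu
        rw [this]
        exact ht
      · intro u hu w hw hne
        have h1 : u = t := by simpa using hu
        have h2 : w = t := by simpa using hw
        exact absurd (h1.trans h2.symm) hne
    | succ m ih =>
      intro hm
      obtain ⟨l, hl, hlA, hcard, hsep⟩ := ih (by omega)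
      -- the set of vertices near the list
      set N : Set V := {x | ∃ u ∈ l, G.edist u x ≤ (D1 : ℕ∞)} with hN
      have hNcard : N.ncard ≤ s * g := by
        have h1 : N ⊆ ((l.toFinset.biUnion fun u =>
            Finset.univ.filter fun x => G.edist u x ≤ (D1 : ℕ∞) : Finset V) : Set V) := by
          rintro x ⟨u, hu, hx⟩
          simp only [Finset.coe_biUnion, Finset.mem_coe, List.mem_toFinset, Set.mem_iUnion]
          exact ⟨u, hu, by simpa using hx⟩
        calc N.ncard ≤ _ := Set.ncard_le_ncard h1 (Set.toFinite _)
          _ = (l.toFinset.biUnion fun u =>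
                Finset.univ.filter fun x => G.edist u x ≤ (D1 : ℕ∞)).card :=
              Set.ncard_coe_finset _
          _ ≤ l.toFinset.card * g := by
              refine Finset.card_biUnion_le_card_mul _ _ _ fun u _ => ?_
              refine le_trans (le_of_eq ?_) (hg u)
              rw [← Set.ncard_coe_finset]
              congr 1
              ext v
              simp [bl]
          _ ≤ s * g := by
              rw [hcard]
              exact Nat.mul_le_mul_right _ (by omega)
      have htN : t ∈ N := ⟨t, head_mem_walks hl, by simp⟩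
      obtain ⟨x, x', hxN, hx'N, hx'A, hxx'⟩ : ∃ x x', x ∈ N ∧ x' ∉ N ∧ x' ∈ A ∧
          G.edist x x' ≤ (D0 : ℕ∞) := by
        by_contra hno
        push Not at hno
        have hsub : K ⊆ N := by
          intro w hw
          have hw' : Relation.ReflTransGen (fun x y => y ∈ A ∧ G.edist x y ≤ D0) t w := hw
          induction hw' with
          | refl => exact htN
          | tail h1 h2 ih2 =>
            by_contra hc
            have := hno _ _ (ih2 h1) hc h2.1
            exact absurd h2.2 (not_le.mpr this)
        have h1 := Set.ncard_le_ncard hsub (Set.toFinite _)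
        omega
      obtain ⟨u, hul, hux⟩ := hxN
      have hfar : ∀ z ∈ l, (D1 : ℕ∞) < G.edist z x' := by
        intro z hz
        by_contra hc
        exact hx'N ⟨z, hz, not_lt.mp hc⟩
      have hux' : G.edist u x' ≤ ((D0 + D1 : ℕ) : ℕ∞) := by
        calc G.edist u x' ≤ G.edist u x + G.edist x x' := SimpleGraph.edist_triangle
          _ ≤ (D1 : ℕ∞) + (D0 : ℕ∞) := add_le_add hux hxx'
          _ = ((D0 + D1 : ℕ) : ℕ∞) := by push_cast; rw [add_comm]
      obtain ⟨l', hl', hmem⟩ := walks_insert hux' (2 * m) t l hl hul
      refine ⟨l', ?_, ?_, ?_, ?_⟩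
      · have h2 : 2 * (m + 1) = 2 * m + 2 := by ring
        rw [h2]
        exact hl'
      · intro z hz
        rcases (hmem z).mp hz with h | h
        · exact hlA z h
        · exact h ▸ hx'A
      · have h3 : l'.toFinset = insert x' l.toFinset := by
          ext z
          simp only [List.mem_toFinset, Finset.mem_insert, hmem z]
          tauto
        have h4 : x' ∉ l.toFinset := by
          intro h5
          have h6 := hfar x' (List.mem_toFinset.mp h5)
          rw [SimpleGraph.edist_self] at h6
          exact absurd h6 (by simp)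
        rw [h3, Finset.card_insert_of_notMem h4, hcard]
      · intro a ha b hb hab
        rcases (hmem a).mp ha with h | h <;> rcases (hmem b).mp hb with h' | h'
        · exact hsep a h b h' hab
        · rw [h']
          exact hfar a h
        · rw [h, SimpleGraph.edist_comm]
          exact hfar b h'
        · exact absurd (h.trans h'.symm) hab
  obtain ⟨l, hl, hlA, hcard, hsep⟩ := key (s - 1) (by omega)
  exact ⟨l, hl, hlA, by rw [hcard]; omega, hsep⟩

end Pool.Agent.H56.Sub
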