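import Pool.Agent.H56.Sub.Defs

/-!
# Squad SUB, module Expe: expectation and conditional probability
-/

set_option autoImplicit false

noncomputable section

open scoped Classical

namespace Pool.Agent.H56.Sub

variable {V Λ Ω : Type}

section Expe
variable [Fintype V] [Fintype Ω]

theorem card_pow_pos [Nonempty Ω] : (0 : ℝ) < (Fintype.card Ω : ℝ) ^ Fintype.card V := by
  have : (0 : ℝ) < (Fintype.card Ω : ℝ) := by exact_mod_cast Fintype.card_pos
  positivity

theorem ind_nonneg (p : Prop) : 0 ≤ ind p := by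
  unfold ind
  split_ifs <;> norm_num

theorem ind_le_one (p : Prop) : ind p ≤ 1 := by
  unfold ind
  split_ifs <;> norm_num

theorem Ex_const [Nonempty Ω] (c : ℝ) : Ex (fun _ : V → Ω => c) = c := by
  unfold Ex
  rw [Finset.sum_const, Finset.card_univ, Fintype.card_fun, nsmul_eq_mul]
  push_cast
  have := card_pow_pos (V := V) (Ω := Ω)
  field_simp

theorem Ex_mono {g h : (V → Ω) → ℝ} (H : ∀ x, g x ≤ h x) : Ex g ≤ Ex h := by
  unfold Ex
  exact div_le_div_of_nonneg_right (Finset.sum_le_sum fun x _ => H x) (by positivity)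

theorem Ex_nonneg {g : (V → Ω) → ℝ} (H : ∀ x, 0 ≤ g x) : 0 ≤ Ex g := by
  unfold Ex
  exact div_nonneg (Finset.sum_nonneg fun x _ => H x) (by positivity)

theorem Ex_mul_left (c : ℝ) (g : (V → Ω) → ℝ) : Ex (fun x => c * g x) = c * Ex g := by
  unfold Ex
  rw [← Finset.mul_sum, mul_div_assoc]

theorem Ex_add (g h : (V → Ω) → ℝ) : Ex (fun x => g x + h x) = Ex g + Ex h := by
  unfold Ex
  rw [Finset.sum_add_distrib, add_div]

theorem Ex_sum {ι : Type} (s : Finset ι) (g : ι → (V → Ω) → ℝ) :
    Ex (fun x => ∑ i ∈ s, g i x) = ∑ i ∈ s, Ex (g i) := by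
  unfold Ex
  rw [Finset.sum_comm, Finset.sum_div]

/-- Resampling the values on `S`. -/
theorem Ex_merge [Nonempty Ω] (S : Set V) (g : (V → Ω) → ℝ) :
    Ex g = Ex fun x => Ex fun y => g (fun u => if u ∈ S then y u else x u) := by
  let e : (V → Ω) × (V → Ω) ≃ (V → Ω) × (V → Ω) :=
    { toFun := fun p => (fun u => if u ∈ S then p.2 u else p.1 u,
        fun u => if u ∈ S then p.1 u else p.2 u)
      invFun := fun p => (fun u => if u ∈ S then p.2 u else p.1 u,
        fun u => if u ∈ S then p.1 u else p.2 u)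
      left_inv := by
        rintro ⟨x, y⟩
        ext u <;> simp only <;> split_ifs <;> rfl
      right_inv := by
        rintro ⟨x, y⟩
        ext u <;> simp only <;> split_ifs <;> rfl }
  have h1 : ∑ p : (V → Ω) × (V → Ω), g (e p).1 = ∑ p : (V → Ω) × (V → Ω), g p.1 :=
    Equiv.sum_comp e (fun p : (V → Ω) × (V → Ω) => g p.1)
  rw [Fintype.sum_prod_type, Fintype.sum_prod_type] at h1
  have h2 : ∑ x : V → Ω, ∑ y : V → Ω, g (fun u => if u ∈ S then y u else x u) =
      ∑ x : V → Ω, ∑ _y : V → Ω, g x := h1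
  have h3 : ∑ x : V → Ω, ∑ _y : V → Ω, g x =
      ((Fintype.card Ω : ℝ) ^ Fintype.card V) * ∑ x, g x := by
    rw [Finset.mul_sum]
    refine Finset.sum_congr rfl fun x _ => ?_
    rw [Finset.sum_const, Finset.card_univ, Fintype.card_fun, nsmul_eq_mul]
    push_cast
    rfl
  have hpos := card_pow_pos (V := V) (Ω := Ω)
  unfold Ex
  rw [← Finset.sum_div, h2, h3]
  field_simp

/-- Independence of functions of complementary sets of coordinates. -/
theorem Ex_indep [Nonempty Ω] (S : Set V) (g h : (V → Ω) → ℝ)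
    (hg : ∀ x y, (∀ u ∈ S, x u = y u) → g x = g y)
    (hh : ∀ x y, (∀ u, u ∉ S → x u = y u) → h x = h y) :
    Ex (fun x => g x * h x) = Ex g * Ex h := by
  rw [Ex_merge S]
  have h1 : ∀ x y : V → Ω, g (fun u => if u ∈ S then y u else x u) *
      h (fun u => if u ∈ S then y u else x u) = h x * g y := by
    intro x y
    rw [hg _ y (fun u hu => if_pos hu), hh _ x (fun u hu => if_neg hu), mul_comm]
  simp only [h1, Ex_mul_left]
  have h2 : (fun x : V → Ω => h x * Ex g) = fun x => Ex g * h x := by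
    funext x
    ring
  rw [h2, Ex_mul_left]

/-- The average of a function of one coordinate. -/
theorem Ex_single [Nonempty Ω] (a : V) (f : Ω → ℝ) :
    Ex (fun y : V → Ω => f (y a)) = (∑ z : Ω, f z) / (Fintype.card Ω : ℝ) := by
  have h1 : ∑ y : V → Ω, f (y a) = ∑ p : Ω × ({j // j ≠ a} → Ω), f p.1 :=
    Equiv.sum_comp (Equiv.funSplitAt a Ω) (fun p : Ω × ({j // j ≠ a} → Ω) => f p.1)
  have h2 : Fintype.card (V → Ω) = Fintype.card Ω * Fintype.card ({j // j ≠ a} → Ω) := by
    rw [Fintype.card_congr (Equiv.funSplitAt a Ω), Fintype.card_prod]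
  have h3 : (Fintype.card Ω : ℝ) ^ Fintype.card V =
      (Fintype.card Ω : ℝ) * (Fintype.card ({j // j ≠ a} → Ω) : ℝ) := by
    rw [Fintype.card_fun] at h2
    exact_mod_cast h2
  have hpos := card_pow_pos (V := V) (Ω := Ω)
  have hR : (Fintype.card ({j // j ≠ a} → Ω) : ℝ) ≠ 0 := by
    intro h0
    rw [h3, h0] at hpos
    simp at hpos
  have hO : (Fintype.card Ω : ℝ) ≠ 0 := by exact_mod_cast Fintype.card_ne_zero
  unfold Ex
  rw [h1, h3, Fintype.sum_prod_type]
  have h4 : ∑ x : Ω, ∑ _y : ({j // j ≠ a} → Ω), f x =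
      (Fintype.card ({j // j ≠ a} → Ω) : ℝ) * ∑ x, f x := by
    rw [Finset.mul_sum]
    refine Finset.sum_congr rfl fun x _ => ?_
    rw [Finset.sum_const, Finset.card_univ, nsmul_eq_mul]
  rw [h4]
  field_simp

/-- Independence of distinct coordinates. -/
theorem Ex_prod_inj [Nonempty Ω] {ι : Type} (Z : Finset ι) (u : ι → V) (hu : Set.InjOn u Z)
    (h : ι → Ω → ℝ) :
    Ex (fun y : V → Ω => ∏ i ∈ Z, h i (y (u i))) =
      ∏ i ∈ Z, ((∑ z : Ω, h i z) / (Fintype.card Ω : ℝ)) := by
  induction Z using Finset.induction_on with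
  | empty => simpa using Ex_const (V := V) (Ω := Ω) 1
  | insert i Z hi ih =>
    have ih' := ih (hu.mono (by simp))
    rw [Finset.prod_insert hi, ← ih', ← Ex_single (u i) (h i)]
    have h1 : (fun y : V → Ω => ∏ j ∈ insert i Z, h j (y (u j))) =
        fun y => h i (y (u i)) * ∏ j ∈ Z, h j (y (u j)) := by
      funext y
      rw [Finset.prod_insert hi]
    rw [h1]
    refine Ex_indep {u i} _ _ ?_ ?_
    · intro x y hxy
      show h i (x (u i)) = h i (y (u i))
      rw [hxy (u i) rfl]
    · intro x y hxy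
      refine Finset.prod_congr rfl fun j hj => ?_
      have hne : u j ≠ u i := by
        intro he
        have hji : j = i := hu (by simp [hj]) (by simp) he
        exact hi (hji ▸ hj)
      rw [hxy (u j) hne]

/-- There is a minimiser (for `best`). -/
theorem exists_min [Nonempty Ω] (g : (V → Ω) → ℝ) : ∃ x, ∀ y, g x ≤ g y :=
  Finite.exists_min g

theorem exists_le_Ex [Nonempty Ω] (g : (V → Ω) → ℝ) : ∃ x, g x ≤ Ex g := by
  obtain ⟨x, hx⟩ := exists_min g
  refine ⟨x, ?_⟩
  calc g x = Ex (fun _ : V → Ω => g x) := (Ex_const (g x)).symm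
    _ ≤ Ex g := Ex_mono hx

/-- Markov. -/
theorem Ex_ind_le {θ : ℝ} (hθ : 0 < θ) {g : (V → Ω) → ℝ} (hg : ∀ x, 0 ≤ g x) {p : (V → Ω) → Prop}
    (hp : ∀ x, p x → θ ≤ g x) : Ex (fun x => ind (p x)) ≤ Ex g / θ := by
  have h1 : Ex (fun x => ind (p x)) ≤ Ex (fun x => (1 / θ) * g x) := by
    refine Ex_mono fun x => ?_
    unfold ind
    split_ifs with h
    · have := hp x h
      rw [one_div, inv_mul_eq_div, le_div_iff₀ hθ, one_mul]
      exact this
    · have := hg x
      positivity
  rw [Ex_mul_left] at h1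
  refine h1.trans (le_of_eq ?_)
  ring

theorem cp_nonneg (B : (V → Ω) → V → Prop) (σ : V → Option Ω) (v : V) : 0 ≤ cp B σ v :=
  Ex_nonneg fun _ => ind_nonneg _

theorem cp_le_one [Nonempty Ω] (B : (V → Ω) → V → Prop) (σ : V → Option Ω) (v : V) :
    cp B σ v ≤ 1 := by
  calc cp B σ v ≤ Ex (fun _ : V → Ω => (1 : ℝ)) := Ex_mono fun _ => ind_le_one _
    _ = 1 := Ex_const 1

theorem cp_congr {G : SimpleGraph V} {T : ℕ} {B C : (V → Ω) → V → Prop} {v : V}
    (h : ∀ x y, EqOn G v T x y → (B x v ↔ C y v)) {σ τ : V → Option Ω} (hσ : EqOn G v T σ τ) :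
    cp B σ v = cp C τ v := by
  unfold cp
  congr 1
  funext y
  have h1 : B (fill σ y) v ↔ C (fill τ y) v := by
    refine h _ _ fun u hu => ?_
    unfold fill
    rw [hσ u hu]
  simp only [h1]

/-- The conditional probability is the average over the values at one more vertex. -/
theorem cp_update [Nonempty Ω] (B : (V → Ω) → V → Prop) {σ : V → Option Ω} {u : V}
    (hu : σ u = none) (v : V) :
    (∑ z : Ω, cp B (Function.update σ u (some z)) v) / (Fintype.card Ω : ℝ) = cp B σ v := by
  unfold cp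
  obtain ⟨S, hS⟩ : ∃ S : Set V, ∀ w, w ∈ S ↔ w = u := ⟨{u}, fun w => Iff.rfl⟩
  rw [Ex_merge S (fun y => ind (B (fill σ y) v))]
  have h1 : ∀ x y : V → Ω, fill σ (fun w => if w ∈ S then y w else x w) =
      fill (Function.update σ u (some (y u))) x := by
    intro x y
    funext w
    unfold fill
    by_cases hw : w = u
    · subst hw
      rw [Function.update_self, hu]
      exact if_pos ((hS w).mpr rfl)
    · rw [Function.update_of_ne hw]
      exact congrArg (σ w).getD (if_neg (fun h => hw ((hS w).mp h)))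
  simp only [h1]
  have h2 : ∀ x : V → Ω, Ex (fun y : V → Ω => ind (B (fill (Function.update σ u (some (y u))) x) v))
      = (1 / (Fintype.card Ω : ℝ)) *
        ∑ z : Ω, ind (B (fill (Function.update σ u (some z)) x) v) := by
    intro x
    rw [Ex_single u (fun z => ind (B (fill (Function.update σ u (some z)) x) v))]
    ring
  simp only [h2]
  rw [Ex_mul_left, Ex_sum]
  ring

/-- The conditional probability is the average over the values on an unset set. -/
theorem cp_merge [Nonempty Ω] (B : (V → Ω) → V → Prop) {σ : V → Option Ω} {Q : Set V}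
    (hQ : ∀ u ∈ Q, σ u = none) (v : V) :
    Ex (fun y => cp B (fun w => if w ∈ Q then some (y w) else σ w) v) = cp B σ v := by
  unfold cp
  obtain ⟨S, hS⟩ : ∃ S : Set V, ∀ w, w ∈ S ↔ w ∉ Q := ⟨Qᶜ, fun w => Iff.rfl⟩
  rw [Ex_merge S (fun y => ind (B (fill σ y) v))]
  have h1 : ∀ x y : V → Ω, fill σ (fun w => if w ∈ S then y w else x w) =
      fill (fun w => if w ∈ Q then some (x w) else σ w) y := by
    intro x y
    funext w
    unfold fill
    by_cases hw : w ∈ Q
    · have h2 : w ∉ S := fun h => (hS w).mp h hw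
      simp only [if_neg h2, if_pos hw, hQ w hw, Option.getD_none, Option.getD_some]
    · have h2 : w ∈ S := (hS w).mpr hw
      simp only [if_pos h2, if_neg hw]
  simp only [h1]

/-- If everything seen by the event is set, the conditional probability is `0` or `1`. -/
theorem cp_of_set [Nonempty Ω] {G : SimpleGraph V} {T : ℕ} {B : (V → Ω) → V → Prop}
    (hB : Dep G T B) {σ : V → Option Ω} {v : V} (hσ : ∀ u, G.edist v u ≤ T → σ u ≠ none)
    (x : V → Ω) (hx : ∀ u, G.edist v u ≤ T → σ u = some (x u)) :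
    cp B σ v = ind (B x v) := by
  unfold cp
  have h1 : ∀ y : V → Ω, (B (fill σ y) v ↔ B x v) := by
    intro y
    refine hB v _ _ fun u hu => ?_
    unfold fill
    rw [hx u hu]
    rfl
  simp only [h1]
  exact Ex_const _

end Expe

end Pool.Agent.H56.Sub
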