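import Pool.Agent.H56.Sub.Basics
import Pool.Agent.H56.Sub.Expe

/-!
# Squad SUB: module Lll (the Lovasz local lemma)
-/

set_option autoImplicit false

noncomputable section

open scoped Classical

namespace Pool.Agent.H56.Sub

variable {V Ω : Type}

theorem lll_ind_nonneg (p : Prop) : 0 ≤ ind p := by
  unfold ind; split_ifs <;> norm_num

theorem lll_ind_mono {p q : Prop} (h : p → q) : ind p ≤ ind q := by
  unfold ind
  split_ifs with h1 h2
  · exact le_rfl
  · exact absurd (h h1) h2
  · norm_num
  · exact le_rfl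

theorem lll_ind_and (p q : Prop) : ind (p ∧ q) = ind p * ind q := by
  unfold ind
  by_cases hp : p <;> by_cases hq : q <;> simp [hp, hq]

/-- none of the events of `S` happens -/
def lllE (B : (V → Ω) → V → Prop) (σ : V → Option Ω) (S : Finset V) (y : V → Ω) : Prop :=
  ∀ u ∈ S, ¬ B (fill σ y) u

variable [Fintype V] [Fintype Ω]

def lllP (B : (V → Ω) → V → Prop) (σ : V → Option Ω) (S : Finset V) : ℝ :=
  Ex fun y => ind (lllE B σ S y)

theorem lllP_nonneg (B : (V → Ω) → V → Prop) (σ : V → Option Ω) (S : Finset V) :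
    0 ≤ lllP B σ S := Ex_nonneg fun _ => lll_ind_nonneg _

/-- union bound -/
theorem lll_union (B : (V → Ω) → V → Prop) (σ : V → Option Ω) (S1 S2 : Finset V) :
    lllP B σ S2 ≤ lllP B σ (S1 ∪ S2)
      + ∑ u ∈ S1, Ex (fun y => ind (B (fill σ y) u ∧ lllE B σ S2 y)) := by
  rw [← Ex_sum, lllP, lllP, ← Ex_add]
  apply Ex_mono
  intro y
  by_cases h2 : lllE B σ S2 y
  · by_cases h1 : lllE B σ S1 y
    · have h3 : lllE B σ (S1 ∪ S2) y := by
        intro u hu
        rcases Finset.mem_union.1 hu with h | h
        · exact h1 u h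
        · exact h2 u h
      have h4 : (0 : ℝ) ≤ ∑ u ∈ S1, ind (B (fill σ y) u ∧ lllE B σ S2 y) :=
        Finset.sum_nonneg fun _ _ => lll_ind_nonneg _
      have h5 := lll_ind_mono (fun _ : lllE B σ S2 y => h3)
      linarith
    · have h1' : ∃ u ∈ S1, B (fill σ y) u := by
        by_contra hc
        push Not at hc
        exact h1 hc
      obtain ⟨u, hu, hBu⟩ := h1'
      have h4 : ind (B (fill σ y) u ∧ lllE B σ S2 y)
          ≤ ∑ u ∈ S1, ind (B (fill σ y) u ∧ lllE B σ S2 y) :=
        Finset.single_le_sum (f := fun u => ind (B (fill σ y) u ∧ lllE B σ S2 y))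
          (fun _ _ => lll_ind_nonneg _) hu
      have h5 : ind (lllE B σ S2 y) ≤ ind (B (fill σ y) u ∧ lllE B σ S2 y) :=
        lll_ind_mono fun h => ⟨hBu, h⟩
      have h6 := lll_ind_nonneg (lllE B σ (S1 ∪ S2) y)
      linarith
  · have e : ind (lllE B σ S2 y) = 0 := by
      unfold ind
      rw [if_neg h2]
    rw [e]
    have h4 : (0 : ℝ) ≤ ∑ u ∈ S1, ind (B (fill σ y) u ∧ lllE B σ S2 y) :=
      Finset.sum_nonneg fun _ _ => lll_ind_nonneg _
    have h6 := lll_ind_nonneg (lllE B σ (S1 ∪ S2) y)
    linarith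

omit [Fintype V] [Fintype Ω] in
theorem lll_fill_congr (σ : V → Option Ω) {x y : V → Ω} {u : V} (h : x u = y u) :
    fill σ x u = fill σ y u := by
  unfold fill
  rw [h]

/-- independence -/
theorem lll_indep [Nonempty Ω] {G : SimpleGraph V} {T : ℕ} {B : (V → Ω) → V → Prop}
    (hB : Dep G T B) (σ : V → Option Ω) (v : V) (S2 : Finset V)
    (hS : ∀ u ∈ S2, ¬ G.edist v u ≤ (2 * T : ℕ)) :
    Ex (fun y => ind (B (fill σ y) v ∧ lllE B σ S2 y)) = cp B σ v * lllP B σ S2 := by
  have e : (fun y : V → Ω => ind (B (fill σ y) v ∧ lllE B σ S2 y))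
      = fun y => ind (B (fill σ y) v) * ind (lllE B σ S2 y) := by
    funext y
    exact lll_ind_and _ _
  rw [e]
  apply Ex_indep {u | G.edist v u ≤ T}
  · intro x y hxy
    have : B (fill σ x) v ↔ B (fill σ y) v :=
      hB v _ _ fun u hu => lll_fill_congr σ (hxy u hu)
    simp only [this]
  · intro x y hxy
    have : lllE B σ S2 x ↔ lllE B σ S2 y := by
      unfold lllE
      apply forall_congr'
      intro u
      apply forall_congr'
      intro hu
      apply not_congr
      apply hB u
      intro w hw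
      apply lll_fill_congr
      apply hxy
      intro hvw
      apply hS u hu
      have hw' : G.edist w u ≤ T := by rw [SimpleGraph.edist_comm]; exact hw
      calc G.edist v u ≤ G.edist v w + G.edist w u := SimpleGraph.edist_triangle
        _ ≤ T + T := add_le_add hvw hw'
        _ = (2 * T : ℕ) := by push_cast; ring
    simp only [this]

/-- the main induction -/
theorem lll_main [Nonempty Ω] {G : SimpleGraph V} {T D : ℕ}
    {B : (V → Ω) → V → Prop} (hB : Dep G T B) (hD : ∀ v, (bl G v (2 * T)).ncard ≤ D)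
    {σ : V → Option Ω} {θ : ℝ} (hθ : 0 ≤ θ) (h0 : ∀ v, cp B σ v ≤ θ) (h4 : 4 * θ * D ≤ 1)
    (n : ℕ) : ∀ S : Finset V, S.card = n → ∀ v, v ∉ S →
      Ex (fun y => ind (B (fill σ y) v ∧ lllE B σ S y)) ≤ 2 * θ * lllP B σ S := by
  induction n using Nat.strong_induction_on with
  | _ n ih =>
    intro S hS v hv
    set S1 := S.filter (fun u => G.edist v u ≤ (2 * T : ℕ)) with hS1
    set S2 := S.filter (fun u => ¬ G.edist v u ≤ (2 * T : ℕ)) with hS2
    have hU : S1 ∪ S2 = S := Finset.filter_union_filter_not_eq _ _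
    have hind := lll_indep hB σ v S2 (fun u hu => (Finset.mem_filter.1 hu).2)
    have hP2 := lllP_nonneg B σ S2
    have hP := lllP_nonneg B σ S
    have h1 : Ex (fun y => ind (B (fill σ y) v ∧ lllE B σ S y)) ≤ θ * lllP B σ S2 := by
      calc Ex (fun y => ind (B (fill σ y) v ∧ lllE B σ S y))
          ≤ Ex (fun y => ind (B (fill σ y) v ∧ lllE B σ S2 y)) := by
            apply Ex_mono
            intro y
            apply lll_ind_mono
            rintro ⟨a, b⟩
            exact ⟨a, fun u hu => b u (Finset.mem_filter.1 hu).1⟩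
        _ = cp B σ v * lllP B σ S2 := hind
        _ ≤ θ * lllP B σ S2 := by
            have := h0 v
            gcongr
    by_cases hne : S1 = ∅
    · have hSS : S2 = S := by
        rw [← hU, hne, Finset.empty_union]
      rw [hSS] at h1
      have : 0 ≤ θ * lllP B σ S := by positivity
      linarith
    · have hcard : S2.card < n := by
        rw [← hS]
        apply Finset.card_lt_card
        rw [Finset.ssubset_iff_subset_ne]
        refine ⟨Finset.filter_subset _ _, fun heq => hne ?_⟩
        rw [Finset.eq_empty_iff_forall_notMem]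
        intro u hu
        have h5 : u ∈ S2 := by
          rw [heq]
          exact (Finset.mem_filter.1 hu).1
        exact (Finset.mem_filter.1 h5).2 (Finset.mem_filter.1 hu).2
      have h2 : ∀ u ∈ S1, Ex (fun y => ind (B (fill σ y) u ∧ lllE B σ S2 y))
          ≤ 2 * θ * lllP B σ S2 := by
        intro u hu
        apply ih _ hcard S2 rfl u
        intro hu2
        exact (Finset.mem_filter.1 hu2).2 (Finset.mem_filter.1 hu).2
      have h3 : (S1.card : ℝ) ≤ D := by
        have h5 : S1.card ≤ (bl G v (2 * T)).ncard := by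
          rw [← Set.ncard_coe_finset]
          apply Set.ncard_le_ncard _ (Set.toFinite _)
          intro u hu
          exact (Finset.mem_filter.1 (Finset.mem_coe.1 hu)).2
        exact_mod_cast h5.trans (hD v)
      have h5 := lll_union B σ S1 S2
      rw [hU] at h5
      have h6 : ∑ u ∈ S1, Ex (fun y => ind (B (fill σ y) u ∧ lllE B σ S2 y))
          ≤ (1 / 2) * lllP B σ S2 := by
        calc ∑ u ∈ S1, Ex (fun y => ind (B (fill σ y) u ∧ lllE B σ S2 y))
            ≤ ∑ _u ∈ S1, 2 * θ * lllP B σ S2 := Finset.sum_le_sum h2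
          _ = S1.card * (2 * θ * lllP B σ S2) := by rw [Finset.sum_const, nsmul_eq_mul]
          _ ≤ D * (2 * θ * lllP B σ S2) := by gcongr
          _ = (4 * θ * D) * (1 / 2 * lllP B σ S2) := by ring
          _ ≤ 1 * (1 / 2 * lllP B σ S2) := by gcongr
          _ = _ := one_mul _
      have h7 : lllP B σ S2 ≤ 2 * lllP B σ S := by linarith
      calc _ ≤ θ * lllP B σ S2 := h1
        _ ≤ θ * (2 * lllP B σ S) := by gcongr
        _ = _ := by ring

theorem lll [Nonempty Ω] {G : SimpleGraph V} {T D : ℕ}
    {B : (V → Ω) → V → Prop} (hB : Dep G T B) (hD : ∀ v, (bl G v (2 * T)).ncard ≤ D)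
    {σ : V → Option Ω} {θ : ℝ} (h0 : ∀ v, cp B σ v ≤ θ) (h4 : 4 * θ * D ≤ 1) :
    ∃ y, ∀ v, ¬ B (fill σ y) v := by
  rcases isEmpty_or_nonempty V with hV | hV
  · exact ⟨fun v => hV.elim v, fun v => hV.elim v⟩
  obtain ⟨v0⟩ := hV
  have hθ : 0 ≤ θ := (cp_nonneg B σ v0).trans (h0 v0)
  have hD1 : (1 : ℝ) ≤ D := by
    have h1 : 1 ≤ (bl G v0 (2 * T)).ncard := by
      rw [Nat.one_le_iff_ne_zero, Ne, Set.ncard_eq_zero (Set.toFinite _)]
      apply Set.Nonempty.ne_empty
      refine ⟨v0, ?_⟩
      change G.edist v0 v0 ≤ _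
      simp
    exact_mod_cast h1.trans (hD v0)
  have hθ4 : 4 * θ ≤ 1 := by nlinarith
  have hpos : ∀ S : Finset V, 0 < lllP B σ S := by
    intro S
    induction S using Finset.induction_on with
    | empty =>
      have e : lllP B σ (∅ : Finset V) = 1 := by
        unfold lllP
        have : (fun y : V → Ω => ind (lllE B σ (∅ : Finset V) y)) = fun _ => (1 : ℝ) := by
          funext y
          unfold ind
          rw [if_pos]
          intro u hu
          simp at hu
        rw [this, Ex_const]
      rw [e]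
      norm_num
    | insert v S hv ih =>
      have h1 := lll_main hB hD hθ h0 h4 S.card S rfl v hv
      have h2 := lll_union B σ {v} S
      rw [Finset.sum_singleton] at h2
      have h3 : ({v} : Finset V) ∪ S = insert v S := rfl
      rw [h3] at h2
      nlinarith
  have h1 := hpos Finset.univ
  by_contra hc
  push Not at hc
  have h2 : lllP B σ Finset.univ ≤ 0 := by
    have e : (fun y : V → Ω => ind (lllE B σ Finset.univ y)) = fun _ => (0 : ℝ) := by
      funext y
      unfold ind
      rw [if_neg]
      intro h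
      obtain ⟨v, hv⟩ := hc y
      exact h v (Finset.mem_univ v) hv
    unfold lllP
    rw [e, Ex_const]
  linarith

end Pool.Agent.H56.Sub
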