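import Pool.Agent.H56.Sub.Basics
import Pool.Agent.H56.Sub.Expe
import Pool.Agent.H56.Sub.Lll

/-!
# Squad SUB, module Fin1 : components and filling
-/

set_option autoImplicit false
set_option linter.unusedSectionVars false
set_option linter.unusedVariables false

noncomputable section

open scoped Classical

namespace Pool.Agent.H56.Sub


variable {V Λ Ω : Type}

theorem cmp_zero (G : SimpleGraph V) (r : ℕ) (A : Set V) (w : V) : cmp G r A 0 w = {w} := rfl

theorem cmp_succ (G : SimpleGraph V) (r : ℕ) (A : Set V) (n : ℕ) (w : V) :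
    cmp G r A (n + 1) w = grow G r A (cmp G r A n w) := by
  unfold cmp
  rw [Function.iterate_succ_apply']

theorem subset_grow (G : SimpleGraph V) (r : ℕ) (A K : Set V) : K ⊆ grow G r A K :=
  fun _ hx => Or.inl hx

theorem mem_cmp_self (G : SimpleGraph V) (r : ℕ) (A : Set V) (n : ℕ) (w : V) :
    w ∈ cmp G r A n w := by
  induction n with
  | zero => exact rfl
  | succ n ih => rw [cmp_succ]; exact subset_grow _ _ _ _ ih

theorem cmp_subset_aux {G : SimpleGraph V} {r : ℕ} {A C : Set V} {w : V} (hw : w ∈ C)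
    (hC : ∀ u ∈ C, ∀ x ∈ A, G.edist u x ≤ r → x ∈ C) (n : ℕ) : cmp G r A n w ⊆ C := by
  induction n with
  | zero => intro x hx; rw [cmp_zero] at hx; rw [Set.mem_singleton_iff.1 hx]; exact hw
  | succ n ih =>
    intro x hx
    rw [cmp_succ] at hx
    rcases hx with hx | ⟨hxA, u, hu, hux⟩
    · exact ih hx
    · exact hC u (ih hu) x hxA hux

section Fin1
variable [Fintype V]

theorem cmp_subset {G : SimpleGraph V} {r n : ℕ} {A : Set V} {w : V} (hw : w ∈ A) :
    cmp G r A n w ⊆ A :=
  cmp_subset_aux hw (fun _ _ _ hx _ => hx) n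

theorem cmp_card {G : SimpleGraph V} {r : ℕ} {A : Set V} {w : V} (n : ℕ)
    (h : ∀ i < n, grow G r A (cmp G r A i w) ≠ cmp G r A i w) :
    n + 1 ≤ (cmp G r A n w).ncard := by
  induction n with
  | zero => rw [cmp_zero, Set.ncard_singleton]
  | succ n ih =>
    have h1 := ih fun i hi => h i (by omega)
    have h2 := h n (by omega)
    have h3 : cmp G r A n w ⊂ cmp G r A (n + 1) w := by
      rw [cmp_succ]
      exact (Set.ssubset_iff_subset_ne).2 ⟨subset_grow _ _ _ _, fun e => h2 e.symm⟩
    have h4 := Set.ncard_lt_ncard h3 (Set.toFinite _)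
    omega

theorem cmp_fix {G : SimpleGraph V} {r n : ℕ} {A : Set V} {w : V}
    (h : (cmp G r A n w).ncard ≤ n) : grow G r A (cmp G r A n w) = cmp G r A n w := by
  by_contra hne
  have : ∀ i < n, grow G r A (cmp G r A i w) ≠ cmp G r A i w := by
    intro i hi e
    apply hne
    have h1 : ∀ k, cmp G r A (i + k) w = cmp G r A i w := by
      intro k
      induction k with
      | zero => rfl
      | succ k ih => rw [← add_assoc, cmp_succ, ih, e]
    have h2 := h1 (n - i)
    rw [show i + (n - i) = n by omega] at h2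
    rw [h2, e]
  have := cmp_card n this
  omega

theorem cmp_closed {G : SimpleGraph V} {r n : ℕ} {A : Set V} {w : V}
    (h : (cmp G r A n w).ncard ≤ n) {u x : V} (hu : u ∈ cmp G r A n w) (hx : x ∈ A)
    (hux : G.edist u x ≤ r) : x ∈ cmp G r A n w := by
  rw [← cmp_fix h]
  exact Or.inr ⟨hx, u, hu, hux⟩

theorem cmp_eq {G : SimpleGraph V} {r n : ℕ} {A : Set V} {w : V} (hw : w ∈ A)
    (h : (cmp G r A n w).ncard ≤ n) {u : V} (hu : u ∈ cmp G r A n w) :
    cmp G r A n u = cmp G r A n w := by
  have h1 : cmp G r A n u ⊆ cmp G r A n w :=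
    cmp_subset_aux hu (fun a ha x hx hax => cmp_closed h ha hx hax) n
  have h2 : (cmp G r A n u).ncard ≤ n :=
    le_trans (Set.ncard_le_ncard h1 (Set.toFinite _)) h
  have h3 : ∀ i, ∀ a, a ∈ cmp G r A i w → a ∈ cmp G r A n u → w ∈ cmp G r A n u := by
    intro i
    induction i with
    | zero =>
      intro a ha hau
      rw [cmp_zero] at ha
      rw [← Set.mem_singleton_iff.1 ha]
      exact hau
    | succ i ih =>
      intro a ha hau
      rw [cmp_succ] at ha
      rcases ha with ha | ⟨_, b, hb, hba⟩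
      · exact ih a ha hau
      · refine ih b hb (cmp_closed h2 hau (cmp_subset hw hb) ?_)
        rw [SimpleGraph.edist_comm]
        exact hba
  have h4 : w ∈ cmp G r A n u := h3 n u hu (mem_cmp_self _ _ _ _ _)
  exact Set.Subset.antisymm h1
    (cmp_subset_aux h4 (fun a ha x hx hax => cmp_closed h2 ha hx hax) n)

variable [Fintype Ω] [Nonempty Ω]

theorem finish_good {G : SimpleGraph V} {T D N : ℕ} {B : (V → Ω) → V → Prop} (hB : Dep G T B)
    (hD : ∀ v, (bl G v (2 * T)).ncard ≤ D) {τ : V → Option Ω} {θ : ℝ}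
    (h0 : ∀ v, cp B τ v ≤ θ) (h4 : 4 * θ * D ≤ 1) {v : V}
    (hv : ∀ u, G.edist v u ≤ T → τ u = none → (cmp G (2 * T) (unset τ) N u).ncard ≤ N) :
    ¬ B (finish G T N B τ) v := by
  obtain ⟨y, hy⟩ := lll hB hD h0 h4
  by_cases hu : ∃ u, G.edist v u ≤ T ∧ τ u = none
  · obtain ⟨u, hvu, hu⟩ := hu
    have hN := hv u hvu hu
    have hG : ∃ y, Good G T B τ (cmp G (2 * T) (unset τ) N u) y := ⟨y, fun x _ => hy x⟩
    have hE := Classical.epsilon_spec hG
    set K := cmp G (2 * T) (unset τ) N u with hK
    have h1 : ¬ B (fill τ (Classical.epsilon (Good G T B τ K))) v :=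
      hE v ⟨u, mem_cmp_self _ _ _ _ _, hvu⟩
    intro h2
    apply h1
    refine (hB v _ _ ?_).1 h2
    intro w hw
    unfold finish fill
    rcases hτ : τ w with _ | z
    · have huw : G.edist u w ≤ (2 * T : ℕ) := by
        calc G.edist u w ≤ G.edist u v + G.edist v w := SimpleGraph.edist_triangle
          _ ≤ (T : ℕ∞) + T := by
            rw [SimpleGraph.edist_comm (u := u)]
            exact add_le_add hvu hw
          _ = ((2 * T : ℕ) : ℕ∞) := by push_cast; ring
      have hwK : w ∈ K := cmp_closed hN (mem_cmp_self _ _ _ _ _) hτ huw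
      have := cmp_eq (A := unset τ) hu hN hwK
      rw [this]
    · rfl
  · push Not at hu
    intro h2
    apply hy v
    refine (hB v _ _ ?_).1 h2
    intro w hw
    unfold finish fill
    rcases hτ : τ w with _ | z
    · exact absurd hτ (hu w hw)
    · rfl

theorem finish_loc {G H : SimpleGraph V} {T N : ℕ} {B C : (V → Ω) → V → Prop}
    {τ τ' : V → Option Ω} {v : V} {ρ : ℕ} (hC : CAg T G H B C v ρ) (hτ : EqOn G v ρ τ τ')
    (hρ : 2 * T * (N + 1) ≤ ρ) : finish G T N B τ v = finish H T N C τ' v := by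
  have hvv : τ v = τ' v := hτ v (by simp)
  have key : ∀ i ≤ N, (∀ w ∈ cmp G (2 * T) (unset τ) i v, G.edist v w ≤ (2 * T * i : ℕ)) ∧
      cmp G (2 * T) (unset τ) i v = cmp H (2 * T) (unset τ') i v := by
    intro i
    induction i with
    | zero =>
      intro _
      refine ⟨?_, rfl⟩
      intro w hw
      rw [cmp_zero] at hw
      rw [Set.mem_singleton_iff.1 hw]
      simp
    | succ i ih =>
      intro hi
      obtain ⟨h1, h2⟩ := ih (by omega)
      have hiN : 2 * T * (i + 1) ≤ ρ :=
        le_trans (Nat.mul_le_mul_left _ (by omega)) hρ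
      have h3 : ∀ u ∈ cmp G (2 * T) (unset τ) i v, ∀ w, G.edist u w ≤ (2 * T : ℕ) →
          G.edist v w ≤ (2 * T * (i + 1) : ℕ) := by
        intro u hu w hw
        calc G.edist v w ≤ G.edist v u + G.edist u w := SimpleGraph.edist_triangle
          _ ≤ ((2 * T * i : ℕ) : ℕ∞) + ((2 * T : ℕ) : ℕ∞) := add_le_add (h1 u hu) hw
          _ = ((2 * T * (i + 1) : ℕ) : ℕ∞) := by push_cast; ring
      have h4 : ∀ u ∈ cmp G (2 * T) (unset τ) i v, ∀ w, G.edist u w ≤ (2 * T : ℕ) ↔
          H.edist u w ≤ (2 * T : ℕ) := by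
        intro u hu w
        have hs : G.edist v u + ((2 * T : ℕ) : ℕ∞) ≤ ρ := by
          calc G.edist v u + ((2 * T : ℕ) : ℕ∞) ≤ ((2 * T * i : ℕ) : ℕ∞) + ((2 * T : ℕ) : ℕ∞) :=
                add_le_add (h1 u hu) le_rfl
            _ = ((2 * T * (i + 1) : ℕ) : ℕ∞) := by push_cast; ring
            _ ≤ (ρ : ℕ∞) := by exact_mod_cast hiN
        exact GAg.edist_iff (GAg.shift hC.1 hs) (by omega) w
      constructor
      · intro w hw
        rw [cmp_succ] at hw
        rcases hw with hw | ⟨_, u, hu, huw⟩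
        · refine le_trans (h1 w hw) ?_
          exact_mod_cast Nat.mul_le_mul_left _ (by omega)
        · exact h3 u hu w huw
      · rw [cmp_succ, cmp_succ, ← h2]
        ext w
        constructor
        · rintro (hw | ⟨hwA, u, hu, huw⟩)
          · exact Or.inl hw
          · refine Or.inr ⟨?_, u, hu, (h4 u hu w).1 huw⟩
            have : τ w = τ' w := hτ w (le_trans (h3 u hu w huw) (by exact_mod_cast hiN))
            show τ' w = none
            rw [← this]
            exact hwA
        · rintro (hw | ⟨hwA, u, hu, huw⟩)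
          · exact Or.inl hw
          · have huw' := (h4 u hu w).2 huw
            refine Or.inr ⟨?_, u, hu, huw'⟩
            have : τ w = τ' w := hτ w (le_trans (h3 u hu w huw') (by exact_mod_cast hiN))
            show τ w = none
            rw [this]
            exact hwA
  obtain ⟨k1, k2⟩ := key N le_rfl
  have hNρ : ∀ x : V, G.edist v x ≤ (2 * T * N + T : ℕ) → G.edist v x + (T : ℕ∞) ≤ ρ := by
    intro x hx
    calc G.edist v x + (T : ℕ∞) ≤ ((2 * T * N + T : ℕ) : ℕ∞) + T := add_le_add hx le_rfl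
      _ = ((2 * T * (N + 1) : ℕ) : ℕ∞) := by push_cast; ring
      _ ≤ ρ := by exact_mod_cast hρ
  have hgood : Good G T B τ (cmp G (2 * T) (unset τ) N v) =
      Good H T C τ' (cmp H (2 * T) (unset τ') N v) := by
    rw [← k2]
    funext y
    apply propext
    have h5 : ∀ u ∈ cmp G (2 * T) (unset τ) N v, ∀ x, G.edist x u ≤ (T : ℕ) ↔
        H.edist x u ≤ (T : ℕ) := by
      intro u hu x
      have hs : G.edist v u + ((2 * T : ℕ) : ℕ∞) ≤ ρ := by
        calc G.edist v u + ((2 * T : ℕ) : ℕ∞) ≤ ((2 * T * N : ℕ) : ℕ∞) + ((2 * T : ℕ) : ℕ∞) :=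
              add_le_add (k1 u hu) le_rfl
          _ = ((2 * T * (N + 1) : ℕ) : ℕ∞) := by push_cast; ring
          _ ≤ (ρ : ℕ∞) := by exact_mod_cast hρ
      rw [SimpleGraph.edist_comm, SimpleGraph.edist_comm (G := H)]
      exact GAg.edist_iff (GAg.shift hC.1 hs) (by omega) x
    have h6 : ∀ u ∈ cmp G (2 * T) (unset τ) N v, ∀ x, G.edist x u ≤ (T : ℕ) →
        (B (fill τ y) x ↔ C (fill τ' y) x) := by
      intro u hu x hx
      have hvx : G.edist v x ≤ (2 * T * N + T : ℕ) := by
        calc G.edist v x ≤ G.edist v u + G.edist u x := SimpleGraph.edist_triangle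
          _ ≤ ((2 * T * N : ℕ) : ℕ∞) + (T : ℕ∞) := by
            rw [SimpleGraph.edist_comm (u := u)]
            exact add_le_add (k1 u hu) hx
          _ = ((2 * T * N + T : ℕ) : ℕ∞) := by push_cast; ring
      refine hC.2 x _ _ (hNρ x hvx) ?_
      intro z hz
      have : τ z = τ' z := by
        refine hτ z ?_
        exact le_trans SimpleGraph.edist_triangle
          (le_trans (add_le_add le_rfl hz) (hNρ x hvx))
      unfold fill
      rw [this]
    constructor
    · rintro h x ⟨u, hu, hux⟩
      have hux' := (h5 u hu x).2 hux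
      rw [← h6 u hu x hux']
      exact h x ⟨u, hu, hux'⟩
    · rintro h x ⟨u, hu, hux⟩
      rw [h6 u hu x hux]
      exact h x ⟨u, hu, (h5 u hu x).1 hux⟩
  unfold finish
  rw [hgood, hvv]

/-- On a closed set `K` the filling depends only on the values on `K` and outside `A`. -/
theorem finish_closed {G : SimpleGraph V} {T N : ℕ} {B : (V → Ω) → V → Prop} (hB : Dep G T B)
    {A K : Set V} (hKA : K ⊆ A)
    (hcl : ∀ u ∈ K, ∀ w ∈ A, G.edist u w ≤ (2 * T : ℕ) → w ∈ K) {τ τ' : V → Option Ω}
    (hA : ∀ u, u ∉ A → τ u ≠ none ∧ τ u = τ' u) (hK : ∀ u ∈ K, τ u = τ' u) {w : V}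
    (hw : w ∈ K) : finish G T N B τ w = finish G T N B τ' w := by
  have key : ∀ i, cmp G (2 * T) (unset τ) i w ⊆ K ∧
      cmp G (2 * T) (unset τ) i w = cmp G (2 * T) (unset τ') i w := by
    intro i
    induction i with
    | zero =>
      refine ⟨?_, rfl⟩
      intro x hx
      rw [cmp_zero] at hx
      rw [Set.mem_singleton_iff.1 hx]
      exact hw
    | succ i ih =>
      obtain ⟨h1, h2⟩ := ih
      have h3 : ∀ u ∈ cmp G (2 * T) (unset τ) i w, ∀ x, G.edist u x ≤ (2 * T : ℕ) →
          (τ x = none ∨ τ' x = none) → x ∈ K := by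
        intro u hu x hux hx
        by_cases hxA : x ∈ A
        · exact hcl u (h1 hu) x hxA hux
        · obtain ⟨a, b⟩ := hA x hxA
          rcases hx with hx | hx
          · exact absurd hx a
          · exact absurd (b.trans hx) a
      constructor
      · intro x hx
        rw [cmp_succ] at hx
        rcases hx with hx | ⟨hxA, u, hu, hux⟩
        · exact h1 hx
        · exact h3 u hu x hux (Or.inl hxA)
      · rw [cmp_succ, cmp_succ, ← h2]
        ext x
        constructor
        · rintro (hx | ⟨hxA, u, hu, hux⟩)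
          · exact Or.inl hx
          · refine Or.inr ⟨?_, u, hu, hux⟩
            have := hK x (h3 u hu x hux (Or.inl hxA))
            show τ' x = none
            rw [← this]
            exact hxA
        · rintro (hx | ⟨hxA, u, hu, hux⟩)
          · exact Or.inl hx
          · refine Or.inr ⟨?_, u, hu, hux⟩
            have := hK x (h3 u hu x hux (Or.inr hxA))
            show τ x = none
            rw [this]
            exact hxA
  obtain ⟨k1, k2⟩ := key N
  have hgood : Good G T B τ (cmp G (2 * T) (unset τ) N w) =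
      Good G T B τ' (cmp G (2 * T) (unset τ') N w) := by
    rw [← k2]
    funext y
    apply propext
    have h6 : ∀ u ∈ cmp G (2 * T) (unset τ) N w, ∀ x, G.edist x u ≤ (T : ℕ) →
        (B (fill τ y) x ↔ B (fill τ' y) x) := by
      intro u hu x hx
      refine hB x _ _ ?_
      intro z hz
      have huz : G.edist u z ≤ (2 * T : ℕ) := by
        calc G.edist u z ≤ G.edist u x + G.edist x z := SimpleGraph.edist_triangle
          _ ≤ (T : ℕ∞) + T := by
            rw [SimpleGraph.edist_comm (u := u)]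
            exact add_le_add hx hz
          _ = ((2 * T : ℕ) : ℕ∞) := by push_cast; ring
      have : τ z = τ' z := by
        by_cases hzA : z ∈ A
        · exact hK z (hcl u (k1 hu) z hzA huz)
        · exact (hA z hzA).2
      unfold fill
      rw [this]
    constructor
    · rintro h x ⟨u, hu, hux⟩
      rw [← h6 u hu x hux]
      exact h x ⟨u, hu, hux⟩
    · rintro h x ⟨u, hu, hux⟩
      rw [h6 u hu x hux]
      exact h x ⟨u, hu, hux⟩
  unfold finish
  rw [hgood, hK w hw]

end Fin1

end Pool.Agent.H56.Sub
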