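import Pool.Agent.H56.Sub.Expe

/-!
# Squad SUB, module ShP: first properties of the shattering process
-/

set_option autoImplicit false

noncomputable section

open scoped Classical

namespace Pool.Agent.H56.Sub

variable {V Λ Ω : Type}

section ShP
variable [Fintype V] [Fintype Ω] {G : SimpleGraph V} {T : ℕ} {B : (V → Ω) → V → Prop}
  {σ : V → Option Ω} {θ : ℝ} {χ : V → ℕ} {ξ : V → Ω}

theorem sh_succ_val (i : ℕ) (u : V) : (sh G T B σ θ χ ξ (i + 1)).val u =
    if act G T σ χ i (sh G T B σ θ χ ξ i) u ∧ ¬ tst G T B θ ξ (sh G T B σ θ χ ξ i) u then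
      some (ξ u) else (sh G T B σ θ χ ξ i).val u := rfl

theorem sh_succ_trg (i : ℕ) : (sh G T B σ θ χ ξ (i + 1)).trg =
    (sh G T B σ θ χ ξ i).trg ∪
      {u | act G T σ χ i (sh G T B σ θ χ ξ i) u ∧ tst G T B θ ξ (sh G T B σ θ χ ξ i) u} := rfl

theorem sh_of_set {u : V} (hu : σ u ≠ none) (i : ℕ) :
    (sh G T B σ θ χ ξ i).val u = σ u := by
  induction i with
  | zero => rfl
  | succ i ih =>
    rw [sh_succ_val, if_neg (fun h => hu h.1.2.1), ih]

theorem sh_trg_unset {u : V} {i : ℕ} (hu : u ∈ (sh G T B σ θ χ ξ i).trg) : σ u = none := by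
  induction i with
  | zero => exact absurd hu (Set.notMem_empty u)
  | succ i ih =>
    rw [sh_succ_trg] at hu
    rcases hu with hu | hu
    · exact ih hu
    · exact hu.1.2.1

/-- The events keep conditional probability at most `θ`. -/
theorem sh_cp_le (hB : Dep G T B) (hχ : ProperAt G (2 * T) χ) (h0 : ∀ v, cp B σ v ≤ θ) (i : ℕ)
    (v : V) : cp B (sh G T B σ θ χ ξ i).val v ≤ θ := by
  induction i with
  | zero => exact h0 v
  | succ i ih =>
    by_cases h : ∃ u, G.edist v u ≤ (T : ℕ∞) ∧ act G T σ χ i (sh G T B σ θ χ ξ i) u ∧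
        ¬ tst G T B θ ξ (sh G T B σ θ χ ξ i) u
    · obtain ⟨u, hvu, hua, hut⟩ := h
      have h1 : cp B (sh G T B σ θ χ ξ (i + 1)).val v =
          cp B (Function.update (sh G T B σ θ χ ξ i).val u (some (ξ u))) v := by
        refine cp_congr (G := G) (T := T) (fun x y hxy => hB v x y hxy) ?_
        intro w hw
        rw [sh_succ_val]
        by_cases hwu : w = u
        · subst hwu
          rw [Function.update_self, if_pos ⟨hua, hut⟩]
        · rw [Function.update_of_ne hwu]
          by_cases hwa : act G T σ χ i (sh G T B σ θ χ ξ i) w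
          · exfalso
            refine hχ u w (fun h => hwu h.symm) ?_ (hua.1.trans hwa.1.symm)
            calc G.edist u w ≤ G.edist u v + G.edist v w := SimpleGraph.edist_triangle
              _ ≤ (T : ℕ∞) + (T : ℕ∞) := by
                  rw [SimpleGraph.edist_comm (u := u)]
                  exact add_le_add hvu hw
              _ = ((2 * T : ℕ) : ℕ∞) := by rw [two_mul]; push_cast; rfl
          · rw [if_neg (fun h => hwa h.1)]
      rw [h1]
      by_contra hlt
      rw [not_le] at hlt
      exact hut ⟨v, by rw [SimpleGraph.edist_comm]; exact hvu, hlt⟩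
    · have h1 : cp B (sh G T B σ θ χ ξ (i + 1)).val v = cp B (sh G T B σ θ χ ξ i).val v := by
        refine cp_congr (G := G) (T := T) (fun x y hxy => hB v x y hxy) ?_
        intro w hw
        rw [sh_succ_val, if_neg (fun h' => h ⟨w, hw, h'.1, h'.2⟩)]
      rw [h1]
      exact ih

/-- Every vertex which is unset in the end is at distance at most `2T` from a triggered one. -/
theorem sh_unset {M : ℕ} (hM : ∀ u, χ u < M) {u : V}
    (hu : (sh G T B σ θ χ ξ M).val u = none) :
    ∃ w ∈ (sh G T B σ θ χ ξ M).trg, G.edist u w ≤ (2 * T : ℕ) := by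
  have key : ∀ j, χ u < j → (sh G T B σ θ χ ξ j).val u = none →
      ∃ w ∈ (sh G T B σ θ χ ξ j).trg, G.edist u w ≤ (2 * T : ℕ) := by
    intro j
    induction j with
    | zero => intro h; exact absurd h (Nat.not_lt_zero _)
    | succ j ih =>
      intro hj hval
      have hσ : σ u = none := by
        by_contra hne
        rw [sh_of_set hne] at hval
        exact hne hval
      rw [sh_succ_val] at hval
      by_cases hc : act G T σ χ j (sh G T B σ θ χ ξ j) u ∧
          ¬ tst G T B θ ξ (sh G T B σ θ χ ξ j) u
      · rw [if_pos hc] at hval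
        exact absurd hval (by simp)
      · rw [if_neg hc] at hval
        by_cases hju : χ u = j
        · by_cases hact : act G T σ χ j (sh G T B σ θ χ ξ j) u
          · have htst : tst G T B θ ξ (sh G T B σ θ χ ξ j) u := by
              by_contra hnt
              exact hc ⟨hact, hnt⟩
            refine ⟨u, ?_, by simp⟩
            rw [sh_succ_trg]
            exact Or.inr ⟨hact, htst⟩
          · have : ¬ ∀ w ∈ (sh G T B σ θ χ ξ j).trg, ¬ G.edist u w ≤ (2 * T : ℕ) :=
              fun h => hact ⟨hju, hσ, h⟩
            push Not at this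
            obtain ⟨w, hw, hd⟩ := this
            refine ⟨w, ?_, hd⟩
            rw [sh_succ_trg]
            exact Or.inl hw
        · obtain ⟨w, hw, hd⟩ := ih (by omega) hval
          refine ⟨w, ?_, hd⟩
          rw [sh_succ_trg]
          exact Or.inl hw
  exact key M (hM u) hu

end ShP

end Pool.Agent.H56.Sub
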