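import Pool.Agent.H56.Sub.Tail
import Pool.Agent.H56.Sub.Clus
import Pool.Agent.H56.Sub.ShP
import Pool.Agent.H56.Sub.Fin1

/-!
# Squad SUB, module Big: large components of unset vertices are improbable
-/

set_option autoImplicit false

noncomputable section

open scoped Classical

namespace Pool.Agent.H56.Sub

namespace BigAux

variable {V Ω : Type}

theorem ncard_biUnion_le [Fintype V] (K : Set V) (b : V → Set V) {g : ℕ}
    (hb : ∀ t, (b t).ncard ≤ g) (C : Set V) (hC : ∀ w ∈ C, ∃ t ∈ K, w ∈ b t) :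
    C.ncard ≤ K.ncard * g := by
  have h1 : C ⊆ ((K.toFinset.biUnion fun t => (b t).toFinset : Finset V) : Set V) := by
    intro w hw
    obtain ⟨t, ht, hwt⟩ := hC w hw
    simp only [Finset.coe_biUnion, Set.mem_iUnion, Finset.mem_coe, Set.mem_toFinset]
    exact ⟨t, ht, hwt⟩
  calc C.ncard ≤ _ := Set.ncard_le_ncard h1 (Set.toFinite _)
    _ = (K.toFinset.biUnion fun t => (b t).toFinset).card := Set.ncard_coe_finset _
    _ ≤ K.toFinset.card * g := by
        refine Finset.card_biUnion_le_card_mul _ _ _ fun t _ => ?_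
        rw [← Set.ncard_eq_toFinset_card']
        exact hb t
    _ = K.ncard * g := by rw [← Set.ncard_eq_toFinset_card']

/-- Every vertex of a component of the unset vertices is near the cluster of triggered ones. -/
theorem cmp_near {G : SimpleGraph V} {T : ℕ} {A U : Set V} {u0 t0 : V}
    (hU : ∀ w ∈ U, ∃ t ∈ A, G.edist w t ≤ ((2 * T : ℕ) : ℕ∞))
    (h0 : G.edist t0 u0 ≤ ((2 * T : ℕ) : ℕ∞)) (n : ℕ) :
    ∀ w ∈ cmp G (2 * T) U n u0,
      ∃ t ∈ {w | Relation.ReflTransGen (fun x y => y ∈ A ∧ G.edist x y ≤ ((6 * T : ℕ) : ℕ∞)) t0 w},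
        G.edist t w ≤ ((2 * T : ℕ) : ℕ∞) := by
  induction n with
  | zero =>
    intro w hw
    have hw' : w = u0 := hw
    rw [hw']
    exact ⟨t0, Relation.ReflTransGen.refl, h0⟩
  | succ n ih =>
    intro w hw
    have hw' : w ∈ grow G (2 * T) U (cmp G (2 * T) U n u0) := by
      unfold cmp at hw ⊢
      rwa [Function.iterate_succ_apply'] at hw
    rcases hw' with hw1 | ⟨hwU, u, hu, huw⟩
    · exact ih w hw1
    · obtain ⟨t, ht, htu⟩ := ih u hu
      obtain ⟨t', ht', hwt'⟩ := hU w hwU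
      refine ⟨t', Relation.ReflTransGen.tail ht ⟨ht', ?_⟩, ?_⟩
      · calc G.edist t t' ≤ G.edist t w + G.edist w t' := SimpleGraph.edist_triangle
          _ ≤ (G.edist t u + G.edist u w) + G.edist w t' :=
              add_le_add SimpleGraph.edist_triangle le_rfl
          _ ≤ (((2 * T : ℕ) : ℕ∞) + ((2 * T : ℕ) : ℕ∞)) + ((2 * T : ℕ) : ℕ∞) :=
              add_le_add (add_le_add htu huw) hwt'
          _ = ((6 * T : ℕ) : ℕ∞) := by
              have : 6 * T = 2 * T + 2 * T + 2 * T := by ring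
              rw [this]
              push_cast
              rfl
      · rw [SimpleGraph.edist_comm]
        exact hwt'

end BigAux

open BigAux

theorem big {V Ω : Type} [Fintype V] [Fintype Ω] [Nonempty Ω] {G : SimpleGraph V} {T g : ℕ}
    {B : (V → Ω) → V → Prop} (hB : Dep G T B) {σ : V → Option Ω} {χ : V → ℕ}
    (hχ : ProperAt G (2 * T) χ) {M : ℕ} (hM : ∀ u, χ u < M) {p θ : ℝ} (hp : 0 ≤ p) (hθ : 0 < θ)
    (h0 : ∀ v, cp B σ v ≤ p) (hg : ∀ v, (bl G v (10 * T)).ncard ≤ g)
    (hq : (g : ℝ) ^ 2 * (g * p / θ) ≤ 1 / 4) {s : ℕ} (hs : 1 ≤ s) (v : V) :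
    Ex (fun ξ => ind (∃ u, G.edist v u ≤ T ∧ (sh G T B σ θ χ ξ M).val u = none ∧
      s * g * g < (cmp G (2 * T) (unset (sh G T B σ θ χ ξ M).val) (s * g * g) u).ncard)) ≤
      g * (1 / 4) ^ s := by
  have hbl : ∀ r, r ≤ 10 * T → ∀ v, (bl G v r).ncard ≤ g := by
    intro r hr v
    refine (Set.ncard_le_ncard ?_ (Set.toFinite _)).trans (hg v)
    intro u hu
    exact le_trans (show G.edist v u ≤ (r : ℕ∞) from hu) (by exact_mod_cast hr)
  -- the starting points and the lists
  let b : Finset V := Finset.univ.filter fun t => G.edist v t ≤ ((3 * T : ℕ) : ℕ∞)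
  have hb : b.card ≤ g := by
    refine le_trans (le_of_eq ?_) (hbl (3 * T) (by omega) v)
    rw [← Set.ncard_coe_finset]
    congr 1
    ext u
    simp [b, bl]
  let L : V → Finset (List V) := fun t => (walks G (6 * T + 4 * T) (2 * (s - 1)) t).filter
    fun l => l.toFinset.card = s ∧ ∀ u ∈ l, ∀ w ∈ l, u ≠ w → ((4 * T : ℕ) : ℕ∞) < G.edist u w
  have hL : ∀ t, (L t).card ≤ g ^ (2 * (s - 1)) := by
    intro t
    refine (Finset.card_filter_le _ _).trans (walks_card ?_ _ _)
    exact hbl _ (by omega)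
  have hstep1 : ∀ ξ : V → Ω,
      ind (∃ u, G.edist v u ≤ T ∧ (sh G T B σ θ χ ξ M).val u = none ∧
        s * g * g < (cmp G (2 * T) (unset (sh G T B σ θ χ ξ M).val) (s * g * g) u).ncard) ≤
      ∑ t ∈ b, ∑ l ∈ L t, ind (∀ u ∈ l.toFinset, u ∈ (sh G T B σ θ χ ξ M).trg) := by
    intro ξ
    have hnn : ∀ t ∈ b, 0 ≤ ∑ l ∈ L t, ind (∀ u ∈ l.toFinset, u ∈ (sh G T B σ θ χ ξ M).trg) :=
      fun t _ => Finset.sum_nonneg fun l _ => ind_nonneg _
    by_cases h : ∃ u, G.edist v u ≤ T ∧ (sh G T B σ θ χ ξ M).val u = none ∧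
        s * g * g < (cmp G (2 * T) (unset (sh G T B σ θ χ ξ M).val) (s * g * g) u).ncard
    · obtain ⟨u0, hvu0, hval, hbig⟩ := h
      have hU : ∀ w ∈ unset (sh G T B σ θ χ ξ M).val, ∃ t ∈ (sh G T B σ θ χ ξ M).trg,
          G.edist w t ≤ ((2 * T : ℕ) : ℕ∞) := fun w hw => sh_unset hM hw
      obtain ⟨t0, ht0, hut0⟩ := hU u0 hval
      have hvt0 : G.edist v t0 ≤ ((3 * T : ℕ) : ℕ∞) := by
        calc G.edist v t0 ≤ G.edist v u0 + G.edist u0 t0 := SimpleGraph.edist_triangle
          _ ≤ (T : ℕ∞) + ((2 * T : ℕ) : ℕ∞) := add_le_add hvu0 hut0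
          _ = ((3 * T : ℕ) : ℕ∞) := by
              have : 3 * T = T + 2 * T := by ring
              rw [this]
              push_cast
              rfl
      set K : Set V := {w | Relation.ReflTransGen
        (fun x y => y ∈ (sh G T B σ θ χ ξ M).trg ∧ G.edist x y ≤ ((6 * T : ℕ) : ℕ∞)) t0 w} with hK
      have hcard : (cmp G (2 * T) (unset (sh G T B σ θ χ ξ M).val) (s * g * g) u0).ncard ≤
          K.ncard * g := by
        refine ncard_biUnion_le K (fun t => bl G t (2 * T)) (hbl (2 * T) (by omega)) _ ?_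
        intro w hw
        obtain ⟨t, ht, htw⟩ := cmp_near hU
          (by rw [SimpleGraph.edist_comm]; exact hut0) (s * g * g) w hw
        exact ⟨t, ht, htw⟩
      have hKbig : s * g < K.ncard := by
        by_contra hc
        rw [not_lt] at hc
        have := Nat.mul_le_mul_right g hc
        omega
      obtain ⟨l, hl, hlA, hlc, hlsep⟩ := cluster ht0 hs (hbl (4 * T) (by omega)) hKbig
      have hmem : l ∈ L t0 := by
        simp only [L, Finset.mem_filter]
        exact ⟨hl, hlc, hlsep⟩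
      have ht0b : t0 ∈ b := by
        simp only [b, Finset.mem_filter, Finset.mem_univ, true_and]
        exact hvt0
      have hone : ind (∀ u ∈ l.toFinset, u ∈ (sh G T B σ θ χ ξ M).trg) = 1 := by
        unfold ind
        rw [if_pos]
        intro u hu
        exact hlA u (List.mem_toFinset.mp hu)
      calc ind _ ≤ 1 := ind_le_one _
        _ = ind (∀ u ∈ l.toFinset, u ∈ (sh G T B σ θ χ ξ M).trg) := hone.symm
        _ ≤ ∑ l ∈ L t0, ind (∀ u ∈ l.toFinset, u ∈ (sh G T B σ θ χ ξ M).trg) :=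
            Finset.single_le_sum
              (f := fun l : List V => ind (∀ u ∈ l.toFinset, u ∈ (sh G T B σ θ χ ξ M).trg))
              (fun l _ => ind_nonneg _) hmem
        _ ≤ _ := Finset.single_le_sum
              (f := fun t => ∑ l ∈ L t, ind (∀ u ∈ l.toFinset, u ∈ (sh G T B σ θ χ ξ M).trg))
              hnn ht0b
    · have h1 : ind (∃ u, G.edist v u ≤ T ∧ (sh G T B σ θ χ ξ M).val u = none ∧
          s * g * g < (cmp G (2 * T) (unset (sh G T B σ θ χ ξ M).val) (s * g * g) u).ncard) = 0 :=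
        if_neg h
      rw [h1]
      exact Finset.sum_nonneg hnn
  refine (Ex_mono hstep1).trans ?_
  rw [Ex_sum]
  have hq0 : 0 ≤ (g : ℝ) * p / θ := by positivity
  have hstep2 : ∀ t ∈ b,
      Ex (fun ξ => ∑ l ∈ L t, ind (∀ u ∈ l.toFinset, u ∈ (sh G T B σ θ χ ξ M).trg)) ≤
        (g : ℝ) ^ (2 * (s - 1)) * (g * p / θ) ^ s := by
    intro t _
    rw [Ex_sum]
    calc ∑ l ∈ L t, Ex (fun ξ => ind (∀ u ∈ l.toFinset, u ∈ (sh G T B σ θ χ ξ M).trg))
        ≤ ∑ l ∈ L t, (g * p / θ) ^ s := by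
          refine Finset.sum_le_sum fun l hl => ?_
          simp only [L, Finset.mem_filter] at hl
          obtain ⟨_, hlc, hlsep⟩ := hl
          have := tail hB hχ hp hθ h0 (hbl T (by omega)) M l.toFinset
            (fun u hu w hw huw => hlsep u (List.mem_toFinset.mp hu) w (List.mem_toFinset.mp hw) huw)
          rwa [hlc] at this
      _ = (L t).card * (g * p / θ) ^ s := by rw [Finset.sum_const, nsmul_eq_mul]
      _ ≤ (g : ℝ) ^ (2 * (s - 1)) * (g * p / θ) ^ s := by
          refine mul_le_mul_of_nonneg_right ?_ (by positivity)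
          exact_mod_cast hL t
  have hg1 : (1 : ℝ) ≤ g := by
    have h1 : 1 ≤ (bl G v (10 * T)).ncard := by
      have h2 : (bl G v (10 * T)).Nonempty := ⟨v, show G.edist v v ≤ _ by simp⟩
      exact (Set.ncard_pos (Set.toFinite _)).mpr h2
    exact_mod_cast h1.trans (hg v)
  calc ∑ t ∈ b, Ex (fun ξ => ∑ l ∈ L t, ind (∀ u ∈ l.toFinset, u ∈ (sh G T B σ θ χ ξ M).trg))
      ≤ ∑ t ∈ b, (g : ℝ) ^ (2 * (s - 1)) * (g * p / θ) ^ s := Finset.sum_le_sum hstep2
    _ = b.card * ((g : ℝ) ^ (2 * (s - 1)) * (g * p / θ) ^ s) := by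
        rw [Finset.sum_const, nsmul_eq_mul]
    _ ≤ g * ((g : ℝ) ^ (2 * s) * (g * p / θ) ^ s) := by
        refine mul_le_mul ?_ ?_ (by positivity) (by positivity)
        · exact_mod_cast hb
        · refine mul_le_mul_of_nonneg_right ?_ (by positivity)
          exact pow_le_pow_right₀ hg1 (by omega)
    _ = g * ((g : ℝ) ^ 2 * (g * p / θ)) ^ s := by rw [mul_pow, ← pow_mul]
    _ ≤ g * (1 / 4) ^ s := by
        refine mul_le_mul_of_nonneg_left ?_ (by positivity)
        exact pow_le_pow_left₀ (by positivity) hq s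

end Pool.Agent.H56.Sub
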