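import Pool.Agent.H56.Sub.Prob

/-!
# Squad SUB, module BitsMap: restriction of the random bits along an injection
-/

set_option autoImplicit false

noncomputable section

open scoped Classical
open MeasureTheory

namespace Pool.Agent.H56.Sub

instance coin_prob : IsProbabilityMeasure coin := by
  unfold coin
  infer_instance

instance bits_prob (V : Type) : IsProbabilityMeasure (bits V) := by
  unfold bits
  infer_instance

theorem bits_map {V W : Type} [Finite V] [Finite W] (e : W → V) (he : Function.Injective e) :
    Measurable (fun (b : V → ℕ → Bool) w => b (e w)) ∧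
      (bits V).map (fun b w => b (e w)) = bits W := by
  have hm : Measurable (fun (b : V → ℕ → Bool) w => b (e w)) :=
    measurable_pi_lambda _ fun w => measurable_pi_apply (e w)
  refine ⟨hm, ?_⟩
  unfold bits
  apply Measure.eq_infinitePi
  intro s t ht
  rw [Measure.map_apply hm (MeasurableSet.pi s.countable_toSet fun i _ => ht i)]
  by_cases hs : s = ∅
  · subst hs
    simp
  obtain ⟨w0, hw0⟩ := Finset.nonempty_iff_ne_empty.2 hs
  have : Nonempty W := ⟨w0⟩
  have hpre : (fun (b : V → ℕ → Bool) w => b (e w)) ⁻¹' (Set.pi (s : Set W) t) =
      Set.pi ((s.image e : Finset V) : Set V) (fun v => t (Function.invFun e v)) := by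
    ext b
    simp only [Set.mem_preimage, Set.mem_pi, Finset.coe_image, Set.mem_image, Finset.mem_coe,
      forall_exists_index, and_imp, forall_apply_eq_imp_iff₂]
    constructor
    · intro h w hw
      rw [Function.leftInverse_invFun he w]
      exact h w hw
    · intro h w hw
      have := h w hw
      rw [Function.leftInverse_invFun he w] at this
      exact this
  rw [hpre, Measure.infinitePi_pi]
  · rw [Finset.prod_image (fun a _ b _ h => he h)]
    refine Finset.prod_congr rfl fun w _ => ?_
    rw [Function.leftInverse_invFun he w]
  · intro v hv
    obtain ⟨w, hw, rfl⟩ := Finset.mem_image.1 hv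
    rw [Function.leftInverse_invFun he w]
    exact ht w

end Pool.Agent.H56.Sub
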