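import Pool.Agent.H56.Sub.Basics
import Pool.Agent.H56.Sub.Expe

/-!
# Squad SUB, module Ce1: the method of conditional expectations along a network decomposition
-/

set_option autoImplicit false

noncomputable section

open scoped Classical

namespace Pool.Agent.H56.Sub


variable {V Ω : Type}

section Ce1
variable [Fintype V] [Fintype Ω] [Nonempty Ω]

omit [Fintype V] in
/-- In a network decomposition the clusters are the sets of equal names. -/
theorem mem_clu_iff {G : SimpleGraph V} {D t J : ℕ} {cl : V → Option (ℕ × V)}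
    (hND : IsND G D t J cl) {j : ℕ} {c w : V} : w ∈ clu G t cl j c ↔ cl w = some (j, c) := by
  constructor
  · exact fun h => h.1
  · intro h
    obtain ⟨i, c', _, h2, h3⟩ := hND.1 w
    rw [h] at h2
    simp only [Option.some.injEq, Prod.mk.injEq] at h2
    obtain ⟨rfl, rfl⟩ := h2
    exact ⟨h, h3⟩

/-- Stage `j` does not touch the clusters of colour at least `j`. -/
theorem ce_unset {G : SimpleGraph V} {T t : ℕ} {cl : V → Option (ℕ × V)}
    {F : (V → Ω) → V → Prop} {u c : V} {i : ℕ} (hu : cl u = some (i, c)) (j : ℕ) (hj : j ≤ i) :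
    ce G T t cl F j u = none := by
  induction j with
  | zero => rfl
  | succ j ih =>
    simp only [ce, hu]
    rw [if_neg (by rintro ⟨h, _⟩; omega)]
    exact ih (by omega)

theorem ce_succ_eq {G : SimpleGraph V} {D T t J : ℕ} {cl : V → Option (ℕ × V)}
    (hND : IsND G D t J cl) {F : (V → Ω) → V → Prop} {u c : V} {j : ℕ}
    (hu : cl u = some (j, c)) :
    ce G T t cl F (j + 1) u = some (best G T t cl F (ce G T t cl F j) j c u) := by
  have h1 : G.edist c u ≤ (t : ℕ∞) := ((mem_clu_iff hND).2 hu).2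
  simp only [ce, hu]
  simp [h1]

theorem ce_succ_ne {G : SimpleGraph V} {T t : ℕ} {cl : V → Option (ℕ × V)}
    {F : (V → Ω) → V → Prop} {u : V} {j : ℕ} (hu : ∀ c, cl u ≠ some (j, c)) :
    ce G T t cl F (j + 1) u = ce G T t cl F j u := by
  simp only [ce]
  split
  · rename_i i c h
    rw [if_neg]
    rintro ⟨rfl, _⟩
    exact hu c h
  · rfl

/-- Clusters of colour smaller than `j` are set in stage `j`. -/
theorem ce_set {G : SimpleGraph V} {D T t J : ℕ} {cl : V → Option (ℕ × V)}
    (hND : IsND G D t J cl) {F : (V → Ω) → V → Prop} {u c : V} {i : ℕ}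
    (hu : cl u = some (i, c)) (j : ℕ) (hj : i < j) : ce G T t cl F j u ≠ none := by
  induction j with
  | zero => omega
  | succ j ih =>
    by_cases h : i = j
    · subst h
      rw [ce_succ_eq hND hu]
      exact Option.some_ne_none _
    · rw [ce_succ_ne]
      · exact ih (by omega)
      · intro c' h'
        rw [hu] at h'
        simp only [Option.some.injEq, Prod.mk.injEq] at h'
        exact h h'.1

theorem best_spec {G : SimpleGraph V} {T t : ℕ} {cl : V → Option (ℕ × V)}
    {F : (V → Ω) → V → Prop} (τ : V → Option Ω) (j : ℕ) (c : V) (z : V → Ω) :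
    pot G T t cl F τ j c (best G T t cl F τ j c) ≤ pot G T t cl F τ j c z := by
  have h : ∃ y : V → Ω, ∀ z, pot G T t cl F τ j c y ≤ pot G T t cl F τ j c z :=
    exists_min (pot G T t cl F τ j c)
  exact Classical.epsilon_spec h z

omit [Nonempty Ω] in
/-- The value of a conditional probability depends on the assignment through the values of the
event. -/
theorem cp_eq_of_forall {F : (V → Ω) → V → Prop} {σ τ : V → Option Ω} {v : V}
    (h : ∀ y, F (fill σ y) v ↔ F (fill τ y) v) : cp F σ v = cp F τ v := by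
  unfold cp
  congr 1
  funext y
  rw [show F (fill σ y) v = F (fill τ y) v from propext (h y)]

/-- One cluster. -/
theorem ce_one {G : SimpleGraph V} {T t J : ℕ} {cl : V → Option (ℕ × V)}
    (hND : IsND G (2 * T) t J cl) {F : (V → Ω) → V → Prop} (Z K : Set V)
    (hZ : ∀ v ∈ Z, ∀ x y, (∀ u ∈ K, x u = y u) → (F x v ↔ F y v))
    (hZ' : ∀ v, v ∉ Z → ∀ x y, (∀ u, u ∉ K → x u = y u) → (F x v ↔ F y v))
    (j : ℕ) (c : V) :
    ∑ v ∈ (Finset.univ.filter fun v : V => v ∈ Z ∧ ∃ w ∈ clu G t cl j c, G.edist v w ≤ T),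
      cp F (fun w => if w ∈ clu G t cl j c then
        some (best G T t cl F (ce G T t cl F j) j c w) else ce G T t cl F j w) v ≤
    ∑ v ∈ (Finset.univ.filter fun v : V => v ∈ Z ∧ ∃ w ∈ clu G t cl j c, G.edist v w ≤ T),
      cp F (ce G T t cl F j) v := by
  set τ := ce G T t cl F j with hτ
  set b := best G T t cl F τ j c with hb
  set Q := clu G t cl j c with hQ
  let P : (V → Ω) → V → ℝ := fun y v => cp F (fun w => if w ∈ Q then some (y w) else τ w) v
  let N : V → Prop := fun v => ∃ w ∈ Q, G.edist v w ≤ T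
  let NZ : Finset V := Finset.univ.filter fun v : V => v ∈ Z ∧ N v
  let NR : Finset V := Finset.univ.filter fun v : V => v ∉ Z ∧ N v
  have hsplit : ∀ y, pot G T t cl F τ j c y = ∑ v ∈ NZ, P y v + ∑ v ∈ NR, P y v := by
    intro y
    have e1 : ∑ v ∈ NZ, P y v = ∑ v : V, if v ∈ Z ∧ N v then P y v else 0 := by
      rw [Finset.sum_filter]
    have e2 : ∑ v ∈ NR, P y v = ∑ v : V, if v ∉ Z ∧ N v then P y v else 0 := by
      rw [Finset.sum_filter]
    rw [e1, e2, ← Finset.sum_add_distrib]
    unfold pot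
    refine Finset.sum_congr rfl fun v _ => ?_
    change (if N v then P y v else 0) = _
    by_cases hN : N v <;> by_cases hz : v ∈ Z <;> simp [hN, hz]
  have hPZ : ∀ v ∈ Z, ∀ y y' : V → Ω, (∀ u ∈ K, y u = y' u) → P y v = P y' v := by
    intro v hv y y' h
    refine cp_eq_of_forall fun x => hZ v hv _ _ fun u hu => ?_
    simp only [fill]
    by_cases hq : u ∈ Q
    · simp [hq, h u hu]
    · simp [hq]
  have hPR : ∀ v, v ∉ Z → ∀ y y' : V → Ω, (∀ u, u ∉ K → y u = y' u) → P y v = P y' v := by
    intro v hv y y' h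
    refine cp_eq_of_forall fun x => hZ' v hv _ _ fun u hu => ?_
    simp only [fill]
    by_cases hq : u ∈ Q
    · simp [hq, h u hu]
    · simp [hq]
  have hmin : ∀ y, ∑ v ∈ NZ, P b v ≤ ∑ v ∈ NZ, P y v := by
    intro y
    have h := best_spec (G := G) (T := T) (t := t) (cl := cl) (F := F) τ j c
      (fun w => if w ∈ K then y w else b w)
    rw [hsplit, hsplit, ← hb] at h
    have e1 : ∑ v ∈ NZ, P (fun w => if w ∈ K then y w else b w) v = ∑ v ∈ NZ, P y v := by
      refine Finset.sum_congr rfl fun v hv => ?_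
      have hv' : v ∈ Z := (Finset.mem_filter.1 hv).2.1
      exact hPZ v hv' _ _ fun u hu => by simp [hu]
    have e2 : ∑ v ∈ NR, P (fun w => if w ∈ K then y w else b w) v = ∑ v ∈ NR, P b v := by
      refine Finset.sum_congr rfl fun v hv => ?_
      have hv' : v ∉ Z := (Finset.mem_filter.1 hv).2.1
      exact hPR v hv' _ _ fun u hu => by simp [hu]
    rw [e1, e2] at h
    linarith
  obtain ⟨y, hy⟩ := exists_le_Ex (fun y : V → Ω => ∑ v ∈ NZ, P y v)
  have h1 := hmin y
  have h2 : Ex (fun y : V → Ω => ∑ v ∈ NZ, P y v) = ∑ v ∈ NZ, cp F τ v := by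
    rw [Ex_sum]
    refine Finset.sum_congr rfl fun v _ => ?_
    exact cp_merge F (σ := τ) (Q := Q)
      (fun u hu => ce_unset ((mem_clu_iff hND).1 hu) j le_rfl) v
  calc ∑ v ∈ NZ, P b v ≤ ∑ v ∈ NZ, P y v := h1
    _ ≤ _ := hy
    _ = _ := h2

/-- The name of the cluster of colour `j` seen by `v`. -/
def nearC (G : SimpleGraph V) (T t : ℕ) (cl : V → Option (ℕ × V)) (j : ℕ) (v : V) : Option V :=
  if h : ∃ c, ∃ w ∈ clu G t cl j c, G.edist v w ≤ T then some (Classical.choose h) else none

omit [Fintype V] in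
theorem near_unique {G : SimpleGraph V} {T t J : ℕ} {cl : V → Option (ℕ × V)}
    (hND : IsND G (2 * T) t J cl) {j : ℕ} {v c c' : V}
    (h : ∃ w ∈ clu G t cl j c, G.edist v w ≤ T) (h' : ∃ w ∈ clu G t cl j c', G.edist v w ≤ T) :
    c = c' := by
  obtain ⟨w, hw, hvw⟩ := h
  obtain ⟨w', hw', hvw'⟩ := h'
  by_contra hne
  have h1 := hND.2 w w' j c c' hw.1 hw'.1 hne
  have h2 : G.edist w w' ≤ ((2 * T : ℕ) : ℕ∞) := by
    calc G.edist w w' ≤ G.edist w v + G.edist v w' := SimpleGraph.edist_triangle
      _ ≤ (T : ℕ∞) + (T : ℕ∞) := by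
        refine add_le_add ?_ hvw'
        rw [SimpleGraph.edist_comm]
        exact hvw
      _ = ((2 * T : ℕ) : ℕ∞) := by push_cast; ring
  exact absurd h1 (not_lt.2 h2)

theorem nearC_eq_some {G : SimpleGraph V} {T t J : ℕ} {cl : V → Option (ℕ × V)}
    (hND : IsND G (2 * T) t J cl) {j : ℕ} {v c : V} :
    nearC G T t cl j v = some c ↔ ∃ w ∈ clu G t cl j c, G.edist v w ≤ T := by
  unfold nearC
  constructor
  · intro h
    split at h
    · rename_i h'
      have := Classical.choose_spec h'
      simp only [Option.some.injEq] at h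
      rw [h] at this
      exact this
    · simp at h
  · intro h
    have h' : ∃ c, ∃ w ∈ clu G t cl j c, G.edist v w ≤ T := ⟨c, h⟩
    rw [dif_pos h']
    exact congrArg some (near_unique hND (Classical.choose_spec h') h)

theorem nearC_eq_none {G : SimpleGraph V} {T t : ℕ} {cl : V → Option (ℕ × V)} {j : ℕ} {v : V} :
    nearC G T t cl j v = none ↔ ¬ ∃ c, ∃ w ∈ clu G t cl j c, G.edist v w ≤ T := by
  unfold nearC
  split
  · rename_i h
    simp only [reduceCtorEq, false_iff, not_not]
    exact h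
  · rename_i h
    simp only [true_iff]
    exact h

/-- One stage. -/
theorem ce_step {G : SimpleGraph V} {T t J : ℕ} {cl : V → Option (ℕ × V)}
    (hND : IsND G (2 * T) t J cl) {F : (V → Ω) → V → Prop} (hF : Dep G T F) (Z K : Set V)
    (hZ : ∀ v ∈ Z, ∀ x y, (∀ u ∈ K, x u = y u) → (F x v ↔ F y v))
    (hZ' : ∀ v, v ∉ Z → ∀ x y, (∀ u, u ∉ K → x u = y u) → (F x v ↔ F y v))
    (A : V → ℝ) (hA : ∀ v, 0 ≤ A v) (lam : ℝ) (hlam : 1 ≤ lam)
    (hAl : ∀ c u w, u ∈ Z → w ∈ Z → G.edist c u ≤ (t + T : ℕ) → G.edist c w ≤ (t + T : ℕ) →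
      A u ≤ lam * A w) (j : ℕ) :
    ∑ v, (if v ∈ Z then A v * cp F (ce G T t cl F (j + 1)) v else 0) ≤
      lam * ∑ v, (if v ∈ Z then A v * cp F (ce G T t cl F j) v else 0) := by
  rw [← Finset.sum_fiberwise (Finset.univ : Finset V) (nearC G T t cl j)
      (fun v => if v ∈ Z then A v * cp F (ce G T t cl F (j + 1)) v else 0),
    ← Finset.sum_fiberwise (Finset.univ : Finset V) (nearC G T t cl j)
      (fun v => if v ∈ Z then A v * cp F (ce G T t cl F j) v else 0), Finset.mul_sum]
  refine Finset.sum_le_sum fun o _ => ?_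
  rcases o with _ | c
  · rw [Finset.mul_sum]
    refine Finset.sum_le_sum fun v hv => ?_
    have hv' := nearC_eq_none.1 (Finset.mem_filter.1 hv).2
    by_cases hz : v ∈ Z
    · simp only [hz, if_true]
      have e : cp F (ce G T t cl F (j + 1)) v = cp F (ce G T t cl F j) v := by
        refine cp_congr (G := G) (T := T) (hF v) fun u hu => ?_
        refine ce_succ_ne fun c hc => hv' ⟨c, u, (mem_clu_iff hND).2 hc, hu⟩
      rw [e]
      have h0 : 0 ≤ A v * cp F (ce G T t cl F j) v := mul_nonneg (hA v) (cp_nonneg _ _ _)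
      nlinarith
    · simp [hz]
  · -- the vertices which see the cluster with centre `c`
    have hfil : ∀ g : V → ℝ,
        ∑ v ∈ Finset.univ.filter (fun v => nearC G T t cl j v = some c),
          (if v ∈ Z then g v else 0) =
        ∑ v ∈ (Finset.univ.filter fun v : V => v ∈ Z ∧ ∃ w ∈ clu G t cl j c, G.edist v w ≤ T),
          g v := by
      intro g
      rw [← Finset.sum_filter, Finset.filter_filter]
      refine Finset.sum_congr ?_ fun _ _ => rfl
      ext v
      simp only [Finset.mem_filter, Finset.mem_univ, true_and]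
      rw [nearC_eq_some hND]
      tauto
    rw [hfil, hfil]
    set S := (Finset.univ.filter fun v : V => v ∈ Z ∧ ∃ w ∈ clu G t cl j c, G.edist v w ≤ T)
      with hS
    have hnew : ∀ v ∈ S, cp F (ce G T t cl F (j + 1)) v =
        cp F (fun w => if w ∈ clu G t cl j c then
          some (best G T t cl F (ce G T t cl F j) j c w) else ce G T t cl F j w) v := by
      intro v hv
      obtain ⟨_, hvN⟩ := (Finset.mem_filter.1 hv).2
      refine cp_congr (G := G) (T := T) (hF v) fun u hu => ?_
      by_cases hq : u ∈ clu G t cl j c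
      · rw [if_pos hq]
        exact ce_succ_eq hND hq.1
      · rw [if_neg hq]
        refine ce_succ_ne fun c' hc' => ?_
        have : c = c' := near_unique hND hvN ⟨u, (mem_clu_iff hND).2 hc', hu⟩
        subst this
        exact hq ((mem_clu_iff hND).2 hc')
    have hone := ce_one hND (F := F) Z K hZ hZ' j c
    rw [← hS] at hone
    have hone' : ∑ v ∈ S, cp F (ce G T t cl F (j + 1)) v ≤ ∑ v ∈ S, cp F (ce G T t cl F j) v := by
      rw [Finset.sum_congr rfl hnew]
      exact hone
    rcases S.eq_empty_or_nonempty with hemp | hne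
    · rw [hemp]
      simp
    · obtain ⟨v0, hv0, hmax⟩ := Finset.exists_max_image S A hne
      have hball : ∀ v ∈ S, v ∈ Z ∧ G.edist c v ≤ ((t + T : ℕ) : ℕ∞) := by
        intro v hv
        obtain ⟨hz, w, hw, hvw⟩ := (Finset.mem_filter.1 hv).2
        refine ⟨hz, ?_⟩
        calc G.edist c v ≤ G.edist c w + G.edist w v := SimpleGraph.edist_triangle
          _ ≤ (t : ℕ∞) + (T : ℕ∞) := by
            refine add_le_add hw.2 ?_
            rw [SimpleGraph.edist_comm]
            exact hvw
          _ = ((t + T : ℕ) : ℕ∞) := by push_cast; rfl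
      calc ∑ v ∈ S, A v * cp F (ce G T t cl F (j + 1)) v
          ≤ ∑ v ∈ S, A v0 * cp F (ce G T t cl F (j + 1)) v :=
            Finset.sum_le_sum fun v hv =>
              mul_le_mul_of_nonneg_right (hmax v hv) (cp_nonneg _ _ _)
        _ = A v0 * ∑ v ∈ S, cp F (ce G T t cl F (j + 1)) v := by rw [Finset.mul_sum]
        _ ≤ A v0 * ∑ v ∈ S, cp F (ce G T t cl F j) v :=
            mul_le_mul_of_nonneg_left hone' (hA v0)
        _ = ∑ v ∈ S, A v0 * cp F (ce G T t cl F j) v := by rw [Finset.mul_sum]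
        _ ≤ ∑ v ∈ S, lam * (A v * cp F (ce G T t cl F j) v) := by
            refine Finset.sum_le_sum fun v hv => ?_
            rw [← mul_assoc]
            exact mul_le_mul_of_nonneg_right
              (hAl c v0 v (hball v0 hv0).1 (hball v hv).1 (hball v0 hv0).2 (hball v hv).2)
              (cp_nonneg _ _ _)
        _ = lam * ∑ v ∈ S, A v * cp F (ce G T t cl F j) v := by rw [Finset.mul_sum]

/-- The method of conditional expectations along a network decomposition. -/
theorem ce_bound {G : SimpleGraph V} {T t J : ℕ} {cl : V → Option (ℕ × V)}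
    (hND : IsND G (2 * T) t J cl) {F : (V → Ω) → V → Prop} (hF : Dep G T F) (Z K : Set V)
    (hZ : ∀ v ∈ Z, ∀ x y, (∀ u ∈ K, x u = y u) → (F x v ↔ F y v))
    (hZ' : ∀ v, v ∉ Z → ∀ x y, (∀ u, u ∉ K → x u = y u) → (F x v ↔ F y v))
    (A : V → ℝ) (hA : ∀ v, 0 ≤ A v) (lam : ℝ) (hlam : 1 ≤ lam)
    (hAl : ∀ c u w, u ∈ Z → w ∈ Z → G.edist c u ≤ (t + T : ℕ) → G.edist c w ≤ (t + T : ℕ) →
      A u ≤ lam * A w) :
    ∑ v, (if v ∈ Z then A v * ind (F (ceOut G T t cl F J) v) else 0) ≤
      lam ^ J * ∑ v, (if v ∈ Z then A v * cp F nope v else 0) := by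
  have hstage : ∀ j, ∑ v, (if v ∈ Z then A v * cp F (ce G T t cl F j) v else 0) ≤
      lam ^ j * ∑ v, (if v ∈ Z then A v * cp F nope v else 0) := by
    intro j
    induction j with
    | zero => simp [ce]
    | succ j ih =>
      calc _ ≤ lam * ∑ v, (if v ∈ Z then A v * cp F (ce G T t cl F j) v else 0) :=
            ce_step hND hF Z K hZ hZ' A hA lam hlam hAl j
        _ ≤ lam * (lam ^ j * ∑ v, (if v ∈ Z then A v * cp F nope v else 0)) :=
            mul_le_mul_of_nonneg_left ih (by linarith)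
        _ = _ := by ring
  refine le_trans (le_of_eq ?_) (hstage J)
  refine Finset.sum_congr rfl fun v _ => ?_
  have e : cp F (ce G T t cl F J) v = ind (F (ceOut G T t cl F J) v) := by
    have hfill : ∀ y : V → Ω, fill (ce G T t cl F J) y = ceOut G T t cl F J := by
      intro y
      funext u
      obtain ⟨i, c, hi, hc, _⟩ := hND.1 u
      have hs := ce_set (T := T) hND (F := F) hc J hi
      obtain ⟨z, hz⟩ := Option.ne_none_iff_exists'.1 hs
      simp only [fill, ceOut, hz, Option.getD_some]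
    unfold cp
    simp only [hfill]
    exact Ex_const _
  rw [e]

end Ce1

end Pool.Agent.H56.Sub
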