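import Pool.Agent.H56.Sub.Basics
import Pool.Agent.H56.Sub.Expe

/-!
# Squad SUB, module Ce2: locality of the method of conditional expectations
-/

set_option autoImplicit false

noncomputable section

open scoped Classical

namespace Pool.Agent.H56.Sub


variable {V Ω : Type}

section Ce2
variable [Fintype V] [Fintype Ω] [Nonempty Ω]

omit [Nonempty Ω] in
/-- The potentials of a cluster are the same function. -/
theorem pot_loc {G H : SimpleGraph V} {T t : ℕ} {cl cl' : V → Option (ℕ × V)}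
    {F F' : (V → Ω) → V → Prop} {τ τ' : V → Option Ω} {v c : V} {ρ j : ℕ}
    (hC : CAg T G H F F' v ρ) (hcl : EqOn G v ρ cl cl') (hτ : EqOn G v ρ τ τ')
    (hcv : G.edist c v ≤ t) (hρ : 2 * t + 2 * T ≤ ρ) (y : V → Ω) :
    pot G T t cl F τ j c y = pot H T t cl' F' τ' j c y := by
  have hGc : GAg G H c (t + 2 * T) := by
    refine GAg.shift hC.1 ?_
    calc G.edist v c + ((t + 2 * T : ℕ) : ℕ∞) ≤ (t : ℕ∞) + ((t + 2 * T : ℕ) : ℕ∞) := by
          rw [SimpleGraph.edist_comm]
          gcongr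
      _ = ((2 * t + 2 * T : ℕ) : ℕ∞) := by push_cast; ring
      _ ≤ (ρ : ℕ∞) := by exact_mod_cast hρ
  -- everything at distance at most `t + 2 * T` from `c` is seen by `v`
  have hfar : ∀ {u : V} {s : ℕ}, G.edist c u + (s : ℕ∞) ≤ ((t + 2 * T : ℕ) : ℕ∞) →
      G.edist v u + (s : ℕ∞) ≤ (ρ : ℕ∞) := by
    intro u s h
    calc G.edist v u + (s : ℕ∞) ≤ (G.edist v c + G.edist c u) + (s : ℕ∞) := by
          gcongr
          exact SimpleGraph.edist_triangle
      _ = G.edist v c + (G.edist c u + (s : ℕ∞)) := by rw [add_assoc]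
      _ ≤ (t : ℕ∞) + ((t + 2 * T : ℕ) : ℕ∞) := by
          rw [SimpleGraph.edist_comm]
          gcongr
      _ = ((2 * t + 2 * T : ℕ) : ℕ∞) := by push_cast; ring
      _ ≤ (ρ : ℕ∞) := by exact_mod_cast hρ
  have hball : ∀ {u : V}, G.edist c u ≤ ((t + 2 * T : ℕ) : ℕ∞) → G.edist v u ≤ (ρ : ℕ∞) := by
    intro u h
    have := hfar (u := u) (s := 0) (by simpa using h)
    simpa using this
  -- the clusters are the same
  have hQ : clu G t cl j c = clu H t cl' j c := by
    ext w
    simp only [clu, Set.mem_ofPred_eq]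
    have h1 : G.edist c w ≤ t ↔ H.edist c w ≤ t := GAg.edist_iff hGc (by omega) w
    constructor
    · rintro ⟨h2, h3⟩
      refine ⟨?_, h1.1 h3⟩
      rw [← h2]
      exact (hcl w (hball (h3.trans (by exact_mod_cast (by omega : t ≤ t + 2 * T))))).symm
    · rintro ⟨h2, h3⟩
      have h3' := h1.2 h3
      refine ⟨?_, h3'⟩
      rw [← h2]
      exact hcl w (hball (h3'.trans (by exact_mod_cast (by omega : t ≤ t + 2 * T))))
  have hN : ∀ u : V, (∃ w ∈ clu G t cl j c, G.edist u w ≤ T) ↔
      ∃ w ∈ clu H t cl' j c, H.edist u w ≤ T := by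
    intro u
    have h1 : ∀ w ∈ clu G t cl j c, (G.edist u w ≤ T ↔ H.edist u w ≤ T) := by
      intro w hw
      have h2 : GAg G H w T := by
        refine GAg.shift hGc ?_
        calc G.edist c w + (T : ℕ∞) ≤ (t : ℕ∞) + (T : ℕ∞) := by
              gcongr
              exact hw.2
          _ = ((t + T : ℕ) : ℕ∞) := by push_cast; rfl
          _ ≤ _ := by exact_mod_cast (by omega : t + T ≤ t + 2 * T)
      rw [SimpleGraph.edist_comm (G := G), SimpleGraph.edist_comm (G := H)]
      exact GAg.edist_iff h2 (by omega) u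
    constructor
    · rintro ⟨w, hw, h⟩
      exact ⟨w, hQ ▸ hw, (h1 w hw).1 h⟩
    · rintro ⟨w, hw, h⟩
      have hw' : w ∈ clu G t cl j c := hQ ▸ hw
      exact ⟨w, hw', (h1 w hw').2 h⟩
  unfold pot
  refine Finset.sum_congr rfl fun u _ => ?_
  by_cases hu : ∃ w ∈ clu G t cl j c, G.edist u w ≤ T
  · rw [if_pos hu, if_pos ((hN u).1 hu), ← hQ]
    obtain ⟨w, hw, huw⟩ := hu
    have hcu : G.edist c u + (T : ℕ∞) ≤ ((t + 2 * T : ℕ) : ℕ∞) := by
      calc G.edist c u + (T : ℕ∞) ≤ (G.edist c w + G.edist w u) + (T : ℕ∞) := by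
            gcongr
            exact SimpleGraph.edist_triangle
        _ ≤ ((t : ℕ∞) + (T : ℕ∞)) + (T : ℕ∞) := by
            gcongr
            · exact hw.2
            · rw [SimpleGraph.edist_comm]
              exact huw
        _ = ((t + 2 * T : ℕ) : ℕ∞) := by push_cast; ring
    have hvu := hfar hcu
    refine cp_congr (G := G) (T := T) (fun x y hxy => hC.2 u x y hvu hxy) fun w' hw' => ?_
    have hvw' : G.edist v w' ≤ (ρ : ℕ∞) := by
      calc G.edist v w' ≤ G.edist v u + G.edist u w' := SimpleGraph.edist_triangle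
        _ ≤ G.edist v u + (T : ℕ∞) := by gcongr
        _ ≤ ρ := hvu
    by_cases hq : w' ∈ clu G t cl j c
    · simp [hq]
    · simp only [hq, if_false]
      exact hτ w' hvw'
  · rw [if_neg hu, if_neg (fun h => hu ((hN u).2 h))]

theorem ce_stage_loc {G H : SimpleGraph V} {T t : ℕ} {cl cl' : V → Option (ℕ × V)}
    {F F' : (V → Ω) → V → Prop} (j : ℕ) : ∀ {v : V} {ρ : ℕ}, CAg T G H F F' v ρ →
      EqOn G v ρ cl cl' → j * (2 * t + 2 * T) ≤ ρ →
    ce G T t cl F j v = ce H T t cl' F' j v := by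
  induction j with
  | zero => intros; rfl
  | succ j ih =>
    intro v ρ hC hcl hρ
    have hρ' : j * (2 * t + 2 * T) + (2 * t + 2 * T) ≤ ρ := by
      have : (j + 1) * (2 * t + 2 * T) = j * (2 * t + 2 * T) + (2 * t + 2 * T) := by ring
      omega
    have hcv : cl v = cl' v := hcl v (by simp)
    -- the induction hypothesis on the ball of radius `2 * t + 2 * T`
    have hτ : EqOn G v (2 * t + 2 * T) (ce G T t cl F j) (ce H T t cl' F' j) := by
      intro u hu
      have hs : G.edist v u + ((j * (2 * t + 2 * T) : ℕ) : ℕ∞) ≤ (ρ : ℕ∞) := by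
        calc G.edist v u + ((j * (2 * t + 2 * T) : ℕ) : ℕ∞)
            ≤ ((2 * t + 2 * T : ℕ) : ℕ∞) + ((j * (2 * t + 2 * T) : ℕ) : ℕ∞) := by gcongr
          _ = ((j * (2 * t + 2 * T) + (2 * t + 2 * T) : ℕ) : ℕ∞) := by push_cast; ring
          _ ≤ _ := by exact_mod_cast hρ'
      exact ih (CAg.shift hC hs) (EqOn.shift hcl hs) le_rfl
    have hr : 2 * t + 2 * T ≤ ρ := by omega
    have hs0 : G.edist v v + ((2 * t + 2 * T : ℕ) : ℕ∞) ≤ (ρ : ℕ∞) := by
      simp only [SimpleGraph.edist_self, zero_add]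
      exact_mod_cast hr
    have hC' := CAg.shift hC hs0
    have hcl' := EqOn.shift hcl hs0
    simp only [ce]
    rw [← hcv]
    rcases hv : cl v with _ | ⟨i, c⟩
    · simp only
      exact hτ v (by simp)
    · simp only
      have hGd : G.edist c v ≤ t ↔ H.edist c v ≤ t := by
        rw [SimpleGraph.edist_comm (G := G), SimpleGraph.edist_comm (G := H)]
        exact GAg.edist_iff hC'.1 (by omega) c
      by_cases hic : i = j ∧ G.edist c v ≤ t
      · rw [if_pos hic, if_pos ⟨hic.1, hGd.1 hic.2⟩]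
        have hb : best G T t cl F (ce G T t cl F j) j c = best H T t cl' F' (ce H T t cl' F' j) j c := by
          unfold best
          congr 1
          funext y
          apply propext
          refine forall_congr' fun z => ?_
          rw [pot_loc hC' hcl' hτ hic.2 le_rfl y, pot_loc hC' hcl' hτ hic.2 le_rfl z]
        rw [hb]
      · rw [if_neg hic, if_neg (fun h => hic ⟨h.1, hGd.2 h.2⟩)]
        exact hτ v (by simp)

theorem ce_loc {G H : SimpleGraph V} {T t J : ℕ} {cl cl' : V → Option (ℕ × V)}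
    {F F' : (V → Ω) → V → Prop} {v : V} {ρ : ℕ} (hC : CAg T G H F F' v ρ)
    (hcl : EqOn G v ρ cl cl') (hρ : J * (2 * t + 2 * T) ≤ ρ) :
    ceOut G T t cl F J v = ceOut H T t cl' F' J v := by
  unfold ceOut
  rw [ce_stage_loc J hC hcl hρ]

end Ce2

end Pool.Agent.H56.Sub
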