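import Pool.Agent.H56.Sub.Basics

/-!
# Locality of the network decompositions
-/

set_option autoImplicit false

noncomputable section

open scoped Classical

namespace Pool.Agent.H56.Sub

variable {V : Type}

theorem choose_congr {α : Type} {p q : α → Prop} (h : ∀ x, p x ↔ q x) (hp : ∃ x, p x)
    (hq : ∃ x, q x) : Classical.choose hp = Classical.choose hq := by
  have h1 : p = q := funext fun x => propext (h x)
  subst h1
  rfl

theorem rad_le (G : SimpleGraph V) (D k : ℕ) (Y : Set V) (c : V) : rad G D k Y c ≤ k :=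
  Nat.sInf_le (Or.inl le_rfl)

/-- `rad` depends only on the ball of radius `k * D`. -/
theorem rad_congr {G H : SimpleGraph V} {D k : ℕ} {Y Y' : Set V} {c : V}
    (hG : ∀ n ≤ k * D, ∀ u, G.edist c u ≤ n ↔ H.edist c u ≤ n)
    (hY : ∀ u, G.edist c u ≤ (k * D : ℕ) → (u ∈ Y ↔ u ∈ Y')) :
    rad G D k Y c = rad H D k Y' c := by
  have hset : ∀ n ≤ k * D, Y ∩ bl G c n = Y' ∩ bl H c n := by
    intro n hn
    ext u
    simp only [Set.mem_inter_iff, mem_bl]
    constructor
    · rintro ⟨h1, h2⟩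
      exact ⟨(hY u (h2.trans (by exact_mod_cast hn))).1 h1, (hG n hn u).1 h2⟩
    · rintro ⟨h1, h2⟩
      have h3 := (hG n hn u).2 h2
      exact ⟨(hY u (h3.trans (by exact_mod_cast hn))).2 h1, h3⟩
  unfold rad
  congr 1
  ext r
  simp only [Set.mem_ofPred_eq]
  rcases le_or_gt k r with h | h
  · exact iff_of_true (Or.inl h) (Or.inl h)
  · rw [hset ((r + 1) * D) (Nat.mul_le_mul_right D h),
      hset (r * D) (Nat.mul_le_mul_right D (by omega))]

theorem carve_fst_succ (G : SimpleGraph V) (D k : ℕ) (χ : V → ℕ) (U : Set V) (i : ℕ) (u : V) :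
    u ∈ (carve G D k χ U (i + 1)).1 ↔ u ∈ (carve G D k χ U i).1 ∧
      ∀ c ∈ (carve G D k χ U i).1, χ c = i →
        ¬ G.edist c u ≤ ((rad G D k (carve G D k χ U i).1 c + 1) * D : ℕ) := Iff.rfl

theorem carve_snd_succ (G : SimpleGraph V) (D k : ℕ) (χ : V → ℕ) (U : Set V) (i : ℕ) (u : V) :
    (carve G D k χ U (i + 1)).2 u =
      if h : u ∈ (carve G D k χ U i).1 ∧ ∃ c ∈ (carve G D k χ U i).1, χ c = i ∧
        G.edist c u ≤ (rad G D k (carve G D k χ U i).1 c * D : ℕ) then
        some (Classical.choose h.2) else (carve G D k χ U i).2 u := rfl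

/-- Locality of one round of carving. -/
theorem carve_loc {G H : SimpleGraph V} {D k : ℕ} {χ χ' : V → ℕ} {U U' : Set V} {v : V} {ρ : ℕ}
    (i : ℕ) (hG : GAg G H v ρ) (hχ : EqOn G v ρ χ χ')
    (hU : ∀ u, G.edist v u ≤ ρ → (u ∈ U ↔ u ∈ U')) (hρ : i * (2 * ((k + 1) * D)) ≤ ρ) :
    (v ∈ (carve G D k χ U i).1 ↔ v ∈ (carve H D k χ' U' i).1) ∧
      (carve G D k χ U i).2 v = (carve H D k χ' U' i).2 v := by
  induction i generalizing v ρ with
  | zero =>
    refine ⟨hU v ?_, rfl⟩
    rw [SimpleGraph.edist_self]; exact zero_le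
  | succ i ih =>
    have hi1 : i * (2 * ((k + 1) * D)) + 2 * ((k + 1) * D) ≤ ρ := by
      rw [Nat.succ_mul] at hρ; exact hρ
    have hkD : k * D ≤ (k + 1) * D := Nat.mul_le_mul_right D (by omega)
    have hself : ∀ w : V, G.edist w w ≤ 0 := fun w => by rw [SimpleGraph.edist_self]
    -- the induction hypothesis at distance at most `2 (k+1) D`
    have hIH : ∀ u, G.edist v u ≤ (2 * ((k + 1) * D) : ℕ) →
        (u ∈ (carve G D k χ U i).1 ↔ u ∈ (carve H D k χ' U' i).1) ∧
          (carve G D k χ U i).2 u = (carve H D k χ' U' i).2 u := by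
      intro u hu
      have hs : G.edist v u + ((i * (2 * ((k + 1) * D)) : ℕ) : ℕ∞) ≤ ρ := by
        calc G.edist v u + ((i * (2 * ((k + 1) * D)) : ℕ) : ℕ∞)
            ≤ ((2 * ((k + 1) * D) : ℕ) : ℕ∞) + ((i * (2 * ((k + 1) * D)) : ℕ) : ℕ∞) := by
              gcongr
          _ ≤ ρ := by
              exact_mod_cast (by omega : 2 * ((k + 1) * D) + i * (2 * ((k + 1) * D)) ≤ ρ)
      exact ih (hG.shift hs) (hχ.shift hs) (fun w hw => hU w (edist_shift hs hw)) le_rfl
    -- centres at distance at most `(k+1) D`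
    have hrad : ∀ c, G.edist v c ≤ ((k + 1) * D : ℕ) →
        rad G D k (carve G D k χ U i).1 c = rad H D k (carve H D k χ' U' i).1 c := by
      intro c hc
      have hs : G.edist v c + (((k + 1) * D : ℕ) : ℕ∞) ≤ ρ := by
        calc G.edist v c + (((k + 1) * D : ℕ) : ℕ∞)
            ≤ (((k + 1) * D : ℕ) : ℕ∞) + (((k + 1) * D : ℕ) : ℕ∞) := by gcongr
          _ ≤ ρ := by exact_mod_cast (by omega : (k + 1) * D + (k + 1) * D ≤ ρ)
      refine rad_congr (fun n hn u => (hG.shift hs).edist_iff (by omega) u) (fun u hu => ?_)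
      refine (hIH u ?_).1
      calc G.edist v u ≤ G.edist v c + G.edist c u := SimpleGraph.edist_triangle
        _ ≤ (((k + 1) * D : ℕ) : ℕ∞) + ((k * D : ℕ) : ℕ∞) := by gcongr
        _ ≤ ((2 * ((k + 1) * D) : ℕ) : ℕ∞) := by
            exact_mod_cast (by omega : (k + 1) * D + k * D ≤ 2 * ((k + 1) * D))
    have hc0 : ∀ c, G.edist v c ≤ ((k + 1) * D : ℕ) →
        (c ∈ (carve G D k χ U i).1 ↔ c ∈ (carve H D k χ' U' i).1) ∧ χ c = χ' c := by
      intro c hc
      have h1 : G.edist v c ≤ (2 * ((k + 1) * D) : ℕ) :=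
        hc.trans (by exact_mod_cast (by omega : (k + 1) * D ≤ 2 * ((k + 1) * D)))
      exact ⟨(hIH c h1).1, hχ c (hc.trans (by exact_mod_cast (by omega : (k + 1) * D ≤ ρ)))⟩
    have hv := hIH v ((hself v).trans zero_le)
    -- distances to centres
    have hdist : ∀ c n, n ≤ (k + 1) * D → (G.edist c v ≤ n ↔ H.edist c v ≤ n) := by
      intro c n hn
      rw [SimpleGraph.edist_comm, SimpleGraph.edist_comm (G := H)]
      exact hG.edist_iff (by omega) c
    have hpred : ∀ (a : ℕ), a ≤ 1 → ∀ c,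
        (c ∈ (carve G D k χ U i).1 ∧ χ c = i ∧
          G.edist c v ≤ ((rad G D k (carve G D k χ U i).1 c + a) * D : ℕ)) ↔
        (c ∈ (carve H D k χ' U' i).1 ∧ χ' c = i ∧
          H.edist c v ≤ ((rad H D k (carve H D k χ' U' i).1 c + a) * D : ℕ)) := by
      intro a ha c
      by_cases hc : G.edist v c ≤ ((k + 1) * D : ℕ)
      · rw [(hc0 c hc).1, (hc0 c hc).2, hrad c hc, hdist c _
          (Nat.mul_le_mul_right D (by have := rad_le H D k (carve H D k χ' U' i).1 c; omega))]
      · have hc' : ¬ H.edist v c ≤ ((k + 1) * D : ℕ) := fun h =>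
          hc ((hG.edist_iff (by omega) c).2 h)
        refine iff_of_false (fun h => hc ?_) (fun h => hc' ?_)
        · rw [SimpleGraph.edist_comm]
          refine h.2.2.trans ?_
          exact_mod_cast Nat.mul_le_mul_right D
            (by have := rad_le G D k (carve G D k χ U i).1 c; omega)
        · rw [SimpleGraph.edist_comm]
          refine h.2.2.trans ?_
          exact_mod_cast Nat.mul_le_mul_right D
            (by have := rad_le H D k (carve H D k χ' U' i).1 c; omega)
    refine ⟨?_, ?_⟩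
    · rw [carve_fst_succ, carve_fst_succ, hv.1]
      refine and_congr_right fun _ => ?_
      constructor
      · intro h c hc1 hc2 hc3
        have h1 := (hpred 1 le_rfl c).2 ⟨hc1, hc2, hc3⟩
        exact h c h1.1 h1.2.1 h1.2.2
      · intro h c hc1 hc2 hc3
        have h1 := (hpred 1 le_rfl c).1 ⟨hc1, hc2, hc3⟩
        exact h c h1.1 h1.2.1 h1.2.2
    · rw [carve_snd_succ, carve_snd_succ]
      have hp0 := hpred 0 (by omega)
      simp only [add_zero] at hp0
      by_cases h : v ∈ (carve G D k χ U i).1 ∧ ∃ c ∈ (carve G D k χ U i).1, χ c = i ∧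
          G.edist c v ≤ (rad G D k (carve G D k χ U i).1 c * D : ℕ)
      · have h' : v ∈ (carve H D k χ' U' i).1 ∧ ∃ c ∈ (carve H D k χ' U' i).1, χ' c = i ∧
            H.edist c v ≤ (rad H D k (carve H D k χ' U' i).1 c * D : ℕ) := by
          obtain ⟨h1, c, h2⟩ := h
          exact ⟨hv.1.1 h1, c, (hp0 c).1 h2⟩
        rw [dif_pos h, dif_pos h']
        exact congrArg some (choose_congr hp0 h.2 h'.2)
      · have h' : ¬ (v ∈ (carve H D k χ' U' i).1 ∧ ∃ c ∈ (carve H D k χ' U' i).1, χ' c = i ∧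
            H.edist c v ≤ (rad H D k (carve H D k χ' U' i).1 c * D : ℕ)) := by
          rintro ⟨h1, c, h2⟩
          exact h ⟨hv.1.2 h1, c, (hp0 c).2 h2⟩
        rw [dif_neg h, dif_neg h']
        exact hv.2

/-- Module NdL: locality. -/
theorem nd_loc [Fintype V] {G H : SimpleGraph V} {D k M J : ℕ} {χ χ' : V → ℕ} {v : V} {ρ : ℕ}
    (hG : GAg G H v ρ) (hχ : EqOn G v ρ χ χ') (hρ : J * (M * (2 * ((k + 1) * D))) ≤ ρ) :
    nd G D k M χ J v = nd H D k M χ' J v := by
  induction J generalizing v ρ with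
  | zero => rfl
  | succ j ih =>
    have hj : j * (M * (2 * ((k + 1) * D))) + M * (2 * ((k + 1) * D)) ≤ ρ := by
      rw [Nat.succ_mul] at hρ; exact hρ
    have hIH : ∀ u, G.edist v u ≤ (M * (2 * ((k + 1) * D)) : ℕ) →
        nd G D k M χ j u = nd H D k M χ' j u := by
      intro u hu
      have hs : G.edist v u + ((j * (M * (2 * ((k + 1) * D))) : ℕ) : ℕ∞) ≤ ρ := by
        calc G.edist v u + ((j * (M * (2 * ((k + 1) * D))) : ℕ) : ℕ∞)
            ≤ ((M * (2 * ((k + 1) * D)) : ℕ) : ℕ∞) +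
              ((j * (M * (2 * ((k + 1) * D))) : ℕ) : ℕ∞) := by gcongr
          _ ≤ ρ := by
            exact_mod_cast (by omega :
              M * (2 * ((k + 1) * D)) + j * (M * (2 * ((k + 1) * D))) ≤ ρ)
      exact ih (hG.shift hs) (hχ.shift hs) le_rfl
    have hv : nd G D k M χ j v = nd H D k M χ' j v :=
      hIH v (by rw [SimpleGraph.edist_self]; exact zero_le)
    have hs : G.edist v v + ((M * (2 * ((k + 1) * D)) : ℕ) : ℕ∞) ≤ ρ := by
      rw [SimpleGraph.edist_self, zero_add]
      exact_mod_cast (by omega : M * (2 * ((k + 1) * D)) ≤ ρ)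
    have hc := carve_loc (D := D) (k := k) (χ := χ) (χ' := χ')
      (U := {u | nd G D k M χ j u = none}) (U' := {u | nd H D k M χ' j u = none}) (v := v) M
      (hG.shift hs) (hχ.shift hs) (fun u hu => by
        simp only [Set.mem_ofPred_eq]
        rw [hIH u hu]) le_rfl
    show (match nd G D k M χ j v with
      | some p => some p
      | none => ((carve G D k χ {u | nd G D k M χ j u = none} M).2 v).map fun c => (j, c)) =
      (match nd H D k M χ' j v with
      | some p => some p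
      | none => ((carve H D k χ' {u | nd H D k M χ' j u = none} M).2 v).map fun c => (j, c))
    rw [hv, hc.2]

end Pool.Agent.H56.Sub
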