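import Pool.Agent.H56.Sub.Defs

/-!
# Squad SUB, module Wsum: sums of weights
-/

set_option autoImplicit false

noncomputable section

open scoped Classical
open Filter

namespace Pool.Agent.H56.Sub

theorem summable_Sq {f : ℕ → ℕ} (hf : Tame f) {q : ℝ} (hq0 : 0 < q) (hq1 : q < 1) :
    Summable fun r : ℕ => (f r : ℝ) * q ^ r := by
  obtain ⟨δ, hδ, h⟩ := hf
  set η : ℝ := -Real.log q / 2 with hη
  have hlq : Real.log q < 0 := Real.log_neg hq0 hq1
  have hηpos : 0 < η := by rw [hη]; linarith
  have h1 : Tendsto (fun r : ℕ => (Real.log (r : ℝ)) ^ δ) atTop atTop :=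
    (tendsto_rpow_atTop hδ).comp (Real.tendsto_log_atTop.comp tendsto_natCast_atTop_atTop)
  have h2 : Tendsto (fun r : ℕ => Real.exp (-(Real.log (r : ℝ)) ^ δ)) atTop (nhds 0) :=
    Real.tendsto_exp_atBot.comp (tendsto_neg_atTop_atBot.comp h1)
  have h3 : ∀ᶠ r : ℕ in atTop, Real.exp (-(Real.log (r : ℝ)) ^ δ) < η :=
    h2.eventually (gt_mem_nhds hηpos)
  have hsum : Summable fun r : ℕ => (Real.exp (-η)) ^ r := by
    refine summable_geometric_of_lt_one (Real.exp_pos _).le ?_
    rw [Real.exp_lt_one_iff]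
    linarith
  refine Summable.of_norm_bounded_eventually_nat hsum ?_
  filter_upwards [h, h3] with r hr hr3
  have hnn : (0 : ℝ) ≤ (f r : ℝ) * q ^ r := by positivity
  rw [Real.norm_of_nonneg hnn]
  have hq : q ^ r = Real.exp (-(2 * η) * r) := by
    have : -(2 * η) = Real.log q := by rw [hη]; ring
    rw [this, mul_comm, Real.exp_nat_mul, Real.exp_log hq0]
  have he : (Real.exp (-η)) ^ r = Real.exp (-η * r) := by
    rw [mul_comm, Real.exp_nat_mul]
  rw [hq, he]
  rcases Nat.eq_zero_or_pos (f r) with h0 | h0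
  · rw [h0]
    simp only [Nat.cast_zero, zero_mul]
    exact (Real.exp_pos _).le
  · have hfr : (0 : ℝ) < f r := by exact_mod_cast h0
    have h5 : Real.log (f r) ≤ r * η :=
      hr.trans (mul_le_mul_of_nonneg_left hr3.le (Nat.cast_nonneg r))
    have h6 : (f r : ℝ) ≤ Real.exp (r * η) := by
      rw [← Real.log_le_iff_le_exp hfr]
      exact h5
    calc (f r : ℝ) * Real.exp (-(2 * η) * r) ≤ Real.exp (r * η) * Real.exp (-(2 * η) * r) :=
          mul_le_mul_of_nonneg_right h6 (Real.exp_pos _).le
      _ = Real.exp (-η * r) := by rw [← Real.exp_add]; congr 1; ring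

theorem wsum {V : Type} [Fintype V] {f : ℕ → ℕ} (hf : Tame f) {G : SimpleGraph V} (hG : Gr f G)
    {q : ℝ} (hq0 : 0 < q) (hq1 : q < 1) (v : V) : ∑ u, wt q G v u ≤ Sq f q := by
  set N := (Finset.univ.sup fun u : V => G.dist v u) + 1 with hN
  have hd : ∀ u : V, G.dist v u < N := fun u =>
    Nat.lt_succ_of_le (Finset.le_sup (f := fun u : V => G.dist v u) (Finset.mem_univ u))
  have h1 : ∀ u : V, wt q G v u =
      ∑ r ∈ Finset.range N, if G.Reachable v u ∧ G.dist v u = r then q ^ r else 0 := by
    intro u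
    unfold wt
    by_cases hr : G.Reachable v u
    · rw [if_pos hr, Finset.sum_eq_single (G.dist v u)]
      · simp [hr]
      · intro r _ hne
        rw [if_neg]
        rintro ⟨-, h⟩
        exact hne h.symm
      · intro h
        exact absurd (Finset.mem_range.2 (hd u)) h
    · rw [if_neg hr]
      symm
      refine Finset.sum_eq_zero fun r _ => ?_
      rw [if_neg]
      rintro ⟨h, -⟩
      exact hr h
  have h2 : ∑ u, wt q G v u ≤ ∑ r ∈ Finset.range N, (f r : ℝ) * q ^ r := by
    simp_rw [h1]
    rw [Finset.sum_comm]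
    refine Finset.sum_le_sum fun r _ => ?_
    rw [← Finset.sum_filter, Finset.sum_const, nsmul_eq_mul]
    refine mul_le_mul_of_nonneg_right ?_ (pow_nonneg hq0.le r)
    have h3 : (Finset.univ.filter fun u => G.Reachable v u ∧ G.dist v u = r).card ≤
        (bl G v r).ncard := by
      rw [← Set.ncard_coe_finset]
      refine Set.ncard_le_ncard ?_ (Set.toFinite _)
      intro u hu
      simp only [Finset.coe_filter, Finset.mem_univ, true_and, Set.mem_ofPred_eq] at hu
      show G.edist v u ≤ r
      rw [← hu.2, hu.1.coe_dist_eq_edist]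
    exact_mod_cast h3.trans (hG v r)
  exact h2.trans ((summable_Sq hf hq0 hq1).sum_le_tsum _ fun r _ => by positivity)

/-- Weights are almost constant on balls. -/
theorem wt_ratio {V : Type} {G : SimpleGraph V} {q : ℝ} (hq0 : 0 < q) (hq1 : q < 1) {n : ℕ}
    (v c u w : V) (hu : G.edist c u ≤ n) (hw : G.edist c w ≤ n) :
    wt q G v u ≤ (q⁻¹) ^ (2 * n) * wt q G v w := by
  have reach : ∀ x y : V, G.edist x y ≤ n → G.Reachable x y := by
    intro x y h
    refine SimpleGraph.reachable_of_edist_ne_top ?_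
    intro htop
    rw [htop] at h
    exact absurd h (by simp)
  have hcu := reach c u hu
  have hcw := reach c w hw
  unfold wt
  by_cases hr : G.Reachable v u
  · have hvw : G.Reachable v w := hr.trans (hcu.symm.trans hcw)
    rw [if_pos hr, if_pos hvw]
    have e1 : G.edist v w ≤ ((G.dist v u + (n + n) : ℕ) : ℕ∞) := by
      have t1 := G.edist_triangle (u := v) (v := u) (w := w)
      have t2 := G.edist_triangle (u := u) (v := c) (w := w)
      have t3 : G.edist u c ≤ n := by rw [SimpleGraph.edist_comm]; exact hu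
      have t4 : G.edist u w ≤ ((n + n : ℕ) : ℕ∞) := by
        refine t2.trans ?_
        push_cast
        exact add_le_add t3 hw
      refine t1.trans ?_
      rw [← hr.coe_dist_eq_edist]
      push_cast at t4 ⊢
      exact add_le_add le_rfl t4
    rw [← hvw.coe_dist_eq_edist] at e1
    have e2 : G.dist v w ≤ G.dist v u + 2 * n := by
      have : G.dist v w ≤ G.dist v u + (n + n) := by exact_mod_cast e1
      omega
    have e3 : q ^ (G.dist v u + 2 * n) ≤ q ^ G.dist v w :=
      pow_le_pow_of_le_one hq0.le hq1.le e2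
    have e4 : 0 ≤ (q⁻¹) ^ (2 * n) := by positivity
    calc q ^ G.dist v u = (q⁻¹) ^ (2 * n) * q ^ (G.dist v u + 2 * n) := by
          rw [pow_add, inv_pow]
          field_simp
      _ ≤ (q⁻¹) ^ (2 * n) * q ^ G.dist v w := mul_le_mul_of_nonneg_left e3 e4
  · rw [if_neg hr]
    refine mul_nonneg (by positivity) ?_
    split_ifs
    · exact pow_nonneg hq0.le _
    · exact le_rfl

end Pool.Agent.H56.Sub
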