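import Pool.Agent.H56.Sub.NdR
import Pool.Agent.H56.Sub.Wsum

/-!
# Squad SUB, module NdW: the network decomposition is complete after `J` rounds
-/

set_option autoImplicit false

noncomputable section

open scoped Classical

namespace Pool.Agent.H56.Sub

namespace NdW

section NoFin

variable {V : Type} {G : SimpleGraph V} {D k M : ℕ} {χ : V → ℕ}

theorem nd_succ_some {j : ℕ} {u : V} {p : ℕ × V} (h : nd G D k M χ j u = some p) :
    nd G D k M χ (j + 1) u = some p := by
  show (match nd G D k M χ j u with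
    | some p => some p
    | none => ((carve G D k χ {u | nd G D k M χ j u = none} M).2 u).map fun c => (j, c)) = some p
  rw [h]

theorem nd_succ_none {j : ℕ} {u : V} (h : nd G D k M χ j u = none) :
    nd G D k M χ (j + 1) u =
      ((carve G D k χ {u | nd G D k M χ j u = none} M).2 u).map fun c => (j, c) := by
  show (match nd G D k M χ j u with
    | some p => some p
    | none => ((carve G D k χ {u | nd G D k M χ j u = none} M).2 u).map fun c => (j, c)) = _
  rw [h]

end NoFin

variable {V : Type} [Fintype V] {G : SimpleGraph V} {D k M R : ℕ} {χ : V → ℕ}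

omit [Fintype V] in
/-- Where the value of `nd (j + 1)` comes from. -/
theorem nd_cases {j : ℕ} {u : V} {i : ℕ} {c : V} (h : nd G D k M χ (j + 1) u = some (i, c)) :
    nd G D k M χ j u = some (i, c) ∨
      (i = j ∧ (carve G D k χ {u | nd G D k M χ j u = none} M).2 u = some c) := by
  rcases hu : nd G D k M χ j u with _ | p
  · rw [nd_succ_none hu] at h
    obtain ⟨c', hc', he⟩ := Option.map_eq_some_iff.1 h
    simp only [Prod.mk.injEq] at he
    exact Or.inr ⟨he.1.symm, by rw [hc', he.2]⟩
  · rw [nd_succ_some hu] at h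
    exact Or.inl h

theorem inv (hχ : ProperAt G R χ) (hM : ∀ u, χ u < M) (hR : (2 * k + 1) * D ≤ R) (hk : 1 ≤ k)
    (hg : ∀ v, (bl G v (k * D)).ncard < 2 ^ k) (j : ℕ) :
    (∀ u i c, nd G D k M χ j u = some (i, c) → i < j ∧ G.edist c u ≤ (k * D : ℕ)) ∧
    (∀ u w i c c', nd G D k M χ j u = some (i, c) → nd G D k M χ j w = some (i, c') → c ≠ c' →
      (D : ℕ∞) < G.edist u w) := by
  induction j with
  | zero =>
    refine ⟨?_, ?_⟩
    · intro u i c h; exact absurd h (by simp [nd])
    · intro u w i c c' h; exact absurd h (by simp [nd])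
  | succ j ih =>
    obtain ⟨ih1, ih2⟩ := ih
    obtain ⟨c1, c2, -⟩ := carve_spec hχ hM hR hk hg {u | nd G D k M χ j u = none}
    refine ⟨?_, ?_⟩
    · intro u i c h
      rcases nd_cases h with h | ⟨rfl, h⟩
      · exact ⟨(ih1 u i c h).1.trans (Nat.lt_succ_self _), (ih1 u i c h).2⟩
      · exact ⟨Nat.lt_succ_self _, (c1 u c h).2⟩
    · intro u w i c c' h h' hne
      rcases nd_cases h with h | ⟨rfl, h⟩
      · rcases nd_cases h' with h' | ⟨rfl, h'⟩
        · exact ih2 u w i c c' h h' hne
        · exact absurd (ih1 u _ c h).1 (lt_irrefl _)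
      · rcases nd_cases h' with h' | ⟨-, h'⟩
        · exact absurd (ih1 w _ c' h').1 (lt_irrefl _)
        · exact c2 u w c c' h h' hne

theorem mass (hχ : ProperAt G R χ) (hM : ∀ u, χ u < M) (hR : (2 * k + 1) * D ≤ R) (hk : 1 ≤ k)
    (hg : ∀ v, (bl G v (k * D)).ncard < 2 ^ k) {A : V → ℝ} (hA : ∀ v, 0 ≤ A v)
    (hAr : ∀ c u w, G.edist c u ≤ (k * D : ℕ) → G.edist c w ≤ (k * D : ℕ) → A u ≤ 2 * A w)
    (j : ℕ) : ∑ u, (if nd G D k M χ j u = none then A u else 0) ≤
      (2 / 3 : ℝ) ^ j * ∑ u, A u := by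
  induction j with
  | zero =>
    rw [pow_zero, one_mul]
    refine Finset.sum_le_sum fun u _ => ?_
    split_ifs
    · exact le_rfl
    · exact hA u
  | succ j ih =>
    obtain ⟨c1, -, c3⟩ := carve_spec hχ hM hR hk hg {u | nd G D k M χ j u = none}
    have h3 := c3 A hA hAr
    set a := (carve G D k χ {u | nd G D k M χ j u = none} M).2 with ha
    have e1 : ∑ u, (if nd G D k M χ (j + 1) u = none then A u else 0) =
        ∑ u, (if u ∈ {u | nd G D k M χ j u = none} ∧ a u = none then A u else 0) := by
      refine Finset.sum_congr rfl fun u _ => ?_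
      have : nd G D k M χ (j + 1) u = none ↔
          (u ∈ {u | nd G D k M χ j u = none} ∧ a u = none) := by
        rcases hu : nd G D k M χ j u with _ | p
        · rw [nd_succ_none hu]
          simp [hu, ha]
        · rw [nd_succ_some hu]
          simp [hu]
      simp only [this]
    have e2 : ∑ u, (if nd G D k M χ j u = none then A u else 0) =
        ∑ u, (if u ∈ {u | nd G D k M χ j u = none} ∧ a u = none then A u else 0) +
        ∑ u, (if a u ≠ none then A u else 0) := by
      rw [← Finset.sum_add_distrib]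
      refine Finset.sum_congr rfl fun u _ => ?_
      by_cases h1 : a u = none
      · by_cases h2 : nd G D k M χ j u = none
        · simp [h1, h2]
        · simp [h1, h2]
      · obtain ⟨c, hc⟩ := Option.ne_none_iff_exists'.1 h1
        have h2 : nd G D k M χ j u = none := (c1 u c hc).1
        simp [h1, h2]
    rw [e1, pow_succ]
    have e3 : (2 / 3 : ℝ) ^ j * (2 / 3) * ∑ u, A u = (2 / 3) * ((2 / 3 : ℝ) ^ j * ∑ u, A u) := by
      ring
    rw [e3]
    have e4 : ∑ u, (if u ∈ {u | nd G D k M χ j u = none} ∧ a u = none then A u else 0) ≤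
        2 * ∑ u, (if a u ≠ none then A u else 0) := by
      convert h3 using 1
      exact Finset.sum_congr rfl fun u _ => by congr
    linarith

end NdW

/-- Module NdW: the decomposition is complete after `J` rounds. -/
theorem nd_isND {V : Type} [Fintype V] {G : SimpleGraph V} {D k M R J : ℕ} {χ : V → ℕ}
    (hχ : ProperAt G R χ) (hM : ∀ u, χ u < M) (hR : (2 * k + 1) * D ≤ R) (hk : 1 ≤ k)
    (hg : ∀ v, (bl G v (k * D)).ncard < 2 ^ k) {q S : ℝ} (hq0 : 0 < q) (hq1 : q < 1)
    (hq : (q⁻¹) ^ (2 * (k * D)) ≤ 2) (hS : ∀ v, ∑ u, wt q G v u ≤ S)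
    (hJ : (2 / 3 : ℝ) ^ J * S < 1) : IsND G D (k * D) J (nd G D k M χ J) := by
  obtain ⟨h1, h2⟩ := NdW.inv hχ hM hR hk hg J
  refine ⟨fun v => ?_, h2⟩
  have hA : ∀ u, 0 ≤ wt q G v u := by
    intro u
    unfold wt
    split_ifs
    · exact pow_nonneg hq0.le _
    · exact le_rfl
  rcases hv : nd G D k M χ J v with _ | ⟨j, c⟩
  · exfalso
    have hm := NdW.mass (A := fun u => wt q G v u) hχ hM hR hk hg hA (fun c u w hu hw =>
      (wt_ratio hq0 hq1 v c u w hu hw).trans (mul_le_mul_of_nonneg_right hq (hA w))) J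
    have hs : wt q G v v ≤ ∑ u, (if nd G D k M χ J u = none then wt q G v u else 0) := by
      have := Finset.single_le_sum (s := Finset.univ)
        (f := fun u => if nd G D k M χ J u = none then wt q G v u else 0)
        (fun u _ => by
          show (0 : ℝ) ≤ _
          split_ifs
          · exact hA u
          · exact le_rfl) (Finset.mem_univ v)
      rw [if_pos hv] at this
      exact this
    have hvv : wt q G v v = 1 := by simp [wt]
    have hle : (2 / 3 : ℝ) ^ J * ∑ u, wt q G v u ≤ (2 / 3 : ℝ) ^ J * S :=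
      mul_le_mul_of_nonneg_left (hS v) (by positivity)
    linarith
  · exact ⟨j, c, (h1 v j c hv).1, rfl, (h1 v j c hv).2⟩

end Pool.Agent.H56.Sub
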