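import Pool.Agent.H56.Sub.ParamA

/-!
# Squad SUB: module ParamB (choice of the parameters)
-/

set_option autoImplicit false

noncomputable section

open scoped Classical

namespace Pool.Agent.H56.Sub



/-! ## quasipolynomials -/

theorem pb_one_le_log {x : ℝ} (hx : 1 ≤ x) : 1 ≤ Real.log (x + 2) := by
  rw [Real.le_log_iff_exp_le (by linarith)]
  have := Real.exp_one_lt_d9
  linarith

theorem pb_QP_pos (A E : ℕ) (x : ℝ) : 0 < QP A E x := Real.exp_pos _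

theorem pb_one_le_QP (A E : ℕ) {x : ℝ} (hx : 0 ≤ x) : 1 ≤ QP A E x := by
  unfold QP
  apply Real.one_le_exp
  have : 0 ≤ Real.log (x + 2) := Real.log_nonneg (by linarith)
  positivity

theorem pb_QP_mono (A E : ℕ) {x y : ℝ} (hx : 0 ≤ x) (hxy : x ≤ y) : QP A E x ≤ QP A E y := by
  unfold QP
  have h1 : 0 ≤ Real.log (x + 2) := Real.log_nonneg (by linarith)
  have h2 : Real.log (x + 2) ≤ Real.log (y + 2) := Real.log_le_log (by linarith) (by linarith)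
  gcongr

theorem pb_QP_mono2 {A A' E E' : ℕ} (hA : A ≤ A') (hE : E ≤ E') {x : ℝ} (hx : 1 ≤ x) :
    QP A E x ≤ QP A' E' x := by
  unfold QP
  have h1 := pb_one_le_log hx
  have h2 : Real.log (x + 2) ^ E ≤ Real.log (x + 2) ^ E' := pow_le_pow_right₀ h1 hE
  have h3 : (A : ℝ) ≤ A' := by exact_mod_cast hA
  gcongr

theorem pb_QP_mul (A1 A2 E : ℕ) (x : ℝ) : QP A1 E x * QP A2 E x = QP (A1 + A2) E x := by
  unfold QP
  rw [← Real.exp_add]
  congr 1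
  push_cast
  ring

theorem pb_four_le (E : ℕ) {x : ℝ} (hx : 1 ≤ x) : 4 ≤ QP 2 E x := by
  unfold QP
  have h1 := pb_one_le_log hx
  have h2 : 1 ≤ Real.log (x + 2) ^ E := one_le_pow₀ h1
  have h3 : Real.exp 2 ≤ Real.exp (((2 : ℕ) : ℝ) * Real.log (x + 2) ^ E) := by
    apply Real.exp_le_exp.2
    push_cast
    linarith
  have h4 : (4 : ℝ) ≤ Real.exp 2 := by
    have h5 := Real.exp_one_gt_d9
    have h6 : Real.exp 2 = Real.exp 1 * Real.exp 1 := by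
      rw [← Real.exp_add]
      norm_num
    rw [h6]
    nlinarith
  linarith

theorem pb_QP_comp (A1 E1 A2 E2 : ℕ) {x : ℝ} (hx : 1 ≤ x) :
    QP A1 E1 (QP A2 E2 x) ≤ QP (A1 * (A2 + 2) ^ E1) (E2 * E1) x := by
  have h1 := pb_one_le_log hx
  have h2 : 1 ≤ Real.log (x + 2) ^ E2 := one_le_pow₀ h1
  have h3 : 1 ≤ QP A2 E2 x := pb_one_le_QP _ _ (by linarith)
  have h4 : Real.log (QP A2 E2 x + 2) ≤ (A2 + 2) * Real.log (x + 2) ^ E2 := by
    have h5 : QP A2 E2 x + 2 ≤ QP (A2 + 2) E2 x := by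
      rw [← pb_QP_mul]
      have := pb_four_le E2 hx
      nlinarith
    calc Real.log (QP A2 E2 x + 2) ≤ Real.log (QP (A2 + 2) E2 x) :=
          Real.log_le_log (by linarith) h5
      _ = (A2 + 2) * Real.log (x + 2) ^ E2 := by
          unfold QP
          rw [Real.log_exp]
          push_cast
          ring
  have h6 : 0 ≤ Real.log (QP A2 E2 x + 2) := Real.log_nonneg (by linarith)
  have h7 : Real.log (QP A2 E2 x + 2) ^ E1 ≤ ((A2 + 2) * Real.log (x + 2) ^ E2) ^ E1 :=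
    pow_le_pow_left₀ h6 h4 E1
  unfold QP at *
  apply Real.exp_le_exp.2
  calc (A1 : ℝ) * Real.log (Real.exp (A2 * Real.log (x + 2) ^ E2) + 2) ^ E1
      ≤ A1 * ((A2 + 2) * Real.log (x + 2) ^ E2) ^ E1 := by gcongr
    _ = _ := by
        push_cast
        rw [mul_pow, ← pow_mul]
        ring

/-- quasipolynomially bounded functions -/
def PbQB (h : ℕ → ℕ) : Prop := ∃ A E : ℕ, ∀ s : ℕ, 1 ≤ s → (h s : ℝ) ≤ QP A E s

theorem PbQB.const (c : ℕ) : PbQB fun _ => c := by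
  refine ⟨2 * c, 0, fun s hs => ?_⟩
  unfold QP
  rw [pow_zero, mul_one]
  have := Real.add_one_le_exp (((2 * c : ℕ) : ℝ))
  push_cast at *
  have : (0 : ℝ) ≤ c := by positivity
  linarith

theorem PbQB.id : PbQB fun s => s := by
  refine ⟨1, 1, fun s hs => ?_⟩
  unfold QP
  have : (0 : ℝ) < (s : ℝ) + 2 := by positivity
  rw [pow_one, Nat.cast_one, one_mul, Real.exp_log this]
  linarith

theorem PbQB.mul {h1 h2 : ℕ → ℕ} (H1 : PbQB h1) (H2 : PbQB h2) : PbQB fun s => h1 s * h2 s := by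
  obtain ⟨A1, E1, H1⟩ := H1
  obtain ⟨A2, E2, H2⟩ := H2
  refine ⟨A1 + A2, max E1 E2, fun s hs => ?_⟩
  have hs' : (1 : ℝ) ≤ s := by exact_mod_cast hs
  push_cast
  rw [← pb_QP_mul]
  have e1 := (H1 s hs).trans (pb_QP_mono2 le_rfl (le_max_left E1 E2) hs')
  have e2 := (H2 s hs).trans (pb_QP_mono2 le_rfl (le_max_right E1 E2) hs')
  have := (pb_QP_pos A1 (max E1 E2) s).le
  gcongr

theorem PbQB.add {h1 h2 : ℕ → ℕ} (H1 : PbQB h1) (H2 : PbQB h2) : PbQB fun s => h1 s + h2 s := by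
  obtain ⟨A1, E1, H1⟩ := H1
  obtain ⟨A2, E2, H2⟩ := H2
  refine ⟨2 + (A1 + A2), max E1 E2, fun s hs => ?_⟩
  have hs' : (1 : ℝ) ≤ s := by exact_mod_cast hs
  push_cast
  rw [← pb_QP_mul]
  have e1 := (H1 s hs).trans
    (pb_QP_mono2 (Nat.le_add_right A1 A2) (le_max_left E1 E2) hs')
  have e2 := (H2 s hs).trans
    (pb_QP_mono2 (Nat.le_add_left A2 A1) (le_max_right E1 E2) hs')
  have e3 := pb_four_le (max E1 E2) hs'
  have e4 := (pb_QP_pos (A1 + A2) (max E1 E2) s).le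
  nlinarith

theorem PbQB.comp {F h : ℕ → ℕ} {A E : ℕ} (hF : ∀ n : ℕ, 1 ≤ n → (F n : ℝ) ≤ QP A E n)
    (H : PbQB h) (h1 : ∀ s, 1 ≤ s → 1 ≤ h s) : PbQB fun s => F (h s) := by
  obtain ⟨A2, E2, H2⟩ := H
  refine ⟨A * (A2 + 2) ^ E, E2 * E, fun s hs => ?_⟩
  have hs' : (1 : ℝ) ≤ s := by exact_mod_cast hs
  calc (F (h s) : ℝ) ≤ QP A E (h s) := hF _ (h1 s hs)
    _ ≤ QP A E (QP A2 E2 s) := pb_QP_mono _ _ (by positivity) (H2 s hs)
    _ ≤ _ := pb_QP_comp _ _ _ _ hs'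

/-! ## asymptotics -/

theorem pb_asymp (A E : ℕ) (C : ℝ) : ∃ s0 : ℕ, ∀ s : ℕ, s0 ≤ s →
    QP A E s + C < 2 * (2 : ℝ) ^ s := by
  have h1 : (fun x : ℝ => Real.log x ^ E) =o[Filter.atTop] id := Real.isLittleO_pow_log_id_atTop
  have h2 := h1.def (c := 1 / (4 * ((A : ℝ) + 1))) (by positivity)
  rw [Filter.eventually_atTop] at h2
  obtain ⟨x0, hx0⟩ := h2
  refine ⟨⌈x0⌉₊ + ⌈C / (1 / 4)⌉₊ + 4, fun s hs => ?_⟩
  have hs1 : (⌈x0⌉₊ : ℝ) + ⌈C / (1 / 4)⌉₊ + 4 ≤ s := by exact_mod_cast hs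
  have hs2 : x0 ≤ (s : ℝ) + 2 := by
    have := Nat.le_ceil x0
    have : (0 : ℝ) ≤ ⌈C / (1 / 4)⌉₊ := by positivity
    linarith
  have hs3 : C / (1 / 4) ≤ (s : ℝ) := by
    have := Nat.le_ceil (C / (1 / 4))
    have : (0 : ℝ) ≤ ⌈x0⌉₊ := by positivity
    linarith
  have hs4 : (4 : ℝ) ≤ s := by
    have : (0 : ℝ) ≤ ⌈x0⌉₊ := by positivity
    have : (0 : ℝ) ≤ ⌈C / (1 / 4)⌉₊ := by positivity
    linarith
  have h3 := hx0 _ hs2
  simp only [id, Real.norm_eq_abs] at h3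
  have h4 : 0 ≤ Real.log ((s : ℝ) + 2) := Real.log_nonneg (by linarith)
  rw [abs_of_nonneg (by positivity), abs_of_nonneg (by linarith)] at h3
  have h5 : (A : ℝ) * Real.log ((s : ℝ) + 2) ^ E ≤ ((s : ℝ) + 2) / 4 := by
    calc (A : ℝ) * Real.log ((s : ℝ) + 2) ^ E
        ≤ A * (1 / (4 * ((A : ℝ) + 1)) * ((s : ℝ) + 2)) := by gcongr
      _ = (A / (A + 1)) * (((s : ℝ) + 2) / 4) := by field_simp
      _ ≤ 1 * (((s : ℝ) + 2) / 4) := by
          gcongr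
          rw [div_le_one (by positivity)]
          linarith
      _ = _ := one_mul _
  have h6 : QP A E s ≤ Real.exp (((s : ℝ) + 2) / 4) := Real.exp_le_exp.2 h5
  have hl2 := Real.log_two_gt_d9
  have h7 : 2 * (2 : ℝ) ^ s = Real.exp (((s : ℝ) + 1) * Real.log 2) := by
    rw [mul_comm ((s : ℝ) + 1), Real.exp_mul, Real.exp_log (by norm_num),
      show ((s : ℝ) + 1) = ((s + 1 : ℕ) : ℝ) by push_cast; ring, Real.rpow_natCast]
    ring
  have h8 : ((s : ℝ) + 2) / 4 + (1 / 4) * s ≤ ((s : ℝ) + 1) * Real.log 2 := by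
    have : ((s : ℝ) + 1) * 0.6931471803 ≤ ((s : ℝ) + 1) * Real.log 2 := by gcongr
    linarith
  have h9 : Real.exp (((s : ℝ) + 2) / 4) * (1 + (1 / 4) * s) ≤ 2 * (2 : ℝ) ^ s := by
    rw [h7]
    calc Real.exp (((s : ℝ) + 2) / 4) * (1 + (1 / 4) * s)
        ≤ Real.exp (((s : ℝ) + 2) / 4) * Real.exp ((1 / 4) * s) := by
          gcongr
          have := Real.add_one_le_exp ((1 / 4 : ℝ) * s)
          linarith
      _ = Real.exp (((s : ℝ) + 2) / 4 + (1 / 4) * s) := by rw [← Real.exp_add]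
      _ ≤ _ := Real.exp_le_exp.2 h8
  have h10 : 1 < Real.exp (((s : ℝ) + 2) / 4) := by
    have := Real.add_one_le_exp (((s : ℝ) + 2) / 4)
    linarith
  have h11 : C ≤ (1 / 4) * s := by
    rw [div_le_iff₀ (by norm_num)] at hs3
    linarith
  have h12 : (1 / 4 : ℝ) * s < Real.exp (((s : ℝ) + 2) / 4) * ((1 / 4) * s) := by
    have : (0 : ℝ) < (1 / 4) * s := by linarith
    nlinarith
  nlinarith

/-! ## the weights -/

theorem pb_q {n : ℕ} (hn : 1 ≤ n) : 0 < (2 : ℝ) ^ (-(1 / (n : ℝ))) ∧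
    (2 : ℝ) ^ (-(1 / (n : ℝ))) < 1 ∧ (((2 : ℝ) ^ (-(1 / (n : ℝ))))⁻¹) ^ n = 2 := by
  have hn' : (0 : ℝ) < n := by exact_mod_cast hn
  refine ⟨by positivity, ?_, ?_⟩
  · apply Real.rpow_lt_one_of_one_lt_of_neg (by norm_num)
    have : 0 < 1 / (n : ℝ) := by positivity
    linarith
  · rw [Real.rpow_neg (by norm_num), inv_inv, ← Real.rpow_natCast, ← Real.rpow_mul (by norm_num)]
    have : 1 / (n : ℝ) * n = 1 := by field_simp
    rw [this, Real.rpow_one]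

/-- number of rounds -/
def pbJ (A E : ℕ) (n : ℕ) : ℕ := ⌈2 * QP A E n⌉₊ + 1

theorem pbJ_le (A E : ℕ) {n : ℕ} (hn : 1 ≤ n) : (pbJ A E n : ℝ) ≤ QP (2 + A) E n := by
  have hn' : (1 : ℝ) ≤ n := by exact_mod_cast hn
  have h1 := pb_one_le_QP A E (show (0 : ℝ) ≤ n by linarith)
  have h2 : (⌈2 * QP A E n⌉₊ : ℝ) < 2 * QP A E n + 1 := Nat.ceil_lt_add_one (by linarith)
  have h3 := pb_four_le E hn'
  rw [← pb_QP_mul]
  unfold pbJ
  push_cast
  nlinarith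

theorem pbJ_spec (A E : ℕ) {n : ℕ} {x : ℝ} (hx : x ≤ (2 : ℝ) ^ (QP A E n)) :
    (2 / 3 : ℝ) ^ (pbJ A E n) * x < 1 := by
  set Q := QP A E n with hQ
  have hQ0 : 0 < Q := pb_QP_pos _ _ _
  have h1 : (2 / 3 : ℝ) ^ (pbJ A E n) ≤ (2 / 3 : ℝ) ^ (2 * Q + 1) := by
    rw [← Real.rpow_natCast]
    apply Real.rpow_le_rpow_of_exponent_ge (by norm_num) (by norm_num)
    unfold pbJ
    push_cast
    have := Nat.le_ceil (2 * Q)
    linarith
  have h2 : (2 / 3 : ℝ) ^ (2 * Q + 1) * (2 : ℝ) ^ Q = (8 / 9 : ℝ) ^ Q * (2 / 3) := by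
    rw [Real.rpow_add (by norm_num), Real.rpow_one, Real.rpow_mul (by norm_num)]
    have e : (8 / 9 : ℝ) = ((2 / 3 : ℝ) ^ (2 : ℝ)) * 2 := by norm_num
    rw [e, Real.mul_rpow (by positivity) (by norm_num)]
    ring
  have h3 : (8 / 9 : ℝ) ^ Q ≤ 1 := Real.rpow_le_one (by norm_num) (by norm_num) hQ0.le
  calc (2 / 3 : ℝ) ^ (pbJ A E n) * x ≤ (2 / 3 : ℝ) ^ (pbJ A E n) * (2 : ℝ) ^ Q := by gcongr
    _ ≤ (2 / 3 : ℝ) ^ (2 * Q + 1) * (2 : ℝ) ^ Q := by gcongr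
    _ = (8 / 9 : ℝ) ^ Q * (2 / 3) := h2
    _ ≤ 1 * (2 / 3) := by gcongr
    _ < 1 := by norm_num

theorem param {f : ℕ → ℕ} (hf : Tame f) (ε : ℝ) (T0 M0 g : ℕ) (hT0 : 1 ≤ T0) :
    ∃ (p : Par) (s1 s2 : ℕ) (q1 q2 q3 : ℝ),
      p.T0 = T0 ∧ p.M0 = M0 ∧ ParOK f ε g p s1 s2 q1 q2 q3 := by
  obtain ⟨A0, E0, hsq⟩ := sq_bound hf
  obtain ⟨A1, E1, hk⟩ := k_bound hf
  choose k hkk1 hkk2 hkk3 using hk
  set kf : ℕ → ℕ := fun D => if h : 1 ≤ D then k D h else 1 with hkf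
  have kf1 : ∀ D, 1 ≤ D → 1 ≤ kf D := by
    intro D hD
    simp only [hkf, hD, dite_true]
    exact hkk1 D hD
  have kf2 : ∀ D, 1 ≤ D → (kf D : ℝ) ≤ QP A1 E1 D := by
    intro D hD
    simp only [hkf, hD, dite_true]
    exact hkk2 D hD
  have kf3 : ∀ D, 1 ≤ D → f (kf D * D) < 2 ^ (kf D) := by
    intro D hD
    simp only [hkf, hD, dite_true]
    exact hkk3 D hD
  clear_value kf
  clear hkf hkk1 hkk2 hkk3 k
  -- the parameters as functions of `s`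
  set P : ℕ → Par := fun s =>
    let Tp := 2 * T0 * (M0 + s * g * g + 2)
    let k1 := kf (2 * Tp)
    let t1 := k1 * (2 * Tp)
    let J1 := pbJ A0 E0 (2 * t1)
    let T1 := Tp + J1 * (2 * t1 + 2 * Tp) + 2 * T0 * M0
    let k2 := kf (2 * T1)
    let t2 := k2 * (2 * T1)
    let J2 := pbJ A0 E0 (2 * t2)
    ⟨T0, M0, ε ^ 2, ε, s * g * g, k1, J1, k2, J2⟩ with hP
  have eT' : ∀ s, (P s).T' = 2 * T0 * (M0 + s * g * g + 2) := fun s => rfl
  have ek1 : ∀ s, (P s).k1 = kf (2 * (P s).T') := fun s => rfl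
  have et1 : ∀ s, (P s).t1 = (P s).k1 * (2 * (P s).T') := fun s => rfl
  have eJ1 : ∀ s, (P s).J1 = pbJ A0 E0 (2 * (P s).t1) := fun s => rfl
  have eT1 : ∀ s, (P s).T1 = (P s).T' + (P s).J1 * (2 * (P s).t1 + 2 * (P s).T') + 2 * T0 * M0 :=
    fun s => rfl
  have ek2 : ∀ s, (P s).k2 = kf (2 * (P s).T1) := fun s => rfl
  have et2 : ∀ s, (P s).t2 = (P s).k2 * (2 * (P s).T1) := fun s => rfl
  have eJ2 : ∀ s, (P s).J2 = pbJ A0 E0 (2 * (P s).t2) := fun s => rfl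
  have eθ0 : ∀ s, (P s).θ0 = ε ^ 2 := fun s => rfl
  have eθ1 : ∀ s, (P s).θ1 = ε := fun s => rfl
  have eN2 : ∀ s, (P s).N2 = s * g * g := fun s => rfl
  have eT0 : ∀ s, (P s).T0 = T0 := fun s => rfl
  have eM0 : ∀ s, (P s).M0 = M0 := fun s => rfl
  clear_value P
  -- positivity
  have pT' : ∀ s, 1 ≤ (P s).T' := by
    intro s
    rw [eT']
    have : 1 ≤ M0 + s * g * g + 2 := by omega
    calc 1 = 1 * 1 := rfl
      _ ≤ 2 * T0 * (M0 + s * g * g + 2) := Nat.mul_le_mul (by omega) this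
  have pk1 : ∀ s, 1 ≤ (P s).k1 := by
    intro s
    rw [ek1]
    exact kf1 _ (by have := pT' s; omega)
  have pt1 : ∀ s, 1 ≤ (P s).t1 := by
    intro s
    rw [et1]
    have h1 := pT' s
    exact Nat.mul_le_mul (pk1 s) (show 1 ≤ 2 * (P s).T' by omega)
  have pT1 : ∀ s, 1 ≤ (P s).T1 := by
    intro s
    rw [eT1]
    have h1 := pT' s
    omega
  have pk2 : ∀ s, 1 ≤ (P s).k2 := by
    intro s
    rw [ek2]
    exact kf1 _ (by have := pT1 s; omega)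
  have pt2 : ∀ s, 1 ≤ (P s).t2 := by
    intro s
    rw [et2]
    have h1 := pT1 s
    exact Nat.mul_le_mul (pk2 s) (show 1 ≤ 2 * (P s).T1 by omega)
  have pJ2 : ∀ s, 1 ≤ (P s).J2 := by
    intro s
    rw [eJ2]
    unfold pbJ
    omega
  -- quasipolynomial bounds
  have bT' : PbQB fun s => (P s).T' := by
    simp only [eT']
    exact (PbQB.const (2 * T0)).mul
      (((PbQB.const M0).add ((PbQB.id.mul (PbQB.const g)).mul (PbQB.const g))).add (PbQB.const 2))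
  have b2T' : PbQB fun s => 2 * (P s).T' := (PbQB.const 2).mul bT'
  have bk1 : PbQB fun s => (P s).k1 := by
    simp only [ek1]
    exact PbQB.comp kf2 b2T' fun s _ => by have := pT' s; omega
  have bt1 : PbQB fun s => (P s).t1 := by
    simp only [et1]
    exact bk1.mul b2T'
  have b2t1 : PbQB fun s => 2 * (P s).t1 := (PbQB.const 2).mul bt1
  have bJ1 : PbQB fun s => (P s).J1 := by
    simp only [eJ1]
    exact PbQB.comp (fun n hn => pbJ_le A0 E0 hn) b2t1 fun s _ => by have := pt1 s; omega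
  have bT1 : PbQB fun s => (P s).T1 := by
    simp only [eT1]
    exact (bT'.add (bJ1.mul (b2t1.add b2T'))).add (PbQB.const (2 * T0 * M0))
  have b2T1 : PbQB fun s => 2 * (P s).T1 := (PbQB.const 2).mul bT1
  have bk2 : PbQB fun s => (P s).k2 := by
    simp only [ek2]
    exact PbQB.comp kf2 b2T1 fun s _ => by have := pT1 s; omega
  have bt2 : PbQB fun s => (P s).t2 := by
    simp only [et2]
    exact bk2.mul b2T1
  have b2t2 : PbQB fun s => 2 * (P s).t2 := (PbQB.const 2).mul bt2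
  have bJ2 : PbQB fun s => (P s).J2 := by
    simp only [eJ2]
    exact PbQB.comp (fun n hn => pbJ_le A0 E0 hn) b2t2 fun s _ => by have := pt2 s; omega
  have bn : PbQB fun s => 2 * ((P s).t2 + (P s).T1) * (P s).J2 :=
    ((PbQB.const 2).mul (bt2.add bT1)).mul bJ2
  obtain ⟨An, En, hn⟩ := bn
  -- the final parameter
  obtain ⟨s0, hs0⟩ := pb_asymp (A0 * (An + 2) ^ E0) (En * E0) (2 + (g : ℝ))
  set s : ℕ := max (max s0 1) (4 * g + 4) with hs
  have hs01 : s0 ≤ s := (le_max_left _ _).trans (le_max_left _ _)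
  have hs1 : 1 ≤ s := (le_max_right _ _).trans (le_max_left _ _)
  have hsg : 4 * g + 4 ≤ s := le_max_right _ _
  have hs1' : (1 : ℝ) ≤ s := by exact_mod_cast hs1
  clear_value s
  have h2g : (g : ℝ) ≤ 2 ^ g := by
    have := Nat.lt_two_pow_self (n := g)
    exact_mod_cast this.le
  refine ⟨P s, 2 ^ s, s, (2 : ℝ) ^ (-(1 / ((2 * (P s).t1 : ℕ) : ℝ))),
    (2 : ℝ) ^ (-(1 / ((2 * (P s).t2 : ℕ) : ℝ))),
    (2 : ℝ) ^ (-(1 / ((2 * ((P s).t2 + (P s).T1) * (P s).J2 : ℕ) : ℝ))), eT0 s, eM0 s, ?_⟩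
  have n1 : 1 ≤ 2 * (P s).t1 := by have := pt1 s; omega
  have n2 : 1 ≤ 2 * (P s).t2 := by have := pt2 s; omega
  have n3 : 1 ≤ 2 * ((P s).t2 + (P s).T1) * (P s).J2 := by
    have h1 := pt2 s
    exact Nat.mul_le_mul (show 1 ≤ 2 * ((P s).t2 + (P s).T1) by omega) (pJ2 s)
  refine ⟨Nat.one_le_two_pow, hs1, eθ0 s, eθ1 s, eN2 s, pk1 s, pk2 s, ?_, ?_, ?_, ?_, ?_, ?_⟩
  · -- hin
    push_cast
    have e : (2 : ℝ) ^ s * g * g * g * (g * (1 / 4) ^ s) = (g : ℝ) ^ 4 * (1 / 2) ^ s := by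
      have : (1 / 4 : ℝ) ^ s = (1 / 2) ^ s * (1 / 2) ^ s := by
        rw [← mul_pow]
        norm_num
      have h2 : (2 : ℝ) ^ s * (1 / 2) ^ s = 1 := by
        rw [← mul_pow]
        norm_num
      rw [this]
      linear_combination (g : ℝ) ^ 4 * (1 / 2) ^ s * h2
    rw [e]
    calc (g : ℝ) ^ 4 * (1 / 2) ^ s ≤ (2 ^ g) ^ 4 * (1 / 2) ^ (4 * g + 4) := by
          have : (1 / 2 : ℝ) ^ s ≤ (1 / 2) ^ (4 * g + 4) :=
            pow_le_pow_of_le_one (by norm_num) (by norm_num) hsg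
          gcongr
      _ = (1 / 2) ^ 4 := by
          rw [pow_add, ← pow_mul, mul_comm g 4, ← mul_assoc, ← mul_pow]
          norm_num
      _ < 1 := by norm_num
  · rw [et1, ek1]
    exact kf3 _ (by have := pT' s; omega)
  · obtain ⟨a, b, c⟩ := pb_q n1
    refine ⟨a, b, c.le, ?_⟩
    rw [eJ1]
    exact pbJ_spec A0 E0 (hsq _ n1)
  · rw [et2, ek2]
    exact kf3 _ (by have := pT1 s; omega)
  · obtain ⟨a, b, c⟩ := pb_q n2
    refine ⟨a, b, c.le, ?_⟩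
    rw [eJ2]
    exact pbJ_spec A0 E0 (hsq _ n2)
  · obtain ⟨a, b, c⟩ := pb_q n3
    refine ⟨a, b, ?_⟩
    rw [← pow_mul, c]
    set n := 2 * ((P s).t2 + (P s).T1) * (P s).J2
    have h1 := hsq n n3
    have h2 : QP A0 E0 n ≤ QP (A0 * (An + 2) ^ E0) (En * E0) s :=
      (pb_QP_mono _ _ (by positivity) (hn s hs1)).trans (pb_QP_comp _ _ _ _ hs1')
    have h3 := hs0 s hs01
    have h4 : QP A0 E0 n + 1 + g < 2 * (2 : ℝ) ^ s := by linarith
    have h5 : (1 / 4 : ℝ) ^ (2 ^ s) = (2 : ℝ) ^ (-(2 * (2 : ℝ) ^ s)) := by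
      rw [Real.rpow_neg (by norm_num), Real.rpow_mul (by norm_num),
        show (2 : ℝ) ^ s = ((2 ^ s : ℕ) : ℝ) by push_cast; ring, Real.rpow_natCast,
        show ((2 : ℝ) ^ (2 : ℝ)) = 4 by norm_num, one_div, inv_pow]
    calc 2 * (Sq f ((2 : ℝ) ^ (-(1 / (n : ℝ)))) * (g * (1 / 4) ^ (2 ^ s)))
        ≤ 2 * ((2 : ℝ) ^ (QP A0 E0 n) * ((2 : ℝ) ^ g * (1 / 4) ^ (2 ^ s))) := by gcongr
      _ = (2 : ℝ) ^ (QP A0 E0 n + 1 + g - 2 * (2 : ℝ) ^ s) := by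
          rw [h5, sub_eq_add_neg, Real.rpow_add (by norm_num), Real.rpow_add (by norm_num),
            Real.rpow_add (by norm_num), Real.rpow_natCast, Real.rpow_one]
          ring
      _ < 1 := by
          apply Real.rpow_lt_one_of_one_lt_of_neg (by norm_num)
          linarith

end Pool.Agent.H56.Sub
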