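import Pool.Agent.H56.Sub.Outer
import Pool.Agent.H56.Sub.NdW
import Pool.Agent.H56.Sub.NdL
import Pool.Agent.H56.Sub.ParamB
import Pool.Agent.H56.Sub.Ce1
import Pool.Agent.H56.Sub.Ce2
import Pool.Agent.H56.Sub.Wsum

set_option autoImplicit false

noncomputable section

open scoped Classical

namespace Pool.Agent.H56.Sub


theorem T'_pos (p : Par) (h : 1 ≤ p.T0) : 1 ≤ p.T' := by
  unfold Par.T'
  have : 1 ≤ p.M0 + p.N2 + 2 := by omega
  nlinarith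

theorem T'_le_T1 (p : Par) : p.T' ≤ p.T1 := by
  unfold Par.T1
  exact le_add_right (le_add_right le_rfl)

theorem core {f : ℕ → ℕ} (hf : Tame f) {ε : ℝ} (T0 M0 g : ℕ) (hT0 : 1 ≤ T0) (hε : 0 < ε)
    (h4 : 4 * (g : ℝ) ^ 3 * ε ≤ 1) :
    ∃ p : Par, p.T0 = T0 ∧ ∀ (V Ω : Type) [Fintype V] [Fintype Ω] [Nonempty Ω]
      (G : SimpleGraph V) (B : (V → Ω) → V → Prop) (χ0 χ : V → ℕ) (M : ℕ), Dep G T0 B →
      Gr f G → (∀ v, (bl G v (10 * T0)).ncard ≤ g) →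
      ProperAt G (2 * T0) χ0 → (∀ u, χ0 u < M0) → ProperAt G p.R χ →
      (∀ u, χ u < M) → (∀ v, cp B nope v ≤ ε ^ 4) → ∀ v, ¬ B (det p M G B χ0 χ) v := by
  obtain ⟨p, s1, s2, q1, q2, q3, hpT, hpM, hp⟩ := param hf ε T0 M0 g hT0
  refine ⟨p, hpT, ?_⟩
  intro V Ω _ _ _ G B χ0 χ M hB hG hg hχ0 hM0 hχ hM h0 v hv
  subst hpT
  subst hpM
  have hT' : 1 ≤ p.T' := T'_pos p hT0
  have hT1 : p.T' ≤ p.T1 := T'_le_T1 p
  -- the two decompositions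
  have hND1 : IsND G (2 * p.T') p.t1 p.J1 (nd G (2 * p.T') p.k1 M χ p.J1) := by
    refine nd_isND hχ hM ?_ hp.hk1 ?_ hp.hq1.1 hp.hq1.2.1 hp.hq1.2.2.1 (fun v => wsum hf hG hp.hq1.1 hp.hq1.2.1 v)
      hp.hq1.2.2.2
    · unfold Par.R Par.t1
      nlinarith
    · intro v
      exact lt_of_le_of_lt (hG v _) hp.hg1
  have hND2 : IsND G (2 * p.T1) p.t2 p.J2 (nd G (2 * p.T1) p.k2 M χ p.J2) := by
    refine nd_isND hχ hM ?_ hp.hk2 ?_ hp.hq2.1 hp.hq2.2.1 hp.hq2.2.2.1 (fun v => wsum hf hG hp.hq2.1 hp.hq2.2.1 v)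
      hp.hq2.2.2.2
    · unfold Par.R Par.t2
      nlinarith
    · intro v
      exact lt_of_le_of_lt (hG v _) hp.hg2
  set cl1 := nd G (2 * p.T') p.k1 M χ p.J1 with hcl1
  set cl2 := nd G (2 * p.T1) p.k2 M χ p.J2 with hcl2
  have hcp : ∀ u, cp (F1 p G B χ0 cl1) nope u ≤ g * (1 / 4) ^ s1 := fun u =>
    F1_cp p hB hχ0 hM0 hg hε h4 hp.hθ0 hp.hθ1 hp.hs1 hp.hs2 hp.hN2 hp.hin hND1 h0 u
  have hF : Dep G p.T1 (F1 p G B χ0 cl1) := by
    intro w x y hxy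
    exact (F1_cag p (CAg.refl hB w p.T1) (fun _ _ => rfl) (fun _ _ => rfl)).2 w x y
      (by simp) hxy
  obtain ⟨hq30, hq31, hq3⟩ := hp.hq3
  have hlam : 1 ≤ (q3⁻¹) ^ (2 * (p.t2 + p.T1)) := by
    apply one_le_pow₀
    exact (one_le_inv₀ hq30).2 hq31.le
  have hwt : ∀ u, 0 ≤ wt q3 G v u := by
    intro u
    unfold wt
    split_ifs
    · positivity
    · exact le_rfl
  have key := ce_bound hND2 hF Set.univ Set.univ
    (fun w _ x y hxy => by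
      have : x = y := funext fun u => hxy u (Set.mem_univ u)
      rw [this])
    (fun w hw => (hw (Set.mem_univ w)).elim) (wt q3 G v) hwt
    ((q3⁻¹) ^ (2 * (p.t2 + p.T1))) hlam
    (fun c u w _ _ hu hw => wt_ratio hq30 hq31 v c u w hu hw)
  simp only [Set.mem_univ, if_true] at key
  have h1 : wt q3 G v v = 1 := by
    unfold wt
    rw [if_pos (SimpleGraph.Reachable.refl v)]
    simp
  have hL : 1 ≤ ∑ u, wt q3 G v u * ind (F1 p G B χ0 cl1 (ceOut G p.T1 p.t2 cl2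
      (F1 p G B χ0 cl1) p.J2) u) := by
    have hbad : F1 p G B χ0 cl1 (ceOut G p.T1 p.t2 cl2 (F1 p G B χ0 cl1) p.J2) v := hv
    have := Finset.single_le_sum (f := fun u => wt q3 G v u * ind (F1 p G B χ0 cl1
      (ceOut G p.T1 p.t2 cl2 (F1 p G B χ0 cl1) p.J2) u)) (fun u _ => by
        apply mul_nonneg (hwt u)
        unfold ind
        split_ifs <;> norm_num) (Finset.mem_univ v)
    refine le_trans ?_ this
    simp only [h1, ind, if_pos hbad]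
    norm_num
  have hR : ∑ u, wt q3 G v u * cp (F1 p G B χ0 cl1) nope u ≤
      Sq f q3 * (g * (1 / 4) ^ s1) := by
    calc ∑ u, wt q3 G v u * cp (F1 p G B χ0 cl1) nope u
        ≤ ∑ u, wt q3 G v u * (g * (1 / 4) ^ s1) :=
          Finset.sum_le_sum fun u _ => mul_le_mul_of_nonneg_left (hcp u) (hwt u)
      _ = (∑ u, wt q3 G v u) * (g * (1 / 4) ^ s1) := by rw [Finset.sum_mul]
      _ ≤ Sq f q3 * (g * (1 / 4) ^ s1) :=
          mul_le_mul_of_nonneg_right (wsum hf hG hq30 hq31 v) (by positivity)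
  have : (1 : ℝ) < 1 := calc
    (1 : ℝ) ≤ _ := hL
    _ ≤ _ := key
    _ ≤ ((q3⁻¹) ^ (2 * (p.t2 + p.T1))) ^ p.J2 * (Sq f q3 * (g * (1 / 4) ^ s1)) :=
        mul_le_mul_of_nonneg_left hR (by positivity)
    _ < 1 := hq3
  exact lt_irrefl _ this

theorem det_loc (p : Par) (M : ℕ) : ∃ ρ : ℕ, ∀ (V Ω : Type) [Fintype V] [Fintype Ω]
    [Nonempty Ω] (G H : SimpleGraph V) (B C : (V → Ω) → V → Prop) (χ0 χ0' χ χ' : V → ℕ) (v : V),
    CAg p.T0 G H B C v ρ → EqOn G v ρ χ0 χ0' → EqOn G v ρ χ χ' →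
    det p M G B χ0 χ v = det p M H C χ0' χ' v := by
  -- radii
  set r1 := p.J1 * (M * (2 * ((p.k1 + 1) * (2 * p.T')))) with hr1
  set r2 := p.J2 * (M * (2 * ((p.k2 + 1) * (2 * p.T1)))) with hr2
  set rc := p.J2 * (2 * p.t2 + 2 * p.T1) with hrc
  refine ⟨p.T1 + rc + (r1 + r2), ?_⟩
  intro V Ω _ _ _ G H B C χ0 χ0' χ χ' v hC hχ0 hχ
  unfold det
  have hcast : ∀ (a b c : ℕ), a ≤ b → ((a : ℕ∞) + (c : ℕ∞)) ≤ ((b + c : ℕ) : ℕ∞) := by
    intro a b c h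
    push_cast
    exact_mod_cast Nat.add_le_add_right h c
  -- the decompositions agree on the ball of radius T1 + rc
  have hnd1 : EqOn G v (p.T1 + rc) (nd G (2 * p.T') p.k1 M χ p.J1)
      (nd H (2 * p.T') p.k1 M χ' p.J1) := by
    intro u hu
    have hu' : G.edist v u + ((r1 + r2 : ℕ) : ℕ∞) ≤ ((p.T1 + rc + (r1 + r2) : ℕ) : ℕ∞) := by
      rw [Nat.cast_add (p.T1 + rc) (r1 + r2)]
      exact add_le_add_left hu _
    exact nd_loc (GAg.shift hC.1 hu') (EqOn.shift hχ hu') (by omega)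
  have hnd2 : EqOn G v (p.T1 + rc) (nd G (2 * p.T1) p.k2 M χ p.J2)
      (nd H (2 * p.T1) p.k2 M χ' p.J2) := by
    intro u hu
    have hu' : G.edist v u + ((r1 + r2 : ℕ) : ℕ∞) ≤ ((p.T1 + rc + (r1 + r2) : ℕ) : ℕ∞) := by
      rw [Nat.cast_add (p.T1 + rc) (r1 + r2)]
      exact add_le_add_left hu _
    exact nd_loc (GAg.shift hC.1 hu') (EqOn.shift hχ hu') (by omega)
  have hce : EqOn G v p.T1 (ceOut G p.T1 p.t2 (nd G (2 * p.T1) p.k2 M χ p.J2)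
      (F1 p G B χ0 (nd G (2 * p.T') p.k1 M χ p.J1)) p.J2)
      (ceOut H p.T1 p.t2 (nd H (2 * p.T1) p.k2 M χ' p.J2)
      (F1 p H C χ0' (nd H (2 * p.T') p.k1 M χ' p.J1)) p.J2) := by
    intro u hu
    have hu1 : G.edist v u + ((rc : ℕ) : ℕ∞) ≤ ((p.T1 + rc : ℕ) : ℕ∞) := by
      rw [Nat.cast_add]
      exact add_le_add_left hu _
    have hu2 : G.edist v u + ((rc + (r1 + r2) : ℕ) : ℕ∞) ≤
        ((p.T1 + rc + (r1 + r2) : ℕ) : ℕ∞) := by
      rw [add_assoc, Nat.cast_add p.T1]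
      exact add_le_add_left hu _
    have hu3 : G.edist v u + ((rc : ℕ) : ℕ∞) ≤ ((p.T1 + rc + (r1 + r2) : ℕ) : ℕ∞) :=
      le_trans hu1 (by exact_mod_cast Nat.le_add_right _ _)
    refine ce_loc (ρ := rc) ?_ (EqOn.shift hnd2 hu1) le_rfl
    exact F1_cag p (CAg.shift hC hu3) (EqOn.shift hχ0 hu3) (EqOn.shift hnd1 hu1)
  have hle : ∀ r ≤ p.T1 + rc + (r1 + r2), G.edist v v + ((r : ℕ) : ℕ∞) ≤
      ((p.T1 + rc + (r1 + r2) : ℕ) : ℕ∞) := by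
    intro r hr
    simp only [SimpleGraph.edist_self, zero_add]
    exact_mod_cast hr
  refine in1_loc (ρ := p.T1) p (CAg.shift hC (hle _ (by omega))) (EqOn.shift hχ0 (hle _ (by omega)))
    ?_ hce le_rfl
  intro u hu
  exact hnd1 u (le_trans hu (by exact_mod_cast Nat.le_add_right _ _))

end Pool.Agent.H56.Sub
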