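import Mathlib

/-!
# Squad SUB (MP_e442af_lc): definitions of the local algorithm

Everything lives on a fixed finite vertex type `V`; an algorithm is a function of a labelled graph on
`V`, and locality means that the value at `v` does not change when the input is changed far from `v`.
-/

set_option autoImplicit false

noncomputable section

open scoped Classical

namespace Pool.Agent.H56.Sub

variable {V Λ Ω : Type}

/-! ## Balls, colourings, labelled graphs -/

/-- The ball of radius `r`. -/
def bl (G : SimpleGraph V) (v : V) (r : ℕ) : Set V := {u | G.edist v u ≤ r}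

/-- `χ` takes different values at different vertices of distance at most `R`. -/
def ProperAt (G : SimpleGraph V) (R : ℕ) (χ : V → ℕ) : Prop :=
  ∀ u w, u ≠ w → G.edist u w ≤ R → χ u ≠ χ w

/-- A labelled graph on `V`. -/
structure LG (V Λ : Type) where
  /-- the graph -/
  G : SimpleGraph V
  /-- the labels -/
  lab : V → Λ

/-- `G` and `H` have the same neighbours at every vertex of the ball `B_G(v,r)`. -/
def GAg (G H : SimpleGraph V) (v : V) (r : ℕ) : Prop :=
  ∀ u, G.edist v u ≤ r → ∀ w, G.Adj u w ↔ H.Adj u w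

/-- `f` and `g` are equal on the ball `B_G(v,r)`. -/
def EqOn {L : Type} (G : SimpleGraph V) (v : V) (r : ℕ) (f g : V → L) : Prop :=
  ∀ u, G.edist v u ≤ r → f u = g u

/-- Two labelled graphs agree on the ball `B(v,r)` of the first one. -/
def LG.Ag (X Y : LG V Λ) (v : V) (r : ℕ) : Prop :=
  GAg X.G Y.G v r ∧ EqOn X.G v r X.lab Y.lab

/-! ## Expectation and conditional probability -/

/-- The average over all `x : V → Ω`. -/
def Ex [Fintype V] [Fintype Ω] (g : (V → Ω) → ℝ) : ℝ :=
  (∑ x : V → Ω, g x) / (Fintype.card Ω : ℝ) ^ Fintype.card V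

/-- The indicator of a proposition. -/
def ind (p : Prop) : ℝ := if p then 1 else 0

/-- Complete the partial assignment `σ` by `y`. -/
def fill (σ : V → Option Ω) (y : V → Ω) : V → Ω := fun u => (σ u).getD (y u)

/-- The conditional probability of the bad event at `v`, given the partial assignment `σ`. -/
def cp [Fintype V] [Fintype Ω] (B : (V → Ω) → V → Prop) (σ : V → Option Ω) (v : V) : ℝ :=
  Ex fun y => ind (B (fill σ y) v)

/-- The event at `v` depends only on the values on the ball `B(v,T)`. -/
def Dep (G : SimpleGraph V) (T : ℕ) (B : (V → Ω) → V → Prop) : Prop :=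
  ∀ v x y, EqOn G v T x y → (B x v ↔ B y v)

/-- The nowhere defined partial assignment. -/
def nope : V → Option Ω := fun _ => none

/-- The set where a partial assignment is not defined. -/
def unset (σ : V → Option Ω) : Set V := {u | σ u = none}

/-- Two systems of events on two graphs are the same inside the ball `B_G(v,r)`; the event at `w`
depends on the values on `B(w,T)`. -/
def CAg (T : ℕ) (G H : SimpleGraph V) (B C : (V → Ω) → V → Prop) (v : V) (r : ℕ) : Prop :=
  GAg G H v r ∧ ∀ w x y, G.edist v w + T ≤ r → EqOn G w T x y → (B x w ↔ C y w)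

/-! ## Shattering -/

/-- A state of the shattering process: the values fixed so far and the vertices which have
triggered. -/
structure Sh (V Ω : Type) where
  /-- the values -/
  val : V → Option Ω
  /-- the triggered vertices -/
  trg : Set V

/-- `u` is processed in step `i`: it has colour `i`, is unset in the beginning, and no vertex at
distance at most `2 * T` has triggered before. -/
def act (G : SimpleGraph V) (T : ℕ) (σ : V → Option Ω) (χ : V → ℕ) (i : ℕ) (s : Sh V Ω)
    (u : V) : Prop :=
  χ u = i ∧ σ u = none ∧ ∀ w ∈ s.trg, ¬ G.edist u w ≤ (2 * T : ℕ)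

/-- Fixing the value `ξ u` at `u` makes the conditional probability of some event at distance at
most `T` from `u` larger than `θ`. -/
def tst [Fintype V] [Fintype Ω] (G : SimpleGraph V) (T : ℕ) (B : (V → Ω) → V → Prop) (θ : ℝ)
    (ξ : V → Ω) (s : Sh V Ω) (u : V) : Prop :=
  ∃ v, G.edist u v ≤ T ∧ θ < cp B (Function.update s.val u (some (ξ u))) v

/-- The shattering process after the colours `< i`. -/
def sh [Fintype V] [Fintype Ω] (G : SimpleGraph V) (T : ℕ) (B : (V → Ω) → V → Prop)
    (σ : V → Option Ω) (θ : ℝ) (χ : V → ℕ) (ξ : V → Ω) : ℕ → Sh V Ω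
  | 0 => ⟨σ, ∅⟩
  | i + 1 =>
    let s := sh G T B σ θ χ ξ i
    ⟨fun u => if act G T σ χ i s u ∧ ¬ tst G T B θ ξ s u then some (ξ u) else s.val u,
      s.trg ∪ {u | act G T σ χ i s u ∧ tst G T B θ ξ s u}⟩

/-! ## Components of the unset vertices and the final filling -/

/-- Add to `K` the vertices of `A` at distance at most `r` from `K`. -/
def grow (G : SimpleGraph V) (r : ℕ) (A K : Set V) : Set V :=
  K ∪ {w | w ∈ A ∧ ∃ u ∈ K, G.edist u w ≤ r}

/-- The part of the component of `w` in `A` (steps of length at most `r`) reached in `n` steps. -/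
def cmp (G : SimpleGraph V) (r : ℕ) (A : Set V) (n : ℕ) (w : V) : Set V :=
  (grow G r A)^[n] {w}

/-- `y` avoids all events which see the set `K`, when completed by `τ`. -/
def Good (G : SimpleGraph V) (T : ℕ) (B : (V → Ω) → V → Prop) (τ : V → Option Ω) (K : Set V)
    (y : V → Ω) : Prop :=
  ∀ v, (∃ u ∈ K, G.edist v u ≤ T) → ¬ B (fill τ y) v

/-- Fill the unset vertices, component by component. -/
def finish [Nonempty Ω] (G : SimpleGraph V) (T N : ℕ) (B : (V → Ω) → V → Prop)
    (τ : V → Option Ω) : V → Ω := fun w =>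
  (τ w).getD (Classical.epsilon (Good G T B τ (cmp G (2 * T) (unset τ) N w)) w)

/-- Shatter (with `M` colours) the partial assignment `σ`, then fill. -/
def run [Fintype V] [Fintype Ω] [Nonempty Ω] (G : SimpleGraph V) (T M N : ℕ)
    (B : (V → Ω) → V → Prop) (σ : V → Option Ω) (θ : ℝ) (χ : V → ℕ) (ξ : V → Ω) : V → Ω :=
  finish G T N B (sh G T B σ θ χ ξ M).val

/-! ## Conditional expectations along a network decomposition -/

/-- The cluster with name `(j, c)`, cut off at distance `t` from its centre `c`. -/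
def clu (G : SimpleGraph V) (t : ℕ) (cl : V → Option (ℕ × V)) (j : ℕ) (c : V) : Set V :=
  {w | cl w = some (j, c) ∧ G.edist c w ≤ t}

/-- The expected number of failures at distance at most `T` from the cluster `(j,c)`, if the values
`y` are chosen on the cluster. -/
def pot [Fintype V] [Fintype Ω] (G : SimpleGraph V) (T t : ℕ) (cl : V → Option (ℕ × V))
    (F : (V → Ω) → V → Prop) (τ : V → Option Ω) (j : ℕ) (c : V) (y : V → Ω) : ℝ :=
  ∑ v : V, if ∃ w ∈ clu G t cl j c, G.edist v w ≤ T then
    cp F (fun w => if w ∈ clu G t cl j c then some (y w) else τ w) v else 0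

/-- A minimiser of the expected number of failures. -/
def best [Fintype V] [Fintype Ω] [Nonempty Ω] (G : SimpleGraph V) (T t : ℕ)
    (cl : V → Option (ℕ × V)) (F : (V → Ω) → V → Prop) (τ : V → Option Ω) (j : ℕ) (c : V) :
    V → Ω :=
  Classical.epsilon fun y => ∀ z, pot G T t cl F τ j c y ≤ pot G T t cl F τ j c z

/-- The assignment after the clusters of colours `< j` have chosen. -/
def ce [Fintype V] [Fintype Ω] [Nonempty Ω] (G : SimpleGraph V) (T t : ℕ)
    (cl : V → Option (ℕ × V)) (F : (V → Ω) → V → Prop) : ℕ → V → Option Ω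
  | 0 => nope
  | j + 1 => fun u =>
    match cl u with
    | some (i, c) => if i = j ∧ G.edist c u ≤ t then
        some (best G T t cl F (ce G T t cl F j) j c u) else ce G T t cl F j u
    | none => ce G T t cl F j u

/-- The final choice. -/
def ceOut [Fintype V] [Fintype Ω] [Nonempty Ω] (G : SimpleGraph V) (T t : ℕ)
    (cl : V → Option (ℕ × V)) (F : (V → Ω) → V → Prop) (J : ℕ) : V → Ω := fun u =>
  (ce G T t cl F J u).getD (Classical.arbitrary Ω)

/-- `cl` is a network decomposition: `J` colours, radius `t`, clusters of the same colour have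
distance larger than `D`. -/
def IsND (G : SimpleGraph V) (D t J : ℕ) (cl : V → Option (ℕ × V)) : Prop :=
  (∀ u, ∃ j c, j < J ∧ cl u = some (j, c) ∧ G.edist c u ≤ t) ∧
  ∀ u w j c c', cl u = some (j, c) → cl w = some (j, c') → c ≠ c' → (D : ℕ∞) < G.edist u w

/-! ## Construction of network decompositions: ball carving in the order of the colours -/

/-- The radius of the ball carved at `c` in the set `Y`, in units of `D`; at most `k`. -/
def rad (G : SimpleGraph V) (D k : ℕ) (Y : Set V) (c : V) : ℕ :=
  sInf {r | k ≤ r ∨ (Y ∩ bl G c ((r + 1) * D)).ncard ≤ 2 * (Y ∩ bl G c (r * D)).ncard}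

/-- The state after the centres of colours `< i` have carved: the vertices still alive and the
centres of the carved vertices. -/
def carve (G : SimpleGraph V) (D k : ℕ) (χ : V → ℕ) (U : Set V) : ℕ → Set V × (V → Option V)
  | 0 => (U, fun _ => none)
  | i + 1 =>
    let s := carve G D k χ U i
    ({u | u ∈ s.1 ∧ ∀ c ∈ s.1, χ c = i → ¬ G.edist c u ≤ ((rad G D k s.1 c + 1) * D : ℕ)},
      fun u => if h : u ∈ s.1 ∧ ∃ c ∈ s.1, χ c = i ∧ G.edist c u ≤ (rad G D k s.1 c * D : ℕ) then
        some (Classical.choose h.2) else s.2 u)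

/-- The network decomposition after `j` rounds of carving with `M` colours. -/
def nd (G : SimpleGraph V) (D k M : ℕ) (χ : V → ℕ) : ℕ → V → Option (ℕ × V)
  | 0 => fun _ => none
  | j + 1 => fun u =>
    match nd G D k M χ j u with
    | some p => some p
    | none => ((carve G D k χ {u | nd G D k M χ j u = none} M).2 u).map fun c => (j, c)

/-! ## The parameters and the whole algorithm -/

/-- The parameters of the algorithm. -/
structure Par where
  /-- the events depend on balls of this radius -/
  T0 : ℕ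
  /-- number of colours of the small scale colouring -/
  M0 : ℕ
  /-- threshold of the first shattering -/
  θ0 : ℝ
  /-- threshold of the second shattering -/
  θ1 : ℝ
  /-- bound for the second components -/
  N2 : ℕ
  /-- first decomposition: radius in units, number of colours -/
  k1 : ℕ
  /-- number of colours of the first decomposition -/
  J1 : ℕ
  /-- second decomposition: radius in units -/
  k2 : ℕ
  /-- number of colours of the second decomposition -/
  J2 : ℕ

/-- Radius on which the failure events of the inner algorithm depend. -/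
def Par.T' (p : Par) : ℕ := 2 * p.T0 * (p.M0 + p.N2 + 2)

/-- Radius of the clusters of the first decomposition. -/
def Par.t1 (p : Par) : ℕ := p.k1 * (2 * p.T')

/-- Radius on which the failure events of the outer algorithm depend. -/
def Par.T1 (p : Par) : ℕ := p.T' + p.J1 * (2 * p.t1 + 2 * p.T') + 2 * p.T0 * p.M0

/-- Radius of the clusters of the second decomposition. -/
def Par.t2 (p : Par) : ℕ := p.k2 * (2 * p.T1)

/-- The scale at which the large colouring has to be proper. -/
def Par.R (p : Par) : ℕ := 2 * p.t2 + 2 * p.t1 + 4 * p.T1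

section
variable [Fintype V] [Fintype Ω] [Nonempty Ω]

/-- The inner algorithm (second shattering and filling), for a given first partial assignment. -/
def in2 (p : Par) (G : SimpleGraph V) (B : (V → Ω) → V → Prop) (χ0 : V → ℕ) (σ : V → Option Ω)
    (ξ : V → Ω) : V → Ω :=
  run G p.T0 p.M0 p.N2 B σ p.θ1 χ0 ξ

/-- The failure events of the inner algorithm. -/
def F2 (p : Par) (G : SimpleGraph V) (B : (V → Ω) → V → Prop) (χ0 : V → ℕ) (σ : V → Option Ω)
    (ξ : V → Ω) (v : V) : Prop :=
  B (in2 p G B χ0 σ ξ) v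

/-- The result of the first shattering. -/
def sg (p : Par) (G : SimpleGraph V) (B : (V → Ω) → V → Prop) (χ0 : V → ℕ) (ξ : V → Ω) :
    V → Option Ω :=
  (sh G p.T0 B nope p.θ0 χ0 ξ p.M0).val

/-- The outer algorithm: shatter, then derandomise the inner algorithm with the decomposition
`cl`. -/
def in1 (p : Par) (G : SimpleGraph V) (B : (V → Ω) → V → Prop) (χ0 : V → ℕ)
    (cl : V → Option (ℕ × V)) (ξ : V → Ω) : V → Ω :=
  in2 p G B χ0 (sg p G B χ0 ξ)
    (ceOut G p.T' p.t1 cl (F2 p G B χ0 (sg p G B χ0 ξ)) p.J1)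

/-- The failure events of the outer algorithm. -/
def F1 (p : Par) (G : SimpleGraph V) (B : (V → Ω) → V → Prop) (χ0 : V → ℕ)
    (cl : V → Option (ℕ × V)) (ξ : V → Ω) (v : V) : Prop :=
  B (in1 p G B χ0 cl ξ) v

/-- The deterministic algorithm: derandomise the outer algorithm with a second decomposition. -/
def det (p : Par) (M : ℕ) (G : SimpleGraph V) (B : (V → Ω) → V → Prop) (χ0 χ : V → ℕ) :
    V → Ω :=
  in1 p G B χ0 (nd G (2 * p.T') p.k1 M χ p.J1)
    (ceOut G p.T1 p.t2 (nd G (2 * p.T1) p.k2 M χ p.J2)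
      (F1 p G B χ0 (nd G (2 * p.T') p.k1 M χ p.J1)) p.J2)

end

/-! ## Weights, growth, walks, conditions on the parameters -/

/-- Exponential weights. -/
def wt (q : ℝ) (G : SimpleGraph V) (v u : V) : ℝ := if G.Reachable v u then q ^ G.dist v u else 0

/-- All balls of radius `r` have at most `f r` elements. -/
def Gr (f : ℕ → ℕ) (G : SimpleGraph V) : Prop := ∀ v r, (bl G v r).ncard ≤ f r

/-- The growth function `f` is tame: `log (f r) ≤ r / exp ((log r) ^ δ)` for large `r`. -/
def Tame (f : ℕ → ℕ) : Prop :=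
  ∃ δ : ℝ, 0 < δ ∧ ∀ᶠ r : ℕ in Filter.atTop,
    Real.log (f r) ≤ r * Real.exp (-(Real.log r) ^ δ)

/-- The sum of the weights if all balls of radius `r` have `f r` elements. -/
def Sq (f : ℕ → ℕ) (q : ℝ) : ℝ := ∑' r : ℕ, (f r : ℝ) * q ^ r

/-- Quasipolynomial functions. -/
def QP (A E : ℕ) (x : ℝ) : ℝ := Real.exp (A * (Real.log (x + 2)) ^ E)

/-- The lists `t = x_0, x_1, ..., x_n` with consecutive distances at most `D`. -/
def walks [Fintype V] (G : SimpleGraph V) (D : ℕ) : ℕ → V → Finset (List V)
  | 0, t => {[t]}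
  | n + 1, t => (Finset.univ.filter fun u => G.edist t u ≤ D).biUnion fun u =>
      (walks G D n u).image (List.cons t)

/-- The conditions on the parameters; `p` is the parameter tuple, `s1` the bound for the first
components, `s2` for the second components (in units `g * g`). -/
structure ParOK (f : ℕ → ℕ) (ε : ℝ) (g : ℕ) (p : Par) (s1 s2 : ℕ) (q1 q2 q3 : ℝ) : Prop where
  hs1 : 1 ≤ s1
  hs2 : 1 ≤ s2
  hθ0 : p.θ0 = ε ^ 2
  hθ1 : p.θ1 = ε
  hN2 : p.N2 = s2 * g * g
  hk1 : 1 ≤ p.k1
  hk2 : 1 ≤ p.k2
  hin : ((s1 * g * g : ℕ) : ℝ) * g * (g * (1 / 4) ^ s2) < 1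
  hg1 : f p.t1 < 2 ^ p.k1
  hq1 : 0 < q1 ∧ q1 < 1 ∧ (q1⁻¹) ^ (2 * p.t1) ≤ 2 ∧ (2 / 3 : ℝ) ^ p.J1 * Sq f q1 < 1
  hg2 : f p.t2 < 2 ^ p.k2
  hq2 : 0 < q2 ∧ q2 < 1 ∧ (q2⁻¹) ^ (2 * p.t2) ≤ 2 ∧ (2 / 3 : ℝ) ^ p.J2 * Sq f q2 < 1
  hq3 : 0 < q3 ∧ q3 < 1 ∧
    ((q3⁻¹) ^ (2 * (p.t2 + p.T1))) ^ p.J2 * (Sq f q3 * (g * (1 / 4) ^ s1)) < 1

end Pool.Agent.H56.Sub
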