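import Pool.Agent.H56.Sub.View
import Pool.Agent.H56.Sub.BitsMap

/-!
# Squad SUB, module Disc: finitely many random bits per vertex suffice, up to a small error
-/

set_option autoImplicit false

noncomputable section

open scoped Classical ENNReal
open MeasureTheory

namespace Pool.Agent.H56.Sub


namespace Ds

/-! ## The coin and the random bits -/

instance : IsProbabilityMeasure coin := by
  unfold coin
  infer_instance

instance {V : Type} : IsProbabilityMeasure (bits V) := by
  unfold bits
  infer_instance

theorem coin_singleton (z : Bool) : coin {z} = 2⁻¹ := by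
  unfold coin
  rw [PMF.toMeasure_apply_singleton _ _ (measurableSet_singleton z)]
  simp [PMF.uniformOfFintype_apply]

variable {V : Type} [Finite V]

/-- the first `m` bits -/
def pre (m : ℕ) (b : V → ℕ → Bool) : V → Fin m → Bool := fun w k => b w k

omit [Finite V] in
theorem measurable_pre (m : ℕ) : Measurable (pre (V := V) m) := by
  apply measurable_pi_lambda
  intro w
  apply measurable_pi_lambda
  intro k
  exact (measurable_pi_apply (k : ℕ)).comp (measurable_pi_apply w)

theorem bits_pre (m : ℕ) (x : V → Fin m → Bool) :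
    bits V {b | pre m b = x} = (2⁻¹ : ℝ≥0∞) ^ (m * Nat.card V) := by
  have := Fintype.ofFinite V
  have e1 : {b : V → ℕ → Bool | pre m b = x} =
      Set.pi (Finset.univ : Finset V) (fun w => Set.pi (Finset.range m)
        (fun k => {z | ∀ h : k < m, z = x w ⟨k, h⟩})) := by
    ext b
    simp only [Set.mem_ofPred_eq, Set.mem_pi, Finset.coe_univ, Set.mem_univ, forall_true_left,
      Finset.coe_range, Set.mem_Iio]
    constructor
    · rintro h w k hk hk'
      rw [← h]
      rfl
    · intro h
      funext w k
      exact h w k k.2 k.2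
  have hms : ∀ (w : V) (k : ℕ), MeasurableSet {z : Bool | ∀ h : k < m, z = x w ⟨k, h⟩} :=
    fun w k => MeasurableSet.of_discrete
  rw [e1]
  unfold bits
  rw [Measure.infinitePi_pi _ (fun w _ => MeasurableSet.pi (Finset.countable_toSet _)
    (fun k _ => hms w k))]
  have e2 : ∀ w : V, (Measure.infinitePi fun _ : ℕ => coin) (Set.pi (Finset.range m)
      (fun k => {z | ∀ h : k < m, z = x w ⟨k, h⟩})) = (2⁻¹ : ℝ≥0∞) ^ m := by
    intro w
    rw [Measure.infinitePi_pi _ (fun k _ => hms w k)]
    rw [Finset.prod_congr rfl (g := fun _ => (2⁻¹ : ℝ≥0∞)), Finset.prod_const, Finset.card_range]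
    intro k hk
    have hk' : k < m := Finset.mem_range.1 hk
    have e3 : {z : Bool | ∀ h : k < m, z = x w ⟨k, h⟩} = {x w ⟨k, hk'⟩} := by
      ext z
      simp only [Set.mem_ofPred_eq, Set.mem_singleton_iff]
      exact ⟨fun h => h hk', fun h _ => h⟩
    rw [e3, coin_singleton]
  rw [Finset.prod_congr rfl (fun w _ => e2 w), Finset.prod_const, ← pow_mul, Finset.card_univ,
    Nat.card_eq_fintype_card]


theorem measurableSet_pre (m : ℕ) (Q : (V → Fin m → Bool) → Prop) :
    MeasurableSet {b : V → ℕ → Bool | Q (pre m b)} :=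
  measurable_pre m (MeasurableSet.of_discrete (s := {x | Q x}))

/-- the first `m` bits are uniformly distributed -/
theorem bits_pre_mem (m : ℕ) (Q : (V → Fin m → Bool) → Prop) :
    bits V {b | Q (pre m b)} =
      (Nat.card {x : V → Fin m → Bool // Q x} : ℝ≥0∞) * (2⁻¹ : ℝ≥0∞) ^ (m * Nat.card V) := by
  have := Fintype.ofFinite V
  have h1 := sum_measure_preimage_singleton (μ := bits V)
    (Finset.univ.filter fun x : V → Fin m → Bool => Q x) (f := pre m)
    (fun y _ => measurable_pre m (measurableSet_singleton y))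
  have e1 : {b : V → ℕ → Bool | Q (pre m b)} =
      pre m ⁻¹' ((Finset.univ.filter fun x : V → Fin m → Bool => Q x : Finset _) :
        Set (V → Fin m → Bool)) := by
    ext b
    simp
  rw [e1, ← h1]
  rw [Finset.sum_congr rfl (f := fun x => bits V (pre m ⁻¹' {x}))
    (g := fun _ => (2⁻¹ : ℝ≥0∞) ^ (m * Nat.card V))
    (fun x _ => bits_pre m x), Finset.sum_const, nsmul_eq_mul]
  congr 2
  rw [Nat.card_eq_fintype_card, Fintype.card_subtype]

theorem Ex_ind_eq [Fintype V] (m : ℕ) (Q : (V → Fin m → Bool) → Prop) :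
    Ex (fun x => ind (Q x)) = (bits V {b | Q (pre m b)}).toReal := by
  rw [bits_pre_mem, ENNReal.toReal_mul, ENNReal.toReal_pow, ENNReal.toReal_inv,
    ENNReal.toReal_natCast]
  unfold Ex ind
  rw [Finset.sum_boole]
  simp only [Fintype.card_fun, Fintype.card_bool, Fintype.card_fin, Nat.cast_pow, Nat.cast_ofNat,
    ENNReal.toReal_ofNat, Nat.card_eq_fintype_card, Fintype.card_subtype]
  rw [pow_mul, inv_pow, inv_pow, div_eq_mul_inv]


/-! ## The predictor -/

section predictor

variable {S : Type} (A : Rule (ℕ → Bool) S) (t : ℕ) (G : SimpleGraph V) (m : ℕ)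

/-- The probability that the first bits of the vertices of the ball are given by `x` and the output
at `u` is `s`. -/
def score (u : V) (x : V → Fin m → Bool) (s : S) : ℝ≥0∞ :=
  bits V {b | (∀ w, G.edist u w ≤ t → pre m b w = x w) ∧ outB A t G b u = s}

/-- The most probable output. -/
def guess [Nonempty S] (x : V → Fin m → Bool) (u : V) : S :=
  Classical.epsilon fun s => ∀ s', score A t G m u x s' ≤ score A t G m u x s

theorem guess_spec [Finite S] [Nonempty S] (x : V → Fin m → Bool) (u : V) (s : S) :
    score A t G m u x s ≤ score A t G m u x (guess A t G m x u) := by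
  obtain ⟨s₀, h₀⟩ := Finite.exists_max fun s => score A t G m u x s
  exact Classical.epsilon_spec (p := fun s => ∀ s', score A t G m u x s' ≤ score A t G m u x s)
    ⟨s₀, h₀⟩ s

variable {A t G m}

theorem outB_congr {H : SimpleGraph V} {b c : V → ℕ → Bool} {u : V} (hG : GAg G H u t)
    (hb : EqOn G u t b c) : outB A t G b u = outB A t H c u :=
  A.inv _ _ (view_iso_of_ag hG hb)

theorem score_congr {H : SimpleGraph V} {u : V} {x y : V → Fin m → Bool} (hG : GAg G H u t)
    (hx : EqOn G u t x y) (s : S) : score A t G m u x s = score A t H m u y s := by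
  unfold score
  congr 1
  ext b
  simp only [Set.mem_ofPred_eq]
  rw [outB_congr (A := A) (b := b) (c := b) hG (fun _ _ => rfl)]
  refine and_congr_left fun _ => ?_
  constructor
  · intro h w hw
    have hw' : G.edist u w ≤ t := (GAg.edist_iff hG (by omega) w).2 hw
    rw [h w hw', hx w hw']
  · intro h w hw
    have hw' : H.edist u w ≤ t := (GAg.edist_iff hG (by omega) w).1 hw
    rw [h w hw', hx w hw]

theorem guess_congr [Nonempty S] {H : SimpleGraph V} {u : V} {x y : V → Fin m → Bool}
    (hG : GAg G H u t) (hx : EqOn G u t x y) :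
    guess A t G m x u = guess A t H m y u := by
  unfold guess
  congr 1
  funext s
  simp only [score_congr (A := A) hG hx]

theorem measurableSet_eq {u : V} (hE : ∀ s, MeasurableSet {b | outB A t G b u = s})
    (f : (V → Fin m → Bool) → S) : MeasurableSet {b | outB A t G b u = f (pre m b)} := by
  have e1 : {b | outB A t G b u = f (pre m b)} =
      ⋃ x : V → Fin m → Bool, ({b | pre m b = x} ∩ {b | outB A t G b u = f x}) := by
    ext b
    simp only [Set.mem_ofPred_eq, Set.mem_iUnion, Set.mem_inter_iff]
    constructor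
    · intro h
      exact ⟨pre m b, rfl, h⟩
    · rintro ⟨x, rfl, h⟩
      exact h
  rw [e1]
  exact MeasurableSet.iUnion fun x => (measurableSet_pre m (fun y => y = x)).inter (hE (f x))

/-- The probability of agreement of the output with a local predictor, as a sum over the patterns
on the ball. -/
theorem bits_eq_sum {u : V} (f : (V → Fin m → Bool) → S) (hf : ∀ x y, EqOn G u t x y → f x = f y)
    [Fintype (bl G u t → Fin m → Bool)] :
    bits V {b | outB A t G b u = f (pre m b)} =
      ∑ y : bl G u t → Fin m → Bool,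
        score A t G m u (fun w => if h : w ∈ bl G u t then y ⟨w, h⟩ else fun _ => false)
          (f fun w => if h : w ∈ bl G u t then y ⟨w, h⟩ else fun _ => false) := by
  have hπ : Measurable fun (b : V → ℕ → Bool) (w : bl G u t) => pre m b w :=
    measurable_pi_lambda _ fun w => (measurable_pi_apply (w : V)).comp (measurable_pre m)
  have h1 := sum_measure_preimage_singleton
    (μ := (bits V).restrict {b | outB A t G b u = f (pre m b)})
    (Finset.univ : Finset (bl G u t → Fin m → Bool))
    (f := fun (b : V → ℕ → Bool) (w : bl G u t) => pre m b w)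
    (fun y _ => hπ (measurableSet_singleton y))
  rw [Finset.coe_univ, Set.preimage_univ, Measure.restrict_apply MeasurableSet.univ,
    Set.univ_inter] at h1
  rw [← h1]
  refine Finset.sum_congr rfl fun y _ => ?_
  rw [Measure.restrict_apply (hπ (measurableSet_singleton y))]
  unfold score
  congr 1
  ext b
  simp only [Set.mem_inter_iff, Set.mem_preimage, Set.mem_singleton_iff, Set.mem_ofPred_eq]
  have e0 : ((fun w : bl G u t => pre m b w) = y) ↔ ∀ w, G.edist u w ≤ t →
      pre m b w = (fun w => if h : w ∈ bl G u t then y ⟨w, h⟩ else fun _ => false) w := by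
    constructor
    · rintro h w hw
      have hw' : w ∈ bl G u t := hw
      simp only [hw', dif_pos]
      exact congrFun h ⟨w, hw'⟩
    · intro h
      funext w
      have h2 := h w w.2
      simp only [w.2, dif_pos] at h2
      exact h2
  rw [e0]
  refine and_congr_right fun h => ?_
  rw [hf _ _ h]

/-- The guess is the best local predictor. -/
theorem guess_best [Finite S] [Nonempty S] {u : V}
    (hE : ∀ s, MeasurableSet {b | outB A t G b u = s})
    (f : (V → Fin m → Bool) → S) (hf : ∀ x y, EqOn G u t x y → f x = f y) :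
    bits V {b | outB A t G b u ≠ guess A t G m (pre m b) u} ≤
      bits V {b | outB A t G b u ≠ f (pre m b)} := by
  have := Fintype.ofFinite (bl G u t → Fin m → Bool)
  have h1 : bits V {b | outB A t G b u = f (pre m b)} ≤
      bits V {b | outB A t G b u = guess A t G m (pre m b) u} := by
    rw [bits_eq_sum f hf, bits_eq_sum (fun x => guess A t G m x u)
      (fun x y h => guess_congr (fun _ _ _ => Iff.rfl) h)]
    exact Finset.sum_le_sum fun y _ => guess_spec A t G m _ u _
  have h2 := prob_compl_eq_one_sub (μ := bits V) (measurableSet_eq hE f)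
  have h3 := prob_compl_eq_one_sub (μ := bits V)
    (measurableSet_eq hE (fun x => guess A t G m x u))
  change bits V {b | outB A t G b u = guess A t G m (pre m b) u}ᶜ ≤
    bits V {b | outB A t G b u = f (pre m b)}ᶜ
  rw [h2, h3]
  exact tsub_le_tsub_left h1 1

end predictor

/-! ## Approximation by cylinders -/

section approx

/-- the sets depending on finitely many bits -/
def cyl (W : Type) : Set (Set (W → ℕ → Bool)) :=
  {E | ∃ m, ∃ D : Set (W → Fin m → Bool), E = pre m ⁻¹' D}

theorem cyl_lift {W : Type} {m M : ℕ} (h : m ≤ M) (D : Set (W → Fin m → Bool)) :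
    ∃ D' : Set (W → Fin M → Bool), pre m ⁻¹' D = pre M ⁻¹' D' :=
  ⟨{x | (fun w k => x w (Fin.castLE h k)) ∈ D}, rfl⟩

theorem isSetAlgebra_cyl (W : Type) : IsSetAlgebra (cyl W) where
  empty_mem := ⟨0, ∅, rfl⟩
  compl_mem := by
    rintro _ ⟨m, D, rfl⟩
    exact ⟨m, Dᶜ, rfl⟩
  union_mem := by
    rintro _ _ ⟨m, D, rfl⟩ ⟨m', D', rfl⟩
    obtain ⟨E, hE⟩ := cyl_lift (le_max_left m m') D
    obtain ⟨E', hE'⟩ := cyl_lift (le_max_right m m') D'
    exact ⟨max m m', E ∪ E', by rw [hE, hE']; rfl⟩

theorem generateFrom_cyl (W : Type) [Finite W] :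
    (MeasurableSpace.pi : MeasurableSpace (W → ℕ → Bool)) =
      MeasurableSpace.generateFrom (cyl W) := by
  apply le_antisymm
  · have h : @Measurable _ _ (MeasurableSpace.generateFrom (cyl W)) MeasurableSpace.pi
        (fun b : W → ℕ → Bool => b) := by
      refine @measurable_pi_lambda _ _ _ (MeasurableSpace.generateFrom (cyl W)) _ _ fun w => ?_
      refine @measurable_pi_lambda _ _ _ (MeasurableSpace.generateFrom (cyl W)) _ _ fun k => ?_
      refine @measurable_to_bool _ (MeasurableSpace.generateFrom (cyl W)) _ ?_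
      apply MeasurableSpace.measurableSet_generateFrom
      exact ⟨k + 1, {x | x w ⟨k, by omega⟩ = true}, rfl⟩
    intro s hs
    exact h hs
  · apply MeasurableSpace.generateFrom_le
    rintro _ ⟨m, D, rfl⟩
    exact measurable_pre m (MeasurableSet.of_discrete)

theorem approx {W : Type} [Finite W] {E : Set (W → ℕ → Bool)} (hE : MeasurableSet E) {η : ℝ}
    (hη : 0 < η) : ∃ m₀, ∀ m, m₀ ≤ m → ∃ D : Set (W → Fin m → Bool),
      bits W (symmDiff E (pre m ⁻¹' D)) ≤ ENNReal.ofReal η := by
  have h := Measure.MeasureDense.of_generateFrom_isSetAlgebra_finite (bits W)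
    (isSetAlgebra_cyl W) (generateFrom_cyl W)
  obtain ⟨_, ⟨m₀, D, rfl⟩, h2⟩ := h.approx E hE (measure_ne_top _ _) η hη
  refine ⟨m₀, fun m hm => ?_⟩
  obtain ⟨D', hD'⟩ := cyl_lift hm D
  exact ⟨D', by rw [← hD']; exact h2.le⟩

variable {S : Type} {A : Rule (ℕ → Bool) S} {t : ℕ} {G : SimpleGraph V}

/-- extension by `false` -/
def ext (B : Set V) (c : B → ℕ → Bool) (w : V) : ℕ → Bool :=
  if h : w ∈ B then c ⟨w, h⟩ else fun _ => false

omit [Finite V] in
theorem measurable_ext (B : Set V) : Measurable (ext B) := by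
  apply measurable_pi_lambda
  intro w
  by_cases h : w ∈ B
  · have e : (fun c => ext B c w) = fun c => c ⟨w, h⟩ := by
      funext c
      simp [ext, h]
    rw [e]
    exact measurable_pi_apply _
  · have e : (fun c => ext B c w) = fun _ => fun _ => false := by
      funext c
      simp [ext, h]
    rw [e]
    exact measurable_const

/-- There are good local predictors. -/
theorem exists_pred [Finite S] [Nonempty S] {u : V}
    (hE : ∀ s, MeasurableSet {b | outB A t G b u = s}) {η : ℝ} (hη : 0 < η) :
    ∃ m₀, ∀ m, m₀ ≤ m → ∃ f : (V → Fin m → Bool) → S,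
      (∀ x y, EqOn G u t x y → f x = f y) ∧
      bits V {b | outB A t G b u ≠ f (pre m b)} ≤ ENNReal.ofReal η := by
  have := Fintype.ofFinite S
  set B : Set V := bl G u t with hB
  obtain ⟨m1, m2⟩ := bits_map (Subtype.val : B → V) Subtype.val_injective
  have hE' : ∀ s, MeasurableSet (ext B ⁻¹' {b | outB A t G b u = s}) := fun s =>
    measurable_ext B (hE s)
  have hout : ∀ b : V → ℕ → Bool, outB A t G (ext B fun w => b w) u = outB A t G b u := by
    intro b
    apply outB_congr (fun _ _ _ => Iff.rfl)
    intro w hw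
    have hw' : w ∈ B := hw
    simp [ext, hw']
  have hη' : 0 < η / Fintype.card S := by
    have : 0 < Fintype.card S := Fintype.card_pos
    positivity
  choose m₀ hm₀ using fun s => approx (hE' s) hη'
  refine ⟨∑ s, m₀ s, fun m hm => ?_⟩
  choose D hD using fun s => hm₀ s m
    ((Finset.single_le_sum (f := m₀) (fun _ _ => Nat.zero_le _) (Finset.mem_univ s)).trans hm)
  refine ⟨fun x => Classical.epsilon fun s => (fun w : B => x w) ∈ D s, ?_, ?_⟩
  · intro x y hxy
    have e : (fun w : B => x w) = fun w : B => y w := by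
      funext w
      exact hxy w w.2
    simp only [e]
  · have hsub : {b | outB A t G b u ≠ Classical.epsilon fun s =>
        (fun w : B => pre m b w) ∈ D s} ⊆
        ⋃ s ∈ (Finset.univ : Finset S), (fun (b : V → ℕ → Bool) (w : B) => b w) ⁻¹'
          (symmDiff (ext B ⁻¹' {b | outB A t G b u = s}) (pre m ⁻¹' D s)) := by
      intro b hb
      by_contra hcon
      simp only [Finset.mem_univ, Set.iUnion_true, Set.mem_iUnion, not_exists] at hcon
      apply hb
      have h1 : ∀ s, outB A t G b u = s ↔ (fun w : B => pre m b w) ∈ D s := by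
        intro s
        have h2 := hcon s
        simp only [Set.mem_preimage, Set.mem_symmDiff, Set.mem_ofPred_eq] at h2
        rw [hout b] at h2
        have h3 : pre m (fun w : B => b w) = fun w : B => pre m b w := rfl
        rw [h3] at h2
        tauto
      have h4 : (fun w : B => pre m b w) ∈ D (Classical.epsilon fun s =>
          (fun w : B => pre m b w) ∈ D s) :=
        Classical.epsilon_spec (p := fun s => (fun w : B => pre m b w) ∈ D s)
          ⟨_, (h1 _).1 rfl⟩
      exact (h1 _).2 h4
    refine (measure_mono hsub).trans ((measure_biUnion_finset_le _ _).trans ?_)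
    have hbd : ∀ s, bits V ((fun (b : V → ℕ → Bool) (w : B) => b w) ⁻¹'
          (symmDiff (ext B ⁻¹' {b | outB A t G b u = s}) (pre m ⁻¹' D s))) ≤
          ENNReal.ofReal (η / Fintype.card S) := by
      intro s
      rw [← Measure.map_apply m1 ((hE' s).symmDiff (measurable_pre m MeasurableSet.of_discrete)),
        m2]
      exact hD s
    refine (Finset.sum_le_sum fun s _ => hbd s).trans ?_
    rw [Finset.sum_const, Finset.card_univ, nsmul_eq_mul, ← ENNReal.ofReal_natCast,
      ← ENNReal.ofReal_mul (by positivity)]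
    apply ENNReal.ofReal_le_ofReal
    have : (0 : ℝ) < Fintype.card S := by exact_mod_cast Fintype.card_pos
    rw [mul_div_cancel₀ _ this.ne']

end approx

end Ds

open Ds

/-- Module Disc: finitely many random bits per vertex suffice, up to a small error. -/
theorem disc (P : LCL) (A : Rule (ℕ → Bool) P.S) (t0 N : ℕ) {δ : ℝ} (hδ : 0 < δ) :
    ∃ (m : ℕ) (O : LG (Fin N) Prop → (Fin N → (Fin m → Bool)) → Fin N → P.S),
      (∀ X Y v x y, X.Ag Y v t0 → EqOn X.G v t0 x y → O X x v = O Y y v) ∧
      ∀ (X : LG (Fin N) Prop) (a : Fin N),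
        (∀ u, X.G.edist a u ≤ P.r → ∀ s, MeasurableSet {b | outB A t0 X.G b u = s}) →
        ∀ p : ℝ, 0 ≤ p →
          bits (Fin N) {b | ¬ P.ok (view X.G (outB A t0 X.G b) a P.r)} ≤ ENNReal.ofReal p →
          Ex (fun x => ind (¬ P.ok (view X.G (O X x) a P.r))) ≤ p + δ := by
  have hfin := P.fin
  have hne : Nonempty P.S := ⟨A.out ⟨Unit, inferInstance, ⊥, (), fun _ _ => false⟩⟩
  obtain ⟨η, hη⟩ : ∃ η, η = δ / (N + 1) := ⟨_, rfl⟩
  have hN : (0 : ℝ) < N + 1 := by positivity
  have hη0 : 0 < η := by rw [hη]; positivity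
  have hηN : N * η ≤ δ := by
    rw [hη, mul_div_assoc', div_le_iff₀ hN]
    nlinarith
  have key : ∀ (q : SimpleGraph (Fin N) × Fin N), ∃ m₀, ∀ m, m₀ ≤ m →
      (∀ s, MeasurableSet {b | outB A t0 q.1 b q.2 = s}) →
      bits (Fin N) {b | outB A t0 q.1 b q.2 ≠ guess A t0 q.1 m (pre m b) q.2} ≤
        ENNReal.ofReal η := by
    intro q
    by_cases hq : ∀ s, MeasurableSet {b | outB A t0 q.1 b q.2 = s}
    · obtain ⟨m₀, hm₀⟩ := exists_pred hq hη0
      refine ⟨m₀, fun m hm _ => ?_⟩
      obtain ⟨f, hf, hf2⟩ := hm₀ m hm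
      exact (guess_best hq f hf).trans hf2
    · exact ⟨0, fun m _ h => absurd h hq⟩
  choose m₀ hm₀ using key
  have := Fintype.ofFinite (SimpleGraph (Fin N) × Fin N)
  obtain ⟨m, hm⟩ : ∃ m, m = ∑ q, m₀ q := ⟨_, rfl⟩
  have hmq : ∀ q, m₀ q ≤ m := fun q => by
    rw [hm]
    exact Finset.single_le_sum (f := m₀) (fun _ _ => Nat.zero_le _) (Finset.mem_univ q)
  refine ⟨m, fun X x u => guess A t0 X.G m x u, ?_, ?_⟩
  · intro X Y v x y hXY hxy
    exact guess_congr hXY.1 hxy
  · intro X a hmeas p hp hbad
    rw [Ex_ind_eq]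
    have hsub : {b : Fin N → ℕ → Bool |
        ¬ P.ok (view X.G (fun u => guess A t0 X.G m (pre m b) u) a P.r)} ⊆
        {b | ¬ P.ok (view X.G (outB A t0 X.G b) a P.r)} ∪
        ⋃ u ∈ (Finset.univ.filter fun u => X.G.edist a u ≤ P.r),
          {b | outB A t0 X.G b u ≠ guess A t0 X.G m (pre m b) u} := by
      intro b hb
      by_contra hcon
      rw [Set.mem_union, not_or] at hcon
      obtain ⟨h1, h2⟩ := hcon
      simp only [Set.mem_ofPred_eq, not_not] at h1
      simp only [Finset.mem_filter, Finset.mem_univ, true_and, Set.mem_iUnion, exists_prop,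
        not_exists, not_and, Set.mem_ofPred_eq, not_not, ne_eq] at h2
      apply hb
      refine (P.inv _ _ (view_iso_of_ag (fun _ _ _ => Iff.rfl) ?_)).1 h1
      intro u hu
      exact h2 u hu
    have hle : bits (Fin N) {b : Fin N → ℕ → Bool |
        ¬ P.ok (view X.G (fun u => guess A t0 X.G m (pre m b) u) a P.r)} ≤
        ENNReal.ofReal (p + δ) := by
      refine (measure_mono hsub).trans ((measure_union_le _ _).trans ?_)
      have h3 : bits (Fin N) (⋃ u ∈ (Finset.univ.filter fun u => X.G.edist a u ≤ P.r),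
          {b | outB A t0 X.G b u ≠ guess A t0 X.G m (pre m b) u}) ≤ ENNReal.ofReal δ := by
        refine (measure_biUnion_finset_le _ _).trans ?_
        refine (Finset.sum_le_card_nsmul _ _ (ENNReal.ofReal η) fun u hu => ?_).trans ?_
        · exact hm₀ (X.G, u) m (hmq _) (hmeas u (Finset.mem_filter.1 hu).2)
        · rw [nsmul_eq_mul, ← ENNReal.ofReal_natCast, ← ENNReal.ofReal_mul (by positivity)]
          apply ENNReal.ofReal_le_ofReal
          have h4 : ((Finset.univ.filter fun u => X.G.edist a u ≤ P.r).card : ℝ) ≤ N := by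
            exact_mod_cast (Finset.card_filter_le _ _).trans (by simp)
          exact (mul_le_mul_of_nonneg_right h4 hη0.le).trans hηN
      rw [ENNReal.ofReal_add hp hδ.le]
      exact add_le_add hbad h3
    exact ENNReal.toReal_le_of_le_ofReal (by positivity) hle

end Pool.Agent.H56.Sub
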