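import Pool.Agent.H56.Sub.View
import Pool.Agent.H56.Sub.BitsMap

/-!
# Squad SUB, module Her: the algorithm for `n0` vertices is good near every vertex
-/

set_option autoImplicit false

noncomputable section

open scoped Classical
open MeasureTheory

namespace Pool.Agent.H56.Sub


namespace Hr

/-! ## Isomorphisms of rooted graphs -/

theorem Iso.refl' {L : Type} (X : Rooted L) : X.Iso X := ⟨SimpleGraph.Iso.refl, rfl, fun _ => rfl⟩

theorem Iso.symm' {L : Type} {X Y : Rooted L} (h : X.Iso Y) : Y.Iso X := by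
  obtain ⟨e, h1, h2⟩ := h
  refine ⟨e.symm, ?_, fun v => ?_⟩
  · rw [← h1]; simp
  · have := h2 (e.symm v)
    simpa using this.symm

theorem Iso.trans' {L : Type} {X Y Z : Rooted L} (h : X.Iso Y) (h' : Y.Iso Z) : X.Iso Z := by
  obtain ⟨e, h1, h2⟩ := h
  obtain ⟨e', h3, h4⟩ := h'
  refine ⟨e.trans e', ?_, fun v => ?_⟩
  · rw [← h3, ← h1]; rfl
  · rw [← h2, ← h4]; rfl

/-! ## Distances -/

theorem edist_hom {V W : Type} {G : SimpleGraph V} {H : SimpleGraph W} (f : G →g H) (u v : V) :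
    H.edist (f u) (f v) ≤ G.edist u v := by
  by_cases hr : G.Reachable u v
  · obtain ⟨p, hp⟩ := hr.exists_walk_length_eq_edist
    rw [← hp, ← SimpleGraph.Walk.length_map f p]
    exact SimpleGraph.edist_le _
  · rw [SimpleGraph.edist_eq_top_of_not_reachable hr]
    exact le_top

theorem edist_iso {V W : Type} {G : SimpleGraph V} {H : SimpleGraph W} (e : G ≃g H) (u v : V) :
    H.edist (e u) (e v) = G.edist u v := by
  apply le_antisymm (edist_hom e.toHom u v)
  have := edist_hom e.symm.toHom (e u) (e v)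
  simpa using this

theorem edist_induce_le {V : Type} (G : SimpleGraph V) (A : Set V) (u v : A) :
    G.edist u v ≤ (G.induce A).edist u v :=
  edist_hom (SimpleGraph.Embedding.induce A).toHom u v

theorem edist_induce {V : Type} (G : SimpleGraph V) (A : Set V) (u v : A) (r : ℕ)
    (hA : ∀ w, G.edist u w ≤ r → w ∈ A) :
    (G.induce A).edist u v ≤ r ↔ G.edist (u : V) v ≤ r := by
  constructor
  · exact fun h => (edist_induce_le G A u v).trans h
  · intro h
    obtain ⟨p, hp⟩ := SimpleGraph.exists_walk_of_edist_ne_top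
      (ne_top_of_le_ne_top (ENat.natCast_ne_top r) h)
    have hs : ∀ x ∈ p.support, x ∈ A := by
      intro x hx
      apply hA
      refine (SimpleGraph.edist_le (p.takeUntil x hx)).trans ?_
      have h1 : ((p.takeUntil x hx).length : ℕ∞) ≤ p.length := by
        exact_mod_cast p.length_takeUntil_le_length hx
      exact h1.trans (hp.le.trans h)
    have h2 := SimpleGraph.edist_le (p.induce A hs)
    have h3 : (p.induce A hs).length = p.length := by
      rw [← SimpleGraph.Walk.length_map (SimpleGraph.Embedding.induce A).toHom,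
        SimpleGraph.Walk.map_induce]
      rfl
    rw [h3, hp] at h2
    exact h2.trans h

/-! ## Views -/

theorem view_iso_equiv {V W L : Type} [Finite V] [Finite W] {G : SimpleGraph V}
    {H : SimpleGraph W} (e : G ≃g H) (o : V → L) (o' : W → L) (h : ∀ v, o' (e v) = o v) (v : V)
    (r : ℕ) : (view G o v r).Iso (view H o' (e v) r) := by
  have hm : ∀ u, u ∈ bl G v r ↔ e u ∈ bl H (e v) r := by
    intro u
    simp only [bl, Set.mem_ofPred_eq]
    rw [edist_iso]
  refine ⟨⟨e.toEquiv.subtypeEquiv hm, ?_⟩, ?_, ?_⟩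
  · intro (a : bl G v r) (b : bl G v r)
    change H.Adj (e a) (e b) ↔ G.Adj a b
    exact e.map_adj_iff
  · rfl
  · intro (u : bl G v r)
    exact h u

/-- comparison of views of two graphs, one ball of each being identified -/
theorem view_iso_local {V W L : Type} [Finite V] [Finite W] {G : SimpleGraph V}
    {H : SimpleGraph W} {A : Set V} {B : Set W} (e : G.induce A ≃g H.induce B) (u : A) (r : ℕ)
    (hA : ∀ x, G.edist u x ≤ r → x ∈ A) (hB : ∀ y, H.edist (e u : W) y ≤ r → y ∈ B)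
    (o : V → L) (o' : W → L) (h : ∀ x : A, G.edist (u : V) x ≤ r → o' (e x : W) = o x) :
    (view G o u r).Iso (view H o' (e u : W) r) := by
  have h1 := view_iso_sub G A u r hA o
  have h2 := view_iso_sub H B (e u) r hB o'
  have h3 := view_iso_equiv e (fun x => o' (e x : W)) (fun y : B => o' y) (fun v => rfl) u r
  have h4 : (view (G.induce A) (fun x : A => o x) u r).Iso
      (view (G.induce A) (fun x : A => o' (e x : W)) u r) := by
    apply view_iso_of_ag
    · intro x _ y
      exact Iff.rfl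
    · intro x hx
      exact (h x ((edist_induce G A u x r hA).1 hx)).symm
  exact Iso.trans' (Iso.symm' h1) (Iso.trans' h4 (Iso.trans' h3 h2))

/-! ## Transfer between the identifier graph and a small member of the class -/

section transfer

variable {V W : Type} [Finite V] [Finite W] {G : SimpleGraph V} {H : SimpleGraph W} {v : V} {w : W}
  {ρ : ℕ} (e : G.induce (bl G v ρ) ≃g H.induce (bl H w ρ))
  (he : e ⟨v, mem_bl_self G v ρ⟩ = ⟨w, mem_bl_self H w ρ⟩)

omit [Finite V] [Finite W] in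
include he in
theorem edist_transfer (u : bl G v ρ) {s : ℕ} (hs : G.edist v u ≤ s) (hsρ : s ≤ ρ) :
    H.edist w (e u : W) ≤ s := by
  have h1 : (G.induce (bl G v ρ)).edist ⟨v, mem_bl_self G v ρ⟩ u ≤ s := by
    rw [edist_induce G _ _ _ s]
    · exact hs
    · intro x hx
      exact hx.trans (by exact_mod_cast hsρ)
  have h2 := edist_iso e ⟨v, mem_bl_self G v ρ⟩ u
  rw [he] at h2
  have h3 := edist_induce_le H (bl H w ρ) ⟨w, mem_bl_self H w ρ⟩ (e u)
  rw [h2] at h3
  exact h3.trans h1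

include he in
theorem view_transfer {L : Type} (u : bl G v ρ) {s r : ℕ} (hs : G.edist v u ≤ s)
    (hsr : s + r ≤ ρ) (o : V → L) (o' : W → L)
    (h : ∀ x : bl G v ρ, G.edist (u : V) x ≤ r → o' (e x : W) = o x) :
    (view G o u r).Iso (view H o' (e u : W) r) := by
  have hc : (s : ℕ∞) + r ≤ ρ := by exact_mod_cast hsr
  apply view_iso_local e u r _ _ o o' h
  · intro x hx
    change G.edist v x ≤ ρ
    exact (SimpleGraph.edist_triangle).trans ((add_le_add hs hx).trans hc)
  · intro y hy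
    change H.edist w y ≤ ρ
    have h1 := edist_transfer e he u hs (by omega)
    exact (SimpleGraph.edist_triangle).trans ((add_le_add h1 hy).trans hc)

variable {N : ℕ} {id : V → ℕ} (hinj : Function.Injective id) (hN : ∀ v, id v < N)

include he hinj in
theorem outB_transfer {S : Type} (A : Rule (ℕ → Bool) S) (t : ℕ) (u : bl G v ρ) {s : ℕ}
    (hs : G.edist v u ≤ s) (hst : s + t ≤ ρ) (b : Fin N → ℕ → Bool) (b' : W → ℕ → Bool)
    (h : ∀ x : bl G v ρ, b' (e x : W) = b ⟨id x, hN x⟩) :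
    outB A t (idX (N := N) G id).G b ⟨id u, hN u⟩ = outB A t H b' (e u : W) := by
  unfold outB
  apply A.inv
  have h1 := view_iso_id G hinj hN b u t
  have h2 := view_transfer e he u hs hst (fun x => b ⟨id x, hN x⟩) b' (fun x _ => h x)
  exact Iso.trans' (Iso.symm' h1) h2

include he hinj in
theorem ok_transfer (P : LCL) (A : Rule (ℕ → Bool) P.S) (t : ℕ) (hρ : P.r + t ≤ ρ)
    (b : Fin N → ℕ → Bool) (b' : W → ℕ → Bool)
    (h : ∀ x : bl G v ρ, b' (e x : W) = b ⟨id x, hN x⟩) :
    P.ok (view (idX (N := N) G id).G (outB A t (idX (N := N) G id).G b) ⟨id v, hN v⟩ P.r) ↔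
      P.ok (view H (outB A t H b') w P.r) := by
  apply P.inv
  set o := outB A t (idX (N := N) G id).G b with ho
  have h1 := view_iso_id G hinj hN o v P.r
  have h2 := view_transfer e he ⟨v, mem_bl_self G v ρ⟩ (s := 0) (r := P.r)
    (by simp) (by omega) (fun x => o ⟨id x, hN x⟩) (outB A t H b') (fun x hx =>
      (outB_transfer e he hinj hN A t x hx hρ b b' h).symm)
  rw [he] at h2
  exact Iso.trans' (Iso.symm' h1) h2

end transfer

/-! ## Measurability -/

theorem measurable_extend {I J : Type} {κ : I → J} (hκ : Function.Injective κ) :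
    Measurable fun c : I → ℕ → Bool => Function.extend κ c (fun _ _ => false) := by
  apply measurable_pi_lambda
  intro y
  by_cases h : ∃ x, κ x = y
  · obtain ⟨x, rfl⟩ := h
    have e1 : (fun c : I → ℕ → Bool => Function.extend κ c (fun _ _ => false) (κ x)) =
        fun c => c x := by
      funext c
      exact hκ.extend_apply c _ x
    rw [e1]
    exact measurable_pi_apply x
  · have e1 : (fun c : I → ℕ → Bool => Function.extend κ c (fun _ _ => false) y) =
        fun _ => fun _ => false := by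
      funext c
      exact Function.extend_apply' _ _ _ h
    rw [e1]
    exact measurable_const

theorem measurableSet_bad (P : LCL) {V : Type} [Finite V] (G : SimpleGraph V)
    (out : (V → ℕ → Bool) → V → P.S) (w : V)
    (hm : ∀ (u : V) (s : P.S), MeasurableSet {b | out b u = s}) :
    MeasurableSet {b | ¬ P.ok (view G (out b) w P.r)} := by
  have hfin := P.fin
  have e1 : {b | ¬ P.ok (view G (out b) w P.r)} =
      ⋃ o : V → P.S, ⋃ (_ : ¬ P.ok (view G o w P.r)), ⋂ u, {b | out b u = o u} := by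
    ext b
    simp only [Set.mem_ofPred_eq, Set.mem_iUnion, Set.mem_iInter, exists_prop]
    constructor
    · intro h
      exact ⟨out b, h, fun _ => rfl⟩
    · rintro ⟨o, ho, h⟩
      have : out b = o := funext h
      rw [this]
      exact ho
  rw [e1]
  apply MeasurableSet.iUnion
  intro o
  apply MeasurableSet.iUnion
  intro _
  apply MeasurableSet.iInter
  intro u
  exact hm u (o u)

end Hr

open Hr

/-- Module Her: the algorithm for `n0` vertices is good near `v`, in every graph with at least `n0`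
vertices. -/
theorem her {P : LCL} {F : Set FinGraph} (hF : BallClosed F) {d : ℝ} {t : ℕ → ℕ}
    {A : ℕ → Rule (ℕ → Bool) P.S}
    (hA : ∀ X ∈ F, 2 ≤ X.n →
      (∀ (v : X.V) (s : P.S), MeasurableSet {b | outB (A X.n) (t X.n) X.G b v = s}) ∧
      bits X.V {b | ¬ P.Solves X.G (outB (A X.n) (t X.n) X.G b)} ≤
        ENNReal.ofReal ((X.n : ℝ) ^ (-d)))
    {n0 : ℕ} (hn0 : 2 ≤ n0) {X : FinGraph} (hX : X ∈ F) (hn : n0 ≤ X.n) {N : ℕ} {id : X.V → ℕ}
    (hinj : Function.Injective id) (hN : ∀ v, id v < N) (v : X.V)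
    (hb : (bl X.G v (t n0 + P.r)).ncard ≤ n0) :
    bits (Fin N) {b | ¬ P.ok (view (idX (N := N) X.G id).G
      (outB (A n0) (t n0) (idX (N := N) X.G id).G b) ⟨id v, hN v⟩ P.r)} ≤
        ENNReal.ofReal ((n0 : ℝ) ^ (-d)) := by
  obtain ⟨ρ, hρ⟩ : ∃ ρ, ρ = t n0 + P.r := ⟨_, rfl⟩
  rw [← hρ] at hb
  obtain ⟨Y, hY, hYn, w, e₀, he₀, -⟩ := hF.2 X hX v ρ n0 hb hn
  subst hYn
  obtain ⟨hAm, hAb⟩ := hA Y hY hn0
  obtain ⟨e, he⟩ : ∃ e : X.G.induce (bl X.G v ρ) ≃g Y.G.induce (bl Y.G w ρ),
      e ⟨v, mem_bl_self X.G v ρ⟩ = ⟨w, mem_bl_self Y.G w ρ⟩ := ⟨e₀, he₀⟩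
  set ι : bl X.G v ρ → Fin N := fun u => ⟨id u, hN u⟩ with hι
  set κ : bl X.G v ρ → Y.V := fun u => (e u : Y.V) with hκ
  have hιi : Function.Injective ι := by
    intro a b hab
    rw [hι] at hab
    simp only [Fin.mk.injEq] at hab
    exact Subtype.ext (hinj hab)
  have hκi : Function.Injective κ := fun a b hab => e.injective (Subtype.ext hab)
  set BadY : Set (Y.V → ℕ → Bool) :=
    {b | ¬ P.ok (view Y.G (outB (A Y.n) (t Y.n) Y.G b) w P.r)} with hBadY
  have hBadYm : MeasurableSet BadY := measurableSet_bad P Y.G _ w hAm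
  set ext : (bl X.G v ρ → ℕ → Bool) → Y.V → ℕ → Bool :=
    fun c => Function.extend κ c (fun _ _ => false) with hext
  have hextκ : ∀ c x, ext c (κ x) = c x := fun c x => hκi.extend_apply c _ x
  set E : Set (bl X.G v ρ → ℕ → Bool) := ext ⁻¹' BadY with hE
  have hEm : MeasurableSet E := measurable_extend hκi hBadYm
  have hok := fun b b' h => ok_transfer e he hinj hN P (A Y.n) (t Y.n)
    (show P.r + t Y.n ≤ ρ by omega) b b' h
  have e1 : {b | ¬ P.ok (view (idX (N := N) X.G id).G
      (outB (A Y.n) (t Y.n) (idX (N := N) X.G id).G b) ⟨id v, hN v⟩ P.r)} =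
      (fun (b : Fin N → ℕ → Bool) x => b (ι x)) ⁻¹' E := by
    ext b
    simp only [Set.mem_ofPred_eq, Set.mem_preimage, hE, hBadY]
    rw [hok b (ext fun x => b (ι x)) (fun x => hextκ _ x)]
  have e2 : BadY = (fun (b : Y.V → ℕ → Bool) x => b (κ x)) ⁻¹' E := by
    ext b
    simp only [Set.mem_preimage, hE]
    set b₀ : Fin N → ℕ → Bool := Function.extend ι (fun x => b (κ x)) (fun _ _ => false) with hb₀
    have h0 : ∀ x, b₀ (ι x) = b (κ x) := fun x => hιi.extend_apply _ _ x
    simp only [hBadY, Set.mem_ofPred_eq]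
    rw [← hok b₀ b (fun x => (h0 x).symm),
      ← hok b₀ (ext fun x => b (κ x)) (fun x => by
        change ext _ (κ x) = b₀ (ι x)
        rw [hextκ, h0])]
  obtain ⟨m1, m2⟩ := bits_map ι hιi
  obtain ⟨m3, m4⟩ := bits_map κ hκi
  rw [e1, ← Measure.map_apply m1 hEm, m2, ← m4, Measure.map_apply m3 hEm, ← e2]
  refine le_trans (measure_mono ?_) hAb
  intro b hb' hsol
  exact hb' (hsol w)

theorem her_meas {P : LCL} {F : Set FinGraph} (hF : BallClosed F) {d : ℝ} {t : ℕ → ℕ}
    {A : ℕ → Rule (ℕ → Bool) P.S}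
    (hA : ∀ X ∈ F, 2 ≤ X.n →
      (∀ (v : X.V) (s : P.S), MeasurableSet {b | outB (A X.n) (t X.n) X.G b v = s}) ∧
      bits X.V {b | ¬ P.Solves X.G (outB (A X.n) (t X.n) X.G b)} ≤
        ENNReal.ofReal ((X.n : ℝ) ^ (-d)))
    {n0 : ℕ} (hn0 : 2 ≤ n0) {X : FinGraph} (hX : X ∈ F) (hn : n0 ≤ X.n) {N : ℕ} {id : X.V → ℕ}
    (hinj : Function.Injective id) (hN : ∀ v, id v < N) (v : X.V)
    (hb : (bl X.G v (t n0)).ncard ≤ n0) (s : P.S) :
    MeasurableSet {b : Fin N → ℕ → Bool |
      outB (A n0) (t n0) (idX (N := N) X.G id).G b ⟨id v, hN v⟩ = s} := by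
  obtain ⟨ρ, hρ⟩ : ∃ ρ, ρ = t n0 := ⟨_, rfl⟩
  rw [← hρ] at hb
  obtain ⟨Y, hY, hYn, w, e₀, he₀, -⟩ := hF.2 X hX v ρ n0 hb hn
  subst hYn
  obtain ⟨hAm, -⟩ := hA Y hY hn0
  rw [← hρ] at hAm ⊢
  obtain ⟨e, he⟩ : ∃ e : X.G.induce (bl X.G v ρ) ≃g Y.G.induce (bl Y.G w ρ),
      e ⟨v, mem_bl_self X.G v ρ⟩ = ⟨w, mem_bl_self Y.G w ρ⟩ := ⟨e₀, he₀⟩
  set ι : bl X.G v ρ → Fin N := fun u => ⟨id u, hN u⟩ with hι
  set κ : bl X.G v ρ → Y.V := fun u => (e u : Y.V) with hκ
  have hιi : Function.Injective ι := by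
    intro a b hab
    rw [hι] at hab
    simp only [Fin.mk.injEq] at hab
    exact Subtype.ext (hinj hab)
  have hκi : Function.Injective κ := fun a b hab => e.injective (Subtype.ext hab)
  set ext : (bl X.G v ρ → ℕ → Bool) → Y.V → ℕ → Bool :=
    fun c => Function.extend κ c (fun _ _ => false) with hext
  have hextκ : ∀ c x, ext c (κ x) = c x := fun c x => hκi.extend_apply c _ x
  have hEm : MeasurableSet (ext ⁻¹' {b | outB (A Y.n) ρ Y.G b w = s}) :=
    measurable_extend hκi (hAm w s)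
  have e1 : {b : Fin N → ℕ → Bool |
      outB (A Y.n) ρ (idX (N := N) X.G id).G b ⟨id v, hN v⟩ = s} =
      (fun (b : Fin N → ℕ → Bool) x => b (ι x)) ⁻¹'
        (ext ⁻¹' {b | outB (A Y.n) ρ Y.G b w = s}) := by
    ext b
    simp only [Set.mem_ofPred_eq, Set.mem_preimage]
    have h1 := outB_transfer e he hinj hN (A Y.n) ρ ⟨v, mem_bl_self X.G v ρ⟩ (s := 0)
      (by simp) (by omega) b (ext fun x => b (ι x)) (fun x => hextκ _ x)
    rw [he] at h1
    rw [h1]
  rw [e1]
  exact (bits_map ι hιi).1 hEm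

end Pool.Agent.H56.Sub
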