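import Pool.Agent.H56.Sub.ShLoc
import Pool.Agent.H56.Sub.Fin1

/-!
# Squad SUB, module Inner1 : locality and decoupling of the inner algorithm
-/

set_option autoImplicit false
set_option linter.unusedSectionVars false
set_option linter.unusedVariables false

noncomputable section

open scoped Classical

namespace Pool.Agent.H56.Sub


variable {V Λ Ω : Type}

section Inner
variable [Fintype V] [Fintype Ω] [Nonempty Ω]

theorem F2_cag (p : Par) {G H : SimpleGraph V} {B C : (V → Ω) → V → Prop} {χ0 χ0' : V → ℕ}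
    {σ σ' : V → Option Ω} {v : V} {ρ : ℕ} (hC : CAg p.T0 G H B C v ρ)
    (hχ : EqOn G v ρ χ0 χ0') (hσ : EqOn G v ρ σ σ') :
    CAg p.T' G H (F2 p G B χ0 σ) (F2 p H C χ0' σ') v ρ := by
  refine ⟨hC.1, ?_⟩
  intro w x y hw hxy
  have hT : p.T0 + 2 * p.T0 * (p.N2 + 1) + 2 * p.T0 * p.M0 ≤ p.T' := by
    unfold Par.T'
    nlinarith [Nat.zero_le p.T0]
  have hT' : ((p.T0 : ℕ) : ℕ∞) + ((2 * p.T0 * (p.N2 + 1) : ℕ) : ℕ∞) +
      ((2 * p.T0 * p.M0 : ℕ) : ℕ∞) ≤ (p.T' : ℕ∞) := by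
    exact_mod_cast hT
  refine hC.2 w _ _ ?_ ?_
  · refine le_trans (add_le_add le_rfl ?_) hw
    have : p.T0 ≤ p.T' := by omega
    exact_mod_cast this
  · intro u hu
    have hvu : G.edist v u + ((2 * p.T0 * (p.N2 + 1) : ℕ) : ℕ∞) +
        ((2 * p.T0 * p.M0 : ℕ) : ℕ∞) ≤ ρ := by
      calc G.edist v u + ((2 * p.T0 * (p.N2 + 1) : ℕ) : ℕ∞) + ((2 * p.T0 * p.M0 : ℕ) : ℕ∞)
          ≤ (G.edist v w + G.edist w u) + ((2 * p.T0 * (p.N2 + 1) : ℕ) : ℕ∞) +
            ((2 * p.T0 * p.M0 : ℕ) : ℕ∞) :=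
            add_le_add (add_le_add SimpleGraph.edist_triangle le_rfl) le_rfl
        _ ≤ (G.edist v w + (p.T0 : ℕ∞)) + ((2 * p.T0 * (p.N2 + 1) : ℕ) : ℕ∞) +
            ((2 * p.T0 * p.M0 : ℕ) : ℕ∞) :=
            add_le_add (add_le_add (add_le_add le_rfl hu) le_rfl) le_rfl
        _ = G.edist v w + ((p.T0 : ℕ∞) + ((2 * p.T0 * (p.N2 + 1) : ℕ) : ℕ∞) +
            ((2 * p.T0 * p.M0 : ℕ) : ℕ∞)) := by ring
        _ ≤ G.edist v w + (p.T' : ℕ∞) := add_le_add le_rfl hT'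
        _ ≤ ρ := hw
    have hvu1 : G.edist v u + ((2 * p.T0 * (p.N2 + 1) : ℕ) : ℕ∞) ≤ ρ :=
      le_trans le_self_add hvu
    show finish G p.T0 p.N2 B (sh G p.T0 B σ p.θ1 χ0 x p.M0).val u =
      finish H p.T0 p.N2 C (sh H p.T0 C σ' p.θ1 χ0' y p.M0).val u
    refine finish_loc (ρ := 2 * p.T0 * (p.N2 + 1)) (CAg.shift hC hvu1) ?_ le_rfl
    intro z hz
    have hvz : G.edist v z + ((2 * p.T0 * p.M0 : ℕ) : ℕ∞) ≤ ρ :=
      le_trans (add_le_add (le_trans SimpleGraph.edist_triangle (add_le_add le_rfl hz)) le_rfl) hvu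
    have hwz : G.edist w z + ((2 * p.T0 * p.M0 : ℕ) : ℕ∞) ≤ p.T' :=
      le_trans (add_le_add (le_trans SimpleGraph.edist_triangle (add_le_add hu hz)) le_rfl) hT'
    exact (sh_loc p.θ1 p.M0 (CAg.shift hC hvz) (EqOn.shift hσ hvz) (EqOn.shift hχ hvz)
      (EqOn.shift hxy hwz) le_rfl).1

/-- Decoupling: a closed set of unset vertices. -/
theorem F2_closed (p : Par) {G : SimpleGraph V} {B : (V → Ω) → V → Prop} (hB : Dep G p.T0 B)
    (χ0 : V → ℕ) (σ : V → Option Ω) {K : Set V} (hK : K ⊆ unset σ)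
    (hcl : ∀ u ∈ K, ∀ w ∈ unset σ, G.edist u w ≤ (2 * p.T0 : ℕ) → w ∈ K) (v : V) :
    ((∃ u ∈ K, G.edist v u ≤ p.T0) → ∀ x y, (∀ u ∈ K, x u = y u) →
      (F2 p G B χ0 σ x v ↔ F2 p G B χ0 σ y v)) ∧
    ((¬ ∃ u ∈ K, G.edist v u ≤ p.T0) → ∀ x y, (∀ u, u ∉ K → x u = y u) →
      (F2 p G B χ0 σ x v ↔ F2 p G B χ0 σ y v)) := by
  -- the values of the inner algorithm
  have main : ∀ (L : Set V), L ⊆ unset σ →
      (∀ u ∈ L, ∀ w ∈ unset σ, G.edist u w ≤ (2 * p.T0 : ℕ) → w ∈ L) →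
      ∀ x y : V → Ω, (∀ u ∈ L, x u = y u) → ∀ z, (z ∈ L ∨ z ∉ unset σ) →
      in2 p G B χ0 σ x z = in2 p G B χ0 σ y z := by
    intro L hL hLcl x y hxy z hz
    show finish G p.T0 p.N2 B (sh G p.T0 B σ p.θ1 χ0 x p.M0).val z =
      finish G p.T0 p.N2 B (sh G p.T0 B σ p.θ1 χ0 y p.M0).val z
    rcases hz with hz | hz
    · refine finish_closed hB hL hLcl ?_ ?_ hz
      · intro u hu
        have hu' : σ u ≠ none := hu
        rw [sh_of_set hu', sh_of_set hu']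
        exact ⟨hu', rfl⟩
      · intro u hu
        exact (sh_closed hB p.θ1 χ0 hL hLcl hxy p.M0 u hu).1
    · have hz' : σ z ≠ none := hz
      unfold finish
      rw [sh_of_set hz', sh_of_set hz']
      rcases h : σ z with _ | a
      · exact absurd h hz'
      · rw [Option.getD_some, Option.getD_some]
  constructor
  · rintro ⟨u, huK, hvu⟩ x y hxy
    refine hB v _ _ ?_
    intro z hz
    refine main K hK hcl x y hxy z ?_
    by_cases hzu : z ∈ unset σ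
    · left
      refine hcl u huK z hzu ?_
      calc G.edist u z ≤ G.edist u v + G.edist v z := SimpleGraph.edist_triangle
        _ ≤ (p.T0 : ℕ∞) + p.T0 := by
          rw [SimpleGraph.edist_comm (u := u)]
          exact add_le_add hvu hz
        _ = ((2 * p.T0 : ℕ) : ℕ∞) := by push_cast; ring
    · exact Or.inr hzu
  · intro hno x y hxy
    refine hB v _ _ ?_
    intro z hz
    have hzK : z ∉ K := fun h => hno ⟨z, h, hz⟩
    refine main (unset σ \ K) Set.sdiff_subset ?_ x y (fun u hu => hxy u hu.2) z ?_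
    · rintro u ⟨hu1, hu2⟩ w hw huw
      refine ⟨hw, fun hwK => hu2 (hcl w hwK u hu1 ?_)⟩
      rw [SimpleGraph.edist_comm]
      exact huw
    · by_cases hzu : z ∈ unset σ
      · exact Or.inl ⟨hzu, hzK⟩
      · exact Or.inr hzu

end Inner

end Pool.Agent.H56.Sub
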