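import Pool.Agent.H56.Sub.Big
import Pool.Agent.H56.Sub.Fin1
import Pool.Agent.H56.Sub.Ce1
import Pool.Agent.H56.Sub.Inner1

/-!
# Squad SUB, module Inner2 : the inner algorithm fails rarely; the derandomised inner algorithm
-/

set_option autoImplicit false
set_option linter.unusedSectionVars false
set_option linter.unusedVariables false

noncomputable section

open scoped Classical

namespace Pool.Agent.H56.Sub


variable {V Λ Ω : Type}

section Inner
variable [Fintype V] [Fintype Ω] [Nonempty Ω]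

omit [Fintype V] [Fintype Ω] [Nonempty Ω] in
theorem inr_fill_nope (y : V → Ω) : fill nope y = y := by
  funext u
  unfold fill nope
  rw [Option.getD_none]

theorem inr_g_pos {G : SimpleGraph V} {g T : ℕ} (hg : ∀ v, (bl G v T).ncard ≤ g) (v : V) :
    1 ≤ g := by
  refine le_trans ?_ (hg v)
  have h : (bl G v T).Nonempty := ⟨v, by show G.edist v v ≤ T; simp⟩
  exact (Set.ncard_pos (Set.toFinite _)).2 h

/-- The inner algorithm fails rarely. -/
theorem F2_cp (p : Par) {G : SimpleGraph V} {B : (V → Ω) → V → Prop} (hB : Dep G p.T0 B)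
    {χ0 : V → ℕ} (hχ : ProperAt G (2 * p.T0) χ0) (hM : ∀ u, χ0 u < p.M0) {g s2 : ℕ}
    (hg : ∀ v, (bl G v (10 * p.T0)).ncard ≤ g) {ε : ℝ} (hε : 0 < ε) (h4 : 4 * (g : ℝ) ^ 3 * ε ≤ 1)
    (hθ1 : p.θ1 = ε) (hs2 : 1 ≤ s2) (hN2 : p.N2 = s2 * g * g) {σ : V → Option Ω}
    (h0 : ∀ v, cp B σ v ≤ ε ^ 2) (v : V) :
    cp (F2 p G B χ0 σ) nope v ≤ g * (1 / 4) ^ s2 := by
  have hg1 : (1 : ℝ) ≤ g := by exact_mod_cast inr_g_pos hg v
  have hg3 : (g : ℝ) ≤ (g : ℝ) ^ 3 := by
    calc (g : ℝ) = (g : ℝ) ^ 1 := (pow_one _).symm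
      _ ≤ (g : ℝ) ^ 3 := pow_le_pow_right₀ hg1 (by norm_num)
  have h4' : 4 * ε * g ≤ 1 := by
    refine le_trans ?_ h4
    have := mul_le_mul_of_nonneg_right hg3 hε.le
    linarith
  have hε1 : ε ≤ 1 := by nlinarith
  have hεε : ε ^ 2 ≤ ε := by nlinarith
  have hbig := big (T := p.T0) hB hχ hM (p := ε ^ 2) (θ := ε) (by positivity) hε h0 hg (by
    have h7 : (g : ℝ) ^ 2 * (g * ε ^ 2 / ε) = (g : ℝ) ^ 3 * ε := by
      field_simp
    rw [h7]
    linarith) hs2 v
  refine le_trans ?_ hbig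
  unfold cp
  refine Ex_mono ?_
  intro ξ
  rw [inr_fill_nope]
  unfold ind
  split_ifs with h1 h2
  · exact le_rfl
  · exfalso
    apply h2
    by_contra h3
    push Not at h3
    have hfin : ¬ B (finish G p.T0 p.N2 B (sh G p.T0 B σ p.θ1 χ0 ξ p.M0).val) v := by
      refine finish_good (D := g) (θ := ε) hB ?_ ?_ h4' ?_
      · intro w
        refine le_trans (Set.ncard_le_ncard (bl_mono ?_) (Set.toFinite _)) (hg w)
        omega
      · intro w
        rw [hθ1]
        exact sh_cp_le hB hχ (fun w => le_trans (h0 w) hεε) _ w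
      · intro u hu hu'
        rw [hθ1] at hu' ⊢
        rw [hN2]
        exact h3 u hu hu'
    exact hfin h1
  · exact zero_le_one
  · exact le_rfl

theorem inr_dep (p : Par) {G : SimpleGraph V} {B : (V → Ω) → V → Prop} (hB : Dep G p.T0 B)
    (χ0 : V → ℕ) (σ : V → Option Ω) : Dep G p.T' (F2 p G B χ0 σ) := by
  intro v x y hxy
  have h := F2_cag p (CAg.refl hB v p.T') (χ0 := χ0) (χ0' := χ0) (fun _ _ => rfl)
    (σ := σ) (σ' := σ) (fun _ _ => rfl)
  exact h.2 v x y (by simp) hxy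

/-- The derandomised inner algorithm is right at `v` if the components seen by `v` are small. -/
theorem inner (p : Par) {G : SimpleGraph V} {B : (V → Ω) → V → Prop} (hB : Dep G p.T0 B)
    {χ0 : V → ℕ} (hχ : ProperAt G (2 * p.T0) χ0) (hM : ∀ u, χ0 u < p.M0) {g s1 s2 : ℕ}
    (hg : ∀ v, (bl G v (10 * p.T0)).ncard ≤ g) {ε : ℝ} (hε : 0 < ε) (h4 : 4 * (g : ℝ) ^ 3 * ε ≤ 1)
    (hθ1 : p.θ1 = ε) (hs2 : 1 ≤ s2) (hN2 : p.N2 = s2 * g * g)
    (hin : ((s1 * g * g : ℕ) : ℝ) * g * (g * (1 / 4) ^ s2) < 1)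
    {cl : V → Option (ℕ × V)} (hND : IsND G (2 * p.T') p.t1 p.J1 cl) {σ : V → Option Ω}
    (h0 : ∀ v, cp B σ v ≤ ε ^ 2) {v : V}
    (hv : ∀ u, G.edist v u ≤ p.T0 → σ u = none →
      (cmp G (2 * p.T0) (unset σ) (s1 * g * g) u).ncard ≤ s1 * g * g) :
    ¬ F2 p G B χ0 σ (ceOut G p.T' p.t1 cl (F2 p G B χ0 σ) p.J1) v := by
  have hg1 : (1 : ℝ) ≤ g := by exact_mod_cast inr_g_pos hg v
  by_cases hu : ∃ u, G.edist v u ≤ p.T0 ∧ σ u = none
  · obtain ⟨u, hvu, hu⟩ := hu
    have hN := hv u hvu hu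
    set K := cmp G (2 * p.T0) (unset σ) (s1 * g * g) u with hK
    have huK : u ∈ K := by
      have : ∀ n, u ∈ cmp G (2 * p.T0) (unset σ) n u := by
        intro n
        induction n with
        | zero => exact rfl
        | succ n ih =>
          unfold cmp
          rw [Function.iterate_succ_apply']
          exact Or.inl ih
      exact this _
    have hKA : K ⊆ unset σ := cmp_subset hu
    have hcl : ∀ a ∈ K, ∀ w ∈ unset σ, G.edist a w ≤ (2 * p.T0 : ℕ) → w ∈ K :=
      fun a ha w hw haw => cmp_closed hN ha hw haw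
    set Z : Set V := {w | ∃ a ∈ K, G.edist w a ≤ p.T0} with hZ
    have hvZ : v ∈ Z := ⟨u, huK, hvu⟩
    have hce := ce_bound hND (inr_dep p hB χ0 σ) Z K
      (fun w hw => (F2_closed p hB χ0 σ hKA hcl w).1 hw)
      (fun w hw => (F2_closed p hB χ0 σ hKA hcl w).2 hw) (fun _ => 1) (fun _ => zero_le_one) 1
      le_rfl (fun _ _ _ _ _ _ _ => by norm_num)
    simp only [one_mul, one_pow] at hce
    intro hF
    -- lower bound
    have hlow : (1 : ℝ) ≤ ∑ w, (if w ∈ Z then
        ind (F2 p G B χ0 σ (ceOut G p.T' p.t1 cl (F2 p G B χ0 σ) p.J1) w) else 0) := by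
      have h1 : (if v ∈ Z then
        ind (F2 p G B χ0 σ (ceOut G p.T' p.t1 cl (F2 p G B χ0 σ) p.J1) v) else 0) = (1 : ℝ) := by
        rw [if_pos hvZ]
        unfold ind
        rw [if_pos hF]
      rw [← h1]
      refine Finset.single_le_sum (f := fun w => (if w ∈ Z then
        ind (F2 p G B χ0 σ (ceOut G p.T' p.t1 cl (F2 p G B χ0 σ) p.J1) w) else (0 : ℝ)))
        (fun w _ => ?_) (Finset.mem_univ v)
      show (0 : ℝ) ≤ (if w ∈ Z then
        ind (F2 p G B χ0 σ (ceOut G p.T' p.t1 cl (F2 p G B χ0 σ) p.J1) w) else (0 : ℝ))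
      unfold ind
      split_ifs <;> norm_num
    -- upper bound
    have hc : (0 : ℝ) ≤ (g : ℝ) * (1 / 4) ^ s2 := by positivity
    have hup : ∑ w, (if w ∈ Z then cp (F2 p G B χ0 σ) nope w else 0) ≤
        (Z.ncard : ℝ) * (g * (1 / 4) ^ s2) := by
      calc ∑ w, (if w ∈ Z then cp (F2 p G B χ0 σ) nope w else 0)
          ≤ ∑ w, (if w ∈ Z then (g : ℝ) * (1 / 4) ^ s2 else 0) := by
            refine Finset.sum_le_sum fun w _ => ?_
            split_ifs
            · exact F2_cp p hB hχ hM hg hε h4 hθ1 hs2 hN2 h0 w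
            · exact le_rfl
        _ = (Z.ncard : ℝ) * (g * (1 / 4) ^ s2) := by
            rw [← Finset.sum_filter, Finset.sum_const, nsmul_eq_mul]
            congr 2
            rw [Set.ncard_eq_toFinset_card']
            congr 1
            ext w
            simp
    have hZc : Z.ncard ≤ K.ncard * g := by
      have h1 : Z ⊆ ⋃ a ∈ (Set.toFinite K).toFinset, bl G a p.T0 := by
        rintro w ⟨a, ha, hwa⟩
        simp only [Set.mem_iUnion]
        refine ⟨a, (Set.Finite.mem_toFinset _).2 ha, ?_⟩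
        show G.edist a w ≤ p.T0
        rw [SimpleGraph.edist_comm]
        exact hwa
      refine le_trans (Set.ncard_le_ncard h1 (Set.toFinite _)) ?_
      refine le_trans (Finset.set_ncard_biUnion_le _ _) ?_
      refine le_trans (Finset.sum_le_sum (g := fun _ => g) fun a _ => ?_) ?_
      · refine le_trans (Set.ncard_le_ncard (bl_mono ?_) (Set.toFinite _)) (hg a)
        omega
      · rw [Finset.sum_const, smul_eq_mul, ← Set.ncard_eq_toFinset_card]
    have hZc' : (Z.ncard : ℝ) ≤ ((s1 * g * g : ℕ) : ℝ) * g := by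
      have : Z.ncard ≤ (s1 * g * g) * g := le_trans hZc (Nat.mul_le_mul_right _ hN)
      exact_mod_cast this
    have hfin : (1 : ℝ) < 1 := by
      calc (1 : ℝ) ≤ _ := hlow
        _ ≤ _ := hce
        _ ≤ _ := hup
        _ ≤ ((s1 * g * g : ℕ) : ℝ) * g * (g * (1 / 4) ^ s2) := mul_le_mul_of_nonneg_right hZc' hc
        _ < 1 := hin
    exact lt_irrefl _ hfin
  · push Not at hu
    intro hF
    have h1 : cp B σ v = ind (B (in2 p G B χ0 σ
        (ceOut G p.T' p.t1 cl (F2 p G B χ0 σ) p.J1)) v) := by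
      refine cp_of_set hB hu _ ?_
      intro u hvu
      unfold in2 run finish
      rw [sh_of_set (hu u hvu)]
      rcases h : σ u with _ | a
      · exact absurd h (hu u hvu)
      · rw [Option.getD_some]
    have h2 : ind (B (in2 p G B χ0 σ
        (ceOut G p.T' p.t1 cl (F2 p G B χ0 σ) p.J1)) v) = 1 := by
      have hF' : B (in2 p G B χ0 σ (ceOut G p.T' p.t1 cl (F2 p G B χ0 σ) p.J1)) v := hF
      unfold ind
      rw [if_pos hF']
    have h3 := h0 v
    rw [h1, h2] at h3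
    have h5 : 4 * ε ≤ 1 := by
      refine le_trans ?_ h4
      have hg3 : (1 : ℝ) ≤ (g : ℝ) ^ 3 := one_le_pow₀ hg1
      have := mul_le_mul_of_nonneg_right hg3 hε.le
      linarith
    nlinarith

end Inner

end Pool.Agent.H56.Sub
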