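import Pool.Agent.H56.Sub.Prob

/-!
# Squad SUB, module Lin2: the numbers of colours
-/

set_option autoImplicit false

noncomputable section

open scoped Classical

namespace Pool.Agent.H56.Sub

lemma logb_le_sub_one {x : ℝ} (hx : 2 ≤ x) : Real.logb 2 x ≤ x - 1 := by
  rw [Real.logb_le_iff_le_rpow (by norm_num) (by linarith)]
  have h := one_add_mul_self_le_rpow_one_add (s := (1 : ℝ)) (p := x - 1) (by norm_num) (by linarith)
  have e : (1 : ℝ) + 1 = 2 := by norm_num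
  rw [e] at h
  linarith

lemma exists_iter_le (n : ℕ) : ∀ x : ℝ, x ≤ n → ∃ k : ℕ, (Real.logb 2)^[k] x ≤ 1 := by
  induction n with
  | zero => intro x hx; exact ⟨0, by simpa using le_trans hx (by norm_num)⟩
  | succ n ih =>
    intro x hx
    by_cases h1 : x ≤ 1
    · exact ⟨0, by simpa using h1⟩
    · push Not at h1
      by_cases h2 : x ≤ 2
      · refine ⟨1, ?_⟩
        simp only [Function.iterate_one]
        rw [Real.logb_le_iff_le_rpow (by norm_num) (by linarith)]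
        simpa using h2
      · push Not at h2
        push_cast at hx
        obtain ⟨k, hk⟩ := ih (Real.logb 2 x) (le_trans (logb_le_sub_one h2.le) (by linarith))
        exact ⟨k + 1, by simpa [Function.iterate_succ] using hk⟩

lemma logStar_spec (N : ℕ) : (Real.logb 2)^[logStar N] (N : ℝ) ≤ 1 := by
  have hne : {k : ℕ | (Real.logb 2)^[k] (N : ℝ) ≤ 1}.Nonempty := exists_iter_le N N le_rfl
  exact Nat.sInf_mem hne

/-- polynomial against exponential growth -/
lemma poly_lt_exp (C : ℕ) : ∃ s0 : ℕ, ∀ s, s0 ≤ s → C * (s + 1) ^ 4 < 2 ^ (s - 1) := by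
  have h := tendsto_pow_const_div_const_pow_of_one_lt 4 (r := (2 : ℝ)) (by norm_num)
  have hε : (0 : ℝ) < 1 / (4 * (C + 1)) := by positivity
  have h2 := (h.eventually (gt_mem_nhds hε))
  rw [Filter.eventually_atTop] at h2
  obtain ⟨n0, hn0⟩ := h2
  refine ⟨n0 + 1, fun s hs => ?_⟩
  have h3 := hn0 (s + 1) (by omega)
  have hp : (0 : ℝ) < 2 ^ (s + 1) := by positivity
  rw [div_lt_div_iff₀ hp (by positivity)] at h3
  have h4 : (2 : ℝ) ^ (s + 1) = 4 * 2 ^ (s - 1) := by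
    have : s + 1 = (s - 1) + 2 := by omega
    rw [this, pow_add]
    norm_num
    ring
  rw [h4] at h3
  push_cast at h3
  have h5 : ((C : ℝ) + 1) * (s + 1) ^ 4 < 2 ^ (s - 1) := by nlinarith
  have h6 : ((C : ℝ)) * (s + 1) ^ 4 < 2 ^ (s - 1) := by
    have : (0 : ℝ) ≤ (s + 1) ^ 4 := by positivity
    nlinarith
  exact_mod_cast h6

/-- two steps bring `L` below its logarithm -/
lemma two_steps (c : ℕ) : ∃ L0 : ℕ, ∀ L, L0 ≤ L →
    c * (Nat.log 2 (c * (L + 2) ^ 2) + 2) ^ 2 ≤ L := by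
  rcases Nat.eq_zero_or_pos c with rfl | hc
  · exact ⟨0, fun L _ => by simp⟩
  obtain ⟨s0, hs0⟩ := poly_lt_exp (c * (c + 2) ^ 2)
  refine ⟨c * (s0 + 3) ^ 2, fun L hL => ?_⟩
  set s := Nat.sqrt (L / c) with hs
  have h1 : s * s ≤ L / c := Nat.sqrt_le (L / c)
  have h2 : L / c < (s + 1) * (s + 1) := Nat.lt_succ_sqrt (L / c)
  have h3 : c * (s * s) ≤ L := le_trans (Nat.mul_le_mul_left c h1) (Nat.mul_div_le L c)
  have h4 : L < c * ((s + 1) * (s + 1)) := by
    have := (Nat.div_lt_iff_lt_mul hc).1 h2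
    rw [mul_comm] at this
    exact this
  have hsb : s0 + 3 ≤ s := by
    rw [hs, Nat.le_sqrt]
    rw [Nat.le_div_iff_mul_le hc]
    calc (s0 + 3) * (s0 + 3) * c = c * (s0 + 3) ^ 2 := by ring
      _ ≤ L := hL
  have h5 : c * (L + 2) ^ 2 < 2 ^ (s - 1) := by
    refine lt_of_le_of_lt ?_ (hs0 s (by omega))
    have h6 : L + 2 ≤ (c + 2) * (s + 1) ^ 2 := by nlinarith
    calc c * (L + 2) ^ 2 ≤ c * ((c + 2) * (s + 1) ^ 2) ^ 2 := by gcongr
      _ = c * (c + 2) ^ 2 * (s + 1) ^ 4 := by ring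
  have h7 : Nat.log 2 (c * (L + 2) ^ 2) + 2 ≤ s := by
    have h8 : Nat.log 2 (c * (L + 2) ^ 2) < s - 1 := by
      by_cases h0 : c * (L + 2) ^ 2 = 0
      · rw [h0]; simp; omega
      · exact Nat.log_lt_of_lt_pow h0 h5
    omega
  calc c * (Nat.log 2 (c * (L + 2) ^ 2) + 2) ^ 2 ≤ c * s ^ 2 := by gcongr
    _ = c * (s * s) := by ring
    _ ≤ L := h3

/-- Module Lin2: the numbers of colours. -/
theorem lin_iter (c : ℕ) : ∃ M K : ℕ, ∀ (N : ℕ) (m : ℕ → ℕ), m 0 ≤ N →
    (∀ i, m (i + 1) ≤ c * (Nat.log 2 (m i) + 2) ^ 2) → ∃ s, s ≤ K * (logStar N + 1) ∧ m s ≤ M := by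
  obtain ⟨L0, hL0⟩ := two_steps c
  refine ⟨2 ^ (L0 + 1), 2, fun N m h0 hm => ?_⟩
  by_contra hcon
  push Not at hcon
  have key : ∀ j : ℕ, j ≤ logStar N → ((m (2 * j) : ℕ) : ℝ) ≤ (Real.logb 2)^[j] (N : ℝ) := by
    intro j
    induction j with
    | zero => intro _; simpa using h0
    | succ j ih =>
      intro hj
      have h1 := ih (by omega)
      have hbig : 2 ^ (L0 + 1) < m (2 * j) := hcon (2 * j) (by omega)
      have hm0 : 0 < m (2 * j) := lt_of_le_of_lt (Nat.zero_le _) hbig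
      have hLj : L0 ≤ Nat.log 2 (m (2 * j)) := by
        have h2 : 2 ^ L0 ≤ m (2 * j) := by
          have : 2 ^ (L0 + 1) = 2 * 2 ^ L0 := by ring
          omega
        exact (Nat.le_log_iff_pow_le (by norm_num) (by omega)).2 h2
      have h2 := hL0 _ hLj
      have h3 : m (2 * j + 1) ≤ c * (Nat.log 2 (m (2 * j)) + 2) ^ 2 := hm (2 * j)
      have h4 : m (2 * (j + 1)) ≤ c * (Nat.log 2 (m (2 * j + 1)) + 2) ^ 2 := hm (2 * j + 1)
      have h5 : m (2 * (j + 1)) ≤ Nat.log 2 (m (2 * j)) := by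
        refine le_trans h4 (le_trans ?_ h2)
        have := Nat.log_mono_right (b := 2) h3
        gcongr
      have hpos : (0 : ℝ) < (m (2 * j) : ℝ) := by
        have : 0 < m (2 * j) := by omega
        exact_mod_cast this
      rw [Function.iterate_succ_apply']
      calc ((m (2 * (j + 1)) : ℕ) : ℝ) ≤ (Nat.log 2 (m (2 * j)) : ℝ) := by exact_mod_cast h5
        _ ≤ Real.logb 2 (m (2 * j) : ℝ) := by
            rw [Real.le_logb_iff_rpow_le (by norm_num) hpos, Real.rpow_natCast]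
            have : 2 ^ Nat.log 2 (m (2 * j)) ≤ m (2 * j) := Nat.pow_log_le_self 2 (by omega)
            exact_mod_cast this
        _ ≤ Real.logb 2 ((Real.logb 2)^[j] (N : ℝ)) :=
            Real.logb_le_logb_of_le (by norm_num) hpos h1
  have h1 := key (logStar N) le_rfl
  have h2 := logStar_spec N
  have h3 : m (2 * logStar N) ≤ 1 := by
    have : ((m (2 * logStar N) : ℕ) : ℝ) ≤ 1 := le_trans h1 h2
    exact_mod_cast this
  have h4 := hcon (2 * logStar N) (by omega)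
  have h5 : 1 ≤ 2 ^ (L0 + 1) := Nat.one_le_two_pow
  omega

end Pool.Agent.H56.Sub
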