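import Pool.Agent.H56.Sub.Lin1
import Pool.Agent.H56.Sub.Lin2
import Pool.Agent.H56.Sub.Basics

/-!
# Squad SUB, module Lin3: colouring in `O(log* n)` rounds
-/

set_option autoImplicit false

noncomputable section

open scoped Classical

namespace Pool.Agent.H56.Sub


/-- the number of colours after `i` steps -/
def linM (D N : ℕ) : ℕ → ℕ
  | 0 => N
  | i + 1 => Classical.choose (lin_step D (linM D N i))

/-- the colouring after `i` steps -/
def linPhi (R D N : ℕ) : ℕ → SimpleGraph (Fin N) → Fin N → ℕ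
  | 0 => fun _ v => v.val
  | i + 1 => fun G v =>
    Classical.choose (Classical.choose_spec (lin_step D (linM D N i)))
      (linPhi R D N i G v) ((linPhi R D N i G) '' {u | u ∈ bl G v R ∧ u ≠ v})

lemma linM_le (D N i : ℕ) :
    linM D N (i + 1) ≤ 16 * (D + 1) ^ 2 * (Nat.log 2 (linM D N i) + 2) ^ 2 :=
  (Classical.choose_spec (Classical.choose_spec (lin_step D (linM D N i)))).1

lemma linPhi_loc (R D N : ℕ) (i : ℕ) : ∀ (G H : SimpleGraph (Fin N)) (v : Fin N) (ρ : ℕ),
    R * i ≤ ρ → GAg G H v ρ → linPhi R D N i G v = linPhi R D N i H v := by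
  induction i with
  | zero => intro G H v ρ _ _; rfl
  | succ i ih =>
    intro G H v ρ hρ hG
    have hR : R ≤ ρ + 1 := by
      have : R ≤ R * (i + 1) := Nat.le_mul_of_pos_right R (by omega)
      omega
    have hRi : R * i ≤ ρ := by
      have : R * (i + 1) = R * i + R := by ring
      omega
    have hball : ∀ u, u ∈ bl G v R ↔ u ∈ bl H v R := fun u => GAg.edist_iff hG hR u
    have himg : (linPhi R D N i G) '' {u | u ∈ bl G v R ∧ u ≠ v} =
        (linPhi R D N i H) '' {u | u ∈ bl H v R ∧ u ≠ v} := by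
      have key : ∀ u, u ∈ bl G v R → linPhi R D N i G u = linPhi R D N i H u := by
        intro u hu
        have hs : GAg G H u (R * i) := by
          apply GAg.shift hG
          have h1 : G.edist v u ≤ (R : ℕ∞) := hu
          calc G.edist v u + ((R * i : ℕ) : ℕ∞) ≤ (R : ℕ∞) + ((R * i : ℕ) : ℕ∞) := by gcongr
            _ = ((R + R * i : ℕ) : ℕ∞) := by push_cast; rfl
            _ ≤ (ρ : ℕ∞) := by
                have : R + R * i ≤ ρ := by
                  have : R * (i + 1) = R + R * i := by ring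
                  omega
                exact_mod_cast this
        exact ih G H u (R * i) le_rfl hs
      ext x
      rw [Set.mem_image, Set.mem_image]
      constructor
      · rintro ⟨u, ⟨hu, hne⟩, rfl⟩
        exact ⟨u, ⟨(hball u).1 hu, hne⟩, (key u hu).symm⟩
      · rintro ⟨u, ⟨hu, hne⟩, rfl⟩
        exact ⟨u, ⟨(hball u).2 hu, hne⟩, key u ((hball u).2 hu)⟩
    simp only [linPhi]
    rw [himg, ih G H v ρ hRi hG]

lemma linPhi_ok (R D N : ℕ) (G : SimpleGraph (Fin N)) (hD : ∀ v, (bl G v R).ncard ≤ D) (i : ℕ) :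
    ProperAt G R (linPhi R D N i G) ∧ ∀ v, linPhi R D N i G v < linM D N i := by
  induction i with
  | zero =>
    refine ⟨fun u w huw _ h => huw (Fin.ext h), fun v => v.2⟩
  | succ i ih =>
    obtain ⟨hP, hlt⟩ := ih
    obtain ⟨_, h2, h3⟩ := Classical.choose_spec (Classical.choose_spec (lin_step D (linM D N i)))
    have hS : ∀ v, ∀ x ∈ (linPhi R D N i G) '' {u | u ∈ bl G v R ∧ u ≠ v}, x < linM D N i := by
      rintro v x ⟨u, _, rfl⟩
      exact hlt u
    have hself : ∀ v, linPhi R D N i G v ∉ (linPhi R D N i G) '' {u | u ∈ bl G v R ∧ u ≠ v} := by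
      rintro v ⟨u, ⟨hu, hne⟩, he⟩
      exact hP v u (Ne.symm hne) hu he.symm
    have hcard : ∀ v, ((linPhi R D N i G) '' {u | u ∈ bl G v R ∧ u ≠ v}).ncard ≤ D := by
      intro v
      refine le_trans (Set.ncard_image_le (Set.toFinite _)) ?_
      refine le_trans (Set.ncard_le_ncard (fun u hu => hu.1) (Set.toFinite _)) (hD v)
    refine ⟨?_, ?_⟩
    · intro u w huw hd
      simp only [linPhi]
      have hd' : G.edist w u ≤ (R : ℕ∞) := by rw [SimpleGraph.edist_comm]; exact hd
      apply h3 _ _ _ _ (hlt u) (hS u) (hself u) (hcard u) (hlt w) (hS w) (hself w) (hcard w)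
      · exact ⟨u, ⟨hd', huw⟩, rfl⟩
      · exact ⟨w, ⟨hd, Ne.symm huw⟩, rfl⟩
    · intro v
      simp only [linPhi, linM]
      exact h2 _ _ (hlt v) (hS v) (hself v) (hcard v)

/-- Module Lin3: colouring in `O(log* n)` rounds. -/
theorem linial (R D : ℕ) : ∃ M K : ℕ, ∀ N : ℕ, ∃ s : ℕ, s ≤ K * (logStar N + 1) ∧
    ∃ Φ : SimpleGraph (Fin N) → Fin N → ℕ,
      (∀ (G H : SimpleGraph (Fin N)) (v : Fin N) (ρ : ℕ), R * s ≤ ρ → GAg G H v ρ →
        Φ G v = Φ H v) ∧
      ∀ G : SimpleGraph (Fin N), (∀ v, (bl G v R).ncard ≤ D) →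
        ProperAt G R (Φ G) ∧ ∀ v, Φ G v < M := by
  obtain ⟨M, K, h⟩ := lin_iter (16 * (D + 1) ^ 2)
  refine ⟨M + 1, K, fun N => ?_⟩
  obtain ⟨s, hs, hM⟩ := h N (linM D N) le_rfl (linM_le D N)
  refine ⟨s, hs, linPhi R D N s, linPhi_loc R D N s, fun G hG => ?_⟩
  obtain ⟨h1, h2⟩ := linPhi_ok R D N G hG s
  exact ⟨h1, fun v => by have := h2 v; omega⟩

end Pool.Agent.H56.Sub
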