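import Pool.Agent.H56.Sub.Lin2

/-!
# Squad SUB, module LogS: the iterated logarithm
-/

set_option autoImplicit false

noncomputable section

open scoped Classical

namespace Pool.Agent.H56.Sub

/-- Module LogS. -/
theorem logStar_pos {n : ℕ} (hn : 2 ≤ n) : 1 ≤ logStar n := by
  by_contra h
  have h0 : logStar n = 0 := by omega
  have h1 := logStar_spec n
  rw [h0] at h1
  simp only [Function.iterate_zero, id_eq] at h1
  have : n ≤ 1 := by exact_mod_cast h1
  omega

lemma logStar_le {N k : ℕ} (h : (Real.logb 2)^[k] (N : ℝ) ≤ 1) : logStar N ≤ k :=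
  Nat.sInf_le h

lemma pow_add_one_le (c : ℕ) : ∃ n0 : ℕ, ∀ n, n0 ≤ n → n ^ c + 1 ≤ 2 ^ n := by
  have h := tendsto_pow_const_div_const_pow_of_one_lt c (r := (2 : ℝ)) (by norm_num)
  have h2 := (h.eventually (gt_mem_nhds (show (0 : ℝ) < 1 by norm_num)))
  rw [Filter.eventually_atTop] at h2
  obtain ⟨n0, hn0⟩ := h2
  refine ⟨n0, fun n hn => ?_⟩
  have h3 := hn0 n hn
  have hp : (0 : ℝ) < 2 ^ n := by positivity
  rw [div_lt_one hp] at h3
  have : n ^ c < 2 ^ n := by exact_mod_cast h3
  omega

theorem logStar_pow (c : ℕ) : ∃ K : ℕ, ∀ n, 2 ≤ n → logStar (n ^ c + 1) + 1 ≤ K * logStar n := by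
  obtain ⟨n0, hn0⟩ := pow_add_one_le c
  -- the values for small `n`
  obtain ⟨C, hC⟩ : ∃ C : ℕ, ∀ n, n < n0 → logStar (n ^ c + 1) ≤ C := by
    refine ⟨∑ n ∈ Finset.range n0, logStar (n ^ c + 1), fun n hn => ?_⟩
    exact Finset.single_le_sum (f := fun n => logStar (n ^ c + 1)) (fun _ _ => Nat.zero_le _)
      (Finset.mem_range.2 hn)
  refine ⟨C + 3, fun n hn => ?_⟩
  have hpos := logStar_pos hn
  by_cases hlt : n < n0
  · have h1 := hC n hlt
    calc logStar (n ^ c + 1) + 1 ≤ C + 1 := by omega
      _ ≤ (C + 3) * 1 := by omega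
      _ ≤ (C + 3) * logStar n := Nat.mul_le_mul_left _ hpos
  · have hle : logStar (n ^ c + 1) ≤ logStar n + 1 := by
      by_contra hcon
      push Not at hcon
      have hgt : ∀ i, i ≤ logStar n + 1 → 1 < (Real.logb 2)^[i] ((n ^ c + 1 : ℕ) : ℝ) := by
        intro i hi
        by_contra hx
        push Not at hx
        have := logStar_le hx
        omega
      have hpow : ((n ^ c + 1 : ℕ) : ℝ) ≤ 2 ^ (n : ℝ) := by
        rw [Real.rpow_natCast]
        exact_mod_cast hn0 n (by omega)
      have hL1 : Real.logb 2 ((n ^ c + 1 : ℕ) : ℝ) ≤ n := by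
        rw [Real.logb_le_iff_le_rpow (by norm_num) (by positivity)]
        exact hpow
      have key : ∀ j, 1 ≤ j → j ≤ logStar n →
          (Real.logb 2)^[j + 1] ((n ^ c + 1 : ℕ) : ℝ) ≤ (Real.logb 2)^[j] (n : ℝ) := by
        intro j hj
        induction j, hj using Nat.le_induction with
        | base =>
          intro _
          simp only [Function.iterate_succ, Function.iterate_zero, Function.comp_apply, id_eq]
          have h0 := hgt 1 (by omega)
          simp only [Function.iterate_one] at h0
          exact Real.logb_le_logb_of_le (by norm_num) (by linarith) hL1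
        | succ j hj ih =>
          intro hj2
          have h1 := ih (by omega)
          have h2 := hgt (j + 1) (by omega)
          rw [Function.iterate_succ_apply' _ (j + 1), Function.iterate_succ_apply' _ j (n : ℝ)]
          exact Real.logb_le_logb_of_le (by norm_num) (by linarith) h1
      have h1 := key (logStar n) hpos le_rfl
      have h2 := logStar_spec n
      have h3 := hgt (logStar n + 1) le_rfl
      linarith
    nlinarith

end Pool.Agent.H56.Sub
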