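import Pool.Agent.H56.Sub.ParamA

/-!
# Choice of the constant size
-/

set_option autoImplicit false

noncomputable section

open scoped Classical

namespace Pool.Agent.H56.Sub

theorem param0 {f t : ℕ → ℕ} {d : ℝ} (hd : 0 < d)
    (hft : ∀ K : ℕ, Filter.Tendsto (fun n : ℕ => Real.log (f (K * (t n + 1))) / Real.log n)
      Filter.atTop (nhds 0)) (hf : ∀ r, 1 ≤ f r) (r : ℕ) :
    ∃ (n0 K g : ℕ) (ε : ℝ), 2 ≤ n0 ∧ 0 < ε ∧ 10 * (t n0 + r + 1) ≤ K ∧ f K ≤ g ∧
      4 * (g : ℝ) ^ 3 * ε ≤ 1 ∧ (n0 : ℝ) ^ (-d) < ε ^ 4 ∧ g ≤ n0 := by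
  have h1 := hft (10 * (r + 1))
  have hpos : 0 < min (d / 24) 1 := lt_min (by positivity) one_pos
  have h2 : ∀ᶠ n : ℕ in Filter.atTop,
      Real.log (f (10 * (r + 1) * (t n + 1))) / Real.log n < min (d / 24) 1 :=
    h1.eventually_lt_const hpos
  have h3 : Filter.Tendsto (fun n : ℕ => d / 2 * Real.log n) Filter.atTop Filter.atTop :=
    (Real.tendsto_log_atTop.comp tendsto_natCast_atTop_atTop).const_mul_atTop (by positivity)
  obtain ⟨n, hn1, hn2, hn3⟩ := (h2.and ((Filter.eventually_ge_atTop 2).and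
    (h3.eventually_gt_atTop (Real.log 256)))).exists
  set g : ℕ := f (10 * (r + 1) * (t n + 1)) with hg
  have hg1 : 1 ≤ g := hf _
  have hg1' : (1 : ℝ) ≤ g := by exact_mod_cast hg1
  have hn2' : (2 : ℝ) ≤ n := by exact_mod_cast hn2
  have hlogn : 0 < Real.log n := Real.log_pos (by linarith)
  rw [div_lt_iff₀ hlogn] at hn1
  have hlg0 : 0 ≤ Real.log g := Real.log_nonneg hg1'
  have ha : Real.log g < d / 24 * Real.log n :=
    lt_of_lt_of_le hn1 (mul_le_mul_of_nonneg_right (min_le_left _ _) hlogn.le)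
  have hb : Real.log g ≤ Real.log n := by
    have := lt_of_lt_of_le hn1 (mul_le_mul_of_nonneg_right (min_le_right _ _) hlogn.le)
    linarith
  refine ⟨n, 10 * (r + 1) * (t n + 1), g, 1 / (4 * (g : ℝ) ^ 3), hn2, by positivity, ?_, le_rfl,
    ?_, ?_, ?_⟩
  · nlinarith [Nat.zero_le (r * t n)]
  · rw [mul_one_div_cancel (by positivity)]
  · have h4 : Real.log 256 + 12 * Real.log g < d * Real.log n := by linarith
    have h5 : (256 : ℝ) * (g : ℝ) ^ 12 < (n : ℝ) ^ d := by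
      have h6 : Real.log ((256 : ℝ) * (g : ℝ) ^ 12) = Real.log 256 + 12 * Real.log g := by
        rw [Real.log_mul (by norm_num) (by positivity), Real.log_pow]
        push_cast
        ring
      rw [← Real.log_lt_log_iff (by positivity) (by positivity), h6,
        Real.log_rpow (by linarith)]
      exact h4
    rw [Real.rpow_neg (by linarith)]
    have h7 : (1 / (4 * (g : ℝ) ^ 3)) ^ 4 = (256 * (g : ℝ) ^ 12)⁻¹ := by
      rw [one_div, inv_pow]
      congr 1
      ring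
    rw [h7]
    exact inv_strictAnti₀ (by positivity) h5
  · have := (Real.log_le_log_iff (by linarith) (by linarith)).1 hb
    exact_mod_cast this

/-- Linear bound with arbitrarily small slope. -/
theorem tame_linear {f : ℕ → ℕ} (hf : Tame f) (hf1 : ∀ r, 1 ≤ f r) {η : ℝ} (hη : 0 < η) :
    ∃ C : ℝ, 0 ≤ C ∧ ∀ r : ℕ, Real.log (f r) ≤ η * r + C := by
  obtain ⟨A, E, -, r0, -, h1⟩ := tame_aux hf
  obtain ⟨m, hm⟩ := exists_nat_ge (1 / η)
  have hm1 : 1 ≤ m + 1 := by omega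
  have hlog : ∀ r, 0 ≤ Real.log (f r) := fun r => Real.log_nonneg (by exact_mod_cast hf1 r)
  refine ⟨∑ i ∈ Finset.range ⌈QP A E (m + 1 : ℕ)⌉₊, Real.log (f i),
    Finset.sum_nonneg fun i _ => hlog i, fun r => ?_⟩
  by_cases hr : r ∈ Finset.range ⌈QP A E (m + 1 : ℕ)⌉₊
  · have h2 := Finset.single_le_sum (f := fun i => Real.log (f i)) (fun i _ => hlog i) hr
    have h3 : 0 ≤ η * r := by positivity
    linarith
  · rw [Finset.mem_range, not_lt, Nat.ceil_le] at hr
    have h2 := h1 (m + 1) hm1 r hr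
    have h3 : Real.log (f r) ≤ r / (4 * (m + 1 : ℕ)) := by
      have h4 : (0 : ℝ) < f r := by exact_mod_cast (hf1 r)
      rw [Real.log_le_iff_le_exp h4]
      exact h2
    have h4 : (r : ℝ) / (4 * (m + 1 : ℕ)) ≤ η * r := by
      push_cast
      rw [div_le_iff₀ (by positivity)]
      have h5 : 1 ≤ η * m := by
        rw [div_le_iff₀ hη] at hm
        linarith
      have h6 : (0 : ℝ) ≤ r := Nat.cast_nonneg _
      nlinarith [mul_nonneg h6 hη.le, mul_nonneg h6 (sub_nonneg.2 h5)]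
    have h5 : 0 ≤ ∑ i ∈ Finset.range ⌈QP A E (m + 1 : ℕ)⌉₊, Real.log (f i) :=
      Finset.sum_nonneg fun i _ => hlog i
    linarith

/-- For `t = O(log n)` the condition holds. -/
theorem cond_log {f t : ℕ → ℕ} (hf : Tame f) (hf1 : ∀ r, 1 ≤ f r) {C : ℝ}
    (ht : ∀ n : ℕ, 2 ≤ n → (t n : ℝ) ≤ C * Real.log n) (K : ℕ) :
    Filter.Tendsto (fun n : ℕ => Real.log (f (K * (t n + 1))) / Real.log n)
      Filter.atTop (nhds 0) := by
  rw [Metric.tendsto_atTop]
  intro e he
  have hK : (0 : ℝ) ≤ K := Nat.cast_nonneg _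
  set η : ℝ := e / (2 * (K * |C| + 1)) with hη
  have hη0 : 0 < η := by positivity
  obtain ⟨B, hB0, hB⟩ := tame_linear hf hf1 hη0
  have h3 : Filter.Tendsto (fun n : ℕ => e / 2 * Real.log n) Filter.atTop Filter.atTop :=
    (Real.tendsto_log_atTop.comp tendsto_natCast_atTop_atTop).const_mul_atTop (by positivity)
  obtain ⟨n1, hn1⟩ := Filter.eventually_atTop.1 ((Filter.eventually_ge_atTop 2).and
    (h3.eventually_gt_atTop (η * K + B)))
  refine ⟨n1, fun n hn => ?_⟩
  obtain ⟨h2n, h4⟩ := hn1 n hn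
  have hn2' : (2 : ℝ) ≤ n := by exact_mod_cast h2n
  have hlogn : 0 < Real.log n := Real.log_pos (by linarith)
  have hlog : 0 ≤ Real.log (f (K * (t n + 1))) :=
    Real.log_nonneg (by exact_mod_cast hf1 _)
  rw [Real.dist_eq, sub_zero, abs_of_nonneg (div_nonneg hlog hlogn.le), div_lt_iff₀ hlogn]
  have h5 := hB (K * (t n + 1))
  have h6 : (t n : ℝ) ≤ |C| * Real.log n :=
    (ht n h2n).trans (mul_le_mul_of_nonneg_right (le_abs_self C) hlogn.le)
  have h7 : η * ((K * (t n + 1) : ℕ) : ℝ) ≤ η * K * (|C| * Real.log n) + η * K := by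
    push_cast
    have h8 := mul_le_mul_of_nonneg_left h6 (mul_nonneg hη0.le hK)
    nlinarith
  have h8 : η * K * |C| ≤ e / 2 := by
    rw [hη]
    rw [div_mul_eq_mul_div, div_mul_eq_mul_div, div_le_iff₀ (by positivity)]
    nlinarith
  have h9 : η * K * (|C| * Real.log n) ≤ e / 2 * Real.log n := by
    have := mul_le_mul_of_nonneg_right h8 hlogn.le
    linarith
  linarith

end Pool.Agent.H56.Sub
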