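import Pool.Agent.H56.Sub.Defs

/-!
# Squad SUB (MP_e442af_lc): the LOCAL model (definitions of the problem)
-/

set_option autoImplicit false

open MeasureTheory

namespace Pool.Agent.H56.Sub

/-- A finite graph with a distinguished vertex and a label from `L` at every vertex. -/
structure Rooted (L : Type) where
  /-- the vertices -/
  V : Type
  /-- there are finitely many -/
  fin : Finite V
  /-- the graph -/
  G : SimpleGraph V
  /-- the distinguished vertex -/
  root : V
  /-- the labels -/
  lab : V → L

/-- Isomorphism of rooted labelled graphs. -/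
def Rooted.Iso {L : Type} (X Y : Rooted L) : Prop :=
  ∃ e : X.G ≃g Y.G, e X.root = Y.root ∧ ∀ v, Y.lab (e v) = X.lab v

theorem mem_bl_self {V : Type} (G : SimpleGraph V) (v : V) (r : ℕ) : v ∈ bl G v r := by
  simp [bl]

/-- The ball `B_G(v,r)` (as an induced subgraph with root `v`) together with the labels on it. -/
def view {L V : Type} [Finite V] (G : SimpleGraph V) (lab : V → L) (v : V) (r : ℕ) :
    Rooted L where
  V := bl G v r
  fin := inferInstance
  G := G.induce (bl G v r)
  root := ⟨v, mem_bl_self G v r⟩
  lab := fun u => lab u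

/-- A function of a rooted labelled graph that depends only on its isomorphism type. -/
structure Rule (L S : Type) where
  /-- the value -/
  out : Rooted L → S
  /-- invariance -/
  inv : ∀ X Y : Rooted L, X.Iso Y → out X = out Y

/-- A finite graph. -/
structure FinGraph where
  /-- the vertices -/
  V : Type
  /-- there are finitely many -/
  fin : Fintype V
  /-- the graph -/
  G : SimpleGraph V

instance (X : FinGraph) : Fintype X.V := X.fin

/-- The number of vertices. -/
def FinGraph.n (X : FinGraph) : ℕ := Fintype.card X.V

/-- The subgraph induced by a set of vertices. -/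
noncomputable def FinGraph.sub (X : FinGraph) (W : Set X.V) : FinGraph where
  V := W
  fin := Fintype.ofFinite _
  G := X.G.induce W

/-- A hereditary class of finite graphs: closed under isomorphism and induced subgraphs. -/
def IsHereditary (F : Set FinGraph) : Prop :=
  (∀ X Y : FinGraph, X ∈ F → Nonempty (X.G ≃g Y.G) → Y ∈ F) ∧
    ∀ X : FinGraph, X ∈ F → ∀ W : Set X.V, X.sub W ∈ F

/-- A class of finite graphs, closed under isomorphism, in which every ball with at most `m` vertices
of a member with at least `m` vertices occurs in a member with exactly `m` vertices. -/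
def BallClosed (F : Set FinGraph) : Prop :=
  (∀ X Y : FinGraph, X ∈ F → Nonempty (X.G ≃g Y.G) → Y ∈ F) ∧
    ∀ X : FinGraph, X ∈ F → ∀ (v : X.V) (r m : ℕ), (bl X.G v r).ncard ≤ m → m ≤ X.n →
      ∃ Y : FinGraph, Y ∈ F ∧ Y.n = m ∧ ∃ w : Y.V,
        (view X.G (fun _ => ()) v r).Iso (view Y.G (fun _ => ()) w r)

/-- A locally checkable labelling problem: a finite output alphabet, a radius `r` and a set of
allowed labelled balls of radius `r` (closed under isomorphism). -/
structure LCL where
  /-- the output alphabet -/
  S : Type
  /-- it is finite -/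
  fin : Finite S
  /-- the radius -/
  r : ℕ
  /-- the allowed labelled balls -/
  ok : Rooted S → Prop
  /-- they are closed under isomorphism -/
  inv : ∀ X Y : Rooted S, X.Iso Y → (ok X ↔ ok Y)

/-- `out` solves the problem on `G`: the labelled `r`-ball of every vertex is allowed. -/
def LCL.Solves (P : LCL) {V : Type} [Finite V] (G : SimpleGraph V) (out : V → P.S) : Prop :=
  ∀ v, P.ok (view G out v P.r)

/-- The fair coin. -/
noncomputable def coin : Measure Bool := (PMF.uniformOfFintype Bool).toMeasure

/-- Independent uniformly random infinite bit strings at the elements of `V`. -/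
noncomputable def bits (V : Type) : Measure (V → ℕ → Bool) :=
  Measure.infinitePi fun _ : V => Measure.infinitePi fun _ : ℕ => coin

/-- The outputs of the algorithm with rule `A` and radius `t`, for the bit strings `b`. -/
def outB {S V : Type} [Finite V] (A : Rule (ℕ → Bool) S) (t : ℕ) (G : SimpleGraph V)
    (b : V → ℕ → Bool) (v : V) : S :=
  A.out (view G b v t)

/-- The problem `P` is solved on the members of `F` with at least two vertices by a randomised
LOCAL algorithm of complexity `t` with failure probability at most `n ^ (-d)`; the algorithm may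
depend on the number `n` of vertices. -/
def RandSolvable (P : LCL) (F : Set FinGraph) (d : ℝ) (t : ℕ → ℕ) : Prop :=
  ∃ A : ℕ → Rule (ℕ → Bool) P.S, ∀ X ∈ F, 2 ≤ X.n →
    (∀ (v : X.V) (s : P.S), MeasurableSet {b | outB (A X.n) (t X.n) X.G b v = s}) ∧
    bits X.V {b | ¬ P.Solves X.G (outB (A X.n) (t X.n) X.G b)} ≤
      ENNReal.ofReal ((X.n : ℝ) ^ (-d))

/-- The problem `P` is solved on the members of `F` with at least two vertices by a deterministic
LOCAL algorithm of complexity `t`, for arbitrary distinct identifiers from `{1, ..., n ^ c}`. -/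
def DetSolvable (P : LCL) (F : Set FinGraph) (c : ℕ) (t : ℕ → ℕ) : Prop :=
  ∃ A : ℕ → Rule ℕ P.S, ∀ X ∈ F, 2 ≤ X.n → ∀ id : X.V → ℕ, Function.Injective id →
    (∀ v, 1 ≤ id v ∧ id v ≤ X.n ^ c) →
    P.Solves X.G (fun v => (A X.n).out (view X.G id v (t X.n)))

/-- The iterated logarithm: how often `log₂` must be applied to `n` to get a number `≤ 1`. -/
noncomputable def logStar (n : ℕ) : ℕ := sInf {k : ℕ | (Real.logb 2)^[k] n ≤ 1}

/-- The graph of `X` on its identifiers, as a labelled graph on `Fin (n ^ c + 1)`; the label says
which elements are identifiers. -/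
def idG {N : ℕ} (R : Rooted ℕ) : LG (Fin N) Prop where
  G := { Adj := fun a b => a ≠ b ∧ ∃ u w, R.lab u = a ∧ R.lab w = b ∧ R.G.Adj u w
         symm := ⟨by
           rintro a b ⟨h, u, w, hu, hw, e⟩
           exact ⟨h.symm, w, u, hw, hu, e.symm⟩⟩
         loopless := ⟨fun a h => h.1 rfl⟩ }
  lab := fun a => ∃ u, R.lab u = a

/-- The graph of `X` on its identifiers. -/
def idX {N : ℕ} {V : Type} (G : SimpleGraph V) (id : V → ℕ) : LG (Fin N) Prop where
  G := { Adj := fun a b => a ≠ b ∧ ∃ u w, id u = a ∧ id w = b ∧ G.Adj u w
         symm := ⟨by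
           rintro a b ⟨h, u, w, hu, hw, e⟩
           exact ⟨h.symm, w, u, hw, hu, e.symm⟩⟩
         loopless := ⟨fun a h => h.1 rfl⟩ }
  lab := fun a => ∃ u, id u = a

end Pool.Agent.H56.Sub
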