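import Pool.Agent.H56.Sub.Basics
import Pool.Agent.H56.Sub.Prob

/-!
# Squad SUB, module View: isomorphic views
-/

set_option autoImplicit false

noncomputable section

open scoped Classical

namespace Pool.Agent.H56.Sub


section View

theorem edist_succ_iff {V : Type} {G : SimpleGraph V} {v u : V} {r : ℕ} :
    G.edist v u ≤ ((r + 1 : ℕ) : ℕ∞) ↔
      G.edist v u ≤ (r : ℕ∞) ∨ ∃ w, G.edist v w ≤ (r : ℕ∞) ∧ G.Adj w u := by
  constructor
  · intro h
    have hne : G.edist v u ≠ ⊤ := ne_top_of_le_ne_top (ENat.natCast_ne_top _) h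
    obtain ⟨p, hp⟩ := SimpleGraph.exists_walk_of_edist_ne_top hne
    have hlen : p.length ≤ r + 1 := by
      rw [← hp] at h
      exact_mod_cast h
    have hlen' : p.reverse.length ≤ r + 1 := by simpa using hlen
    generalize p.reverse = q at hlen'
    cases q with
    | nil =>
      left
      simp
    | cons hadj q' =>
      rename_i w
      right
      refine ⟨w, ?_, hadj.symm⟩
      rw [SimpleGraph.edist_comm]
      refine (SimpleGraph.edist_le q').trans ?_
      simp only [SimpleGraph.Walk.length_cons] at hlen'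
      exact_mod_cast (by omega : q'.length ≤ r)
  · rintro (h | ⟨w, h1, h2⟩)
    · exact h.trans (by exact_mod_cast Nat.le_succ r)
    · calc G.edist v u ≤ G.edist v w + G.edist w u := SimpleGraph.edist_triangle
        _ ≤ (r : ℕ∞) + 1 := by
          gcongr
          exact (SimpleGraph.edist_eq_one_iff_adj.2 h2).le
        _ = _ := by push_cast; rfl

theorem edist_zero_iff {V : Type} {G : SimpleGraph V} {v u : V} :
    G.edist v u ≤ ((0 : ℕ) : ℕ∞) ↔ v = u := by
  simp

theorem bl_eq_of_ag {V : Type} {G H : SimpleGraph V} {v : V} {r : ℕ} (hG : GAg G H v r) :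
    bl G v r = bl H v r := by
  ext u
  exact GAg.edist_iff hG (Nat.le_succ r) u

theorem view_iso_of_ag {V L : Type} [Finite V] {G H : SimpleGraph V} {o o' : V → L} {v : V}
    {r : ℕ} (hG : GAg G H v r) (ho : EqOn G v r o o') :
    (view G o v r).Iso (view H o' v r) := by
  refine ⟨⟨Equiv.setCongr (bl_eq_of_ag hG), ?_⟩, ?_, ?_⟩
  · intro a b
    exact (hG a.1 a.2 b.1).symm
  · rfl
  · intro u
    exact (ho u.1 u.2).symm

theorem idX_adj {V : Type} {N : ℕ} (G : SimpleGraph V) {id : V → ℕ}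
    (hinj : Function.Injective id) (hN : ∀ v, id v < N) (u w : V) :
    (idX (N := N) G id).G.Adj ⟨id u, hN u⟩ ⟨id w, hN w⟩ ↔ G.Adj u w := by
  constructor
  · rintro ⟨_, u', w', hu, hw, h⟩
    have e1 : u' = u := hinj hu
    have e2 : w' = w := hinj hw
    rwa [e1, e2] at h
  · intro h
    refine ⟨?_, u, w, rfl, rfl, h⟩
    intro e
    exact h.ne (hinj (Fin.mk.inj_iff.1 e))

/-- Distances in `idX`. -/
theorem idX_edist {V : Type} {N : ℕ} (G : SimpleGraph V) {id : V → ℕ}
    (hinj : Function.Injective id) (hN : ∀ v, id v < N) (v : V) (a : Fin N) (r : ℕ) :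
    (idX (N := N) G id).G.edist ⟨id v, hN v⟩ a ≤ r ↔
      ∃ u, (⟨id u, hN u⟩ : Fin N) = a ∧ G.edist v u ≤ r := by
  induction r generalizing a with
  | zero =>
    rw [edist_zero_iff]
    constructor
    · rintro rfl
      exact ⟨v, rfl, by simp⟩
    · rintro ⟨u, rfl, h⟩
      rw [edist_zero_iff] at h
      rw [h]
  | succ r ih =>
    rw [edist_succ_iff, ih]
    constructor
    · rintro (⟨u, rfl, h⟩ | ⟨b, hb, hadj⟩)
      · exact ⟨u, rfl, edist_succ_iff.2 (Or.inl h)⟩
      · obtain ⟨u, rfl, h⟩ := (ih b).1 hb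
        obtain ⟨_, u', w', hu, hw, h'⟩ := hadj
        have e1 : u' = u := hinj hu
        subst e1
        exact ⟨w', Fin.ext hw, edist_succ_iff.2 (Or.inr ⟨u', h, h'⟩)⟩
    · rintro ⟨u, rfl, h⟩
      rcases edist_succ_iff.1 h with h | ⟨w, hw, hadj⟩
      · exact Or.inl ⟨u, rfl, h⟩
      · exact Or.inr ⟨⟨id w, hN w⟩, (ih _).2 ⟨w, rfl, hw⟩, (idX_adj G hinj hN w u).2 hadj⟩

theorem view_iso_id {V L : Type} [Finite V] {N : ℕ} (G : SimpleGraph V) {id : V → ℕ}
    (hinj : Function.Injective id) (hN : ∀ v, id v < N) (o : Fin N → L) (v : V) (r : ℕ) :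
    (view G (fun u => o ⟨id u, hN u⟩) v r).Iso
      (view (idX (N := N) G id).G o ⟨id v, hN v⟩ r) := by
  have hmem : ∀ u : bl G v r,
      (⟨id u.1, hN u.1⟩ : Fin N) ∈ bl (idX (N := N) G id).G ⟨id v, hN v⟩ r :=
    fun u => (idX_edist G hinj hN v _ r).2 ⟨u.1, rfl, u.2⟩
  let e : bl G v r ≃ bl (idX (N := N) G id).G ⟨id v, hN v⟩ r :=
    Equiv.ofBijective (fun u => ⟨⟨id u.1, hN u.1⟩, hmem u⟩) (by
      constructor
      · intro u w h
        have h1 : (⟨id u.1, hN u.1⟩ : Fin N) = ⟨id w.1, hN w.1⟩ := congrArg Subtype.val h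
        exact Subtype.ext (hinj (Fin.mk.inj_iff.1 h1))
      · rintro ⟨a, ha⟩
        obtain ⟨u, hu, hd⟩ := (idX_edist G hinj hN v a r).1 ha
        exact ⟨⟨u, hd⟩, Subtype.ext hu⟩)
  refine ⟨⟨e, ?_⟩, ?_, ?_⟩
  · intro a b
    exact idX_adj G hinj hN a.1 b.1
  · rfl
  · intro u
    rfl

theorem induce_edist {V : Type} (G : SimpleGraph V) (W : Set V) (v : W) (r : ℕ)
    (hW : ∀ u, G.edist v u ≤ r → u ∈ W) (s : ℕ) (hs : s ≤ r) (u : W) :
    (G.induce W).edist v u ≤ s ↔ G.edist v u ≤ s := by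
  induction s generalizing u with
  | zero =>
    rw [edist_zero_iff, edist_zero_iff]
    exact Subtype.ext_iff
  | succ s ih =>
    rw [edist_succ_iff, edist_succ_iff, ih (by omega)]
    refine or_congr Iff.rfl ?_
    constructor
    · rintro ⟨w, hw, hadj⟩
      exact ⟨w.1, (ih (by omega) w).1 hw, hadj⟩
    · rintro ⟨w, hw, hadj⟩
      have hwW : w ∈ W := hW w (hw.trans (by exact_mod_cast (by omega : s ≤ r)))
      exact ⟨⟨w, hwW⟩, (ih (by omega) ⟨w, hwW⟩).2 hw, hadj⟩

theorem view_iso_sub {V L : Type} [Finite V] (G : SimpleGraph V) (W : Set V) (v : W) (r : ℕ)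
    (hW : ∀ u, G.edist v u ≤ r → u ∈ W) (o : V → L) :
    (view (G.induce W) (fun u : W => o u) v r).Iso (view G o v r) := by
  have hi := induce_edist G W v r hW r le_rfl
  let e : bl (G.induce W) v r ≃ bl G (v : V) r :=
    Equiv.ofBijective (fun u => ⟨u.1.1, (hi u.1).1 u.2⟩) (by
      constructor
      · intro u w h
        have h1 : (u.1.1 : V) = w.1.1 := congrArg (fun z : bl G (v : V) r => (z : V)) h
        exact Subtype.ext (Subtype.ext h1)
      · rintro ⟨u, hu⟩
        exact ⟨⟨⟨u, hW u hu⟩, (hi ⟨u, hW u hu⟩).2 hu⟩, rfl⟩)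
  refine ⟨⟨e, ?_⟩, ?_, ?_⟩
  · intro a b
    exact Iff.rfl
  · rfl
  · intro u
    rfl

/-- Growth of `idX`. -/
theorem idX_gr {V : Type} [Finite V] [Nonempty V] {N : ℕ} {f : ℕ → ℕ} (G : SimpleGraph V)
    {id : V → ℕ} (hinj : Function.Injective id) (hN : ∀ v, id v < N) (hG : Gr f G) :
    Gr f (idX (N := N) G id).G := by
  intro a r
  by_cases ha : ∃ v, (⟨id v, hN v⟩ : Fin N) = a
  · obtain ⟨v, rfl⟩ := ha
    have himg : bl (idX (N := N) G id).G ⟨id v, hN v⟩ r =
        (fun u => (⟨id u, hN u⟩ : Fin N)) '' bl G v r := by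
      ext b
      refine (idX_edist G hinj hN v b r).trans ?_
      constructor
      · rintro ⟨u, h1, h2⟩
        exact ⟨u, h2, h1⟩
      · rintro ⟨u, h1, h2⟩
        exact ⟨u, h2, h1⟩
    rw [himg]
    exact (Set.ncard_image_le (Set.toFinite _)).trans (hG v r)
  · have hsing : bl (idX (N := N) G id).G a r ⊆ {a} := by
      intro b hb
      have hb' : (idX (N := N) G id).G.edist a b ≤ (r : ℕ∞) := hb
      have key : ∀ s : ℕ, ∀ b, (idX (N := N) G id).G.edist a b ≤ (s : ℕ∞) → b = a := by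
        intro s
        induction s with
        | zero =>
          intro b h
          exact (edist_zero_iff.1 h).symm
        | succ s ih =>
          intro b h
          rcases edist_succ_iff.1 h with h | ⟨w, hw, hadj⟩
          · exact ih b h
          · exfalso
            have hwa := ih w hw
            subst hwa
            obtain ⟨_, u', w', hu, hw', h'⟩ := hadj
            exact ha ⟨u', Fin.ext hu⟩
      exact key r b hb'
    have h1 : (bl (idX (N := N) G id).G a r).ncard ≤ 1 := by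
      calc _ ≤ ({a} : Set (Fin N)).ncard := Set.ncard_le_ncard hsing (Set.toFinite _)
        _ = 1 := Set.ncard_singleton a
    have h2 : 1 ≤ (bl G (Classical.arbitrary V) r).ncard := by
      refine (Set.ncard_pos (Set.toFinite _)).2 ⟨Classical.arbitrary V, ?_⟩
      exact mem_bl_self _ _ _
    exact h1.trans (h2.trans (hG _ r))

end View

end Pool.Agent.H56.Sub
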