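import Pool.Agent.H56.Sub.Core
import Pool.Agent.H56.Sub.Lin3
import Pool.Agent.H56.Sub.LogS
import Pool.Agent.H56.Sub.Her
import Pool.Agent.H56.Sub.Disc
import Pool.Agent.H56.Sub.Param0
import Pool.Agent.H56.Sub.View

set_option autoImplicit false

noncomputable section

open scoped Classical
open MeasureTheory

namespace Pool.Agent.H56.Sub


/-- The event that the output labelling is wrong at an identifier. -/
def BadE {N : ℕ} {Ω : Type} (P : LCL) (O : LG (Fin N) Prop → (Fin N → Ω) → Fin N → P.S)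
    (L : LG (Fin N) Prop) (x : Fin N → Ω) (a : Fin N) : Prop :=
  L.lab a ∧ ¬ P.ok (view L.G (O L x) a P.r)

theorem BadE_cag {N t0 T0 : ℕ} {Ω : Type} (P : LCL)
    (O : LG (Fin N) Prop → (Fin N → Ω) → Fin N → P.S)
    (hO : ∀ X Y v x y, X.Ag Y v t0 → EqOn X.G v t0 x y → O X x v = O Y y v)
    (hT0 : t0 + P.r ≤ T0) (X Y : LG (Fin N) Prop) (v : Fin N) (ρ : ℕ) (h : X.Ag Y v ρ) :
    CAg T0 X.G Y.G (BadE P O X) (BadE P O Y) v ρ := by
  refine ⟨h.1, ?_⟩
  intro w x y hw hxy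
  have hT : ((t0 + P.r : ℕ) : ℕ∞) ≤ T0 := by exact_mod_cast hT0
  have hwv : X.G.edist v w ≤ ρ := le_trans le_self_add hw
  have hshift : X.G.edist v w + ((t0 + P.r : ℕ) : ℕ∞) ≤ ρ :=
    le_trans (add_le_add_right hT _) hw
  have hG : GAg X.G Y.G w (t0 + P.r) := GAg.shift h.1 hshift
  have hl : EqOn X.G w (t0 + P.r) X.lab Y.lab := EqOn.shift h.2 hshift
  have hlab : X.lab w = Y.lab w := h.2 w hwv
  have hout : EqOn X.G w P.r (O X x) (O Y y) := by
    intro u hu
    have hu' : X.G.edist w u + ((t0 : ℕ) : ℕ∞) ≤ ((t0 + P.r : ℕ) : ℕ∞) := by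
      rw [add_comm t0, Nat.cast_add]
      exact add_le_add_left hu _
    refine hO X Y u x y ⟨GAg.shift hG hu', EqOn.shift hl hu'⟩ ?_
    intro z hz
    refine hxy z (le_trans ?_ hT)
    calc X.G.edist w z ≤ X.G.edist w u + X.G.edist u z := SimpleGraph.edist_triangle
      _ ≤ X.G.edist w u + t0 := add_le_add_right hz _
      _ ≤ _ := hu'
  have hiso := view_iso_of_ag (o := O X x) (o' := O Y y) (v := w) (r := P.r)
    (fun u hu z => hG u (le_trans hu (by exact_mod_cast Nat.le_add_left _ _)) z) hout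
  unfold BadE
  rw [hlab, P.inv _ _ hiso]

theorem large {F : Set FinGraph} (hF : BallClosed F) {f : ℕ → ℕ} (hf : Tame f)
    (hgr : ∀ X ∈ F, Gr f X.G) {d : ℝ} (hd : 0 < d) (P : LCL) (t : ℕ → ℕ)
    (hft : ∀ K : ℕ, Filter.Tendsto (fun n : ℕ => Real.log (f (K * (t n + 1))) / Real.log n)
      Filter.atTop (nhds 0)) (hf1 : ∀ r, 1 ≤ f r) (hr : RandSolvable P F d t) (c : ℕ) :
    ∃ n0 K : ℕ, 2 ≤ n0 ∧ ∀ n, n0 ≤ n → ∃ ρ, ρ ≤ K * logStar n ∧
      ∃ O : LG (Fin (n ^ c + 1)) Prop → Fin (n ^ c + 1) → P.S,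
        (∀ X Y v, X.Ag Y v ρ → O X v = O Y v) ∧
        ∀ X ∈ F, X.n = n → ∀ (id : X.V → ℕ), Function.Injective id →
          ∀ (hN : ∀ v, id v < n ^ c + 1) (v : X.V),
          P.ok (view (idX (N := n ^ c + 1) X.G id).G (O (idX X.G id)) ⟨id v, hN v⟩ P.r) := by
  obtain ⟨A, hA⟩ := hr
  obtain ⟨n0, Kb, g, ε, hn0, hε, hKb, hg, h4, hδ, hgn⟩ := param0 hd hft hf1 P.r
  set t0 := t n0 with ht0
  set T0 := t0 + P.r + 1 with hT0
  -- small scale colouring
  obtain ⟨M0, K0, hL0⟩ := linial (2 * T0) (f (2 * T0))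
  obtain ⟨p, hpT, hcore⟩ := core hf T0 M0 g (by omega) hε h4
  obtain ⟨M, K1, hL1⟩ := linial p.R (f p.R)
  obtain ⟨ρ0, hdet⟩ := det_loc p M
  obtain ⟨Kc, hKc⟩ := logStar_pow c
  refine ⟨n0, t0 + ρ0 + (2 * T0 * K0 + p.R * K1) * Kc, hn0, ?_⟩
  intro n hn
  set N := n ^ c + 1 with hN
  obtain ⟨s0, hs0, Φ0, hΦ0loc, hΦ0⟩ := hL0 N
  obtain ⟨s1, hs1, Φ1, hΦ1loc, hΦ1⟩ := hL1 N
  obtain ⟨m, O, hOloc, hO⟩ := disc P (A n0) t0 N (δ := ε ^ 4 - (n0 : ℝ) ^ (-d)) (by linarith)
  have hn2 : 2 ≤ n := le_trans hn0 hn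
  have hls := logStar_pos hn2
  refine ⟨t0 + ρ0 + (2 * T0 * s0 + p.R * s1), ?_, ?_⟩
  · have h1 : s0 ≤ K0 * (Kc * logStar n) := le_trans hs0 (Nat.mul_le_mul_left _ (hKc n hn2))
    have h2 : s1 ≤ K1 * (Kc * logStar n) := le_trans hs1 (Nat.mul_le_mul_left _ (hKc n hn2))
    have h3 : 2 * T0 * s0 ≤ 2 * T0 * (K0 * (Kc * logStar n)) := Nat.mul_le_mul_left _ h1
    have h4' : p.R * s1 ≤ p.R * (K1 * (Kc * logStar n)) := Nat.mul_le_mul_left _ h2
    have h5 : t0 + ρ0 ≤ (t0 + ρ0) * logStar n := Nat.le_mul_of_pos_right _ hls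
    calc t0 + ρ0 + (2 * T0 * s0 + p.R * s1)
        ≤ (t0 + ρ0) * logStar n + (2 * T0 * (K0 * (Kc * logStar n)) +
          p.R * (K1 * (Kc * logStar n))) := by omega
      _ = (t0 + ρ0 + (2 * T0 * K0 + p.R * K1) * Kc) * logStar n := by ring
  set r2 := 2 * T0 * s0 + p.R * s1 with hr2
  refine ⟨fun L => O L (det p M L.G (BadE P O L) (Φ0 L.G) (Φ1 L.G)), ?_, ?_⟩
  · -- locality
    intro X Y v hXY
    have hshift : ∀ (u : Fin N) (a b : ℕ), X.G.edist v u ≤ a → a + b ≤ t0 + ρ0 + r2 →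
        X.G.edist v u + ((b : ℕ) : ℕ∞) ≤ ((t0 + ρ0 + r2 : ℕ) : ℕ∞) := by
      intro u a b hu hab
      calc X.G.edist v u + ((b : ℕ) : ℕ∞) ≤ (a : ℕ∞) + (b : ℕ∞) := add_le_add_left hu _
        _ ≤ _ := by exact_mod_cast hab
    have hself : X.G.edist v v ≤ ((0 : ℕ) : ℕ∞) := by simp
    refine hOloc X Y v _ _ ⟨GAg.shift hXY.1 (hshift v 0 t0 hself (by omega)),
      EqOn.shift hXY.2 (hshift v 0 t0 hself (by omega))⟩ ?_
    intro u hu
    have hAgu : X.Ag Y u ρ0 := ⟨GAg.shift hXY.1 (hshift u t0 ρ0 hu (by omega)),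
      EqOn.shift hXY.2 (hshift u t0 ρ0 hu (by omega))⟩
    have htri : ∀ z, X.G.edist u z ≤ (ρ0 : ℕ∞) → X.G.edist v z ≤ ((t0 + ρ0 : ℕ) : ℕ∞) := by
      intro z hz
      calc X.G.edist v z ≤ X.G.edist v u + X.G.edist u z := SimpleGraph.edist_triangle
        _ ≤ (t0 : ℕ∞) + (ρ0 : ℕ∞) := add_le_add hu hz
        _ = _ := by push_cast; rfl
    refine hdet (Fin N) (Fin m → Bool) X.G Y.G (BadE P O X) (BadE P O Y) _ _ _ _ u ?_ ?_ ?_
    · rw [hpT]
      exact BadE_cag P O hOloc (by omega) X Y u ρ0 hAgu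
    · intro z hz
      exact hΦ0loc X.G Y.G z r2 (by omega)
        (GAg.shift hXY.1 (hshift z (t0 + ρ0) r2 (htri z hz) (by omega)))
    · intro z hz
      exact hΦ1loc X.G Y.G z r2 (by omega)
        (GAg.shift hXY.1 (hshift z (t0 + ρ0) r2 (htri z hz) (by omega)))
  · -- correctness
    intro X hX hXn id hinj hNid v
    have : Nonempty X.V := ⟨v⟩
    set L : LG (Fin N) Prop := idX X.G id with hLdef
    have hLgr : Gr f L.G := idX_gr X.G hinj hNid (hgr X hX)
    have hballX : ∀ (w : X.V) (r : ℕ), r ≤ Kb → (bl X.G w r).ncard ≤ n0 := by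
      intro w r hr
      calc (bl X.G w r).ncard ≤ (bl X.G w Kb).ncard :=
            Set.ncard_le_ncard (bl_mono hr) (Set.toFinite _)
        _ ≤ f Kb := hgr X hX w Kb
        _ ≤ g := hg
        _ ≤ n0 := hgn
    have hcorr := hcore (Fin N) (Fin m → Bool) L.G (BadE P O L) (Φ0 L.G) (Φ1 L.G) M
      (by
        intro w x y hxy
        exact (BadE_cag (T0 := T0) P O hOloc (by omega) L L w T0
          ⟨fun _ _ _ => Iff.rfl, fun _ _ => rfl⟩).2 w x y (by simp) hxy)
      hLgr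
      (by
        intro w
        calc (bl L.G w (10 * T0)).ncard ≤ (bl L.G w Kb).ncard :=
              Set.ncard_le_ncard (bl_mono (by omega)) (Set.toFinite _)
          _ ≤ f Kb := hLgr w Kb
          _ ≤ g := hg)
      (hΦ0 L.G (fun w => hLgr w _)).1 (hΦ0 L.G (fun w => hLgr w _)).2
      (hΦ1 L.G (fun w => hLgr w _)).1 (hΦ1 L.G (fun w => hLgr w _)).2
      (by
        -- the probability bound
        intro a
        by_cases ha : L.lab a
        · obtain ⟨w, hw⟩ := ha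
          have haw : a = ⟨id w, hNid w⟩ := Fin.ext hw.symm
          subst haw
          have hm : ∀ u, L.G.edist ⟨id w, hNid w⟩ u ≤ P.r → ∀ s,
              MeasurableSet {b | outB (A n0) t0 L.G b u = s} := by
            intro u hu s
            obtain ⟨w', hw', _⟩ := (idX_edist X.G hinj hNid w u P.r).1 hu
            subst hw'
            exact her_meas hF hA hn0 hX (by omega) hinj hNid w' (hballX w' _ (by omega)) s
          have hp := her hF hA hn0 hX (by omega) hinj hNid w (hballX w _ (by omega))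
          have := hO L ⟨id w, hNid w⟩ hm ((n0 : ℝ) ^ (-d)) (by positivity) hp
          have hcp : cp (BadE P O L) nope ⟨id w, hNid w⟩ =
              Ex (fun x => ind (¬ P.ok (view L.G (O L x) ⟨id w, hNid w⟩ P.r))) := by
            unfold cp
            congr 1
            funext x
            have : fill nope x = x := by funext u; rfl
            rw [this]
            unfold BadE
            congr 1
            have : L.lab ⟨id w, hNid w⟩ := ⟨w, rfl⟩
            simp [this]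
          rw [hcp]
          linarith
        · have : cp (BadE P O L) nope a = 0 := by
            unfold cp
            have : (fun y => ind (BadE P O L (fill nope y) a)) =
                fun _ : Fin N → (Fin m → Bool) => (0 : ℝ) := by
              funext y
              unfold ind BadE
              rw [if_neg]
              exact fun h => ha h.1
            rw [this]
            exact Ex_const 0
          rw [this]
          positivity)
    have := hcorr ⟨id v, hNid v⟩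
    unfold BadE at this
    by_contra hcon
    exact this ⟨⟨v, rfl⟩, hcon⟩

end Pool.Agent.H56.Sub
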