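import Mathlib

/-!
# Squad SUB, module Lin1: one step of Linial's colour reduction
-/

set_option autoImplicit false

namespace Pool.Agent.H56.Sub

open Polynomial

/-- the polynomial of the colour `c` -/
noncomputable def linP (q k c : ℕ) : Polynomial (ZMod q) :=
  ∑ i ∈ Finset.range k, C (if c.testBit i then (1 : ZMod q) else 0) * X ^ i

lemma linP_coeff (q k c i : ℕ) (hi : i < k) :
    (linP q k c).coeff i = if c.testBit i then (1 : ZMod q) else 0 := by
  simp only [linP, finsetSum_coeff, coeff_C_mul, coeff_X_pow]
  rw [Finset.sum_eq_single i]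
  · simp
  · intro b _ hb
    simp [hb.symm]
  · intro h
    exact absurd (Finset.mem_range.2 hi) h

lemma linP_degree (q k c : ℕ) : (linP q k c).degree < k := by
  rw [degree_lt_iff_coeff_zero]
  intro i hi
  simp only [linP, finsetSum_coeff, coeff_C_mul, coeff_X_pow]
  refine Finset.sum_eq_zero fun j hj => ?_
  have : i ≠ j := by
    have := Finset.mem_range.1 hj
    omega
  simp [this]

lemma linP_inj {q k c d : ℕ} (hq : 1 < q) (hc : c < 2 ^ k) (hd : d < 2 ^ k)
    (h : linP q k c = linP q k d) : c = d := by
  have : Fact (1 < q) := ⟨hq⟩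
  apply Nat.eq_of_testBit_eq
  intro i
  by_cases hi : i < k
  · have h1 := linP_coeff q k c i hi
    have h2 := linP_coeff q k d i hi
    rw [h, h2] at h1
    by_cases a : c.testBit i <;> by_cases b : d.testBit i <;> simp_all
  · have hk : 2 ^ k ≤ 2 ^ i := Nat.pow_le_pow_right (by norm_num) (by omega)
    rw [Nat.testBit_lt_two_pow (lt_of_lt_of_le hc hk),
      Nat.testBit_lt_two_pow (lt_of_lt_of_le hd hk)]

open scoped Classical in
/-- the new colour -/
noncomputable def linF (q k c : ℕ) (S : Set ℕ) : ℕ :=
  if h : ∃ x : ZMod q, ∀ s ∈ S, (linP q k c).eval x ≠ (linP q k s).eval x then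
    (Classical.choose h).val * q + ((linP q k c).eval (Classical.choose h)).val
  else 0

lemma exists_good {q k D c : ℕ} [Fact q.Prime] (hqk : D * k < q) {S : Set ℕ} (hS : S.Finite)
    (hcS : c ∉ S) (hcard : S.ncard ≤ D) (hc : c < 2 ^ k) (hSk : ∀ s ∈ S, s < 2 ^ k) :
    ∃ x : ZMod q, ∀ s ∈ S, (linP q k c).eval x ≠ (linP q k s).eval x := by
  classical
  by_contra hcon
  push Not at hcon
  have hq1 : 1 < q := (Fact.out : q.Prime).one_lt
  -- every `x` is a root of one of the differences
  set T : Finset ℕ := hS.toFinset with hT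
  have hcov : (Finset.univ : Finset (ZMod q)) ⊆
      T.biUnion fun s => ((linP q k c - linP q k s).roots).toFinset := by
    intro x _
    obtain ⟨s, hs, he⟩ := hcon x
    rw [Finset.mem_biUnion]
    refine ⟨s, by simpa [hT] using hs, ?_⟩
    rw [Multiset.mem_toFinset, mem_roots']
    refine ⟨?_, by simp [IsRoot, he]⟩
    intro h0
    have : linP q k c = linP q k s := sub_eq_zero.1 h0
    exact hcS ((linP_inj hq1 hc (hSk s hs) this) ▸ hs)
  have hc1 := Finset.card_le_card hcov
  rw [Finset.card_univ, ZMod.card] at hc1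
  have hc2 : (T.biUnion fun s => ((linP q k c - linP q k s).roots).toFinset).card ≤ T.card * k := by
    refine Finset.card_biUnion_le_card_mul _ _ _ ?_
    intro s hs
    refine le_trans (Multiset.toFinset_card_le _) ?_
    have hne : linP q k c - linP q k s ≠ 0 := by
      intro h0
      have hs' : s ∈ S := by simpa [hT] using hs
      have : linP q k c = linP q k s := sub_eq_zero.1 h0
      exact hcS ((linP_inj hq1 hc (hSk s hs') this) ▸ hs')
    have hd : (linP q k c - linP q k s).degree < k :=
      lt_of_le_of_lt (degree_sub_le _ _) (max_lt (linP_degree q k c) (linP_degree q k s))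
    have h3 := card_roots hne
    have h4 : (((linP q k c - linP q k s).roots.card : ℕ) : WithBot ℕ) < (k : WithBot ℕ) :=
      lt_of_le_of_lt h3 hd
    exact le_of_lt (by exact_mod_cast h4)
  have hTD : T.card ≤ D := by
    rw [hT, ← Set.ncard_eq_toFinset_card S hS]
    exact hcard
  have : q ≤ D * k := le_trans hc1 (le_trans hc2 (Nat.mul_le_mul_right k hTD))
  omega

/-- Module Lin1: one step of colour reduction: `c` is the own colour, `S` the set of the colours of
the neighbours. -/
theorem lin_step (D m : ℕ) : ∃ (m' : ℕ) (f : ℕ → Set ℕ → ℕ),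
    m' ≤ 16 * (D + 1) ^ 2 * (Nat.log 2 m + 2) ^ 2 ∧
    (∀ c S, c < m → (∀ x ∈ S, x < m) → c ∉ S → S.ncard ≤ D → f c S < m') ∧
    ∀ c S c' S', c < m → (∀ x ∈ S, x < m) → c ∉ S → S.ncard ≤ D →
      c' < m → (∀ x ∈ S', x < m) → c' ∉ S' → S'.ncard ≤ D → c ∈ S' → c' ∈ S →
      f c S ≠ f c' S' := by
  set k := Nat.log 2 m + 1 with hk
  have hm : m < 2 ^ k := by
    rw [hk]
    exact Nat.lt_pow_succ_log_self (by norm_num) m
  obtain ⟨q, hq, hq1, hq2⟩ := Nat.exists_prime_lt_and_le_two_mul (D * k + 1) (by omega)
  have : Fact q.Prime := ⟨hq⟩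
  have hq0 : 0 < q := hq.pos
  refine ⟨q * q, linF q k, ?_, ?_, ?_⟩
  · have h1 : q ≤ 2 * ((D + 1) * (Nat.log 2 m + 2)) := by
      refine le_trans hq2 ?_
      have : D * k + 1 ≤ (D + 1) * (Nat.log 2 m + 2) := by
        rw [hk]; nlinarith
      omega
    calc q * q ≤ (2 * ((D + 1) * (Nat.log 2 m + 2))) * (2 * ((D + 1) * (Nat.log 2 m + 2))) :=
          Nat.mul_le_mul h1 h1
      _ = 4 * (D + 1) ^ 2 * (Nat.log 2 m + 2) ^ 2 := by ring
      _ ≤ 16 * (D + 1) ^ 2 * (Nat.log 2 m + 2) ^ 2 := by
          apply Nat.mul_le_mul_right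
          apply Nat.mul_le_mul_right
          norm_num
  · intro c S hc hS hcS hcard
    have hfin : S.Finite := (Set.finite_Iio m).subset (fun x hx => hS x hx)
    have hg := exists_good (q := q) (k := k) (D := D) (c := c) (by omega) hfin hcS hcard
      (lt_trans hc hm) (fun s hs => lt_trans (hS s hs) hm)
    unfold linF
    rw [dif_pos hg]
    have a := ZMod.val_lt (Classical.choose hg)
    have b := ZMod.val_lt ((linP q k c).eval (Classical.choose hg))
    calc _ < (Classical.choose hg).val * q + q := by omega
      _ = ((Classical.choose hg).val + 1) * q := by ring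
      _ ≤ q * q := Nat.mul_le_mul_right q a
  · intro c S c' S' hc hS hcS hcard hc' hS' hcS' hcard' hin hin' heq
    have hfin : S.Finite := (Set.finite_Iio m).subset (fun x hx => hS x hx)
    have hfin' : S'.Finite := (Set.finite_Iio m).subset (fun x hx => hS' x hx)
    have hg := exists_good (q := q) (k := k) (D := D) (c := c) (by omega) hfin hcS hcard
      (lt_trans hc hm) (fun s hs => lt_trans (hS s hs) hm)
    have hg' := exists_good (q := q) (k := k) (D := D) (c := c') (by omega) hfin' hcS' hcard'
      (lt_trans hc' hm) (fun s hs => lt_trans (hS' s hs) hm)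
    unfold linF at heq
    rw [dif_pos hg, dif_pos hg'] at heq
    have b := ZMod.val_lt ((linP q k c).eval (Classical.choose hg))
    have b' := ZMod.val_lt ((linP q k c').eval (Classical.choose hg'))
    have hspec := Classical.choose_spec hg
    set x := Classical.choose hg
    set x' := Classical.choose hg'
    have e1 : x.val = x'.val := by
      have h1 : (x.val * q + ((linP q k c).eval x).val) / q = x.val := by
        rw [mul_comm, Nat.mul_add_div hq0, Nat.div_eq_of_lt b, add_zero]
      have h2 : (x'.val * q + ((linP q k c').eval x').val) / q = x'.val := by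
        rw [mul_comm, Nat.mul_add_div hq0, Nat.div_eq_of_lt b', add_zero]
      rw [← h1, ← h2, heq]
    have e2 : x = x' := ZMod.val_injective q e1
    have e3 : ((linP q k c).eval x).val = ((linP q k c').eval x').val := by
      rw [e1] at heq
      exact Nat.add_left_cancel heq
    have e4 : (linP q k c).eval x = (linP q k c').eval x := by
      have := ZMod.val_injective q e3
      rw [← e2] at this
      exact this
    exact hspec c' hin' e4

end Pool.Agent.H56.Sub
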