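import Pool.Agent.H56.Sub.View

/-!
# Squad SUB, module RuleMk: from functionals on graphs of identifiers to rules
-/

set_option autoImplicit false

noncomputable section

open scoped Classical

namespace Pool.Agent.H56.Sub

section RuleMk

/-- `idG` of isomorphic rooted graphs is the same. -/
theorem idG_eq_of_iso {N : ℕ} {R R' : Rooted ℕ} (h : R.Iso R') :
    idG (N := N) R = idG (N := N) R' := by
  obtain ⟨e, he, hl⟩ := h
  have hG : (idG (N := N) R).G = (idG (N := N) R').G := by
    ext a b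
    constructor
    · rintro ⟨hab, u, w, hu, hw, h⟩
      exact ⟨hab, e u, e w, (hl u).trans hu, (hl w).trans hw, e.map_rel_iff.2 h⟩
    · rintro ⟨hab, u, w, hu, hw, h⟩
      refine ⟨hab, e.symm u, e.symm w, ?_, ?_, e.symm.map_rel_iff.2 h⟩
      · rw [← hl, e.apply_symm_apply, hu]
      · rw [← hl, e.apply_symm_apply, hw]
  have hlab : (idG (N := N) R).lab = (idG (N := N) R').lab := by
    funext a
    apply propext
    constructor
    · rintro ⟨u, hu⟩
      exact ⟨e u, (hl u).trans hu⟩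
    · rintro ⟨u, hu⟩
      refine ⟨e.symm u, ?_⟩
      rw [← hl, e.apply_symm_apply, hu]
  have hext : ∀ X Y : LG (Fin N) Prop, X.G = Y.G → X.lab = Y.lab → X = Y := by
    rintro ⟨G, l⟩ ⟨G', l'⟩ h1 h2
    cases h1
    cases h2
    rfl
  exact hext _ _ hG hlab

/-- The graph of identifiers of a view agrees with the graph of identifiers. -/
theorem idG_view_ag {V : Type} [Finite V] {N : ℕ} (G : SimpleGraph V) {id : V → ℕ}
    (hinj : Function.Injective id) (hN : ∀ v, id v < N) (v : V) (ρ : ℕ) :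
    (idX (N := N) G id).Ag (idG (N := N) (view G id v (ρ + 1))) ⟨id v, hN v⟩ ρ := by
  constructor
  · intro a ha b
    obtain ⟨u, rfl, hu⟩ := (idX_edist G hinj hN v a ρ).1 ha
    constructor
    · rintro ⟨hab, u', w, hu', hw, h⟩
      have e1 : u' = u := hinj hu'
      subst e1
      have hm : u' ∈ bl G v (ρ + 1) := edist_succ_iff.2 (Or.inl hu)
      have hm' : w ∈ bl G v (ρ + 1) := edist_succ_iff.2 (Or.inr ⟨u', hu, h⟩)
      exact ⟨hab, ⟨u', hm⟩, ⟨w, hm'⟩, hu', hw, h⟩
    · rintro ⟨hab, u', w, hu', hw, h⟩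
      exact ⟨hab, u'.1, w.1, hu', hw, h⟩
  · intro a ha
    obtain ⟨u, rfl, hu⟩ := (idX_edist G hinj hN v a ρ).1 ha
    apply propext
    constructor
    · rintro ⟨w, hw⟩
      have e1 : w = u := hinj hw
      subst e1
      exact ⟨⟨w, edist_succ_iff.2 (Or.inl hu)⟩, hw⟩
    · rintro ⟨w, hw⟩
      exact ⟨w.1, hw⟩

theorem ruleMk {S : Type} {N ρ : ℕ} (O : LG (Fin N) Prop → Fin N → S)
    (hO : ∀ X Y v, X.Ag Y v ρ → O X v = O Y v) (hS : Nonempty S) :
    ∃ A : Rule ℕ S, ∀ (V : Type) [Finite V] (G : SimpleGraph V) (id : V → ℕ),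
      Function.Injective id → ∀ (hN : ∀ v, id v < N) (v : V),
      A.out (view G id v (ρ + 1)) = O (idX G id) ⟨id v, hN v⟩ := by
  refine ⟨⟨fun R => if h : R.lab R.root < N then O (idG R) ⟨R.lab R.root, h⟩ else
    Classical.choice hS, ?_⟩, ?_⟩
  · intro X Y h
    have hid := idG_eq_of_iso (N := N) h
    obtain ⟨e, he, hl⟩ := h
    have hroot : Y.lab Y.root = X.lab X.root := by rw [← he, hl]
    by_cases hx : X.lab X.root < N
    · have hy : Y.lab Y.root < N := hroot ▸ hx
      rw [dif_pos hx, dif_pos hy, hid]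
      congr 1
      exact Fin.ext hroot.symm
    · have hy : ¬ Y.lab Y.root < N := hroot ▸ hx
      rw [dif_neg hx, dif_neg hy]
  · intro V _ G id hinj hN v
    have hx : (view G id v (ρ + 1)).lab (view G id v (ρ + 1)).root < N := hN v
    simp only
    rw [dif_pos hx]
    exact (hO _ _ _ (idG_view_ag G hinj hN v ρ)).symm

end RuleMk

end Pool.Agent.H56.Sub
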