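import Pool.Agent.H56.Sub.View

set_option autoImplicit false

noncomputable section

open scoped Classical
open MeasureTheory

namespace Pool.Agent.H56.Sub


theorem edist_le_card {V : Type} [Fintype V] {G : SimpleGraph V} {u w : V}
    (h : G.Reachable u w) : G.edist u w ≤ (Fintype.card V : ℕ∞) := by
  obtain ⟨p, hp, hl⟩ := h.exists_path_of_dist
  have h1 := hp.length_lt
  calc G.edist u w ≤ p.length := p.edist_le
    _ ≤ _ := by exact_mod_cast h1.le

theorem reachable_of_edist_le {V : Type} {G : SimpleGraph V} {u w : V} {n : ℕ}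
    (h : G.edist u w ≤ (n : ℕ∞)) : G.Reachable u w := by
  apply SimpleGraph.reachable_of_edist_ne_top
  intro h'
  rw [h'] at h
  exact absurd (top_le_iff.1 h) (ENat.natCast_ne_top n)

instance : IsProbabilityMeasure coin := by
  unfold coin
  infer_instance

instance (V : Type) : IsProbabilityMeasure (bits V) := by
  unfold bits
  infer_instance

theorem small {P : LCL} {F : Set FinGraph} {d : ℝ} (hd : 0 < d) {t : ℕ → ℕ}
    (hr : RandSolvable P F d t) {n : ℕ} (hn : 2 ≤ n) (N : ℕ) (hS : Nonempty P.S) :
    ∃ O : LG (Fin N) Prop → Fin N → P.S,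
      (∀ X Y v, X.Ag Y v (n + P.r) → O X v = O Y v) ∧
      ∀ X ∈ F, X.n = n → ∀ (id : X.V → ℕ), Function.Injective id → ∀ (hN : ∀ v, id v < N) (v : X.V),
        P.ok (view (idX (N := N) X.G id).G (O (idX X.G id)) ⟨id v, hN v⟩ P.r) := by
  set pred : LG (Fin N) Prop → Fin N → (Fin N → P.S) → Prop := fun X v o =>
    ∀ w, X.G.edist v w ≤ (n : ℕ∞) → P.ok (view X.G o w P.r) with hpred
  refine ⟨fun X v => Classical.epsilon (pred X v) v, ?_, ?_⟩
  · intro X Y v hXY
    have : pred X v = pred Y v := by
      funext o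
      rw [hpred]
      apply propext
      have hiff : ∀ w, X.G.edist v w ≤ (n : ℕ∞) ↔ Y.G.edist v w ≤ (n : ℕ∞) :=
        fun w => GAg.edist_iff hXY.1 (by omega) w
      have hok : ∀ w, X.G.edist v w ≤ (n : ℕ∞) →
          (P.ok (view X.G o w P.r) ↔ P.ok (view Y.G o w P.r)) := by
        intro w hw
        refine P.inv _ _ (view_iso_of_ag (GAg.shift hXY.1 ?_) (fun _ _ => rfl))
        calc X.G.edist v w + ((P.r : ℕ) : ℕ∞) ≤ (n : ℕ∞) + (P.r : ℕ∞) := add_le_add_left hw _
          _ = _ := by push_cast; rfl
      constructor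
      · intro h w hw
        have hw' := (hiff w).2 hw
        exact (hok w hw').1 (h w hw')
      · intro h w hw
        exact (hok w hw).2 (h w ((hiff w).1 hw))
    show Classical.epsilon (pred X v) v = Classical.epsilon (pred Y v) v
    rw [this]
  · intro X hX hXn id hinj hN v
    obtain ⟨A, hA⟩ := hr
    have hA' := (hA X hX (by omega)).2
    -- a solution exists
    obtain ⟨b, hb⟩ : ∃ b, P.Solves X.G (outB (A X.n) (t X.n) X.G b) := by
      by_contra hcon
      push Not at hcon
      have huniv : {b | ¬ P.Solves X.G (outB (A X.n) (t X.n) X.G b)} = Set.univ := by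
        ext b
        simp [hcon b]
      rw [huniv, measure_univ] at hA'
      have hlt : (X.n : ℝ) ^ (-d) < 1 := by
        apply Real.rpow_lt_one_of_one_lt_of_neg
        · exact_mod_cast (by omega : 1 < X.n)
        · linarith
      have : ENNReal.ofReal ((X.n : ℝ) ^ (-d)) < 1 := by
        rw [← ENNReal.ofReal_one]
        exact (ENNReal.ofReal_lt_ofReal_iff one_pos).2 hlt
      exact absurd hA' (not_le.2 this)
    set out := outB (A X.n) (t X.n) X.G b with hout
    set L : LG (Fin N) Prop := idX X.G id with hL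
    set o : Fin N → P.S := fun a =>
      if h : ∃ u, (⟨id u, hN u⟩ : Fin N) = a then out h.choose else Classical.choice hS with ho
    have ho' : (fun u => o ⟨id u, hN u⟩) = out := by
      funext u
      have h : ∃ u', (⟨id u', hN u'⟩ : Fin N) = ⟨id u, hN u⟩ := ⟨u, rfl⟩
      rw [ho]
      simp only
      rw [dif_pos h]
      congr 1
      apply hinj
      exact congrArg Fin.val h.choose_spec
    have hok : ∀ u, P.ok (view L.G o ⟨id u, hN u⟩ P.r) := by
      intro u
      have hiso := view_iso_id X.G hinj hN o u P.r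
      rw [ho'] at hiso
      exact (P.inv _ _ hiso).1 (hb u)
    have hex : ∀ u, ∃ o, pred L ⟨id u, hN u⟩ o := by
      intro u
      refine ⟨o, ?_⟩
      intro w hw
      obtain ⟨w', hw', _⟩ := (idX_edist X.G hinj hN u w n).1 hw
      subst hw'
      exact hok w'
    -- the predicate is the same in a component
    have hsame : ∀ u w, X.G.Reachable u w →
        pred L ⟨id u, hN u⟩ = pred L ⟨id w, hN w⟩ := by
      have hone : ∀ u w, X.G.Reachable u w → ∀ a, L.G.edist ⟨id u, hN u⟩ a ≤ (n : ℕ∞) →
          L.G.edist ⟨id w, hN w⟩ a ≤ (n : ℕ∞) := by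
        intro u w huw a ha
        obtain ⟨a', ha', h1⟩ := (idX_edist X.G hinj hN u a n).1 ha
        refine (idX_edist X.G hinj hN w a n).2 ⟨a', ha', ?_⟩
        have h2 : X.G.Reachable w a' := huw.symm.trans (reachable_of_edist_le h1)
        have := edist_le_card h2
        have hc : Fintype.card X.V = n := hXn
        rwa [hc] at this
      intro u w huw
      funext o'
      rw [hpred]
      apply propext
      constructor
      · intro h a ha
        exact h a (hone w u huw.symm a ha)
      · intro h a ha
        exact h a (hone u w huw a ha)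
    have hspec := Classical.epsilon_spec (hex v)
    have hgood := hspec ⟨id v, hN v⟩ (by simp)
    refine (P.inv _ _ (view_iso_of_ag (fun _ _ _ => Iff.rfl) ?_)).1 hgood
    intro a ha
    obtain ⟨u, hu, h1⟩ := (idX_edist X.G hinj hN v a P.r).1 ha
    subst hu
    show Classical.epsilon (pred L ⟨id v, hN v⟩) ⟨id u, hN u⟩ =
      Classical.epsilon (pred L ⟨id u, hN u⟩) ⟨id u, hN u⟩
    rw [hsame v u (reachable_of_edist_le h1)]

end Pool.Agent.H56.Sub
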