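import Pool.Agent.H56.Sub.Large
import Pool.Agent.H56.Sub.Small
import Pool.Agent.H56.Sub.RuleMk

set_option autoImplicit false

noncomputable section

open scoped Classical
open MeasureTheory

namespace Pool.Agent.H56.Sub


/-- A rule exists, so the alphabet is not empty. -/
theorem nonempty_of_rule {L S : Type} [hL : Nonempty L] (A : Rule L S) : Nonempty S :=
  ⟨A.out ⟨PUnit, inferInstance, ⊥, PUnit.unit, fun _ => Classical.choice hL⟩⟩

theorem main {F : Set FinGraph} (hF : BallClosed F) {f : ℕ → ℕ} (hf : Tame f)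
    (hgr : ∀ X ∈ F, ∀ (v : X.V) (r : ℕ), (bl X.G v r).ncard ≤ f r) {d : ℝ} (hd : 0 < d)
    (P : LCL) (t : ℕ → ℕ)
    (hft : ∀ K : ℕ, Filter.Tendsto (fun n : ℕ => Real.log (f (K * (t n + 1))) / Real.log n)
      Filter.atTop (nhds 0))
    (hr : RandSolvable P F d t) (c : ℕ) :
    ∃ t' : ℕ → ℕ, (∃ K : ℕ, ∀ n, 2 ≤ n → t' n ≤ K * logStar n) ∧ DetSolvable P F c t' := by
  -- replace `f` by `max f 1`
  set f' : ℕ → ℕ := fun r => max (f r) 1 with hf'
  have hlog : ∀ r, Real.log (f' r) = Real.log (f r) := by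
    intro r
    rcases Nat.eq_zero_or_pos (f r) with h | h
    · simp [hf', h]
    · have : max (f r) 1 = f r := max_eq_left h
      simp [hf', this]
  have hf1 : ∀ r, 1 ≤ f' r := fun r => le_max_right _ _
  have hfT : Tame f' := by
    obtain ⟨δ, hδ, h⟩ := hf
    refine ⟨δ, hδ, ?_⟩
    filter_upwards [h] with r hr
    rw [hlog]
    exact hr
  have hft' : ∀ K : ℕ, Filter.Tendsto (fun n : ℕ => Real.log (f' (K * (t n + 1))) / Real.log n)
      Filter.atTop (nhds 0) := by
    intro K
    simp only [hlog]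
    exact hft K
  have hgr' : ∀ X ∈ F, Gr f' X.G := fun X hX v r => le_trans (hgr X hX v r) (le_max_left _ _)
  have hS : Nonempty P.S := nonempty_of_rule (hr.choose 0)
  obtain ⟨n0, K, hn0, hlarge⟩ := large hF hfT hgr' hd P t hft' hf1 hr c
  -- a radius and a rule for every `n ≥ 2`
  have key : ∀ n : ℕ, ∃ (ρ : ℕ) (A : Rule ℕ P.S), (2 ≤ n → ρ ≤ (K + n0 + P.r + 1) * logStar n) ∧
      (2 ≤ n → ∀ X ∈ F, X.n = n → ∀ id : X.V → ℕ, Function.Injective id →
        (∀ v, 1 ≤ id v ∧ id v ≤ X.n ^ c) →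
        P.Solves X.G (fun v => A.out (view X.G id v ρ))) := by
    intro n
    by_cases hn : 2 ≤ n
    · have hls := logStar_pos hn
      -- a functional
      obtain ⟨ρ, hρ, O, hOloc, hO⟩ : ∃ ρ, ρ ≤ (K + n0 + P.r) * logStar n ∧
          ∃ O : LG (Fin (n ^ c + 1)) Prop → Fin (n ^ c + 1) → P.S,
            (∀ X Y v, X.Ag Y v ρ → O X v = O Y v) ∧
            ∀ X ∈ F, X.n = n → ∀ (id : X.V → ℕ), Function.Injective id →
              ∀ (hN : ∀ v, id v < n ^ c + 1) (v : X.V),
              P.ok (view (idX (N := n ^ c + 1) X.G id).G (O (idX X.G id))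
                ⟨id v, hN v⟩ P.r) := by
        by_cases hn' : n0 ≤ n
        · obtain ⟨ρ, hρ, O, h1, h2⟩ := hlarge n hn'
          refine ⟨ρ, le_trans hρ (Nat.mul_le_mul_right _ (by omega)), O, h1, h2⟩
        · obtain ⟨O, h1, h2⟩ := small hd hr hn (n ^ c + 1) hS
          refine ⟨n + P.r, ?_, O, h1, h2⟩
          calc n + P.r ≤ (K + n0 + P.r) := by omega
            _ ≤ (K + n0 + P.r) * logStar n := Nat.le_mul_of_pos_right _ hls
      obtain ⟨A, hA⟩ := ruleMk O hOloc hS
      refine ⟨ρ + 1, A, ?_, ?_⟩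
      · intro _
        calc ρ + 1 ≤ (K + n0 + P.r) * logStar n + 1 * logStar n := by
              have : 1 ≤ 1 * logStar n := by omega
              omega
          _ = (K + n0 + P.r + 1) * logStar n := by ring
      · intro _ X hX hXn id hinj hid
        have hN : ∀ v, id v < n ^ c + 1 := fun v => by
          have := (hid v).2
          rw [hXn] at this
          omega
        intro v
        have h := hO X hX hXn id hinj hN v
        have hiso := view_iso_id (L := P.S) X.G hinj hN (O (idX X.G id)) v P.r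
        have hfun : (fun u => O (idX X.G id) ⟨id u, hN u⟩) =
            fun u => A.out (view X.G id u (ρ + 1)) := by
          funext u
          exact (hA X.V X.G id hinj hN u).symm
        rw [hfun] at hiso
        exact (P.inv _ _ hiso).2 h
    · exact ⟨0, ⟨fun _ => Classical.choice hS, fun _ _ _ => rfl⟩,
        fun h => absurd h hn, fun h => absurd h hn⟩
  choose ρ A h1 h2 using key
  exact ⟨ρ, ⟨K + n0 + P.r + 1, h1⟩, A, fun X hX hn id hinj hid => h2 X.n hn X hX rfl id hinj hid⟩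

theorem main_log {F : Set FinGraph} (hF : BallClosed F) {f : ℕ → ℕ} (hf : Tame f)
    (hgr : ∀ X ∈ F, ∀ (v : X.V) (r : ℕ), (bl X.G v r).ncard ≤ f r) {d : ℝ} (hd : 0 < d)
    (P : LCL) (t : ℕ → ℕ) {C : ℝ} (ht : ∀ n : ℕ, 2 ≤ n → (t n : ℝ) ≤ C * Real.log n)
    (hr : RandSolvable P F d t) (c : ℕ) :
    ∃ t' : ℕ → ℕ, (∃ K : ℕ, ∀ n, 2 ≤ n → t' n ≤ K * logStar n) ∧ DetSolvable P F c t' := by
  set f' : ℕ → ℕ := fun r => max (f r) 1 with hf'
  have hlog : ∀ r, Real.log (f' r) = Real.log (f r) := by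
    intro r
    rcases Nat.eq_zero_or_pos (f r) with h | h
    · simp [hf', h]
    · have : max (f r) 1 = f r := max_eq_left h
      simp [hf', this]
  have hfT : Tame f' := by
    obtain ⟨δ, hδ, h⟩ := hf
    refine ⟨δ, hδ, ?_⟩
    filter_upwards [h] with r hr
    rw [hlog]
    exact hr
  exact main hF hfT (fun X hX v r => le_trans (hgr X hX v r) (le_max_left _ _)) hd P t
    (fun K => cond_log hfT (fun r => le_max_right _ _) ht K) hr c

end Pool.Agent.H56.Sub
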