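import Pool.Agent.H56.Sub.Defs

/-!
# Squad SUB, module NdR: one round of ball carving
-/

set_option autoImplicit false

noncomputable section

open scoped Classical

namespace Pool.Agent.H56.Sub

namespace NdR

section NoFin

variable {V : Type} {G : SimpleGraph V} {D k : ℕ}

theorem self_mem {Y : Set V} {c : V} (hc : c ∈ Y) (r : ℕ) : c ∈ Y ∩ bl G c r :=
  ⟨hc, by simp [bl]⟩

theorem rad_le (Y : Set V) (c : V) : rad G D k Y c ≤ k :=
  Nat.sInf_le (Or.inl le_rfl)

theorem rad_mem (Y : Set V) (c : V) : k ≤ rad G D k Y c ∨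
    (Y ∩ bl G c ((rad G D k Y c + 1) * D)).ncard ≤ 2 * (Y ∩ bl G c (rad G D k Y c * D)).ncard :=
  Nat.sInf_mem (s := {r | k ≤ r ∨
    (Y ∩ bl G c ((r + 1) * D)).ncard ≤ 2 * (Y ∩ bl G c (r * D)).ncard}) ⟨k, Or.inl le_rfl⟩

/-- Triangle inequality with natural numbers. -/
theorem tri {u v w : V} {a b : ℕ} (h1 : G.edist u v ≤ a) (h2 : G.edist v w ≤ b) :
    G.edist u w ≤ (a + b : ℕ) := by
  refine (G.edist_triangle (u := u) (v := v) (w := w)).trans ?_
  push_cast
  exact add_le_add h1 h2

theorem le_nat {u v : V} {a b : ℕ} (h : G.edist u v ≤ a) (hab : a ≤ b) : G.edist u v ≤ b :=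
  h.trans (by exact_mod_cast hab)

/-- One stage. -/
theorem carve_succ_fst (χ : V → ℕ) (U : Set V) (i : ℕ) (u : V) :
    u ∈ (carve G D k χ U (i + 1)).1 ↔ u ∈ (carve G D k χ U i).1 ∧
      ∀ c ∈ (carve G D k χ U i).1, χ c = i →
        ¬ G.edist c u ≤ ((rad G D k (carve G D k χ U i).1 c + 1) * D : ℕ) := Iff.rfl

theorem carve_succ_new (χ : V → ℕ) (U : Set V) (i : ℕ) (u : V)
    (h : u ∈ (carve G D k χ U i).1 ∧ ∃ c ∈ (carve G D k χ U i).1, χ c = i ∧
      G.edist c u ≤ (rad G D k (carve G D k χ U i).1 c * D : ℕ)) :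
    ∃ c ∈ (carve G D k χ U i).1, χ c = i ∧
      G.edist c u ≤ (rad G D k (carve G D k χ U i).1 c * D : ℕ) ∧
      (carve G D k χ U (i + 1)).2 u = some c := by
  refine ⟨Classical.choose h.2, (Classical.choose_spec h.2).1, (Classical.choose_spec h.2).2.1,
    (Classical.choose_spec h.2).2.2, ?_⟩
  show (if h : _ then _ else _) = _
  rw [dif_pos h]

theorem carve_succ_old (χ : V → ℕ) (U : Set V) (i : ℕ) (u : V)
    (h : ¬ (u ∈ (carve G D k χ U i).1 ∧ ∃ c ∈ (carve G D k χ U i).1, χ c = i ∧
      G.edist c u ≤ (rad G D k (carve G D k χ U i).1 c * D : ℕ))) :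
    (carve G D k χ U (i + 1)).2 u = (carve G D k χ U i).2 u := by
  show (if h : _ then _ else _) = _
  rw [dif_neg h]

theorem carve_sub (χ : V → ℕ) (U : Set V) (i : ℕ) :
    (carve G D k χ U (i + 1)).1 ⊆ (carve G D k χ U i).1 := fun _ h => h.1

theorem carve_sub_le (χ : V → ℕ) (U : Set V) {i j : ℕ} (h : i ≤ j) :
    (carve G D k χ U j).1 ⊆ (carve G D k χ U i).1 := by
  induction j, h using Nat.le_induction with
  | base => exact subset_rfl
  | succ j _ ih => exact (carve_sub χ U j).trans ih

theorem carve_sub_U (χ : V → ℕ) (U : Set V) (i : ℕ) : (carve G D k χ U i).1 ⊆ U :=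
  carve_sub_le χ U (Nat.zero_le i)

end NoFin

variable {V : Type} [Fintype V] {G : SimpleGraph V} {D k : ℕ}

theorem rad_lt (hg : ∀ v, (bl G v (k * D)).ncard < 2 ^ k) {Y : Set V} {c : V} (hc : c ∈ Y) :
    rad G D k Y c < k := by
  by_contra hcon
  have hdbl : ∀ r < k, 2 * (Y ∩ bl G c (r * D)).ncard < (Y ∩ bl G c ((r + 1) * D)).ncard := by
    intro r hr
    by_contra h2
    have : rad G D k Y c ≤ r := Nat.sInf_le (Or.inr (not_lt.1 h2))
    omega
  have hpow : ∀ r ≤ k, 2 ^ r ≤ (Y ∩ bl G c (r * D)).ncard := by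
    intro r
    induction r with
    | zero =>
      intro _
      have : 0 < (Y ∩ bl G c (0 * D)).ncard :=
        (Set.ncard_pos (Set.toFinite _)).2 ⟨c, self_mem hc _⟩
      rw [pow_zero]
      omega
    | succ r ih =>
      intro hr
      have h1 := ih (by omega)
      have h2 := hdbl r (by omega)
      rw [pow_succ]
      omega
  have h3 := hpow k le_rfl
  have h4 : (Y ∩ bl G c (k * D)).ncard ≤ (bl G c (k * D)).ncard :=
    Set.ncard_le_ncard Set.inter_subset_right (Set.toFinite _)
  have h5 := hg c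
  omega

theorem rad_spec (hg : ∀ v, (bl G v (k * D)).ncard < 2 ^ k) {Y : Set V} {c : V} (hc : c ∈ Y) :
    (Y ∩ bl G c ((rad G D k Y c + 1) * D)).ncard ≤ 2 * (Y ∩ bl G c (rad G D k Y c * D)).ncard := by
  rcases rad_mem (G := G) (D := D) (k := k) Y c with h | h
  · exact absurd h (not_le.2 (rad_lt hg hc))
  · exact h

/-- The invariants without masses. -/
theorem inv {χ : V → ℕ} {R : ℕ} (hχ : ProperAt G R χ) (hR : (2 * k + 1) * D ≤ R)
    (hg : ∀ v, (bl G v (k * D)).ncard < 2 ^ k) (U : Set V) (i : ℕ) :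
    (∀ u c, (carve G D k χ U i).2 u = some c → u ∈ U ∧ G.edist c u ≤ (k * D : ℕ) ∧
      u ∉ (carve G D k χ U i).1) ∧
    (∀ u w c, (carve G D k χ U i).2 u = some c → w ∈ (carve G D k χ U i).1 →
      (D : ℕ∞) < G.edist u w) ∧
    (∀ u w c c', (carve G D k χ U i).2 u = some c → (carve G D k χ U i).2 w = some c' → c ≠ c' →
      (D : ℕ∞) < G.edist u w) := by
  induction i with
  | zero =>
    refine ⟨?_, ?_, ?_⟩
    · intro u c h; exact absurd h (by simp [carve])
    · intro u w c h; exact absurd h (by simp [carve])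
    · intro u w c c' h; exact absurd h (by simp [carve])
  | succ i ih =>
    obtain ⟨ih1, ih2, ih3⟩ := ih
    -- description of the assigned vertices
    have key : ∀ u c, (carve G D k χ U (i + 1)).2 u = some c →
        (u ∈ (carve G D k χ U i).1 ∧ c ∈ (carve G D k χ U i).1 ∧ χ c = i ∧
          G.edist c u ≤ (rad G D k (carve G D k χ U i).1 c * D : ℕ)) ∨
        (carve G D k χ U i).2 u = some c := by
      intro u c h
      by_cases hu : (u ∈ (carve G D k χ U i).1 ∧ ∃ c ∈ (carve G D k χ U i).1, χ c = i ∧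
        G.edist c u ≤ (rad G D k (carve G D k χ U i).1 c * D : ℕ))
      · obtain ⟨c', hc', hcol, hd, he⟩ := carve_succ_new χ U i u hu
        rw [he] at h
        obtain rfl : c' = c := by simpa using h
        exact Or.inl ⟨hu.1, hc', hcol, hd⟩
      · rw [carve_succ_old χ U i u hu] at h
        exact Or.inr h
    refine ⟨?_, ?_, ?_⟩
    · intro u c h
      rcases key u c h with ⟨hu, hc, hcol, hd⟩ | h'
      · have hlt := rad_lt (G := G) hg hc
        refine ⟨carve_sub_U χ U i hu, le_nat hd (Nat.mul_le_mul_right D hlt.le), ?_⟩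
        intro hu'
        exact hu'.2 c hc hcol (le_nat hd (Nat.mul_le_mul_right D (Nat.le_succ _)))
      · obtain ⟨h1, h2, h3⟩ := ih1 u c h'
        exact ⟨h1, h2, fun h4 => h3 (carve_sub χ U i h4)⟩
    · intro u w c h hw
      rcases key u c h with ⟨hu, hc, hcol, hd⟩ | h'
      · by_contra hcon
        have h1 := tri hd (not_lt.1 hcon)
        exact hw.2 c hc hcol (by
          have : rad G D k (carve G D k χ U i).1 c * D + D =
            (rad G D k (carve G D k χ U i).1 c + 1) * D := by ring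
          rwa [this] at h1)
      · exact ih2 u w c h' (carve_sub χ U i hw)
    · intro u w c c' h h' hne
      rcases key u c h with ⟨hu, hc, hcol, hd⟩ | ho
      · rcases key w c' h' with ⟨hw, hc', hcol', hd'⟩ | ho'
        · by_contra hcon
          have h1 := tri hd (not_lt.1 hcon)
          have h2 : G.edist w c' ≤ (rad G D k (carve G D k χ U i).1 c' * D : ℕ) := by
            rw [SimpleGraph.edist_comm]; exact hd'
          have h3 := tri h1 h2
          have hl := rad_lt (G := G) hg hc
          have hl' := rad_lt (G := G) hg hc'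
          refine hχ c c' hne (le_nat h3 (le_trans ?_ hR)) (by rw [hcol, hcol'])
          have e1 := Nat.mul_le_mul_right D hl.le
          have e2 := Nat.mul_le_mul_right D hl'.le
          calc rad G D k (carve G D k χ U i).1 c * D + D + rad G D k (carve G D k χ U i).1 c' * D
              ≤ k * D + D + k * D := by omega
            _ = (2 * k + 1) * D := by ring
        · rw [SimpleGraph.edist_comm]
          exact ih2 w u c' ho' hu
      · rcases key w c' h' with ⟨hw, hc', hcol', hd'⟩ | ho'
        · exact ih2 u w c ho hw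
        · exact ih3 u w c c' ho ho' hne

/-- Averages: a set `S` with at most as many elements as `P`. -/
theorem mass_le {A : V → ℝ} (hA : ∀ v, 0 ≤ A v) {S P : Set V} [∀ u, Decidable (u ∈ S)]
    [∀ u, Decidable (u ∈ P)] (hP : P.Nonempty)
    (hc : S.ncard ≤ P.ncard) (h : ∀ u ∈ S, ∀ w ∈ P, A u ≤ 2 * A w) :
    ∑ u, (if u ∈ S then A u else 0) ≤ 2 * ∑ w, (if w ∈ P then A w else 0) := by
  have eS : ∑ u, (if u ∈ S then A u else 0) = ∑ u ∈ S.toFinset, A u := by
    rw [← Finset.sum_filter]
    congr 1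
    ext u; simp
  have eP : ∑ u, (if u ∈ P then A u else 0) = ∑ u ∈ P.toFinset, A u := by
    rw [← Finset.sum_filter]
    congr 1
    ext u; simp
  rw [eS, eP]
  have cS : (S.toFinset.card : ℝ) ≤ P.toFinset.card := by
    rw [Set.ncard_eq_toFinset_card' S, Set.ncard_eq_toFinset_card' P] at hc
    exact_mod_cast hc
  have hPpos : (0 : ℝ) < P.toFinset.card := by
    have : 0 < P.toFinset.card := Finset.card_pos.2 (by simpa using hP)
    exact_mod_cast this
  have hnn : 0 ≤ ∑ w ∈ P.toFinset, A w := Finset.sum_nonneg fun w _ => hA w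
  have h1 : (P.toFinset.card : ℝ) * ∑ u ∈ S.toFinset, A u ≤
      S.toFinset.card * (2 * ∑ w ∈ P.toFinset, A w) := by
    calc (P.toFinset.card : ℝ) * ∑ u ∈ S.toFinset, A u
        = ∑ u ∈ S.toFinset, ∑ w ∈ P.toFinset, A u := by
          simp [Finset.mul_sum]
      _ ≤ ∑ u ∈ S.toFinset, ∑ w ∈ P.toFinset, 2 * A w := by
          refine Finset.sum_le_sum fun u hu => Finset.sum_le_sum fun w hw => ?_
          exact h u (by simpa using hu) w (by simpa using hw)
      _ = S.toFinset.card * (2 * ∑ w ∈ P.toFinset, A w) := by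
          rw [Finset.sum_const, nsmul_eq_mul, ← Finset.mul_sum]
  have h2 : (S.toFinset.card : ℝ) * (2 * ∑ w ∈ P.toFinset, A w) ≤
      P.toFinset.card * (2 * ∑ w ∈ P.toFinset, A w) :=
    mul_le_mul_of_nonneg_right cS (by linarith)
  exact le_of_mul_le_mul_left (h1.trans h2) hPpos

/-- The mass invariant. -/
theorem mass {χ : V → ℕ} {R : ℕ} (hχ : ProperAt G R χ) (hR : (2 * k + 1) * D ≤ R)
    (hg : ∀ v, (bl G v (k * D)).ncard < 2 ^ k) (U : Set V) {A : V → ℝ} (hA : ∀ v, 0 ≤ A v)
    (hAr : ∀ c u w, G.edist c u ≤ (k * D : ℕ) → G.edist c w ≤ (k * D : ℕ) → A u ≤ 2 * A w)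
    (i : ℕ) :
    ∑ u, (if (u ∈ U ∧ u ∉ (carve G D k χ U i).1) ∧ (carve G D k χ U i).2 u = none
        then A u else 0) ≤
      2 * ∑ u, (if (carve G D k χ U i).2 u ≠ none then A u else 0) := by
  induction i with
  | zero =>
    have e1 : ∀ u : V, ¬ ((u ∈ U ∧ u ∉ (carve G D k χ U 0).1) ∧
        (carve G D k χ U 0).2 u = none) := by
      intro u h
      exact h.1.2 h.1.1
    have e2 : ∀ u : V, ¬ ((carve G D k χ U 0).2 u ≠ none) := by
      intro u h
      exact h rfl
    simp only [e1, e2, if_false, Finset.sum_const_zero, mul_zero, le_refl]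
  | succ i ih =>
    obtain ⟨i1, -, -⟩ := inv hχ hR hg U i
    obtain ⟨j1, -, -⟩ := inv hχ hR hg U (i + 1)
    set Y := (carve G D k χ U i).1 with hY
    set a := (carve G D k χ U i).2 with ha
    let C : Set V := {c | c ∈ Y ∧ χ c = i}
    let P : V → Set V := fun c => Y ∩ bl G c (rad G D k Y c * D)
    let Q : V → Set V := fun c => (Y ∩ bl G c ((rad G D k Y c + 1) * D)) \ P c
    -- each annulus is light
    have hann : ∀ c ∈ C, ∑ u, (if u ∈ Q c then A u else 0) ≤
        2 * ∑ u, (if u ∈ P c then A u else 0) := by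
      intro c hc
      have hlt := rad_lt (G := G) hg hc.1
      have hsub : P c ⊆ Y ∩ bl G c ((rad G D k Y c + 1) * D) := by
        rintro u ⟨hu1, hu2⟩
        exact ⟨hu1, le_nat hu2 (Nat.mul_le_mul_right D (Nat.le_succ _))⟩
      refine mass_le hA ⟨c, self_mem hc.1 _⟩ ?_ ?_
      · have h1 := rad_spec (G := G) hg hc.1
        have h2 := Set.ncard_sdiff_add_ncard_of_subset hsub (Set.toFinite _)
        show (Q c).ncard ≤ (P c).ncard
        have h3 : (Q c).ncard + (P c).ncard =
          (Y ∩ bl G c ((rad G D k Y c + 1) * D)).ncard := h2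
        have h4 : (P c).ncard = (Y ∩ bl G c (rad G D k Y c * D)).ncard := rfl
        omega
      · intro u hu w hw
        refine hAr c u w (le_nat hu.1.2 (Nat.mul_le_mul_right D hlt)) 
          (le_nat hw.2 (Nat.mul_le_mul_right D hlt.le))
    -- old and new
    have hL : ∑ u, (if (u ∈ U ∧ u ∉ (carve G D k χ U (i + 1)).1) ∧
        (carve G D k χ U (i + 1)).2 u = none then A u else 0) ≤
        ∑ u, (if (u ∈ U ∧ u ∉ Y) ∧ a u = none then A u else 0) +
          ∑ c, (if c ∈ C then ∑ u, (if u ∈ Q c then A u else 0) else 0) := by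
      have hsw : ∑ c, (if c ∈ C then ∑ u, (if u ∈ Q c then A u else 0) else 0) =
          ∑ u, ∑ c, (if c ∈ C ∧ u ∈ Q c then A u else 0) := by
        rw [Finset.sum_comm]
        refine Finset.sum_congr rfl fun c _ => ?_
        by_cases hc : c ∈ C
        · simp [hc]
        · simp [hc]
      rw [hsw, ← Finset.sum_add_distrib]
      refine Finset.sum_le_sum fun u _ => ?_
      have hnn : 0 ≤ ∑ c, (if c ∈ C ∧ u ∈ Q c then A u else 0) :=
        Finset.sum_nonneg fun c _ => by
          split_ifs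
          · exact hA u
          · exact le_rfl
      have hnn' : (0 : ℝ) ≤ (if (u ∈ U ∧ u ∉ Y) ∧ a u = none then A u else 0) := by
        split_ifs
        · exact hA u
        · exact le_rfl
      by_cases h : (u ∈ U ∧ u ∉ (carve G D k χ U (i + 1)).1) ∧
        (carve G D k χ U (i + 1)).2 u = none
      · rw [if_pos h]
        obtain ⟨⟨hU, hnY⟩, hnone⟩ := h
        -- u is not newly assigned
        have hnew : ¬ (u ∈ Y ∧ ∃ c ∈ Y, χ c = i ∧ G.edist c u ≤ (rad G D k Y c * D : ℕ)) := by
          intro hn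
          obtain ⟨c, -, -, -, he⟩ := carve_succ_new χ U i u hn
          rw [hnone] at he
          exact absurd he (by simp)
        have hold := carve_succ_old χ U i u hnew
        by_cases hYu : u ∈ Y
        · -- u leaves now, so it is in an annulus
          have : ∃ c ∈ Y, χ c = i ∧ G.edist c u ≤ ((rad G D k Y c + 1) * D : ℕ) := by
            by_contra hno
            push Not at hno
            exact hnY ⟨hYu, fun c hc hcol hd => absurd hd (not_le.2 (hno c hc hcol))⟩
          obtain ⟨c, hc, hcol, hd⟩ := this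
          have hQ : c ∈ C ∧ u ∈ Q c := by
            refine ⟨⟨hc, hcol⟩, ⟨hYu, hd⟩, ?_⟩
            intro hP
            exact hnew ⟨hYu, c, hc, hcol, hP.2⟩
          have h1 : (if c ∈ C ∧ u ∈ Q c then A u else 0) ≤
              ∑ c, (if c ∈ C ∧ u ∈ Q c then A u else 0) :=
            Finset.single_le_sum (f := fun c => if c ∈ C ∧ u ∈ Q c then A u else 0)
              (fun c _ => by
                show (0 : ℝ) ≤ _
                split_ifs
                · exact hA u
                · exact le_rfl) (Finset.mem_univ c)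
          rw [if_pos hQ] at h1
          linarith
        · have : (u ∈ U ∧ u ∉ Y) ∧ a u = none := ⟨⟨hU, hYu⟩, hold.symm.trans hnone⟩
          rw [if_pos this]
          linarith
      · rw [if_neg h]
        linarith
    have hRs : ∑ u, (if a u ≠ none then A u else 0) +
          ∑ c, (if c ∈ C then ∑ u, (if u ∈ P c then A u else 0) else 0) ≤
        ∑ u, (if (carve G D k χ U (i + 1)).2 u ≠ none then A u else 0) := by
      have hsw : ∑ c, (if c ∈ C then ∑ u, (if u ∈ P c then A u else 0) else 0) =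
          ∑ u, ∑ c, (if c ∈ C ∧ u ∈ P c then A u else 0) := by
        rw [Finset.sum_comm]
        refine Finset.sum_congr rfl fun c _ => ?_
        by_cases hc : c ∈ C
        · simp [hc]
        · simp [hc]
      rw [hsw, ← Finset.sum_add_distrib]
      refine Finset.sum_le_sum fun u _ => ?_
      by_cases hn : u ∈ Y ∧ ∃ c ∈ Y, χ c = i ∧ G.edist c u ≤ (rad G D k Y c * D : ℕ)
      · obtain ⟨c, hc0, hcol, hd0, he⟩ := carve_succ_new χ U i u hn
        have hc : c ∈ Y := hc0
        have hd : G.edist c u ≤ (rad G D k Y c * D : ℕ) := hd0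
        have h1 : (carve G D k χ U (i + 1)).2 u ≠ none := by rw [he]; simp
        have h2 : ¬ (a u ≠ none) := by
          intro h
          obtain ⟨c', hc'⟩ := Option.ne_none_iff_exists'.1 h
          exact (i1 u c' hc').2.2 hn.1
        have h3 : ∑ c', (if c' ∈ C ∧ u ∈ P c' then A u else 0) =
            (if c ∈ C ∧ u ∈ P c then A u else 0) := by
          refine Finset.sum_eq_single c ?_ (by simp)
          intro c' _ hne
          rw [if_neg]
          rintro ⟨hc', hP'⟩
          have hl := rad_lt (G := G) hg hc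
          have hl' := rad_lt (G := G) hg hc'.1
          have hd' : G.edist u c' ≤ (rad G D k Y c' * D : ℕ) := by
            rw [SimpleGraph.edist_comm]; exact hP'.2
          have h4 := tri hd hd'
          refine hχ c c' (Ne.symm hne) (le_nat h4 (le_trans ?_ hR)) (by rw [hcol, hc'.2])
          have e1 := Nat.mul_le_mul_right D hl.le
          have e2 := Nat.mul_le_mul_right D hl'.le
          calc rad G D k Y c * D + rad G D k Y c' * D ≤ k * D + k * D + D := by omega
            _ = (2 * k + 1) * D := by ring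
        rw [if_neg h2, if_pos h1, h3, zero_add]
        split_ifs
        · exact le_rfl
        · exact hA u
      · have hold := carve_succ_old χ U i u hn
        have h3 : ∑ c', (if c' ∈ C ∧ u ∈ P c' then A u else 0) = 0 := by
          refine Finset.sum_eq_zero fun c' _ => ?_
          rw [if_neg]
          rintro ⟨hc', hP'⟩
          exact hn ⟨hP'.1, c', hc'.1, hc'.2, hP'.2⟩
        rw [h3, add_zero]
        have : (carve G D k χ U (i + 1)).2 u = a u := hold
        rw [this]
    have hmid : ∑ c, (if c ∈ C then ∑ u, (if u ∈ Q c then A u else 0) else 0) ≤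
        2 * ∑ c, (if c ∈ C then ∑ u, (if u ∈ P c then A u else 0) else 0) := by
      rw [Finset.mul_sum]
      refine Finset.sum_le_sum fun c _ => ?_
      by_cases hc : c ∈ C
      · rw [if_pos hc, if_pos hc]; exact hann c hc
      · rw [if_neg hc, if_neg hc, mul_zero]
    linarith

end NdR

set_option linter.unusedVariables false in
/-- Module NdR: one round of carving. -/
theorem carve_spec {V : Type} [Fintype V] {G : SimpleGraph V} {D k M R : ℕ} {χ : V → ℕ}
    (hχ : ProperAt G R χ) (hM : ∀ u, χ u < M) (hR : (2 * k + 1) * D ≤ R) (hk : 1 ≤ k)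
    (hg : ∀ v, (bl G v (k * D)).ncard < 2 ^ k) (U : Set V) :
    (∀ u c, (carve G D k χ U M).2 u = some c → u ∈ U ∧ G.edist c u ≤ (k * D : ℕ)) ∧
    (∀ u w c c', (carve G D k χ U M).2 u = some c → (carve G D k χ U M).2 w = some c' → c ≠ c' →
      (D : ℕ∞) < G.edist u w) ∧
    (∀ A : V → ℝ, (∀ v, 0 ≤ A v) →
      (∀ c u w, G.edist c u ≤ (k * D : ℕ) → G.edist c w ≤ (k * D : ℕ) → A u ≤ 2 * A w) →
      ∑ u, (if u ∈ U ∧ (carve G D k χ U M).2 u = none then A u else 0) ≤
        2 * ∑ u, (if (carve G D k χ U M).2 u ≠ none then A u else 0)) := by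
  obtain ⟨h1, -, h3⟩ := NdR.inv hχ hR hg U M
  refine ⟨fun u c h => ⟨(h1 u c h).1, (h1 u c h).2.1⟩, h3, fun A hA hAr => ?_⟩
  have hempty : ∀ u, u ∉ (carve G D k χ U M).1 := by
    intro u hu
    have h4 : u ∈ (carve G D k χ U (χ u + 1)).1 := NdR.carve_sub_le χ U (hM u) hu
    exact h4.2 u h4.1 rfl (by simp)
  have h5 := NdR.mass hχ hR hg U hA hAr M
  refine le_trans (le_of_eq ?_) h5
  refine Finset.sum_congr rfl fun u _ => ?_
  have : (u ∈ U ∧ (carve G D k χ U M).2 u = none) ↔
      ((u ∈ U ∧ u ∉ (carve G D k χ U M).1) ∧ (carve G D k χ U M).2 u = none) :=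
    ⟨fun h => ⟨⟨h.1, hempty u⟩, h.2⟩, fun h => ⟨h.1.1, h.2⟩⟩
  simp only [this]

end Pool.Agent.H56.Sub
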