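import Pool.Agent.H56.Sub.Inner1
import Pool.Agent.H56.Sub.Inner2
import Pool.Agent.H56.Sub.Ce2
import Pool.Agent.H56.Sub.Big

set_option autoImplicit false

noncomputable section

open scoped Classical

namespace Pool.Agent.H56.Sub


/-- Moving to a ball around `u`. -/
theorem shift_aux {V : Type} {G : SimpleGraph V} {v u : V} {a b ρ : ℕ} (hu : G.edist v u ≤ a)
    (hab : a + b ≤ ρ) : G.edist v u + ((b : ℕ) : ℕ∞) ≤ ρ := by
  calc G.edist v u + ((b : ℕ) : ℕ∞) ≤ (a : ℕ∞) + (b : ℕ∞) := add_le_add_left hu _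
    _ ≤ _ := by exact_mod_cast hab

theorem edist_self_le {V : Type} (G : SimpleGraph V) (v : V) :
    G.edist v v ≤ ((0 : ℕ) : ℕ∞) := by simp

theorem sg_loc {V Ω : Type} [Fintype V] [Fintype Ω] (p : Par) {G H : SimpleGraph V}
    {B C : (V → Ω) → V → Prop} {χ0 χ0' : V → ℕ} {ξ ξ' : V → Ω} {v : V} {ρ : ℕ}
    (hC : CAg p.T0 G H B C v ρ) (hχ : EqOn G v ρ χ0 χ0') (hξ : EqOn G v ρ ξ ξ')
    (hρ : 2 * p.T0 * p.M0 ≤ ρ) : sg p G B χ0 ξ v = sg p H C χ0' ξ' v :=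
  (sh_loc p.θ0 p.M0 hC (fun _ _ => rfl) hχ hξ hρ).1

section Outer
variable {V Ω : Type} [Fintype V] [Fintype Ω] [Nonempty Ω]

theorem in1_loc' (p : Par) {G H : SimpleGraph V} {B C : (V → Ω) → V → Prop} {χ0 χ0' : V → ℕ}
    {cl cl' : V → Option (ℕ × V)} {ξ ξ' : V → Ω} {v : V} {ρ : ℕ}
    (hC : CAg p.T0 G H B C v ρ) (hχ : EqOn G v ρ χ0 χ0') (hcl : EqOn G v ρ cl cl')
    (hξ : EqOn G v ρ ξ ξ')
    (hρ : 2 * p.T0 * (p.M0 + p.N2 + 1) + p.J1 * (2 * p.t1 + 2 * p.T') + 2 * p.T0 * p.M0 ≤ ρ) :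
    in1 p G B χ0 cl ξ v = in1 p H C χ0' cl' ξ' v := by
  set rc := p.J1 * (2 * p.t1 + 2 * p.T') with hrc
  set rs := 2 * p.T0 * p.M0 with hrs
  set rt := 2 * p.T0 * (p.M0 + p.N2 + 1) with hrt
  -- the first shattering agrees on the ball of radius rt + rc
  have hsg : EqOn G v (rt + rc) (sg p G B χ0 ξ) (sg p H C χ0' ξ') := by
    intro u hu
    have h := shift_aux (ρ := ρ) (b := rs) hu (by omega)
    exact sg_loc p (CAg.shift hC h) (EqOn.shift hχ h) (EqOn.shift hξ h) le_rfl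
  have hce : EqOn G v rt (ceOut G p.T' p.t1 cl (F2 p G B χ0 (sg p G B χ0 ξ)) p.J1)
      (ceOut H p.T' p.t1 cl' (F2 p H C χ0' (sg p H C χ0' ξ')) p.J1) := by
    intro u hu
    have h1 := shift_aux (ρ := ρ) (b := rc) hu (by omega)
    have h2 := shift_aux (ρ := rt + rc) (b := rc) hu (by omega)
    exact ce_loc (ρ := rc) (F2_cag p (CAg.shift hC h1) (EqOn.shift hχ h1) (EqOn.shift hsg h2))
      (EqOn.shift hcl h1) le_rfl
  -- the inner algorithm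
  unfold in1 in2 run
  have hT' : 2 * p.T0 * (p.N2 + 1) + rs = rt := by
    rw [hrs, hrt]
    ring
  have hval : EqOn G v (2 * p.T0 * (p.N2 + 1))
      (sh G p.T0 B (sg p G B χ0 ξ) p.θ1 χ0
        (ceOut G p.T' p.t1 cl (F2 p G B χ0 (sg p G B χ0 ξ)) p.J1) p.M0).val
      (sh H p.T0 C (sg p H C χ0' ξ') p.θ1 χ0'
        (ceOut H p.T' p.t1 cl' (F2 p H C χ0' (sg p H C χ0' ξ')) p.J1) p.M0).val := by
    intro u hu
    have h1 := shift_aux (ρ := ρ) (b := rs) hu (by omega)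
    have h2 := shift_aux (ρ := rt + rc) (b := rs) hu (by omega)
    have h3 := shift_aux (ρ := rt) (b := rs) hu (by omega)
    exact (sh_loc p.θ1 p.M0 (CAg.shift hC h1) (EqOn.shift hsg h2) (EqOn.shift hχ h1)
      (EqOn.shift hce h3) le_rfl).1
  have h4 := shift_aux (ρ := ρ) (b := 2 * p.T0 * (p.N2 + 1)) (edist_self_le G v) (by omega)
  exact finish_loc (CAg.shift hC h4) hval le_rfl

theorem in1_loc (p : Par) {G H : SimpleGraph V} {B C : (V → Ω) → V → Prop} {χ0 χ0' : V → ℕ}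
    {cl cl' : V → Option (ℕ × V)} {ξ ξ' : V → Ω} {v : V} {ρ : ℕ}
    (hC : CAg p.T0 G H B C v ρ) (hχ : EqOn G v ρ χ0 χ0') (hcl : EqOn G v ρ cl cl')
    (hξ : EqOn G v ρ ξ ξ') (hρ : p.T1 ≤ ρ) :
    in1 p G B χ0 cl ξ v = in1 p H C χ0' cl' ξ' v := by
  refine in1_loc' p hC hχ hcl hξ (le_trans ?_ hρ)
  have : 2 * p.T0 * (p.M0 + p.N2 + 1) ≤ p.T' := by
    unfold Par.T'
    exact Nat.mul_le_mul_left _ (by omega)
  unfold Par.T1
  omega

theorem F1_cag (p : Par) {G H : SimpleGraph V} {B C : (V → Ω) → V → Prop} {χ0 χ0' : V → ℕ}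
    {cl cl' : V → Option (ℕ × V)} {v : V} {ρ : ℕ} (hC : CAg p.T0 G H B C v ρ)
    (hχ : EqOn G v ρ χ0 χ0') (hcl : EqOn G v ρ cl cl') :
    CAg p.T1 G H (F1 p G B χ0 cl) (F1 p H C χ0' cl') v ρ := by
  refine ⟨hC.1, ?_⟩
  intro w x y hw hxy
  unfold F1
  have hT1 : p.T0 + (2 * p.T0 * (p.M0 + p.N2 + 1) + p.J1 * (2 * p.t1 + 2 * p.T') +
      2 * p.T0 * p.M0) ≤ p.T1 := by
    have : p.T0 + 2 * p.T0 * (p.M0 + p.N2 + 1) ≤ p.T' := by
      unfold Par.T'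
      nlinarith
    unfold Par.T1
    omega
  have hT0 : ((p.T0 : ℕ) : ℕ∞) ≤ p.T1 := by exact_mod_cast (by omega : p.T0 ≤ p.T1)
  refine hC.2 w _ _ (le_trans (add_le_add_right hT0 _) hw) ?_
  intro u hu
  have h1 := shift_aux (ρ := p.T1) hu hT1
  refine in1_loc' p (CAg.shift (CAg.shift hC hw) h1) (EqOn.shift (EqOn.shift hχ hw) h1)
    (EqOn.shift (EqOn.shift hcl hw) h1) (EqOn.shift hxy h1) le_rfl

theorem F1_cp (p : Par) {G : SimpleGraph V} {B : (V → Ω) → V → Prop} (hB : Dep G p.T0 B)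
    {χ0 : V → ℕ} (hχ : ProperAt G (2 * p.T0) χ0) (hM : ∀ u, χ0 u < p.M0) {g s1 s2 : ℕ}
    (hg : ∀ v, (bl G v (10 * p.T0)).ncard ≤ g) {ε : ℝ} (hε : 0 < ε) (h4 : 4 * (g : ℝ) ^ 3 * ε ≤ 1)
    (hθ0 : p.θ0 = ε ^ 2) (hθ1 : p.θ1 = ε) (hs1 : 1 ≤ s1) (hs2 : 1 ≤ s2)
    (hN2 : p.N2 = s2 * g * g) (hin : ((s1 * g * g : ℕ) : ℝ) * g * (g * (1 / 4) ^ s2) < 1)
    {cl : V → Option (ℕ × V)} (hND : IsND G (2 * p.T') p.t1 p.J1 cl)
    (h0 : ∀ v, cp B nope v ≤ ε ^ 4) (v : V) :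
    cp (F1 p G B χ0 cl) nope v ≤ g * (1 / 4) ^ s1 := by
  have hg1 : 1 ≤ g := by
    refine le_trans ?_ (hg v)
    have : v ∈ bl G v (10 * p.T0) := by simp [bl]
    exact Nat.one_le_iff_ne_zero.2 (Set.ncard_ne_zero_of_mem this (Set.toFinite _))
  have hg1' : (1 : ℝ) ≤ g := by exact_mod_cast hg1
  have hε1 : ε ≤ 1 := by
    have : (1 : ℝ) ≤ (g : ℝ) ^ 3 := one_le_pow₀ hg1'
    nlinarith
  have h42 : ε ^ 4 ≤ ε ^ 2 := by
    have : ε ^ 2 ≤ 1 := pow_le_one₀ hε.le hε1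
    nlinarith [sq_nonneg ε]
  have hcp2 : ∀ ξ : V → Ω, ∀ w, cp B (sg p G B χ0 ξ) w ≤ ε ^ 2 := by
    intro ξ w
    unfold sg
    rw [← hθ0]
    refine sh_cp_le hB hχ ?_ _ w
    intro u
    rw [hθ0]
    exact le_trans (h0 u) h42
  calc cp (F1 p G B χ0 cl) nope v
      = Ex (fun ξ => ind (F1 p G B χ0 cl ξ v)) := by
        unfold cp
        congr 1
    _ ≤ Ex (fun ξ => ind (∃ u, G.edist v u ≤ p.T0 ∧
        (sh G p.T0 B nope p.θ0 χ0 ξ p.M0).val u = none ∧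
        s1 * g * g < (cmp G (2 * p.T0) (unset (sh G p.T0 B nope p.θ0 χ0 ξ p.M0).val)
          (s1 * g * g) u).ncard)) := by
        refine Ex_mono ?_
        intro ξ
        unfold ind
        by_cases hb : F1 p G B χ0 cl ξ v
        · rw [if_pos hb, if_pos]
          by_contra hcon
          push Not at hcon
          exact inner p hB hχ hM hg hε h4 hθ1 hs2 hN2 hin hND (hcp2 ξ) hcon hb
        · rw [if_neg hb]
          split_ifs <;> norm_num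
    _ ≤ g * (1 / 4) ^ s1 := by
        refine big hB hχ hM (p := ε ^ 4) (by positivity) (by rw [hθ0]; positivity) h0 hg ?_ hs1 v
        rw [hθ0]
        have : (g : ℝ) ^ 2 * (g * ε ^ 4 / ε ^ 2) = (g : ℝ) ^ 3 * ε * ε := by
          field_simp
        rw [this]
        nlinarith

end Outer

end Pool.Agent.H56.Sub
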