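import Pool.Agent.H56.Sub.Defs

/-!
# Bounds for the weighted sums and for the radii of the decompositions
-/

set_option autoImplicit false

noncomputable section

open scoped Classical

namespace Pool.Agent.H56.Sub

theorem one_le_log_add_two {n : ℕ} (hn : 1 ≤ n) : 1 ≤ Real.log ((n : ℝ) + 2) := by
  have h1 : (3 : ℝ) ≤ (n : ℝ) + 2 := by
    have : (1 : ℝ) ≤ n := by exact_mod_cast hn
    linarith
  have h2 : Real.exp 1 ≤ (n : ℝ) + 2 := by
    have := Real.exp_one_lt_d9
    linarith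
  calc (1 : ℝ) = Real.log (Real.exp 1) := (Real.log_exp 1).symm
    _ ≤ Real.log ((n : ℝ) + 2) := Real.log_le_log (Real.exp_pos 1) h2

/-- Outside a quasipolynomial range the growth function is at most `exp (r / (4m))`. -/
theorem tame_aux {f : ℕ → ℕ} (hf : Tame f) : ∃ A E : ℕ, 1 ≤ E ∧ ∃ r0 : ℕ,
    (∀ r : ℕ, r0 ≤ r → (f r : ℝ) ≤ Real.exp r) ∧
      ∀ m : ℕ, 1 ≤ m → ∀ r : ℕ, QP A E m ≤ r → (f r : ℝ) ≤ Real.exp ((r : ℝ) / (4 * m)) := by
  obtain ⟨δ, hδ, hev⟩ := hf
  obtain ⟨r1, hr1⟩ := Filter.eventually_atTop.1 hev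
  obtain ⟨E, hE⟩ := exists_nat_ge (1 / δ)
  have key : ∀ r : ℕ, max r1 1 ≤ r → (f r : ℝ) ≤
      Real.exp (r * Real.exp (-(Real.log r) ^ δ)) := by
    intro r hr
    rcases Nat.eq_zero_or_pos (f r) with h0 | h0
    · rw [h0]
      simpa using (Real.exp_pos _).le
    · rw [← Real.log_le_iff_le_exp (by exact_mod_cast h0)]
      exact hr1 r (le_trans (le_max_left _ _) hr)
  have hlog : ∀ r : ℕ, max r1 1 ≤ r → 0 ≤ Real.log (r : ℝ) := by
    intro r hr
    apply Real.log_nonneg
    exact_mod_cast le_trans (le_max_right _ _) hr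
  refine ⟨2 ^ (E + 1) + r1, E + 1, by omega, max r1 1, fun r hr => ?_, fun m hm r hr => ?_⟩
  · refine (key r hr).trans (Real.exp_le_exp.2 ?_)
    have h1 : Real.exp (-(Real.log r) ^ δ) ≤ 1 := by
      apply Real.exp_le_one_iff.2
      have := Real.rpow_nonneg (hlog r hr) δ
      linarith
    calc (r : ℝ) * Real.exp (-(Real.log r) ^ δ) ≤ r * 1 :=
          mul_le_mul_of_nonneg_left h1 (Nat.cast_nonneg _)
      _ = r := mul_one _
  · -- large radii
    set l : ℝ := Real.log ((m : ℝ) + 2) with hl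
    have hl1 : 1 ≤ l := one_le_log_add_two hm
    have hm1 : (1 : ℝ) ≤ m := by exact_mod_cast hm
    have hL1 : 1 ≤ l ^ (E + 1) := one_le_pow₀ hl1
    have h4m : Real.log (4 * m) ≤ 2 * l := by
      have : Real.log (((m : ℝ) + 2) ^ 2) = 2 * l := by
        rw [Real.log_pow]; push_cast; ring
      rw [← this]
      apply Real.log_le_log (by positivity)
      nlinarith
    have h4m0 : 0 ≤ Real.log (4 * m) := Real.log_nonneg (by linarith)
    have hexp : (Real.log (4 * m)) ^ (1 / δ) ≤ 2 ^ (E + 1) * l ^ (E + 1) := by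
      calc (Real.log (4 * m)) ^ (1 / δ) ≤ (2 * l) ^ (1 / δ) :=
            Real.rpow_le_rpow h4m0 h4m (by positivity)
        _ ≤ (2 * l) ^ ((E + 1 : ℕ) : ℝ) := by
            apply Real.rpow_le_rpow_of_exponent_le (by linarith)
            push_cast
            linarith
        _ = (2 * l) ^ (E + 1) := Real.rpow_natCast _ _
        _ = 2 ^ (E + 1) * l ^ (E + 1) := mul_pow _ _ _
    have hQ : QP (2 ^ (E + 1) + r1) (E + 1) m =
        Real.exp (2 ^ (E + 1) * l ^ (E + 1)) * Real.exp (r1 * l ^ (E + 1)) := by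
      rw [QP, ← Real.exp_add]
      congr 1
      push_cast
      ring
    have hQ1 : Real.exp (2 ^ (E + 1) * l ^ (E + 1)) ≤ r := by
      refine le_trans ?_ hr
      rw [hQ]
      apply le_mul_of_one_le_right (Real.exp_pos _).le
      exact Real.one_le_exp (by positivity)
    have hQ2 : (r1 : ℝ) ≤ r := by
      refine le_trans ?_ hr
      rw [hQ]
      have h5 : (r1 : ℝ) ≤ Real.exp (r1 * l ^ (E + 1)) := by
        have h6 := Real.add_one_le_exp ((r1 : ℝ) * l ^ (E + 1))
        have h7 : (r1 : ℝ) ≤ r1 * l ^ (E + 1) := le_mul_of_one_le_right (Nat.cast_nonneg _) hL1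
        linarith
      refine h5.trans (le_mul_of_one_le_left (Real.exp_pos _).le ?_)
      exact Real.one_le_exp (by positivity)
    have hr1' : max r1 1 ≤ r := by
      apply max_le (by exact_mod_cast hQ2)
      have : (1 : ℝ) ≤ r := le_trans (Real.one_le_exp (by positivity)) hQ1
      exact_mod_cast this
    refine (key r hr1').trans (Real.exp_le_exp.2 ?_)
    have hrpos : (0 : ℝ) < r := lt_of_lt_of_le (Real.exp_pos _) hQ1
    have h8 : Real.log (4 * m) ≤ (Real.log r) ^ δ := by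
      have h9 : (Real.log (4 * m)) ^ (1 / δ) ≤ Real.log r := by
        rw [Real.le_log_iff_exp_le hrpos]
        exact (Real.exp_le_exp.2 hexp).trans hQ1
      calc Real.log (4 * m) = ((Real.log (4 * m)) ^ (1 / δ)) ^ δ := by
            rw [← Real.rpow_mul h4m0, one_div, inv_mul_cancel₀ hδ.ne', Real.rpow_one]
        _ ≤ (Real.log r) ^ δ := Real.rpow_le_rpow (Real.rpow_nonneg h4m0 _) h9 hδ.le
    have h10 : Real.exp (-(Real.log r) ^ δ) ≤ 1 / (4 * m) := by
      calc Real.exp (-(Real.log r) ^ δ) ≤ Real.exp (-Real.log (4 * m)) :=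
            Real.exp_le_exp.2 (neg_le_neg h8)
        _ = 1 / (4 * m) := by
            rw [Real.exp_neg, Real.exp_log (by positivity), one_div]
    calc (r : ℝ) * Real.exp (-(Real.log r) ^ δ) ≤ r * (1 / (4 * m)) :=
          mul_le_mul_of_nonneg_left h10 hrpos.le
      _ = r / (4 * m) := by ring

theorem le_exp_mul {c L : ℝ} (hc : 0 ≤ c) (hL : 1 ≤ L) : c ≤ Real.exp (c * L) := by
  have h6 := Real.add_one_le_exp (c * L)
  have h7 : c ≤ c * L := le_mul_of_one_le_right hc hL
  linarith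

/-- Module ParamA. -/
theorem k_bound {f : ℕ → ℕ} (hf : Tame f) : ∃ A E : ℕ, ∀ D : ℕ, 1 ≤ D →
    ∃ k : ℕ, 1 ≤ k ∧ (k : ℝ) ≤ QP A E D ∧ f (k * D) < 2 ^ k := by
  obtain ⟨A, E, hE, r0, h0, h1⟩ := tame_aux hf
  refine ⟨A + 1, E, fun D hD => ?_⟩
  set l : ℝ := Real.log ((D : ℝ) + 2) with hl
  have hl1 : 1 ≤ l := one_le_log_add_two hD
  have hL1 : 1 ≤ l ^ E := one_le_pow₀ hl1
  have hQ1 : 1 ≤ QP A E D := Real.one_le_exp (by positivity)
  have hk0 : QP A E D ≤ (⌈QP A E D⌉₊ : ℝ) := Nat.le_ceil _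
  have hk1 : (1 : ℝ) ≤ (⌈QP A E D⌉₊ : ℝ) := hQ1.trans hk0
  refine ⟨⌈QP A E D⌉₊, by exact_mod_cast hk1, ?_, ?_⟩
  · have h2 : (⌈QP A E D⌉₊ : ℝ) < QP A E D + 1 := Nat.ceil_lt_add_one (by linarith)
    have h3 : QP (A + 1) E D = QP A E D * Real.exp (l ^ E) := by
      rw [QP, QP, ← Real.exp_add]
      congr 1
      push_cast
      ring
    have h4 : (2 : ℝ) ≤ Real.exp (l ^ E) := by
      have := Real.add_one_le_exp (l ^ E)
      linarith
    rw [h3]
    nlinarith
  · set k := ⌈QP A E D⌉₊ with hk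
    have hD1 : (1 : ℝ) ≤ D := by exact_mod_cast hD
    have h2 := h1 D hD (k * D) (by
      push_cast
      calc QP A E D ≤ k := hk0
        _ = k * 1 := (mul_one _).symm
        _ ≤ k * D := mul_le_mul_of_nonneg_left hD1 (Nat.cast_nonneg _))
    have h3 : ((k * D : ℕ) : ℝ) / (4 * D) = k / 4 := by
      push_cast
      field_simp
    rw [h3] at h2
    have h4 : Real.exp ((k : ℝ) / 4) < 2 ^ k := by
      have h5 : (2 : ℝ) ^ k = Real.exp (k * Real.log 2) := by
        rw [mul_comm, Real.exp_mul, Real.exp_log (by norm_num), Real.rpow_natCast]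
      rw [h5]
      apply Real.exp_lt_exp.2
      have := Real.log_two_gt_d9
      nlinarith
    have h5 : (f (k * D) : ℝ) < 2 ^ k := lt_of_le_of_lt h2 h4
    exact_mod_cast h5

/-- The geometric series with ratio `exp (-1/(4n))`. -/
theorem geo_bound {n : ℕ} (hn : 1 ≤ n) :
    (Summable fun r : ℕ => Real.exp (-((r : ℝ) / (4 * n)))) ∧
      ∑' r : ℕ, Real.exp (-((r : ℝ) / (4 * n))) ≤ 8 * n := by
  have hn1 : (1 : ℝ) ≤ n := by exact_mod_cast hn
  set x : ℝ := 1 / (4 * n) with hx
  have hx0 : 0 < x := by positivity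
  have hx1 : x ≤ 1 := by
    rw [hx, div_le_one (by positivity)]
    linarith
  have h1 : ∀ r : ℕ, Real.exp (-((r : ℝ) / (4 * n))) = Real.exp (-x) ^ r := by
    intro r
    rw [← Real.exp_nat_mul]
    congr 1
    rw [hx]
    ring
  have h2 : Real.exp (-x) < 1 := by
    rw [Real.exp_lt_one_iff]
    linarith
  simp only [h1]
  refine ⟨summable_geometric_of_lt_one (Real.exp_pos _).le h2, ?_⟩
  rw [tsum_geometric_of_lt_one (Real.exp_pos _).le h2]
  -- `1 - exp (-x) ≥ x / 2`
  have h3 : x / 2 ≤ 1 - Real.exp (-x) := by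
    have h4 : Real.exp (-x) ≤ 1 / (1 + x) := by
      rw [Real.exp_neg, one_div]
      apply inv_anti₀ (by linarith)
      have := Real.add_one_le_exp x
      linarith
    have h5 : 1 / (1 + x) ≤ 1 - x / 2 := by
      rw [div_le_iff₀ (by linarith)]
      nlinarith
    linarith
  calc (1 - Real.exp (-x))⁻¹ ≤ (x / 2)⁻¹ := inv_anti₀ (by positivity) h3
    _ = 8 * n := by
      rw [hx]
      field_simp
      norm_num

/-- Module ParamA. -/
theorem sq_bound {f : ℕ → ℕ} (hf : Tame f) : ∃ A E : ℕ, ∀ n : ℕ, 1 ≤ n →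
    Sq f ((2 : ℝ) ^ (-(1 / (n : ℝ)))) ≤ (2 : ℝ) ^ (QP A E n) := by
  obtain ⟨A, E, hE, r0, h0, h1⟩ := tame_aux hf
  set C : ℕ := ∑ r ∈ Finset.range r0, f r with hC
  refine ⟨A + 25 + 2 * C, E, fun n hn => ?_⟩
  have hn1 : (1 : ℝ) ≤ n := by exact_mod_cast hn
  set l : ℝ := Real.log ((n : ℝ) + 2) with hl
  have hl1 : 1 ≤ l := one_le_log_add_two hn
  have hL1 : 1 ≤ l ^ E := one_le_pow₀ hl1
  set R : ℝ := QP A E n with hR
  have hR0 : 0 < R := Real.exp_pos _
  set q : ℝ := (2 : ℝ) ^ (-(1 / (n : ℝ))) with hq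
  have hq0 : 0 < q := Real.rpow_pos_of_pos (by norm_num) _
  have hq1 : q ≤ 1 := Real.rpow_le_one_of_one_le_of_nonpos (by norm_num) (by
    rw [neg_nonpos]; positivity)
  have hqr : ∀ r : ℕ, q ^ r = Real.exp (-(r / n * Real.log 2)) := by
    intro r
    rw [hq, ← Real.rpow_natCast, ← Real.rpow_mul (by norm_num),
      Real.rpow_def_of_pos (by norm_num)]
    congr 1
    ring
  -- the majorant
  set N : ℕ := ⌈R⌉₊ with hN
  have hbound : ∀ r : ℕ, (f r : ℝ) * q ^ r ≤
      (if r ∈ Finset.range N then C + Real.exp R else 0) +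
        Real.exp (-((r : ℝ) / (4 * n))) := by
    intro r
    by_cases hr : r ∈ Finset.range N
    · rw [if_pos hr]
      have hrN : (r : ℝ) < R := by
        rw [Finset.mem_range, hN] at hr
        exact Nat.lt_ceil.1 hr
      have h2 : (f r : ℝ) ≤ C + Real.exp R := by
        rcases lt_or_ge r r0 with h3 | h3
        · have h4 : f r ≤ C := by
            rw [hC]
            exact Finset.single_le_sum (f := f) (fun i _ => Nat.zero_le _) (Finset.mem_range.2 h3)
          have h5 : (f r : ℝ) ≤ C := by exact_mod_cast h4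
          have := Real.exp_pos R
          linarith
        · have h4 := h0 r h3
          have h5 := Real.exp_le_exp.2 hrN.le
          have h6 : (0 : ℝ) ≤ C := Nat.cast_nonneg _
          linarith
      have h3 : (f r : ℝ) * q ^ r ≤ f r * 1 :=
        mul_le_mul_of_nonneg_left (pow_le_one₀ hq0.le hq1) (Nat.cast_nonneg _)
      have := Real.exp_pos (-((r : ℝ) / (4 * n)))
      linarith
    · rw [if_neg hr, zero_add]
      have hrN : R ≤ r := by
        rw [Finset.mem_range, not_lt, hN] at hr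
        exact Nat.ceil_le.1 hr
      have h2 := h1 n hn r hrN
      calc (f r : ℝ) * q ^ r ≤ Real.exp ((r : ℝ) / (4 * n)) * q ^ r :=
            mul_le_mul_of_nonneg_right h2 (pow_nonneg hq0.le _)
        _ = Real.exp ((r : ℝ) / (4 * n) - r / n * Real.log 2) := by
            rw [hqr, ← Real.exp_add, sub_eq_add_neg]
        _ ≤ Real.exp (-((r : ℝ) / (4 * n))) := by
            apply Real.exp_le_exp.2
            have h5 : (r : ℝ) / (4 * n) = (r / n) * (1 / 4) := by
              field_simp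
            rw [h5]
            have h6 : (0 : ℝ) ≤ r / n := by positivity
            have := Real.log_two_gt_d9
            nlinarith
  obtain ⟨hs1, hs2⟩ := geo_bound hn
  have hsf : Summable fun r : ℕ => (if r ∈ Finset.range N then (C : ℝ) + Real.exp R else 0) :=
    summable_of_hasFiniteSupport ((Finset.range N).finite_toSet.subset (by
      intro r hr
      by_contra h
      exact hr (if_neg (by simpa using h))))
  have hsum : Sq f q ≤ N * (C + Real.exp R) + 8 * n := by
    have h2 : Summable fun r : ℕ => (f r : ℝ) * q ^ r :=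
      Summable.of_nonneg_of_le (fun r => by positivity) hbound (hsf.add hs1)
    calc Sq f q ≤ ∑' r : ℕ, ((if r ∈ Finset.range N then (C : ℝ) + Real.exp R else 0) +
          Real.exp (-((r : ℝ) / (4 * n)))) := h2.tsum_le_tsum hbound (hsf.add hs1)
      _ = (∑' r : ℕ, (if r ∈ Finset.range N then (C : ℝ) + Real.exp R else 0)) +
          ∑' r : ℕ, Real.exp (-((r : ℝ) / (4 * n))) := hsf.tsum_add hs1
      _ ≤ N * (C + Real.exp R) + 8 * n := by
          apply add_le_add _ hs2
          rw [tsum_eq_sum (s := Finset.range N) (fun b hb => if_neg hb)]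
          rw [Finset.sum_congr rfl (fun b hb => if_pos hb)]
          simp [mul_add]
  -- the final estimate
  have hN1 : (N : ℝ) ≤ Real.exp R := by
    have h2 : (N : ℝ) < R + 1 := Nat.ceil_lt_add_one hR0.le
    have := Real.add_one_le_exp R
    linarith
  have hCR : (C : ℝ) + Real.exp R ≤ Real.exp (C + R) := by
    rw [Real.exp_add]
    have h2 := Real.add_one_le_exp (C : ℝ)
    have h3 : 1 ≤ Real.exp R := Real.one_le_exp hR0.le
    have h4 : (0 : ℝ) ≤ C := Nat.cast_nonneg _
    nlinarith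
  have h8n : (8 : ℝ) * n ≤ Real.exp (8 * n) := by
    have := Real.add_one_le_exp ((8 : ℝ) * n)
    linarith
  have hprod : (N : ℝ) * (C + Real.exp R) ≤ Real.exp (2 * R + C) := by
    calc (N : ℝ) * (C + Real.exp R) ≤ Real.exp R * Real.exp (C + R) :=
          mul_le_mul hN1 hCR (by positivity) (Real.exp_pos _).le
      _ = Real.exp (2 * R + C) := by rw [← Real.exp_add]; congr 1; ring
  have hfin : Real.exp (2 * R + C) + Real.exp (8 * n) ≤ Real.exp (2 * R + C + 8 * n + 1) := by
    have h2 : 1 ≤ Real.exp (2 * R + C) := Real.one_le_exp (by positivity)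
    have h3 : 1 ≤ Real.exp (8 * (n : ℝ)) := Real.one_le_exp (by positivity)
    have h4 : (2 : ℝ) ≤ Real.exp 1 := by
      have := Real.add_one_le_exp (1 : ℝ)
      linarith
    rw [Real.exp_add (2 * R + C + 8 * n) 1, Real.exp_add (2 * R + C) (8 * n)]
    nlinarith [mul_nonneg (sub_nonneg.2 h2) (sub_nonneg.2 h3),
      mul_pos (Real.exp_pos (2 * R + C)) (Real.exp_pos (8 * (n : ℝ)))]
  have hexp : 2 * R + C + 8 * n + 1 ≤ Real.log 2 * QP (A + 25 + 2 * C) E n := by
    have h2 : (n : ℝ) ≤ Real.exp (l ^ E) := by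
      have h3 : (n : ℝ) + 2 = Real.exp l := by
        rw [hl, Real.exp_log (by linarith)]
      have h4 : l ≤ l ^ E := le_self_pow₀ hl1 (by omega)
      have h5 := Real.exp_le_exp.2 h4
      linarith
    have h3 : QP (A + 25 + 2 * C) E n =
        R * Real.exp (l ^ E) * Real.exp ((24 + 2 * C) * l ^ E) := by
      rw [hR, QP, QP, ← Real.exp_add, ← Real.exp_add]
      congr 1
      push_cast
      ring
    have h4 : (24 + 2 * C : ℝ) ≤ Real.exp ((24 + 2 * C) * l ^ E) :=
      le_exp_mul (by positivity) hL1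
    have hR1 : 1 ≤ R := Real.one_le_exp (by positivity)
    have h5 : 1 ≤ Real.exp (l ^ E) := Real.one_le_exp (by positivity)
    have h6 : R * Real.exp (l ^ E) * (24 + 2 * C) ≤ QP (A + 25 + 2 * C) E n := by
      rw [h3]
      exact mul_le_mul_of_nonneg_left h4 (by positivity)
    have h7 : (1 : ℝ) / 2 ≤ Real.log 2 := by
      have := Real.log_two_gt_d9
      linarith
    have h8 : R ≤ R * Real.exp (l ^ E) := le_mul_of_one_le_right hR0.le h5
    have h9 : Real.exp (l ^ E) ≤ R * Real.exp (l ^ E) :=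
      le_mul_of_one_le_left (Real.exp_pos _).le hR1
    have h10 : (0 : ℝ) ≤ C := Nat.cast_nonneg _
    have h11 : (C : ℝ) ≤ R * Real.exp (l ^ E) * C := le_mul_of_one_le_left h10 (by nlinarith)
    have h12 : 1 / 2 * QP (A + 25 + 2 * C) E n ≤ Real.log 2 * QP (A + 25 + 2 * C) E n :=
      mul_le_mul_of_nonneg_right h7 (Real.exp_pos _).le
    nlinarith
  calc Sq f q ≤ N * (C + Real.exp R) + 8 * n := hsum
    _ ≤ Real.exp (2 * R + C + 8 * n + 1) := by linarith
    _ ≤ Real.exp (Real.log 2 * QP (A + 25 + 2 * C) E n) := Real.exp_le_exp.2 hexp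
    _ = (2 : ℝ) ^ (QP (A + 25 + 2 * C) E n) := by
      rw [Real.rpow_def_of_pos (by norm_num)]

end Pool.Agent.H56.Sub
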