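import Pool.Agent.H56.Sub.Basics
import Pool.Agent.H56.Sub.Expe
import Pool.Agent.H56.Sub.ShP

/-!
# Locality of the shattering process
-/

set_option autoImplicit false

noncomputable section

open scoped Classical

namespace Pool.Agent.H56.Sub

variable {V Λ Ω : Type} [Fintype V] [Fintype Ω]

theorem sh_val_succ (G : SimpleGraph V) (T : ℕ) (B : (V → Ω) → V → Prop) (σ : V → Option Ω)
    (θ : ℝ) (χ : V → ℕ) (ξ : V → Ω) (i : ℕ) (u : V) :
    (sh G T B σ θ χ ξ (i + 1)).val u =
      if act G T σ χ i (sh G T B σ θ χ ξ i) u ∧ ¬ tst G T B θ ξ (sh G T B σ θ χ ξ i) u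
      then some (ξ u) else (sh G T B σ θ χ ξ i).val u := rfl

theorem sh_trg_succ (G : SimpleGraph V) (T : ℕ) (B : (V → Ω) → V → Prop) (σ : V → Option Ω)
    (θ : ℝ) (χ : V → ℕ) (ξ : V → Ω) (i : ℕ) (u : V) :
    u ∈ (sh G T B σ θ χ ξ (i + 1)).trg ↔ u ∈ (sh G T B σ θ χ ξ i).trg ∨
      (act G T σ χ i (sh G T B σ θ χ ξ i) u ∧ tst G T B θ ξ (sh G T B σ θ χ ξ i) u) := Iff.rfl

theorem sh_of_set_aux {G : SimpleGraph V} {T : ℕ} {B : (V → Ω) → V → Prop}
    {σ : V → Option Ω} {θ : ℝ} {χ : V → ℕ} {ξ : V → Ω} {u : V} (hu : σ u ≠ none) (i : ℕ) :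
    (sh G T B σ θ χ ξ i).val u = σ u := by
  induction i with
  | zero => rfl
  | succ i ih =>
    rw [sh_val_succ, if_neg (fun h => hu h.1.2.1), ih]

theorem sh_trg_unset_aux {G : SimpleGraph V} {T : ℕ} {B : (V → Ω) → V → Prop}
    {σ : V → Option Ω} {θ : ℝ} {χ : V → ℕ} {ξ : V → Ω} {u : V} {i : ℕ}
    (hu : u ∈ (sh G T B σ θ χ ξ i).trg) : σ u = none := by
  induction i with
  | zero => exact absurd hu (Set.notMem_empty u)
  | succ i ih =>
    rcases (sh_trg_succ G T B σ θ χ ξ i u).1 hu with h | h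
    · exact ih h
    · exact h.1.2.1

theorem sh_loc {G H : SimpleGraph V} {T : ℕ} {B C : (V → Ω) → V → Prop} {σ σ' : V → Option Ω}
    (θ : ℝ) {χ χ' : V → ℕ} {ξ ξ' : V → Ω} {v : V} {ρ : ℕ} (i : ℕ)
    (hC : CAg T G H B C v ρ) (hσ : EqOn G v ρ σ σ') (hχ : EqOn G v ρ χ χ')
    (hξ : EqOn G v ρ ξ ξ') (hi : 2 * T * i ≤ ρ) :
    (sh G T B σ θ χ ξ i).val v = (sh H T C σ' θ χ' ξ' i).val v ∧
      (v ∈ (sh G T B σ θ χ ξ i).trg ↔ v ∈ (sh H T C σ' θ χ' ξ' i).trg) := by
  induction i generalizing v ρ with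
  | zero =>
    refine ⟨hσ v ?_, ?_⟩
    · rw [SimpleGraph.edist_self]; exact zero_le
    · exact ⟨fun h => absurd h (Set.notMem_empty v), fun h => absurd h (Set.notMem_empty v)⟩
  | succ i ih =>
    have hi1 : 2 * T * i + 2 * T ≤ ρ := by rw [Nat.mul_succ] at hi; exact hi
    have hself : ∀ w : V, G.edist w w ≤ 0 := fun w => by rw [SimpleGraph.edist_self]
    have hIH : ∀ u, G.edist v u ≤ (2 * T : ℕ) →
        (sh G T B σ θ χ ξ i).val u = (sh H T C σ' θ χ' ξ' i).val u ∧
          (u ∈ (sh G T B σ θ χ ξ i).trg ↔ u ∈ (sh H T C σ' θ χ' ξ' i).trg) := by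
      intro u hu
      have hs : G.edist v u + ((2 * T * i : ℕ) : ℕ∞) ≤ ρ := by
        calc G.edist v u + ((2 * T * i : ℕ) : ℕ∞) ≤ ((2 * T : ℕ) : ℕ∞) + ((2 * T * i : ℕ) : ℕ∞) := by
              gcongr
          _ ≤ ρ := by exact_mod_cast (by omega : 2 * T + 2 * T * i ≤ ρ)
      exact ih (hC.shift hs) (hσ.shift hs) (hχ.shift hs) (hξ.shift hs) le_rfl
    have hv0 : G.edist v v ≤ (ρ : ℕ∞) := (hself v).trans zero_le
    have hv : σ v = σ' v := hσ v hv0
    have hv1 : χ v = χ' v := hχ v hv0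
    have hv2 : ξ v = ξ' v := hξ v hv0
    have hact : act G T σ χ i (sh G T B σ θ χ ξ i) v ↔ act H T σ' χ' i (sh H T C σ' θ χ' ξ' i) v := by
      unfold act
      rw [hv, hv1]
      refine and_congr Iff.rfl (and_congr Iff.rfl ?_)
      constructor
      · intro h w hw hvw
        have h1 : G.edist v w ≤ (2 * T : ℕ) := (hC.1.edist_iff (by omega) w).2 hvw
        exact h w ((hIH w h1).2.2 hw) h1
      · intro h w hw hvw
        exact h w ((hIH w hvw).2.1 hw) ((hC.1.edist_iff (by omega) w).1 hvw)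
    have htst : tst G T B θ ξ (sh G T B σ θ χ ξ i) v ↔ tst H T C θ ξ' (sh H T C σ' θ χ' ξ' i) v := by
      have hcp : ∀ w, G.edist v w ≤ T →
          cp B (Function.update (sh G T B σ θ χ ξ i).val v (some (ξ v))) w =
            cp C (Function.update (sh H T C σ' θ χ' ξ' i).val v (some (ξ' v))) w := by
        intro w hw
        refine cp_congr (G := G) (T := T) (fun x y hxy => hC.2 w x y ?_ hxy) ?_
        · calc G.edist v w + T ≤ (T : ℕ∞) + T := by gcongr
            _ ≤ ρ := by exact_mod_cast (by omega : T + T ≤ ρ)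
        · intro x hx
          by_cases hxv : x = v
          · subst hxv
            simp [hv2]
          · rw [Function.update_of_ne hxv, Function.update_of_ne hxv]
            refine (hIH x ?_).1
            calc G.edist v x ≤ G.edist v w + G.edist w x := SimpleGraph.edist_triangle
              _ ≤ T + T := by gcongr
              _ = ((2 * T : ℕ) : ℕ∞) := by push_cast; ring
      unfold tst
      constructor
      · rintro ⟨w, hw, h⟩
        exact ⟨w, (hC.1.edist_iff (by omega) w).1 hw, by rw [← hcp w hw]; exact h⟩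
      · rintro ⟨w, hw, h⟩
        have hw' : G.edist v w ≤ T := (hC.1.edist_iff (by omega) w).2 hw
        exact ⟨w, hw', by rw [hcp w hw']; exact h⟩
    have hv3 := hIH v ((hself v).trans zero_le)
    refine ⟨?_, ?_⟩
    · rw [sh_val_succ, sh_val_succ]
      simp only [hact, htst, hv2, hv3.1]
    · rw [sh_trg_succ, sh_trg_succ, hact, htst, hv3.2]

/-- On a set `K` of unset vertices which is closed under steps of length at most `2T` inside the
unset vertices, the process depends only on the random values on `K`. -/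
theorem sh_closed {G : SimpleGraph V} {T : ℕ} {B : (V → Ω) → V → Prop} (hB : Dep G T B)
    {σ : V → Option Ω} (θ : ℝ) (χ : V → ℕ) {ξ ξ' : V → Ω} {K : Set V}
    (_hK : K ⊆ unset σ) (hcl : ∀ u ∈ K, ∀ w ∈ unset σ, G.edist u w ≤ (2 * T : ℕ) → w ∈ K)
    (hξ : ∀ u ∈ K, ξ u = ξ' u) (i : ℕ) (u : V) (hu : u ∈ K) :
    (sh G T B σ θ χ ξ i).val u = (sh G T B σ θ χ ξ' i).val u ∧
      (u ∈ (sh G T B σ θ χ ξ i).trg ↔ u ∈ (sh G T B σ θ χ ξ' i).trg) := by
  induction i generalizing u with
  | zero => exact ⟨rfl, Iff.rfl⟩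
  | succ i ih =>
    have hact : act G T σ χ i (sh G T B σ θ χ ξ i) u ↔ act G T σ χ i (sh G T B σ θ χ ξ' i) u := by
      unfold act
      refine and_congr Iff.rfl (and_congr Iff.rfl ?_)
      constructor
      · intro h w hw huw
        exact h w ((ih w (hcl u hu w (sh_trg_unset_aux hw) huw)).2.2 hw) huw
      · intro h w hw huw
        exact h w ((ih w (hcl u hu w (sh_trg_unset_aux hw) huw)).2.1 hw) huw
    have htst : tst G T B θ ξ (sh G T B σ θ χ ξ i) u ↔ tst G T B θ ξ' (sh G T B σ θ χ ξ' i) u := by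
      have hcp : ∀ w, G.edist u w ≤ T →
          cp B (Function.update (sh G T B σ θ χ ξ i).val u (some (ξ u))) w =
            cp B (Function.update (sh G T B σ θ χ ξ' i).val u (some (ξ' u))) w := by
        intro w hw
        refine cp_congr (G := G) (T := T) (fun x y hxy => hB w x y hxy) ?_
        intro x hx
        by_cases hxu : x = u
        · subst hxu
          simp [hξ x hu]
        · rw [Function.update_of_ne hxu, Function.update_of_ne hxu]
          by_cases hx0 : σ x = none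
          · refine (ih x (hcl u hu x hx0 ?_)).1
            calc G.edist u x ≤ G.edist u w + G.edist w x := SimpleGraph.edist_triangle
              _ ≤ T + T := by gcongr
              _ = ((2 * T : ℕ) : ℕ∞) := by push_cast; ring
          · rw [sh_of_set_aux hx0, sh_of_set_aux hx0]
      unfold tst
      exact exists_congr fun w => and_congr_right fun hw => by rw [hcp w hw]
    refine ⟨?_, ?_⟩
    · rw [sh_val_succ, sh_val_succ]
      simp only [hact, htst, hξ u hu, (ih u hu).1]
    · rw [sh_trg_succ, sh_trg_succ, hact, htst, (ih u hu).2]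

end Pool.Agent.H56.Sub
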