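import Pool.Agent.H56.Sub.Basics
import Pool.Agent.H56.Sub.Expe
import Pool.Agent.H56.Sub.ShP

/-!
# Squad SUB, module Tail: separated vertices trigger essentially independently
-/

set_option autoImplicit false

noncomputable section

open scoped Classical

namespace Pool.Agent.H56.Sub



namespace TailAux

variable {V Ω : Type}

theorem tri {G : SimpleGraph V} {a b c : V} {m n : ℕ} (h1 : G.edist a b ≤ (m : ℕ∞))
    (h2 : G.edist a c ≤ (n : ℕ∞)) : G.edist b c ≤ ((m + n : ℕ) : ℕ∞) := by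
  calc G.edist b c ≤ G.edist b a + G.edist a c := SimpleGraph.edist_triangle
    _ ≤ (m : ℕ∞) + (n : ℕ∞) := by
        rw [SimpleGraph.edist_comm (u := b)]
        exact add_le_add h1 h2
    _ = ((m + n : ℕ) : ℕ∞) := by push_cast; rfl

/-- The conditional probability at `v` is updated in step `i`. -/
def cond (G : SimpleGraph V) (T : ℕ) (σ : V → Option Ω) (χ : V → ℕ) (i : ℕ) (s : Sh V Ω)
    (v : V) : Prop :=
  (∀ w ∈ s.trg, ¬ G.edist v w ≤ (T : ℕ∞)) ∧ ∃ u, G.edist v u ≤ (T : ℕ∞) ∧ act G T σ χ i s u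

/-- The vertex near `v` which is processed in step `i`. -/
def piv (G : SimpleGraph V) (T : ℕ) (σ : V → Option Ω) (χ : V → ℕ) (i : ℕ) (s : Sh V Ω)
    (v : V) : V :=
  if h : cond G T σ χ i s v then Classical.choose h.2 else v

theorem piv_dist (G : SimpleGraph V) (T : ℕ) (σ : V → Option Ω) (χ : V → ℕ) (i : ℕ) (s : Sh V Ω)
    (v : V) : G.edist v (piv G T σ χ i s v) ≤ (T : ℕ∞) := by
  unfold piv
  split_ifs with h
  · exact (Classical.choose_spec h.2).1
  · simp

theorem piv_act {G : SimpleGraph V} {T : ℕ} {σ : V → Option Ω} {χ : V → ℕ} {i : ℕ} {s : Sh V Ω}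
    {v : V} (h : cond G T σ χ i s v) : act G T σ χ i s (piv G T σ χ i s v) := by
  unfold piv
  rw [dif_pos h]
  exact (Classical.choose_spec h.2).2

theorem act_uniq {G : SimpleGraph V} {T : ℕ} {σ : V → Option Ω} {χ : V → ℕ}
    (hχ : ProperAt G (2 * T) χ) {i : ℕ} {s : Sh V Ω}
    {v u w : V} (hu : G.edist v u ≤ (T : ℕ∞)) (hw : G.edist v w ≤ (T : ℕ∞))
    (h1 : act G T σ χ i s u) (h2 : act G T σ χ i s w) : u = w := by
  by_contra hne
  have h3 := hχ u w hne (by
    have := tri hu hw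
    rwa [← two_mul] at this)
  exact h3 (h1.1.trans h2.1.symm)

variable [Fintype V] [Fintype Ω]

/-- The (unbiased) process at `v`. -/
def N (G : SimpleGraph V) (T : ℕ) (B : (V → Ω) → V → Prop)
    (σ : V → Option Ω) (θ : ℝ) (χ : V → ℕ) (ξ : V → Ω) : ℕ → V → ℝ
  | 0 => fun v => cp B σ v
  | i + 1 => fun v =>
    if cond G T σ χ i (sh G T B σ θ χ ξ i) v then
      cp B (Function.update (sh G T B σ θ χ ξ i).val (piv G T σ χ i (sh G T B σ θ χ ξ i) v)
        (some (ξ (piv G T σ χ i (sh G T B σ θ χ ξ i) v)))) v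
    else N G T B σ θ χ ξ i v

theorem sh_dep {G : SimpleGraph V} {T : ℕ} {B : (V → Ω) → V → Prop}
    {σ : V → Option Ω} {θ : ℝ} {χ : V → ℕ} {ξ ξ' : V → Ω} (i : ℕ)
    (h : ∀ u, χ u < i → ξ u = ξ' u) : sh G T B σ θ χ ξ i = sh G T B σ θ χ ξ' i := by
  induction i with
  | zero => rfl
  | succ i ih =>
    have ih' := ih fun u hu => h u (Nat.lt_succ_of_lt hu)
    have hact : ∀ u, act G T σ χ i (sh G T B σ θ χ ξ' i) u → ξ u = ξ' u := fun u hu =>
      h u (by rw [hu.1]; exact Nat.lt_succ_self i)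
    have htst : ∀ u, act G T σ χ i (sh G T B σ θ χ ξ' i) u →
        (tst G T B θ ξ (sh G T B σ θ χ ξ' i) u ↔ tst G T B θ ξ' (sh G T B σ θ χ ξ' i) u) := by
      intro u hu
      unfold tst
      rw [hact u hu]
    unfold sh
    simp only [ih']
    congr 1
    · funext u
      by_cases hu : act G T σ χ i (sh G T B σ θ χ ξ' i) u
      · simp only [hu, htst u hu, hact u hu]
      · simp only [hu, false_and, if_false]
    · ext u
      simp only [Set.mem_union, Set.mem_ofPred_eq]
      by_cases hu : act G T σ χ i (sh G T B σ θ χ ξ' i) u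
      · simp only [htst u hu]
      · simp only [hu, false_and]

theorem N_dep {G : SimpleGraph V} {T : ℕ} {B : (V → Ω) → V → Prop}
    {σ : V → Option Ω} {θ : ℝ} {χ : V → ℕ} {ξ ξ' : V → Ω} (i : ℕ)
    (h : ∀ u, χ u < i → ξ u = ξ' u) (v : V) :
    N G T B σ θ χ ξ i v = N G T B σ θ χ ξ' i v := by
  induction i with
  | zero => rfl
  | succ i ih =>
    have ih' := ih fun u hu => h u (Nat.lt_succ_of_lt hu)
    have hs : sh G T B σ θ χ ξ i = sh G T B σ θ χ ξ' i :=
      sh_dep i fun u hu => h u (Nat.lt_succ_of_lt hu)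
    unfold N
    rw [hs, ih']
    by_cases hc : cond G T σ χ i (sh G T B σ θ χ ξ' i) v
    · rw [if_pos hc, if_pos hc, h _ (by rw [(piv_act hc).1]; exact Nat.lt_succ_self i)]
    · rw [if_neg hc, if_neg hc]

theorem val_none {G : SimpleGraph V} {T : ℕ} {B : (V → Ω) → V → Prop}
    {σ : V → Option Ω} {θ : ℝ} {χ : V → ℕ} {ξ : V → Ω} (i : ℕ) {u : V} (hi : i ≤ χ u)
    (hu : σ u = none) : (sh G T B σ θ χ ξ i).val u = none := by
  induction i with
  | zero => exact hu
  | succ i ih =>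
    have h1 : ¬ act G T σ χ i (sh G T B σ θ χ ξ i) u := fun h => by
      have := h.1
      omega
    show (if act G T σ χ i (sh G T B σ θ χ ξ i) u ∧ ¬ tst G T B θ ξ (sh G T B σ θ χ ξ i) u then
      some (ξ u) else (sh G T B σ θ χ ξ i).val u) = none
    rw [if_neg (fun h => h1 h.1)]
    exact ih (by omega)

theorem N_eq {G : SimpleGraph V} {T : ℕ} {B : (V → Ω) → V → Prop} (hB : Dep G T B)
    {σ : V → Option Ω} {θ : ℝ} {χ : V → ℕ} (hχ : ProperAt G (2 * T) χ) {ξ : V → Ω} (i : ℕ) (v : V)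
    (hv : ∀ w ∈ (sh G T B σ θ χ ξ i).trg, ¬ G.edist v w ≤ (T : ℕ∞)) :
    N G T B σ θ χ ξ i v = cp B (sh G T B σ θ χ ξ i).val v := by
  induction i with
  | zero => rfl
  | succ i ih =>
    set s := sh G T B σ θ χ ξ i with hs
    have htrg : (sh G T B σ θ χ ξ (i + 1)).trg =
        s.trg ∪ {u | act G T σ χ i s u ∧ tst G T B θ ξ s u} := rfl
    have hval : (sh G T B σ θ χ ξ (i + 1)).val =
        fun u => if act G T σ χ i s u ∧ ¬ tst G T B θ ξ s u then some (ξ u) else s.val u := rfl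
    have hv' : ∀ w ∈ s.trg, ¬ G.edist v w ≤ (T : ℕ∞) := fun w hw =>
      hv w (by rw [htrg]; exact Or.inl hw)
    have ih' := ih hv'
    have hN : N G T B σ θ χ ξ (i + 1) v = if cond G T σ χ i s v then
        cp B (Function.update s.val (piv G T σ χ i s v) (some (ξ (piv G T σ χ i s v)))) v
        else N G T B σ θ χ ξ i v := rfl
    rw [hN, hval]
    by_cases hc : cond G T σ χ i s v
    · rw [if_pos hc]
      set u := piv G T σ χ i s v with hu
      have hud : G.edist v u ≤ (T : ℕ∞) := piv_dist G T σ χ i s v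
      have hua : act G T σ χ i s u := piv_act hc
      have hnt : ¬ tst G T B θ ξ s u := fun ht => hv u (by rw [htrg]; exact Or.inr ⟨hua, ht⟩) hud
      refine cp_congr (G := G) (T := T) (fun x y hxy => hB v x y hxy) ?_
      intro w hw
      by_cases hwa : act G T σ χ i s w
      · have hwu : w = u := act_uniq hχ hw hud hwa hua
        subst hwu
        rw [Function.update_self]
        exact (if_pos ⟨hua, hnt⟩).symm
      · have hwu : w ≠ u := fun h => hwa (h ▸ hua)
        rw [Function.update_of_ne hwu]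
        exact (if_neg (fun h => hwa h.1)).symm
    · rw [if_neg hc, ih']
      refine cp_congr (G := G) (T := T) (fun x y hxy => hB v x y hxy) ?_
      intro w hw
      have hwa : ¬ act G T σ χ i s w := fun h => hc ⟨hv', w, hw, h⟩
      exact (if_neg (fun h => hwa h.1)).symm

theorem trg_N {G : SimpleGraph V} {T : ℕ} {B : (V → Ω) → V → Prop}
    {σ : V → Option Ω} {θ : ℝ} {χ : V → ℕ} (hχ : ProperAt G (2 * T) χ) {ξ : V → Ω} (M : ℕ) (u : V)
    (hu : u ∈ (sh G T B σ θ χ ξ M).trg) :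
    ∃ v, G.edist u v ≤ (T : ℕ∞) ∧ θ < N G T B σ θ χ ξ M v := by
  induction M with
  | zero => exact absurd hu (Set.notMem_empty u)
  | succ i ih =>
    set s := sh G T B σ θ χ ξ i with hs
    have htrg : (sh G T B σ θ χ ξ (i + 1)).trg =
        s.trg ∪ {u | act G T σ χ i s u ∧ tst G T B θ ξ s u} := rfl
    have hN : ∀ v, N G T B σ θ χ ξ (i + 1) v = if cond G T σ χ i s v then
        cp B (Function.update s.val (piv G T σ χ i s v) (some (ξ (piv G T σ χ i s v)))) v
        else N G T B σ θ χ ξ i v := fun v => rfl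
    rw [htrg] at hu
    rcases hu with hu | ⟨hua, v, huv, hv⟩
    · obtain ⟨v, hv1, hv2⟩ := ih hu
      refine ⟨v, hv1, ?_⟩
      rw [hN, if_neg]
      · exact hv2
      · intro hc
        exact hc.1 u hu (by rw [SimpleGraph.edist_comm]; exact hv1)
    · have hvu : G.edist v u ≤ (T : ℕ∞) := by rw [SimpleGraph.edist_comm]; exact huv
      have hc : cond G T σ χ i s v := by
        refine ⟨fun w hw hvw => ?_, u, hvu, hua⟩
        refine hua.2.2 w hw ?_
        have := tri hvu hvw
        rwa [← two_mul] at this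
      have hpu : piv G T σ χ i s v = u :=
        act_uniq hχ (piv_dist G T σ χ i s v) hvu (piv_act hc) hua
      refine ⟨v, huv, ?_⟩
      rw [hN, if_pos hc, hpu]
      exact hv

theorem N_nonneg {G : SimpleGraph V} {T : ℕ} {B : (V → Ω) → V → Prop}
    {σ : V → Option Ω} {θ : ℝ} {χ : V → ℕ} {ξ : V → Ω} (i : ℕ) (v : V) :
    0 ≤ N G T B σ θ χ ξ i v := by
  induction i with
  | zero => exact cp_nonneg _ _ _
  | succ i ih =>
    unfold N
    split_ifs
    · exact cp_nonneg _ _ _
    · exact ih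

variable [Nonempty Ω]

theorem Ex_prod_N {G : SimpleGraph V} {T : ℕ} {B : (V → Ω) → V → Prop} (hB : Dep G T B)
    {σ : V → Option Ω} (θ : ℝ) {χ : V → ℕ} (hχ : ProperAt G (2 * T) χ) {ι : Type}
    (Z : Finset ι) (a : ι → V)
    (hZ : ∀ k ∈ Z, ∀ l ∈ Z, k ≠ l → ((2 * T : ℕ) : ℕ∞) < G.edist (a k) (a l)) (i : ℕ) :
    Ex (fun ξ => ∏ k ∈ Z, N G T B σ θ χ ξ i (a k)) = ∏ k ∈ Z, cp B σ (a k) := by
  induction i with
  | zero => exact Ex_const (V := V) (Ω := Ω) (∏ k ∈ Z, cp B σ (a k))
  | succ i ih =>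
    obtain ⟨S, hS⟩ : ∃ S : Set V, ∀ u, u ∈ S ↔ χ u = i := ⟨{u | χ u = i}, fun u => Iff.rfl⟩
    rw [← ih, Ex_merge S]
    congr 1
    funext x
    set s := sh G T B σ θ χ x i with hs
    have hdep : ∀ y : V → Ω, ∀ u, χ u < i → (fun u => if u ∈ S then y u else x u) u = x u := by
      intro y u hu
      show (if u ∈ S then y u else x u) = x u
      rw [if_neg (by rw [hS]; omega)]
    have h1 : ∀ (y : V → Ω) (v : V),
        N G T B σ θ χ (fun u => if u ∈ S then y u else x u) (i + 1) v =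
        (fun z => if cond G T σ χ i s v then
          cp B (Function.update s.val (piv G T σ χ i s v) (some z)) v
          else N G T B σ θ χ x i v) (y (piv G T σ χ i s v)) := by
      intro y v
      show (if cond G T σ χ i (sh G T B σ θ χ _ i) v then
        cp B (Function.update (sh G T B σ θ χ _ i).val (piv G T σ χ i (sh G T B σ θ χ _ i) v)
          (some ((fun u => if u ∈ S then y u else x u)
            (piv G T σ χ i (sh G T B σ θ χ _ i) v)))) v
        else N G T B σ θ χ _ i v) = _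
      rw [sh_dep i (hdep y), N_dep i (hdep y), ← hs]
      by_cases hc : cond G T σ χ i s v
      · rw [if_pos hc]
        simp only [if_pos hc]
        rw [if_pos ((hS _).mpr (piv_act hc).1)]
      · rw [if_neg hc]
        simp only [if_neg hc]
    have h2 : (fun y : V → Ω => ∏ k ∈ Z,
        N G T B σ θ χ (fun u => if u ∈ S then y u else x u) (i + 1) (a k)) =
        fun y : V → Ω => ∏ k ∈ Z, (fun (k : ι) (z : Ω) => if cond G T σ χ i s (a k) then
          cp B (Function.update s.val (piv G T σ χ i s (a k)) (some z)) (a k)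
          else N G T B σ θ χ x i (a k)) k (y (piv G T σ χ i s (a k))) := by
      funext y
      exact Finset.prod_congr rfl fun k _ => h1 y (a k)
    rw [h2, Ex_prod_inj Z (fun k => piv G T σ χ i s (a k)) ?_
      (fun (k : ι) (z : Ω) => if cond G T σ χ i s (a k) then
          cp B (Function.update s.val (piv G T σ χ i s (a k)) (some z)) (a k)
          else N G T B σ θ χ x i (a k))]
    · refine Finset.prod_congr rfl fun k _ => ?_
      by_cases hc : cond G T σ χ i s (a k)
      · simp only [if_pos hc]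
        rw [cp_update B (val_none i (piv_act hc).1.ge (piv_act hc).2.1) (a k)]
        exact (N_eq hB hχ i (a k) hc.1).symm
      · simp only [if_neg hc]
        rw [Finset.sum_const, Finset.card_univ, nsmul_eq_mul]
        have : (Fintype.card Ω : ℝ) ≠ 0 := by
          exact_mod_cast Fintype.card_ne_zero
        field_simp
    · intro k hk l hl hkl
      by_contra hne
      have h3 := hZ k hk l hl hne
      have h4 : G.edist (a k) (a l) ≤ ((T + T : ℕ) : ℕ∞) := by
        refine tri (a := piv G T σ χ i s (a k)) ?_ ?_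
        · rw [SimpleGraph.edist_comm]
          exact piv_dist G T σ χ i s (a k)
        · have hkl' : piv G T σ χ i s (a k) = piv G T σ χ i s (a l) := hkl
          rw [hkl', SimpleGraph.edist_comm]
          exact piv_dist G T σ χ i s (a l)
      rw [← two_mul] at h4
      exact absurd h3 (not_lt.mpr h4)

end TailAux

open TailAux

theorem tail {V Ω : Type} [Fintype V] [Fintype Ω] [Nonempty Ω] {G : SimpleGraph V} {T g : ℕ}
    {B : (V → Ω) → V → Prop} (hB : Dep G T B) {σ : V → Option Ω} {χ : V → ℕ}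
    (hχ : ProperAt G (2 * T) χ) {p θ : ℝ} (hp : 0 ≤ p) (hθ : 0 < θ)
    (h0 : ∀ v, cp B σ v ≤ p) (hg : ∀ v, (bl G v T).ncard ≤ g) (M : ℕ) (Z : Finset V)
    (hZ : ∀ u ∈ Z, ∀ w ∈ Z, u ≠ w → ((4 * T : ℕ) : ℕ∞) < G.edist u w) :
    Ex (fun ξ => ind (∀ u ∈ Z, u ∈ (sh G T B σ θ χ ξ M).trg)) ≤ (g * p / θ) ^ Z.card := by
  -- the balls
  let t : V → Finset V := fun u => Finset.univ.filter fun v => G.edist u v ≤ (T : ℕ∞)
  have ht : ∀ u, (t u).card ≤ g := by
    intro u
    refine le_trans (le_of_eq ?_) (hg u)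
    rw [← Set.ncard_coe_finset]
    congr 1
    ext v
    simp [t, bl]
  have hstep1 : ∀ ξ : V → Ω, ind (∀ u ∈ Z, u ∈ (sh G T B σ θ χ ξ M).trg) ≤
      ∏ u ∈ Z, ∑ v ∈ t u, N G T B σ θ χ ξ M v / θ := by
    intro ξ
    by_cases h : ∀ u ∈ Z, u ∈ (sh G T B σ θ χ ξ M).trg
    · rw [ind, if_pos h]
      rw [← Finset.prod_const_one (s := Z) (M := ℝ)]
      refine Finset.prod_le_prod (fun _ _ => zero_le_one) fun u hu => ?_
      obtain ⟨v, hv1, hv2⟩ := trg_N hχ M u (h u hu)
      calc (1 : ℝ) ≤ N G T B σ θ χ ξ M v / θ := by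
            rw [le_div_iff₀ hθ, one_mul]
            exact hv2.le
        _ ≤ ∑ v ∈ t u, N G T B σ θ χ ξ M v / θ :=
            Finset.single_le_sum (f := fun v => N G T B σ θ χ ξ M v / θ)
              (fun v _ => div_nonneg (N_nonneg M v) hθ.le)
              (by simp only [t, Finset.mem_filter, Finset.mem_univ, true_and]; exact hv1)
    · rw [ind, if_neg h]
      exact Finset.prod_nonneg fun u _ => Finset.sum_nonneg fun v _ =>
        div_nonneg (N_nonneg M v) hθ.le
  refine (Ex_mono hstep1).trans ?_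
  have hstep2 : (fun ξ : V → Ω => ∏ u ∈ Z, ∑ v ∈ t u, N G T B σ θ χ ξ M v / θ) =
      fun ξ => ∑ q ∈ Z.pi t, ∏ x ∈ Z.attach, N G T B σ θ χ ξ M (q x.1 x.2) / θ := by
    funext ξ
    rw [Finset.prod_sum]
  rw [hstep2, Ex_sum]
  have hstep3 : ∀ q ∈ Z.pi t,
      Ex (fun ξ => ∏ x ∈ Z.attach, N G T B σ θ χ ξ M (q x.1 x.2) / θ) ≤ (p / θ) ^ Z.card := by
    intro q hq
    have hq' : ∀ (u : V) (hu : u ∈ Z), G.edist u (q u hu) ≤ (T : ℕ∞) := by
      intro u hu
      have := Finset.mem_pi.mp hq u hu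
      simpa [t] using this
    have hsep : ∀ k ∈ Z.attach, ∀ l ∈ Z.attach, k ≠ l →
        ((2 * T : ℕ) : ℕ∞) < G.edist (q k.1 k.2) (q l.1 l.2) := by
      intro k _ l _ hkl
      by_contra hle
      rw [not_lt] at hle
      have h1 := hZ k.1 k.2 l.1 l.2 (fun h => hkl (Subtype.ext h))
      refine absurd h1 (not_lt.mpr ?_)
      have h2 : G.edist (q l.1 l.2) k.1 ≤ ((2 * T + T : ℕ) : ℕ∞) :=
        tri hle (by rw [SimpleGraph.edist_comm]; exact hq' k.1 k.2)
      have h3 : G.edist k.1 l.1 ≤ ((2 * T + T + T : ℕ) : ℕ∞) :=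
        tri h2 (by rw [SimpleGraph.edist_comm]; exact hq' l.1 l.2)
      have h4 : 2 * T + T + T = 4 * T := by ring
      rwa [h4] at h3
    have heq : (fun ξ : V → Ω => ∏ x ∈ Z.attach, N G T B σ θ χ ξ M (q x.1 x.2) / θ) =
        fun ξ => (1 / θ) ^ Z.card * ∏ x ∈ Z.attach, N G T B σ θ χ ξ M (q x.1 x.2) := by
      funext ξ
      rw [Finset.prod_div_distrib, Finset.prod_const, Finset.card_attach, one_div, inv_pow]
      field_simp
    rw [heq, Ex_mul_left, Ex_prod_N hB θ hχ Z.attach (fun x => q x.1 x.2) hsep M]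
    have h5 : ∏ x ∈ Z.attach, cp B σ (q x.1 x.2) ≤ p ^ Z.card := by
      rw [← Finset.card_attach (s := Z), ← Finset.prod_const]
      exact Finset.prod_le_prod (fun _ _ => cp_nonneg _ _ _) fun x _ => h0 _
    calc (1 / θ) ^ Z.card * ∏ x ∈ Z.attach, cp B σ (q x.1 x.2) ≤ (1 / θ) ^ Z.card * p ^ Z.card :=
          mul_le_mul_of_nonneg_left h5 (by positivity)
      _ = (p / θ) ^ Z.card := by rw [← mul_pow]; congr 1; ring
  calc ∑ q ∈ Z.pi t, Ex (fun ξ => ∏ x ∈ Z.attach, N G T B σ θ χ ξ M (q x.1 x.2) / θ)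
      ≤ ∑ q ∈ Z.pi t, (p / θ) ^ Z.card := Finset.sum_le_sum hstep3
    _ = (Z.pi t).card * (p / θ) ^ Z.card := by rw [Finset.sum_const, nsmul_eq_mul]
    _ ≤ (g : ℝ) ^ Z.card * (p / θ) ^ Z.card := by
        refine mul_le_mul_of_nonneg_right ?_ (by positivity)
        rw [Finset.card_pi]
        have : ∏ a ∈ Z, (t a).card ≤ g ^ Z.card :=
          Finset.prod_le_pow_card _ _ _ fun a _ => ht a
        exact_mod_cast this
    _ = (g * p / θ) ^ Z.card := by rw [← mul_pow]; congr 1; ring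

end Pool.Agent.H56.Sub
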